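import Mathlib

set_option autoImplicit false

open Set Filter Metric

namespace Pool.Agent.P.MP_6145c0_co.Ng

/-- Diagonal choice along an ultrafilter. -/
theorem xa_diag (U : Filter ℕ) (hU : U ≤ atTop) (P : ℕ → ℕ → Prop) (h : ∀ M, ∀ᶠ k in U, P k M) :
    ∃ M : ℕ → ℕ, Tendsto M U atTop ∧ ∀ᶠ k in U, P k (M k) := by
  classical
  refine ⟨fun k => Nat.findGreatest (P k) k, tendsto_atTop.2 fun M => ?_, ?_⟩
  · filter_upwards [h M, hU (eventually_ge_atTop M)] with k h1 h2 using Nat.le_findGreatest h2 h1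
  · filter_upwards [h 0] with k h1 using Nat.findGreatest_spec (Nat.zero_le k) h1

/-- Windows of length `s` are hit by the running sums of steps of size at most `s`. -/
theorem xa_window (v : ℕ → ℝ) (s : ℝ) (hs : 0 < s) (b M N : ℕ) (hb : b ≤ M)
    (hv : ∀ i, b ≤ i → i < M → v i ≤ s) (hN : N * s ≤ ∑ i ∈ Finset.Ico b M, v i) (w : ℕ)
    (hw : w < N) : ∃ j, b ≤ j ∧ j < M ∧ w * s ≤ ∑ i ∈ Finset.Ico b j, v i ∧
      ∑ i ∈ Finset.Ico b j, v i < (w + 1) * s := by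
  classical
  have hw' : ((w : ℝ) + 1) * s ≤ N * s :=
    mul_le_mul_of_nonneg_right (by exact_mod_cast hw) hs.le
  have hex : ∃ j, b ≤ j ∧ w * s ≤ ∑ i ∈ Finset.Ico b j, v i := ⟨M, hb, by nlinarith⟩
  have hj := Nat.find_spec hex
  have hM : Nat.find hex ≤ M := Nat.find_min' hex ⟨hb, by nlinarith⟩
  have hlt : ∑ i ∈ Finset.Ico b (Nat.find hex), v i < (w + 1) * s := by
    rcases hj.1.eq_or_lt with e | e
    · rw [← e, Finset.Ico_self, Finset.sum_empty]; positivity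
    · obtain ⟨j, hj'⟩ : ∃ j, Nat.find hex = j + 1 := ⟨Nat.find hex - 1, by omega⟩
      have h1 := Nat.find_min hex (m := j) (by omega)
      have h2 : b ≤ j := by omega
      rw [hj', Finset.sum_Ico_succ_top h2]
      have h3 := hv j h2 (by omega)
      push Not at h1
      linarith [h1 h2]
  refine ⟨_, hj.1, hM.lt_of_ne fun e => ?_, hj.2, hlt⟩
  rw [e] at hlt
  linarith

/-- A positive part uses only types of `Th` on `[b, M')`. -/
def XaUses {α κ : Type*} (U : Filter ℕ) (S : ℕ → Finset α) (ty : ℕ → α → ℕ → κ) (M : ℕ → ℕ)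
    (Th : Finset κ) : Prop :=
  ∃ (b : ℕ) (M' : ℕ → ℕ) (S' : ℕ → Finset α) (δ : ℝ), 0 < δ ∧ Tendsto M' U atTop ∧
    ∀ᶠ k in U, M' k ≤ M k ∧ S' k ⊆ S k ∧ δ * (S k).card ≤ (S' k).card ∧
      ∀ t ∈ S' k, ∀ i, b ≤ i → i < M' k → ty k t i ∈ Th

theorem xa_half {α : Type*} (U : Ultrafilter ℕ) (hU : (U : Filter ℕ) ≤ atTop) (S : ℕ → Finset α)
    (P : ℕ → α → ℕ → Prop) :
    (∃ (L : ℕ → ℕ) (T : ℕ → Finset α), Tendsto L U atTop ∧ ∀ᶠ k in (U : Filter ℕ), T k ⊆ S k ∧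
      ((S k).card : ℝ) ≤ 2 * (T k).card ∧ ∀ t ∈ T k, P k t (L k)) ∨
    ∃ (L : ℕ) (T : ℕ → Finset α), ∀ᶠ k in (U : Filter ℕ), T k ⊆ S k ∧
      ((S k).card : ℝ) ≤ 2 * (T k).card ∧ ∀ t ∈ T k, ¬ P k t L := by
  classical
  by_cases h : ∃ L, ∀ᶠ k in (U : Filter ℕ),
      ((S k).card : ℝ) ≤ 2 * ((S k).filter fun t => ¬ P k t L).card
  · obtain ⟨L, hL⟩ := h
    exact Or.inr ⟨L, _, hL.mono fun k hk =>
      ⟨Finset.filter_subset _ _, hk, fun t ht => (Finset.mem_filter.1 ht).2⟩⟩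
  push Not at h
  obtain ⟨L, hL, hL'⟩ := xa_diag U hU
    (fun k L => ((S k).card : ℝ) ≤ 2 * ((S k).filter fun t => P k t L).card)
    fun L => (h L).mono fun k hk => by
      have h1 : (((S k).filter fun t => P k t L).card : ℝ) +
          ((S k).filter fun t => ¬ P k t L).card = (S k).card := by
        exact_mod_cast Finset.card_filter_add_card_filter_not _
      linarith
  exact Or.inl ⟨L, _, hL, hL'.mono fun k hk =>
    ⟨Finset.filter_subset _ _, hk, fun t ht => (Finset.mem_filter.1 ht).2⟩⟩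

open Classical in
theorem xa_erase {α κ : Type*} (U : Ultrafilter ℕ) (hU : (U : Filter ℕ) ≤ atTop) (S : ℕ → Finset α)
    (ty : ℕ → α → ℕ → κ) (M M' : ℕ → ℕ) (hM' : Tendsto M' U atTop) (Th : Finset κ) (θ : κ) (G : ℕ) :
    ∀ (b : ℕ) (S' : ℕ → Finset α) (δ : ℝ), 0 < δ →
      (∀ᶠ k in (U : Filter ℕ), M' k ≤ M k ∧ S' k ⊆ S k ∧ δ * (S k).card ≤ (S' k).card ∧
        ∀ t ∈ S' k, (∀ i, b ≤ i → i < M' k → ty k t i ∈ Th) ∧
          ((Finset.Ico b (M' k)).filter fun i => ty k t i = θ).card ≤ G) →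
      XaUses U S ty M (Th.erase θ) := by
  induction G with
  | zero =>
    intro b S' δ hδ h
    refine ⟨b, M', S', δ, hδ, hM', h.mono fun k hk => ⟨hk.1, hk.2.1, hk.2.2.1, fun t ht i h1 h2 =>
      Finset.mem_erase.2 ⟨fun e => ?_, (hk.2.2.2 t ht).1 i h1 h2⟩⟩⟩
    exact absurd (hk.2.2.2 t ht).2 (not_le.2
      (Finset.card_pos.2 ⟨i, Finset.mem_filter.2 ⟨Finset.mem_Ico.2 ⟨h1, h2⟩, e⟩⟩))
  | succ G ih =>
    intro b S' δ hδ h
    rcases xa_half U hU S' (fun k t L => ∀ i, b ≤ i → i < L → ty k t i ≠ θ) with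
      ⟨L, T, hL, hL'⟩ | ⟨L, T, hL⟩
    · refine ⟨b, fun k => min (L k) (M' k), T, δ / 2, half_pos hδ,
        tendsto_atTop.2 fun n => ((hL.eventually_ge_atTop n).and
          (hM'.eventually_ge_atTop n)).mono fun k hk => le_min hk.1 hk.2, ?_⟩
      filter_upwards [h, hL'] with k hk hk'
      exact ⟨(min_le_right _ _).trans hk.1, hk'.1.trans hk.2.1,
        by linarith [hk.2.2.1, hk'.2.1], fun t ht i h1 h2 => Finset.mem_erase.2
          ⟨hk'.2.2 t ht i h1 (lt_min_iff.1 h2).1, (hk.2.2.2 t (hk'.1 ht)).1 i h1 (lt_min_iff.1 h2).2⟩⟩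
    · refine ih (max b L) T (δ / 2) (half_pos hδ) ?_
      filter_upwards [h, hL, hM'.eventually_ge_atTop L] with k hk hk' hk''
      refine ⟨hk.1, hk'.1.trans hk.2.1, by linarith [hk.2.2.1, hk'.2.1], fun t ht => ?_⟩
      have h3 := hk'.1 ht
      have h4 := hk'.2.2 t ht
      push Not at h4
      obtain ⟨i, h5, h6, h7⟩ := h4
      refine ⟨fun j h1 h2 => (hk.2.2.2 t h3).1 j ((le_max_left _ _).trans h1) h2, ?_⟩
      refine Nat.le_of_lt_succ (lt_of_lt_of_le (Finset.card_lt_card ⟨?_, fun hs => ?_⟩)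
        (hk.2.2.2 t h3).2)
      · exact Finset.filter_subset_filter _ (Finset.Ico_subset_Ico (le_max_left _ _) le_rfl)
      · have := Finset.mem_Ico.1 (Finset.mem_filter.1 (hs (Finset.mem_filter.2
          ⟨Finset.mem_Ico.2 ⟨h5, h6.trans_le hk''⟩, h7⟩))).1
        have := le_max_right b L
        omega

/-- A5: the selection lemma of section 3. -/
theorem xa_select {α κ : Type*} [Finite κ] (U : Ultrafilter ℕ) (hU : (U : Filter ℕ) ≤ atTop)
    (S : ℕ → Finset α) (hS : ∀ᶠ k in (U : Filter ℕ), (S k).Nonempty) (ty : ℕ → α → ℕ → κ)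
    (val : ℕ → κ → ℝ) (hval : ∀ᶠ k in (U : Filter ℕ), ∀ θ, 0 < val k θ) (M N₀ : ℕ → ℕ)
    (hM : Tendsto M U atTop) (hN₀ : Tendsto N₀ U atTop) :
    ∃ (b : ℕ) (θ : κ) (N : ℕ → ℕ) (S' : ℕ → Finset α) (δ : ℝ) (j : ℕ → α → ℕ → ℕ), 0 < δ ∧
      Tendsto N U atTop ∧ (∀ k, N k ≤ N₀ k) ∧ ∀ᶠ k in (U : Filter ℕ), S' k ⊆ S k ∧
        δ * (S k).card ≤ (S' k).card ∧ ∀ t ∈ S' k,
          N k * val k θ ≤ ∑ i ∈ Finset.Ico b (M k), val k (ty k t i) ∧ ∀ w < N k,
            b ≤ j k t w ∧ j k t w < M k ∧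
            w * val k θ ≤ ∑ i ∈ Finset.Ico b (j k t w), val k (ty k t i) ∧
            ∑ i ∈ Finset.Ico b (j k t w), val k (ty k t i) < (w + 1) * val k θ := by
  classical
  have := Fintype.ofFinite κ
  have hex : ∃ n, ∃ Th : Finset κ, Th.card = n ∧ XaUses U S ty M Th :=
    ⟨_, Finset.univ, rfl, 0, M, S, 1, one_pos, hM, Eventually.of_forall fun k =>
      ⟨le_rfl, subset_rfl, (one_mul _).le, fun _ _ _ _ _ => Finset.mem_univ _⟩⟩
  obtain ⟨Th, hTh, b, M', S', δ, hδ, hM', h⟩ := Nat.find_spec hex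
  have hne : Th.Nonempty := by
    obtain ⟨k, h1, h2, h3⟩ := (hS.and (h.and (hM'.eventually_gt_atTop b))).exists
    have h4 : (0 : ℝ) < (S k).card := by exact_mod_cast h1.card_pos
    obtain ⟨t, ht⟩ : (S' k).Nonempty :=
      Finset.card_pos.1 (by exact_mod_cast (mul_pos hδ h4).trans_le h2.2.2.1)
    exact ⟨_, h2.2.2.2 t ht b le_rfl h3⟩
  obtain ⟨θ, hθ, hmax⟩ := (Ultrafilter.eventually_exists_mem_iff (f := U) Th.finite_toSet
    (P := fun θ k => ∀ θ' ∈ Th, val k θ' ≤ val k θ)).1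
    (Eventually.of_forall fun k => Th.exists_max_image (val k) hne)
  rcases xa_half U hU S' (fun k t G => G ≤ ((Finset.Ico b (M' k)).filter fun i => ty k t i = θ).card)
    with ⟨N, T, hN, hN'⟩ | ⟨G, T, hG⟩
  · have key : ∀ᶠ k in (U : Filter ℕ), ∃ j : α → ℕ → ℕ, ∀ t ∈ T k,
        (min (N k) (N₀ k) : ℕ) * val k θ ≤ ∑ i ∈ Finset.Ico b (M k), val k (ty k t i) ∧
          ∀ w < min (N k) (N₀ k), b ≤ j t w ∧ j t w < M k ∧
            w * val k θ ≤ ∑ i ∈ Finset.Ico b (j t w), val k (ty k t i) ∧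
            ∑ i ∈ Finset.Ico b (j t w), val k (ty k t i) < (w + 1) * val k θ := by
      filter_upwards [h, hval, hmax, hM'.eventually_ge_atTop b, hN'] with k hk hv hm hb hT
      have h0 : ∀ t ∈ T k,
          N k * val k θ ≤ ∑ i ∈ Finset.Ico b (M' k), val k (ty k t i) := fun t ht => by
        refine le_trans ?_ (Finset.sum_le_sum_of_subset_of_nonneg
          (Finset.filter_subset (fun i => ty k t i = θ) _) fun i _ _ => (hv _).le)
        rw [Finset.sum_congr rfl fun i hi => congrArg (val k) (Finset.mem_filter.1 hi).2,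
          Finset.sum_const, nsmul_eq_mul]
        exact mul_le_mul_of_nonneg_right (by exact_mod_cast hT.2.2 t ht) (hv _).le
      have h1 := fun t ht => xa_window (fun i => val k (ty k t i)) _ (hv θ) b (M' k) (N k) hb
        (fun i h1 h2 => hm _ (hk.2.2.2 t (hT.1 ht) i h1 h2)) (h0 t ht)
      choose! j hj using h1
      refine ⟨j, fun t ht => ⟨?_, fun w hw => ?_⟩⟩
      · refine le_trans (mul_le_mul_of_nonneg_right (by exact_mod_cast min_le_left _ _) (hv _).le)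
          ((h0 t ht).trans (Finset.sum_le_sum_of_subset_of_nonneg
            (Finset.Ico_subset_Ico le_rfl hk.1) fun i _ _ => (hv _).le))
      · obtain ⟨h2, h3, h4⟩ := hj t ht w (lt_min_iff.1 hw).1
        exact ⟨h2, h3.trans_le hk.1, h4⟩
    obtain ⟨j, hj⟩ := key.choice
    refine ⟨b, θ, fun k => min (N k) (N₀ k), T, δ / 2, j, half_pos hδ,
      tendsto_atTop.2 fun n => ((hN.eventually_ge_atTop n).and
        (hN₀.eventually_ge_atTop n)).mono fun k hk => le_min hk.1 hk.2, fun k => min_le_right _ _, ?_⟩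
    filter_upwards [h, hN', hj] with k hk h1 h2
    exact ⟨h1.1.trans hk.2.1, by linarith [hk.2.2.1, h1.2.1], h2⟩
  · exfalso
    refine Nat.find_min hex (m := (Th.erase θ).card) (hTh ▸ Finset.card_erase_lt_of_mem hθ)
      ⟨_, rfl, xa_erase U hU S ty M M' hM' Th θ G b T (δ / 2) (half_pos hδ) ?_⟩
    filter_upwards [h, hG] with k hk h1
    exact ⟨hk.1, h1.1.trans hk.2.1, by linarith [hk.2.2.1, h1.2.1], fun t ht =>
      ⟨hk.2.2.2 t (h1.1 ht), (not_le.1 (h1.2.2 t ht)).le⟩⟩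

end Pool.Agent.P.MP_6145c0_co.Ng
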