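import Mathlib

set_option autoImplicit false

open Set Filter Metric

namespace Pool.Agent.P.MP_6145c0_co.Ng

/-- A unit complex number is `± exp (i ψ)` with `|ψ| ≤ π / 2`. -/
theorem xa_unit {u : ℂ} (hu : ‖u‖ = 1) : ∃ ψ : ℝ, u ^ 2 = Complex.exp (2 * ψ * Complex.I) ∧
    |u.im| ≤ |ψ| ∧ |ψ| ≤ 2 * |u.im| := by
  have key : ∀ u : ℂ, ‖u‖ = 1 → 0 ≤ u.re → ∃ ψ : ℝ, u ^ 2 = Complex.exp (2 * ψ * Complex.I) ∧
      |u.im| ≤ |ψ| ∧ |ψ| ≤ 2 * |u.im| := fun u hu h0 => by
    have h1 : u.im = Real.sin u.arg := by rw [Complex.sin_arg, hu, div_one]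
    have h2 := Complex.abs_arg_le_pi_div_two_iff.2 h0
    refine ⟨u.arg, ?_, h1 ▸ Real.abs_sin_le_abs, ?_⟩
    · have h3 := Complex.norm_mul_exp_arg_mul_I u
      rw [hu, Complex.ofReal_one, one_mul] at h3
      rw [mul_assoc, show (2 : ℂ) = (2 : ℕ) by norm_num, Complex.exp_nat_mul, h3]
    · have h3 := Real.mul_abs_le_abs_sin h2
      rw [← h1, div_mul_eq_mul_div, div_le_iff₀ Real.pi_pos] at h3
      nlinarith [Real.pi_le_four, abs_nonneg u.im]
  rcases le_total 0 u.re with h | h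
  · exact key u hu h
  · simpa using key (-u) (by simpa using hu) (by simpa using h)

/-- A2: the end of section 4, for unit complex numbers; `ty` is the length type of a level. -/
theorem xa_end {σ κ ι : Type*} [Fintype σ] [Fintype κ] (U : Filter ι) [U.NeBot] (d : ι → σ → ℂ)
    (hd : ∀ᶠ k in U, ∀ s, ‖d k s‖ = 1) (m : ℕ)
    (hm : Fintype.card κ * (Fintype.card σ + 1) < m) (c : ℕ → σ → ℤ) (u : ℕ → ι → ℂ)
    (hu : ∀ l < m, ∀ᶠ k in U, u l k = ∏ s, d k s ^ c l s ∨ u l k = -∏ s, d k s ^ c l s)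
    (ty : ℕ → κ) (len : ι → κ → ℝ) (hlen : ∀ᶠ k in U, ∀ θ, 0 < len k θ)
    (hpos : ∀ᶠ k in U, (u (m - 1) k).im ≠ 0)
    (hll : ∀ l, l + 1 < m → ∀ G : ℝ, ∀ᶠ k in U,
      G * (len k (ty (l + 1)) * |(u (l + 1) k).im|) ≤ len k (ty l) * |(u l k).im|) : False := by
  classical
  have htr : ∀ l l', l < l' → l' < m → ∀ G : ℝ, 0 ≤ G → ∀ᶠ k in U,
      G * (len k (ty l') * |(u l' k).im|) ≤ len k (ty l) * |(u l k).im| := fun l l' h => by
    induction l', h using Nat.le_induction with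
    | base => exact fun h G _ => hll l h G
    | succ l' h ih =>
      intro h' G hG
      filter_upwards [ih (by omega) G hG, hll l' h' 1] with k h1 h2
      exact (mul_le_mul_of_nonneg_left (by linarith) hG).trans h1
  obtain ⟨θ, -, hθ⟩ := Finset.exists_lt_card_fiber_of_mul_lt_card_of_maps_to
    (s := Finset.range m) (t := Finset.univ) (f := ty) (n := Fintype.card σ + 1)
    (fun _ _ => Finset.mem_univ _) (by simpa using hm)
  set A := (Finset.range m).filter fun l => ty l = θ with hA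
  have hAne : A.Nonempty := Finset.card_pos.1 (by omega)
  set A' := A.erase (A.min' hAne) with hA'
  have hcard : Fintype.card σ < A'.card := by
    rw [hA', Finset.card_erase_of_mem (A.min'_mem hAne)]; omega
  have hdep : ¬ LinearIndependent ℤ fun l : A' => c l := fun h => by
    have := h.fintype_card_le_finrank
    simp only [Fintype.card_coe, Module.finrank_fintype_fun_eq_card] at this
    omega
  obtain ⟨b, hb, l₀, hl₀⟩ := Fintype.not_linearIndependent_iff.1 hdep
  obtain ⟨l₁, hl₁, hmin⟩ := (Finset.univ.filter fun l : A' => b l ≠ 0).exists_min_image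
    (fun l => (l : ℕ)) ⟨l₀, by simpa using hl₀⟩
  have hl₁' : b l₁ ≠ 0 := by simpa using hl₁
  have hmem : ∀ l ∈ A, l < m ∧ ty l = θ := fun l hl => by simpa [hA] using hl
  have hA'A : ∀ l : A', (l : ℕ) ∈ A := fun l => Finset.mem_of_mem_erase l.2
  set B : ℝ := ∑ l : A', |(b l : ℝ)| with hB
  have hB0 : 0 ≤ B := Finset.sum_nonneg fun _ _ => abs_nonneg _
  have hν : ∀ l ∈ A, ∀ l' ∈ A, l < l' → ∀ᶠ k in U,
      (4 * B + 4) * |(u l' k).im| ≤ |(u l k).im| := fun l hl l' hl' h => by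
    filter_upwards [htr l l' h (hmem l' hl').1 (4 * B + 4) (by positivity), hlen] with k h1 h2
    rw [(hmem l hl).2, (hmem l' hl').2, mul_left_comm] at h1
    exact le_of_mul_le_mul_left h1 (h2 θ)
  have hp : ∀ᶠ k in U, 0 < |(u l₁ k).im| := by
    have h0 := (hmem _ (hA'A l₁)).1
    rcases (show (l₁ : ℕ) < m - 1 ∨ (l₁ : ℕ) = m - 1 by omega) with h | h
    · filter_upwards [htr l₁ (m - 1) h (by omega) 1 zero_le_one, hlen, hpos] with k h1 h2 h3
      have := mul_pos (h2 (ty (m - 1))) (abs_pos.2 h3)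
      exact (mul_pos_iff_of_pos_left (h2 (ty l₁))).1 (by linarith)
    · exact h ▸ hpos.mono fun k hk => abs_pos.2 hk
  obtain ⟨k, h1, h2, h3, h4⟩ := (hd.and (hp.and (((Finset.eventually_all A).2 fun l hl =>
    hu l (hmem l hl).1).and ((Finset.eventually_all A).2 fun l hl => (Finset.eventually_all A).2
      fun l' hl' => eventually_imp_distrib_left.2 (hν l hl l' hl'))))).exists
  have hn : ∀ l ∈ A, ‖u l k‖ = 1 := fun l hl => by
    rcases h3 l hl with e | e <;> simp [e, h1]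
  have hsq : ∀ l ∈ A, u l k ^ 2 = (∏ s, d k s ^ c l s) ^ 2 := fun l hl => by
    rcases h3 l hl with e | e <;> simp [e]
  choose! ψ hψ using fun l hl => xa_unit (hn l hl)
  have hd0 : ∀ s, d k s ≠ 0 := fun s => norm_ne_zero_iff.1 (by rw [h1]; exact one_ne_zero)
  have hprod : Complex.exp (2 * (∑ l : A', b l * ψ l : ℝ) * Complex.I) = 1 := by
    have e1 : Complex.exp (2 * (∑ l : A', b l * ψ l : ℝ) * Complex.I) =
        ∏ l : A', ((∏ s, d k s ^ c l s) ^ 2) ^ b l := by
      rw [Complex.ofReal_sum, Finset.mul_sum, Finset.sum_mul, Complex.exp_sum]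
      refine Finset.prod_congr rfl fun l _ => ?_
      rw [← hsq l (hA'A l), (hψ l (hA'A l)).1, ← Complex.exp_int_mul]
      congr 1
      push_cast
      ring
    have e2 : ∀ s, ∏ l : A', d k s ^ (b l * c l s) = 1 := fun s => by
      have h5 : ∑ l : A', b l * c l s = 0 := by simpa using congrFun hb s
      have h6 : ∀ (T : Finset A'), ∏ l ∈ T, d k s ^ (b l * c l s) =
          d k s ^ ∑ l ∈ T, b l * c l s := fun T => by
        induction T using Finset.induction_on with
        | empty => simp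
        | insert a T ha ih => rw [Finset.prod_insert ha, Finset.sum_insert ha, ih, zpow_add₀ (hd0 s)]
      rw [h6, h5, zpow_zero]
    have e3 : ∀ l : A', ((∏ s, d k s ^ c l s) ^ 2) ^ b l = (∏ s, d k s ^ (b l * c l s)) ^ 2 :=
      fun l => by
        rw [← zpow_natCast, ← zpow_mul, mul_comm, zpow_mul, zpow_natCast, ← Finset.prod_zpow]
        simp only [← zpow_mul, mul_comm]
    rw [e1, Finset.prod_congr rfl fun l _ => e3 l, Finset.prod_pow, Finset.prod_comm,
      Finset.prod_congr rfl fun s _ => e2 s]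
    simp
  have hsmall : ∀ l : A', (4 * B + 4) * |(u l k).im| ≤ 1 := fun l =>
    (h4 _ (A.min'_mem hAne) l (hA'A l) (lt_of_le_of_ne (A.min'_le _ (hA'A l))
      (Finset.ne_of_mem_erase l.2).symm)).trans
      ((Complex.abs_im_le_norm _).trans (hn _ (A.min'_mem hAne)).le)
  have hsum : ∀ (T : Finset A') (x : ℝ), 0 ≤ x →
      (∀ l ∈ T, b l ≠ 0 → (4 * B + 4) * |(u l k).im| ≤ x) → |∑ l ∈ T, b l * ψ l| ≤ x / 2 := by
    intro T x hx hT
    have h5 : |∑ l ∈ T, b l * ψ l| ≤ ∑ l ∈ T, |(b l : ℝ)| * (2 * (x / (4 * B + 4))) := by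
      refine (Finset.abs_sum_le_sum_abs _ _).trans (Finset.sum_le_sum fun l hl => ?_)
      rw [abs_mul]
      by_cases h : b l = 0
      · simp [h]
      refine mul_le_mul_of_nonneg_left ((hψ l (hA'A l)).2.2.trans ?_) (abs_nonneg _)
      have : |(u l k).im| ≤ x / (4 * B + 4) := by
        rw [le_div_iff₀ (by positivity), mul_comm]; exact hT l hl h
      linarith
    have h6 : ∑ l ∈ T, |(b l : ℝ)| ≤ B :=
      Finset.sum_le_sum_of_subset_of_nonneg (Finset.subset_univ _) fun _ _ _ => abs_nonneg _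
    rw [← Finset.sum_mul] at h5
    have h7 : 0 ≤ x / (4 * B + 4) := by positivity
    have h8 : (4 * B + 4) * (x / (4 * B + 4)) = x := by field_simp
    nlinarith
  have hzero : ∑ l : A', b l * ψ l = 0 := by
    obtain ⟨z, hz⟩ := Complex.exp_eq_one_iff.1 hprod
    have h5 : (∑ l : A', b l * ψ l : ℝ) = z * Real.pi := by
      have h6 : ((∑ l : A', b l * ψ l : ℝ) : ℂ) = (z * Real.pi : ℝ) := by
        refine mul_right_cancel₀ (mul_ne_zero two_ne_zero Complex.I_ne_zero) ?_
        rw [← mul_assoc, mul_comm _ (2 : ℂ), hz]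
        push_cast
        ring
      exact_mod_cast h6
    have h6 := hsum Finset.univ 1 zero_le_one fun l _ _ => hsmall l
    rw [h5, abs_mul, abs_of_pos Real.pi_pos] at h6
    have h7 : |z| < 1 := by
      have : |(z : ℝ)| < 1 := by nlinarith [Real.pi_gt_three, abs_nonneg (z : ℝ)]
      exact_mod_cast this
    rw [h5, Int.abs_lt_one_iff.1 h7]
    simp
  rw [← Finset.add_sum_erase _ _ (Finset.mem_univ l₁)] at hzero
  have h5 := hsum (Finset.univ.erase l₁) _ h2.le fun l hl h => h4 l₁ (hA'A l₁) l (hA'A l)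
    (lt_of_le_of_ne (hmin l (by simpa using h)) fun e =>
      Finset.ne_of_mem_erase hl (Subtype.ext e.symm))
  rw [← neg_eq_iff_add_eq_zero.2 hzero, abs_neg, abs_mul] at h5
  have h6 : (1 : ℝ) ≤ |(b l₁ : ℝ)| := by exact_mod_cast Int.one_le_abs hl₁'
  nlinarith [(hψ l₁ (hA'A l₁)).2.1, abs_nonneg (ψ l₁)]

end Pool.Agent.P.MP_6145c0_co.Ng
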