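import Mathlib

set_option autoImplicit false

open Set Filter Metric

namespace Pool.Agent.P.MP_6145c0_co.Ng

/-- overspill -/
theorem x3_over {U : Filter ℕ} (hU : U ≤ atTop) {P : ℕ → ℕ → Prop}
    (h : ∀ M, ∀ᶠ k in U, P k M) :
    ∃ f : ℕ → ℕ, Tendsto f U atTop ∧ ∀ᶠ k in U, ∀ M ≤ f k, P k M := by
  classical
  refine ⟨fun k => Nat.findGreatest (fun m => ∀ M ≤ m, P k M) k, ?_, ?_⟩
  · refine tendsto_atTop.2 fun m => ?_
    have h1 : ∀ᶠ k in U, ∀ M ∈ Finset.range (m + 1), P k M :=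
      (eventually_all_finset _).2 fun M _ => h M
    filter_upwards [h1, hU (eventually_ge_atTop m)] with k hk hm
    exact Nat.le_findGreatest hm fun M hM => hk M (Finset.mem_range.2 (by omega))
  · filter_upwards [h 0] with k hk
    exact Nat.findGreatest_spec (P := fun m => ∀ M ≤ m, P k M) (Nat.zero_le k)
      fun M hM => by obtain rfl : M = 0 := by omega
                     exact hk

theorem x3_geo (R : ℕ) : ∑ r ∈ Finset.range R, (1 / 2 : ℝ) ^ (r + 2) ≤ 1 / 2 := by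
  have : ∑ r ∈ Finset.range R, (1 / 2 : ℝ) ^ (r + 2) = 1 / 2 - (1 / 2) ^ (R + 1) := by
    induction R with
    | zero => simp
    | succ n ih => rw [Finset.sum_range_succ, ih]; ring
  rw [this]
  have : (0 : ℝ) ≤ (1 / 2) ^ (R + 1) := by positivity
  linarith

open Classical in
/-- small bad parts leave half of the set -/
theorem x3_half {α : Type*} (S : Finset α) (B : ℕ → α → Prop) (R : ℕ) {w : ℝ} (hw : 0 ≤ w)
    (hS : w ≤ S.card) (h : ∀ r < R, ((S.filter (B r)).card : ℝ) ≤ w * (1 / 2) ^ (r + 2)) :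
    w / 2 ≤ ((S.filter fun t => ∀ r < R, ¬ B r t).card : ℝ) := by
  have h1 : S ⊆ (S.filter fun t => ∀ r < R, ¬ B r t) ∪
      (Finset.range R).biUnion fun r => S.filter (B r) := by
    intro t ht
    by_cases hb : ∀ r < R, ¬ B r t
    · exact Finset.mem_union_left _ (Finset.mem_filter.2 ⟨ht, hb⟩)
    · push Not at hb
      obtain ⟨r, hr, hb⟩ := hb
      exact Finset.mem_union_right _
        (Finset.mem_biUnion.2 ⟨r, Finset.mem_range.2 hr, Finset.mem_filter.2 ⟨ht, hb⟩⟩)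
  have h2 := (Finset.card_le_card h1).trans ((Finset.card_union_le _ _).trans
    (Nat.add_le_add_left Finset.card_biUnion_le _))
  have h3 : (S.card : ℝ) ≤ ((S.filter fun t => ∀ r < R, ¬ B r t).card : ℝ) +
      ∑ r ∈ Finset.range R, ((S.filter (B r)).card : ℝ) := by exact_mod_cast h2
  have h4 : ∑ r ∈ Finset.range R, ((S.filter (B r)).card : ℝ) ≤
      w * ∑ r ∈ Finset.range R, (1 / 2 : ℝ) ^ (r + 2) := by
    rw [Finset.mul_sum]
    exact Finset.sum_le_sum fun r hr => h r (Finset.mem_range.1 hr)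
  have h5 := mul_le_mul_of_nonneg_left (x3_geo R) hw
  linarith

theorem x3_blocks {N M : ℕ} (h : M ≤ N) : ((N / M + 1 : ℕ) : ℝ) * M ≤ 2 * N := by
  have h1 : (N / M + 1) * M ≤ 2 * N := by
    have := Nat.div_mul_le_self N M
    nlinarith
  exact_mod_cast h1

/-- two near rows meet in a positive part of a window; the members of `S` are described by
injective coordinates `(z, s, a)` -/
theorem x3_slice {δ : ℝ} (hδ : 0 < δ) : ∃ (M : ℕ) (δ' : ℝ), 0 < δ' ∧
    ∀ (α Z : Type) (S : Finset α) (Zs : Finset Z) (z : α → Z) (s a : α → ℕ) (N1 N2 Λ : ℕ),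
      0 < Λ → M ≤ N1 → Λ ≤ N2 → Zs.Nonempty →
      (∀ t ∈ S, z t ∈ Zs ∧ s t < N1 ∧ a t < N2) →
      (∀ t ∈ S, ∀ t' ∈ S, z t = z t' → s t = s t' → a t = a t' → t = t') →
      δ * (Zs.card * N1 * N2) ≤ S.card →
      ∃ (z0 : Z) (s1 s2 w : ℕ) (J : Finset ℕ), s1 < s2 ∧ s2 < s1 + M ∧ δ' * Λ ≤ J.card ∧
        ∀ j ∈ J, w ≤ j ∧ j < w + Λ ∧ (∃ t ∈ S, z t = z0 ∧ s t = s1 ∧ a t = j) ∧
          ∃ t ∈ S, z t = z0 ∧ s t = s2 ∧ a t = j := by
  classical
  obtain ⟨M, hM⟩ := exists_nat_gt (8 / δ)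
  have hM0' : (0 : ℝ) < M := lt_trans (by positivity) hM
  have hM0 : 0 < M := by exact_mod_cast hM0'
  have hM8 : 8 ≤ δ * M := by
    rw [div_lt_iff₀ hδ] at hM; linarith
  refine ⟨M, δ / (8 * M), by positivity, ?_⟩
  intro α Z S Zs z s a N1 N2 Λ hΛ h1 h2 hZ hS hinj hd
  have hΛ' : (0 : ℝ) < Λ := by exact_mod_cast hΛ
  obtain ⟨⟨z0, β, ω⟩, -, hF⟩ := Finset.exists_le_card_fiber_of_nsmul_le_card_of_maps_to
    (s := S) (t := Zs ×ˢ Finset.range (N1 / M + 1) ×ˢ Finset.range (N2 / Λ + 1))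
    (f := fun t => (z t, s t / M, a t / Λ)) (b := δ * M * Λ / 4)
    (fun t ht => by
      obtain ⟨e1, e2, e3⟩ := hS t ht
      simp only [Finset.mem_product, Finset.mem_range]
      exact ⟨e1, Nat.lt_succ_of_le (Nat.div_le_div_right e2.le),
        Nat.lt_succ_of_le (Nat.div_le_div_right e3.le)⟩)
    (hZ.product ((Finset.nonempty_range_iff.2 (Nat.succ_ne_zero _)).product
      (Finset.nonempty_range_iff.2 (Nat.succ_ne_zero _)))) (by
      rw [nsmul_eq_mul, Finset.card_product, Finset.card_product, Finset.card_range,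
        Finset.card_range]
      refine le_trans ?_ hd
      have b1 := x3_blocks h1
      have b2 := x3_blocks h2
      have b3 : (((N1 / M + 1 : ℕ) : ℝ) * M) * (((N2 / Λ + 1 : ℕ) : ℝ) * Λ) ≤
          (2 * N1) * (2 * N2) := mul_le_mul b1 b2 (by positivity) (by positivity)
      have b4 : (0 : ℝ) ≤ δ * Zs.card / 4 := by positivity
      have b5 := mul_le_mul_of_nonneg_left b3 b4
      rw [Nat.cast_mul, Nat.cast_mul]
      calc _ = δ * Zs.card / 4 *
            ((((N1 / M + 1 : ℕ) : ℝ) * M) * (((N2 / Λ + 1 : ℕ) : ℝ) * Λ)) := by ring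
        _ ≤ _ := b5
        _ = _ := by ring)
  set F := S.filter fun t => (z t, s t / M, a t / Λ) = (z0, β, ω) with hFd
  have hFm : ∀ t ∈ F, t ∈ S ∧ z t = z0 ∧ (M * β ≤ s t ∧ s t < M * β + M) ∧
      (Λ * ω ≤ a t ∧ a t < Λ * ω + Λ) := fun t ht => by
    obtain ⟨e0, e⟩ := Finset.mem_filter.1 ht
    simp only [Prod.mk.injEq] at e
    obtain ⟨e1, e2, e3⟩ := e
    have d1 := Nat.div_add_mod (s t) M
    have d2 := Nat.div_add_mod (a t) Λ
    have m1 := Nat.mod_lt (s t) hM0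
    have m2 := Nat.mod_lt (a t) hΛ
    rw [e2] at d1; rw [e3] at d2
    exact ⟨e0, e1, by omega, by omega⟩
  let P : α → Prop := fun t => ∃ t' ∈ F, a t' = a t ∧ s t' < s t
  have hlow : (F.filter fun t => ¬ P t).card ≤ Λ := by
    have : (F.filter fun t => ¬ P t).card ≤ (Finset.Ico (Λ * ω) (Λ * ω + Λ)).card := by
      refine Finset.card_le_card_of_injOn a (fun t ht => ?_) fun t ht t' ht' e => ?_
      · exact Finset.mem_coe.2 (Finset.mem_Ico.2
          (hFm t (Finset.mem_filter.1 (Finset.mem_coe.1 ht)).1).2.2.2)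
      · obtain ⟨u1, u2⟩ := Finset.mem_filter.1 (Finset.mem_coe.1 ht)
        obtain ⟨v1, v2⟩ := Finset.mem_filter.1 (Finset.mem_coe.1 ht')
        refine hinj t (hFm t u1).1 t' (hFm t' v1).1
          ((hFm t u1).2.1.trans (hFm t' v1).2.1.symm) ?_ e
        rcases lt_trichotomy (s t) (s t') with h | h | h
        · exact absurd ⟨t, u1, e, h⟩ v2
        · exact h
        · exact absurd ⟨t', v1, e.symm, h⟩ u2
    simpa using this
  have hup : δ * M * Λ / 8 ≤ ((F.filter P).card : ℝ) := by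
    have e : (F.filter P).card + (F.filter fun t => ¬ P t).card = F.card :=
      Finset.card_filter_add_card_filter_not _
    have e' : ((F.filter P).card : ℝ) + (F.filter fun t => ¬ P t).card = F.card := by
      exact_mod_cast e
    have l' : ((F.filter fun t => ¬ P t).card : ℝ) ≤ Λ := by exact_mod_cast hlow
    have : 8 * (Λ : ℝ) ≤ δ * M * Λ := mul_le_mul_of_nonneg_right hM8 hΛ'.le
    linarith
  let m : α → ℕ := fun t => if h : P t then s h.choose else 0
  have hm : ∀ t, P t → ∃ t' ∈ F, a t' = a t ∧ s t' < s t ∧ s t' = m t := fun t h =>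
    ⟨h.choose, h.choose_spec.1, h.choose_spec.2.1, h.choose_spec.2.2, by simp only [m, dif_pos h]⟩
  obtain ⟨⟨s1, s2⟩, -, hG⟩ := Finset.exists_le_card_fiber_of_nsmul_le_card_of_maps_to
    (s := F.filter P) (t := Finset.Ico (M * β) (M * β + M) ×ˢ Finset.Ico (M * β) (M * β + M))
    (f := fun t => (m t, s t)) (b := δ / (8 * M) * Λ)
    (fun t ht => by
      obtain ⟨u1, u2⟩ := Finset.mem_filter.1 ht
      obtain ⟨t', v1, -, -, v4⟩ := hm t u2
      simp only [Finset.mem_product, Finset.mem_Ico]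
      exact ⟨v4 ▸ (hFm t' v1).2.2.1, (hFm t u1).2.2.1⟩)
    ((Finset.nonempty_Ico.2 (by omega)).product (Finset.nonempty_Ico.2 (by omega))) (by
      rw [nsmul_eq_mul, Finset.card_product, Nat.card_Ico, Nat.add_sub_cancel_left]
      refine le_trans (le_of_eq ?_) hup
      push_cast
      field_simp)
  set H := (F.filter P).filter fun t => (m t, s t) = (s1, s2) with hHd
  have hHm : ∀ t ∈ H, t ∈ F ∧ s t = s2 ∧ ∃ t' ∈ F, a t' = a t ∧ s t' = s1 ∧ s1 < s2 :=
    fun t ht => by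
      obtain ⟨u, e⟩ := Finset.mem_filter.1 ht
      obtain ⟨u1, u2⟩ := Finset.mem_filter.1 u
      simp only [Prod.mk.injEq] at e
      obtain ⟨t', v1, v2, v3, v4⟩ := hm t u2
      exact ⟨u1, e.2, t', v1, v2, v4.trans e.1, by omega⟩
  have hpos : 0 < H.card := by
    have : (0 : ℝ) < H.card := lt_of_lt_of_le (by positivity) hG
    exact_mod_cast this
  obtain ⟨t0, ht0⟩ := Finset.card_pos.1 hpos
  obtain ⟨u1, u2, t1, u3, -, u5, u6⟩ := hHm t0 ht0
  refine ⟨z0, s1, s2, Λ * ω, H.image a, u6, ?_, ?_, fun j hj => ?_⟩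
  · have := (hFm t0 u1).2.2.1
    have := (hFm t1 u3).2.2.1
    omega
  · rw [Finset.card_image_of_injOn]
    · exact hG
    · intro t ht t' ht' e
      obtain ⟨p1, p2, -⟩ := hHm t (Finset.mem_coe.1 ht)
      obtain ⟨q1, q2, -⟩ := hHm t' (Finset.mem_coe.1 ht')
      exact hinj t (hFm t p1).1 t' (hFm t' q1).1 ((hFm t p1).2.1.trans (hFm t' q1).2.1.symm)
        (p2.trans q2.symm) e
  · obtain ⟨t, ht, rfl⟩ := Finset.mem_image.1 hj
    obtain ⟨p1, p2, t', p3, p4, p5, -⟩ := hHm t ht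
    exact ⟨(hFm t p1).2.2.2.1, (hFm t p1).2.2.2.2, ⟨t', (hFm t' p3).1, (hFm t' p3).2.1, p5, p4⟩,
      t, (hFm t p1).1, (hFm t p1).2.1, p2, rfl⟩

theorem x3_pick (J Ex : Finset ℕ) (x G n : ℕ)
    (h : n + G + Ex.card + 1 ≤ (J.filter fun j => x ≤ j).card) :
    ∃ y ∈ J, x + G ≤ y ∧ y ∉ Ex ∧ n ≤ (J.filter fun j => y ≤ j).card := by
  have key : ∀ A : Finset ℕ, (∀ j ∈ J, x + G ≤ j → j ∉ Ex → j ∈ A) →
      (J.filter fun j => x ≤ j).card ≤ A.card + G + Ex.card := fun A hA => by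
    have h1 : (J.filter fun j => x ≤ j) ⊆ A ∪ Finset.Ico x (x + G) ∪ Ex := fun j hj => by
      obtain ⟨u, v⟩ := Finset.mem_filter.1 hj
      simp only [Finset.mem_union, Finset.mem_Ico]
      by_cases e1 : j ∈ Ex
      · exact Or.inr e1
      by_cases e2 : x + G ≤ j
      · exact Or.inl (Or.inl (hA j u e2 e1))
      · exact Or.inl (Or.inr ⟨v, by omega⟩)
    have h2 := (Finset.card_le_card h1).trans ((Finset.card_union_le _ _).trans
      (Nat.add_le_add_right (Finset.card_union_le _ _) _))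
    simpa using h2
  have hne : (J.filter fun j => x + G ≤ j ∧ j ∉ Ex).Nonempty := by
    have := key (J.filter fun j => x + G ≤ j ∧ j ∉ Ex) fun j u v w =>
      Finset.mem_filter.2 ⟨u, v, w⟩
    exact Finset.card_pos.1 (by omega)
  obtain ⟨u, v, w⟩ := Finset.mem_filter.1 (Finset.min'_mem _ hne)
  refine ⟨_, u, v, w, ?_⟩
  have := key (J.filter fun j => (J.filter fun j => x + G ≤ j ∧ j ∉ Ex).min' hne ≤ j)
    fun j u v w => Finset.mem_filter.2 ⟨u, Finset.min'_le _ _ (Finset.mem_filter.2 ⟨u, v, w⟩)⟩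
  omega

open Classical in
/-- four interleaved indices with gaps and without conflicts -/
theorem x3_four (J : Finset ℕ) (G E : ℕ) (B1 B2 : ℕ → Prop) (Conf : ℕ → ℕ → Prop)
    (h1 : (J.filter B1).card ≤ E) (h2 : (J.filter B2).card ≤ E)
    (h3 : ∀ a ∈ J, (J.filter fun c => Conf a c).card ≤ E)
    (h4 : ∀ c ∈ J, (J.filter fun a => Conf a c).card ≤ E)
    (hJ : 4 * (G + 3 * E + 1) ≤ J.card) :
    ∃ a ∈ J, ∃ c ∈ J, ∃ b ∈ J, ∃ e ∈ J, a + G ≤ c ∧ c + G ≤ b ∧ b + G ≤ e ∧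
      ¬ B1 a ∧ ¬ B1 b ∧ ¬ B2 c ∧ ¬ B2 e ∧
      ¬ Conf a c ∧ ¬ Conf b c ∧ ¬ Conf a e ∧ ¬ Conf b e := by
  obtain ⟨a, ha, -, a2, a3⟩ := x3_pick J (J.filter B1) 0 G (3 * (G + 3 * E + 1)) (by
    rw [Finset.filter_true_of_mem (s := J) (p := fun j => 0 ≤ j) fun _ _ => Nat.zero_le _]
    omega)
  have ea := h3 a ha
  obtain ⟨c, hc, c1, c2, c3⟩ := x3_pick J (J.filter B2 ∪ J.filter fun c => Conf a c) a G
    (2 * (G + 3 * E + 1)) (by
      have := Finset.card_union_le (J.filter B2) (J.filter fun c => Conf a c)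
      omega)
  have ec := h4 c hc
  obtain ⟨b, hb, b1, b2, b3⟩ := x3_pick J (J.filter B1 ∪ J.filter fun a => Conf a c) c G
    (G + 3 * E + 1) (by
      have := Finset.card_union_le (J.filter B1) (J.filter fun a => Conf a c)
      omega)
  have eb := h3 b hb
  obtain ⟨e, he, e1, e2, -⟩ := x3_pick J
    (J.filter B2 ∪ (J.filter fun c => Conf a c) ∪ J.filter fun c => Conf b c) b G 0 (by
      have := Finset.card_union_le (J.filter B2 ∪ J.filter fun c => Conf a c)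
        (J.filter fun c => Conf b c)
      have := Finset.card_union_le (J.filter B2) (J.filter fun c => Conf a c)
      omega)
  simp only [Finset.mem_union, Finset.mem_filter, not_or, not_and] at a2 c2 b2 e2
  exact ⟨a, ha, c, hc, b, hb, e, he, c1, b1, e1, a2 ha, b2.1 hb, c2.1 hc, e2.1.1 he,
    c2.2 hc, b2.2 hb, e2.1.2 he, e2.2 he⟩

open Classical in
/-- A5: pigeonhole with density. -/
theorem xa_pigeon {α κ ι : Type*} [Finite κ] [Nonempty κ] (U : Ultrafilter ι) (S : ι → Finset α)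
    (col : ι → α → κ) : ∃ (c : κ) (δ : ℝ), 0 < δ ∧
      ∀ᶠ k in (U : Filter ι), δ * (S k).card ≤ ((S k).filter fun t => col k t = c).card := by
  have := Fintype.ofFinite κ
  have hc : (0 : ℝ) < Fintype.card κ := by exact_mod_cast Fintype.card_pos
  have h : ∀ᶠ k in (U : Filter ι), ∃ c : κ, (1 / (Fintype.card κ : ℝ)) * (S k).card ≤
      (((S k).filter fun t => col k t = c).card : ℝ) := Eventually.of_forall fun k => by
    obtain ⟨θ, -, h⟩ := Finset.exists_le_card_fiber_of_nsmul_le_card_of_maps_to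
      (s := S k) (t := Finset.univ) (f := col k)
      (b := (1 / (Fintype.card κ : ℝ)) * (S k).card)
      (fun _ _ => Finset.mem_univ _) Finset.univ_nonempty (by
        rw [nsmul_eq_mul, Finset.card_univ, ← mul_assoc, mul_one_div_cancel hc.ne', one_mul])
    exact ⟨θ, h⟩
  obtain ⟨c, hc'⟩ := Ultrafilter.eventually_exists_iff.1 h
  exact ⟨c, _, by positivity, hc'⟩

open Classical in
/-- A5: the dichotomy of section 3; `Neg` is the negligible (singular) event. -/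
theorem xa_dich {α : Type*} (U : Ultrafilter ℕ) (hU : (U : Filter ℕ) ≤ atTop) (S : ℕ → Finset α)
    (hS : ∀ᶠ k in (U : Filter ℕ), (S k).Nonempty) (Bad : ℕ → α → ℕ → ℕ → Prop)
    (Neg : ℕ → α → ℕ → Prop)
    (hNeg : ∀ r, ∀ ε : ℝ, 0 < ε → ∀ᶠ k in (U : Filter ℕ),
      (((S k).filter fun t => Neg k t r).card : ℝ) ≤ ε * (S k).card) :
    (∃ (r : ℕ) (M : ℕ → ℕ) (δ : ℝ), Tendsto M U atTop ∧ 0 < δ ∧ ∀ᶠ k in (U : Filter ℕ),
      δ * (S k).card ≤ ((S k).filter fun t => Bad k t r (M k)).card) ∨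
    ∃ t : ℕ → α, (∀ᶠ k in (U : Filter ℕ), t k ∈ S k) ∧
      ∀ r, ∃ M, ∀ᶠ k in (U : Filter ℕ), ¬ Bad k (t k) r M ∧ ¬ Neg k (t k) r := by
  by_cases h : ∃ r, ∀ M, ∀ᶠ k in (U : Filter ℕ), (1 / 2 : ℝ) ^ (r + 3) * (S k).card ≤
      (((S k).filter fun t => Bad k t r M).card : ℝ)
  · obtain ⟨r, hr⟩ := h
    obtain ⟨f, hf, hP⟩ := x3_over hU hr
    exact Or.inl ⟨r, f, _, hf, by positivity, hP.mono fun k hk => hk _ le_rfl⟩
  right
  push Not at h
  choose M hM using h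
  have hM' : ∀ r, ∀ᶠ k in (U : Filter ℕ),
      (((S k).filter fun t => Bad k t r (M r) ∨ Neg k t r).card : ℝ) ≤
        (S k).card * (1 / 2) ^ (r + 2) := fun r => by
    filter_upwards [hM r, hNeg r ((1 / 2) ^ (r + 3)) (by positivity)] with k h1 h2
    have h3 : ((S k).filter fun t => Bad k t r (M r) ∨ Neg k t r).card ≤
        ((S k).filter fun t => Bad k t r (M r)).card +
          ((S k).filter fun t => Neg k t r).card := by
      refine le_trans (Finset.card_le_card fun t ht => ?_) (Finset.card_union_le _ _)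
      obtain ⟨u, v⟩ := Finset.mem_filter.1 ht
      rcases v with v | v
      · exact Finset.mem_union_left _ (Finset.mem_filter.2 ⟨u, v⟩)
      · exact Finset.mem_union_right _ (Finset.mem_filter.2 ⟨u, v⟩)
    have h4 : (((S k).filter fun t => Bad k t r (M r) ∨ Neg k t r).card : ℝ) ≤
        ((S k).filter fun t => Bad k t r (M r)).card +
          ((S k).filter fun t => Neg k t r).card := by exact_mod_cast h3
    have h5 : ((S k).card : ℝ) * (1 / 2) ^ (r + 2) =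
        (1 / 2) ^ (r + 3) * (S k).card + (1 / 2) ^ (r + 3) * (S k).card := by ring
    linarith
  obtain ⟨f, hf, hP⟩ := x3_over hU hM'
  have hex : ∀ᶠ k in (U : Filter ℕ),
      ∃ t ∈ S k, ∀ r < f k, ¬ (Bad k t r (M r) ∨ Neg k t r) := by
    filter_upwards [hP, hS] with k hk hw
    have hw' : (0 : ℝ) < (S k).card := by exact_mod_cast hw.card_pos
    have h1 := x3_half (S k) (fun r t => Bad k t r (M r) ∨ Neg k t r) (f k) hw'.le le_rfl
      fun r hr => by
        refine le_of_eq_of_le ?_ (hk r hr.le)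
        exact congrArg (fun s : Finset α => (s.card : ℝ)) (Finset.filter_congr_decidable _ _ _)
    have h2 := lt_of_lt_of_le (half_pos hw') h1
    obtain ⟨t, ht⟩ := Finset.card_pos.1 (Nat.cast_pos.1 h2)
    simp only [Finset.mem_filter] at ht
    exact ⟨t, ht.1, ht.2⟩
  obtain ⟨k0, t0, -⟩ := hS.exists
  let t : ℕ → α := fun k =>
    if hk : ∃ t ∈ S k, ∀ r < f k, ¬ (Bad k t r (M r) ∨ Neg k t r) then hk.choose else t0
  have ht : ∀ᶠ k in (U : Filter ℕ),
      t k ∈ S k ∧ ∀ r < f k, ¬ (Bad k (t k) r (M r) ∨ Neg k (t k) r) :=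
    hex.mono fun k hk => by
      have : t k = hk.choose := dif_pos hk
      rw [this]; exact hk.choose_spec
  refine ⟨t, ht.mono fun k hk => hk.1, fun r => ⟨M r, ?_⟩⟩
  filter_upwards [ht, hf.eventually (eventually_gt_atTop r)] with k hk hr using
    not_or.1 (hk.2 r hr)

open Classical in
/-- A5: the slice of section 4: two close rows that share a dense set of columns in a window. -/
theorem xa_slice {δ : ℝ} (hδ : 0 < δ) : ∃ (M : ℕ) (δ' : ℝ), 0 < δ' ∧ ∀ (β : Type) (F : Finset β)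
    (N₁ N₂ Λ : ℕ) (A : Finset (ℕ × ℕ × β)), M ≤ N₁ → 0 < Λ → Λ ≤ N₂ → F.Nonempty →
    A ⊆ Finset.range N₁ ×ˢ Finset.range N₂ ×ˢ F → δ * (N₁ * N₂ * F.card) ≤ A.card →
    ∃ (s₁ s₂ w₀ : ℕ) (f : β), s₁ < s₂ ∧ s₂ ≤ s₁ + M ∧ δ' * Λ ≤
      ((Finset.Ico w₀ (w₀ + Λ)).filter fun a => (s₁, a, f) ∈ A ∧ (s₂, a, f) ∈ A).card := by
  obtain ⟨M, δ', h0, h⟩ := x3_slice hδ
  refine ⟨M, δ', h0, fun β F N₁ N₂ Λ A h1 h2 h3 h4 h5 h6 => ?_⟩
  obtain ⟨z0, s1, s2, w, J, e1, e2, e3, e4⟩ := h (ℕ × ℕ × β) β A F (fun t => t.2.2)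
    (fun t => t.1) (fun t => t.2.1) N₁ N₂ Λ h2 h1 h3 h4
    (fun t ht => by
      have := h5 ht
      simp only [Finset.mem_product, Finset.mem_range] at this
      exact ⟨this.2.2, this.1, this.2.1⟩)
    (fun t _ t' _ a b c => Prod.ext b (Prod.ext c a))
    (by refine le_trans (le_of_eq ?_) h6; ring)
  refine ⟨s1, s2, w, z0, e1, e2.le, e3.trans ?_⟩
  refine Nat.cast_le.2 (Finset.card_le_card fun j hj => ?_)
  obtain ⟨p1, p2, ⟨⟨a1, a2, a3⟩, q1, rfl, rfl, rfl⟩, ⟨b1, b2, b3⟩, r1, r2, rfl, r4⟩ := e4 j hj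
  dsimp only at r2 r4 p1 p2 ⊢
  subst r2 r4
  exact Finset.mem_filter.2 ⟨Finset.mem_Ico.2 ⟨p1, p2⟩, q1, r1⟩

end Pool.Agent.P.MP_6145c0_co.Ng
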