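import Pool.Agent.P.MP_6145c0_co.Ng.Geo
import Pool.Agent.P.MP_6145c0_co.Ng.XA

/-! Quantities that are integer polynomials in the data of the prototile. -/

open Set Filter Real

namespace Pool.Agent.Ng

variable {n : ℕ} (T : ℕ → Proto n)

/-- The data of the prototile: vertices, directions, inverse directions, angles and `π`. -/
noncomputable def gens (k : ℕ) : Option (Fin 4 × Bool × ZMod n) → ℂ
  | none => π
  | some (a, s, i) => ![((T k).T s).v i, ((T k).T s).d i, ((((T k).T s).d i)⁻¹ : Circle),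
      ((T k).T s).ang i] a

/-- An integer polynomial in the data. -/
def Alg (f : ℕ → ℂ) : Prop :=
  ∃ p : MvPolynomial (Option (Fin 4 × Bool × ZMod n)) ℤ, ∀ k, f k = MvPolynomial.aeval (gens T k) p

/-- A motion whose entries are integer polynomials in the data. -/
def AlgM (g : ℕ → Mot) : Prop :=
  Alg T (fun k => (g k).u) ∧ Alg T (fun k => ((g k).u⁻¹ : Circle)) ∧ Alg T fun k => (g k).b

/-- A signed monomial in the directions. -/
def Mono [NeZero n] (u : ℕ → Circle) : Prop :=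
  ∃ c : Bool × ZMod n → ℤ, (∀ k, (u k : ℂ) = ∏ θ, ((((T k).T θ.1).d θ.2 : ℂ)) ^ c θ) ∨
    ∀ k, (u k : ℂ) = -∏ θ, ((((T k).T θ.1).d θ.2 : ℂ)) ^ c θ

/-- Almost every index satisfies all relations that hold almost everywhere. -/
theorem alg_all [NeZero n] (F : Filter ℕ) :
    ∀ᶠ k in F, ∀ f g, Alg T f → Alg T g → (∀ᶠ j in F, f j = g j) → f k = g k := by
  filter_upwards [Pool.Agent.P.MP_6145c0_co.Ng.xa_poly F (gens T)] with k hk f g hf hg h
  obtain ⟨p, hp⟩ := hf
  obtain ⟨q, hq⟩ := hg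
  have h1 := hk (p - q) (h.mono fun j e => by rw [map_sub, ← hp, ← hq, e, sub_self])
  rwa [map_sub, ← hp, ← hq, sub_eq_zero] at h1

variable {T} {f g : ℕ → ℂ}

theorem Alg.congr_h39 (hf : Alg T f) (h : ∀ k, f k = g k) : Alg T g :=
  (funext h : f = g) ▸ hf

theorem alg_v_h39 (s : Bool) (i : ZMod n) : Alg T fun k => ((T k).T s).v i :=
  ⟨MvPolynomial.X (some (0, s, i)), fun k => by rw [MvPolynomial.aeval_X]; rfl⟩

theorem alg_d_h39 (s : Bool) (i : ZMod n) : Alg T fun k => ((T k).T s).d i :=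
  ⟨MvPolynomial.X (some (1, s, i)), fun k => by rw [MvPolynomial.aeval_X]; rfl⟩

theorem alg_di_h39 (s : Bool) (i : ZMod n) : Alg T fun k => ((((T k).T s).d i)⁻¹ : Circle) :=
  ⟨MvPolynomial.X (some (2, s, i)), fun k => by rw [MvPolynomial.aeval_X]; rfl⟩

theorem alg_ang_h39 (s : Bool) (i : ZMod n) : Alg T fun k => ((T k).T s).ang i :=
  ⟨MvPolynomial.X (some (3, s, i)), fun k => by rw [MvPolynomial.aeval_X]; rfl⟩

theorem Alg.add (hf : Alg T f) (hg : Alg T g) : Alg T fun k => f k + g k := by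
  obtain ⟨p, hp⟩ := hf
  obtain ⟨q, hq⟩ := hg
  exact ⟨p + q, fun k => by rw [map_add, ← hp, ← hq]⟩

theorem Alg.mul (hf : Alg T f) (hg : Alg T g) : Alg T fun k => f k * g k := by
  obtain ⟨p, hp⟩ := hf
  obtain ⟨q, hq⟩ := hg
  exact ⟨p * q, fun k => by rw [map_mul, ← hp, ← hq]⟩

theorem Alg.neg (hf : Alg T f) : Alg T fun k => -f k := by
  obtain ⟨p, hp⟩ := hf
  exact ⟨-p, fun k => by rw [map_neg, ← hp]⟩

theorem alg_int (m : ℤ) : Alg T fun _ => m := by
  exact ⟨(m : MvPolynomial _ ℤ), fun k => by rw [map_intCast]⟩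

theorem alg_pi : Alg T fun _ => π := by
  exact ⟨MvPolynomial.X none, fun k => by rw [MvPolynomial.aeval_X]; rfl⟩

theorem alg_two_pi : Alg T fun _ => ((2 * π : ℝ) : ℂ) := by
  exact ((alg_int 2).mul alg_pi).congr_h39 fun k => by push_cast; ring

theorem alg_asum (s : ℕ → Bool) (i : ℕ → ZMod n) (l : ℕ) :
    Alg T fun k => ((∑ a ∈ Finset.range l, ((T k).T (s a)).ang (i a) : ℝ) : ℂ) := by
  induction l with
  | zero => exact (alg_int 0).congr_h39 fun k => by simp
  | succ l ih =>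
    exact (ih.add (alg_ang_h39 (s l) (i l))).congr_h39 fun k => by
      rw [Finset.sum_range_succ, Complex.ofReal_add]

theorem AlgM.mul {g h : ℕ → Mot} (hg : AlgM T g) (hh : AlgM T h) : AlgM T fun k => g k * h k := by
  refine ⟨(hg.1.mul hh.1).congr_h39 fun k => ?_, (hg.2.1.mul hh.2.1).congr_h39 fun k => ?_,
    ((hg.1.mul hh.2.2).add hg.2.2).congr_h39 fun k => rfl⟩
  · rw [Mot.mul_u, Circle.coe_mul]
  · rw [Mot.mul_u, mul_inv, Circle.coe_mul]

theorem AlgM.inv {g : ℕ → Mot} (hg : AlgM T g) : AlgM T fun k => (g k)⁻¹ := by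
  refine ⟨hg.2.1, hg.1.congr_h39 fun k => ?_, (hg.2.1.mul hg.2.2).neg.congr_h39 fun k => rfl⟩
  rw [Mot.inv_u, inv_inv]

theorem algM_Fr (s : Bool) (i : ZMod n) (b : Bool) : AlgM T fun k => (T k).Fr s i b := by
  cases b
  · refine ⟨(alg_d_h39 s (i - 1)).neg.congr_h39 fun k => ?_,
      (alg_di_h39 s (i - 1)).neg.congr_h39 fun k => ?_, alg_v_h39 s i⟩
    · simp [Proto.Fr]
    · simp [Proto.Fr]
  · exact ⟨alg_d_h39 s i, alg_di_h39 s i, alg_v_h39 s i⟩

theorem algM_Kw (s : Bool) (w : List (Stp n)) : AlgM T fun k => (T k).Kw s w := by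
  induction w generalizing s with
  | nil =>
    exact ⟨(alg_int 1).congr_h39 fun k => by simp [Proto.Kw],
      (alg_int 1).congr_h39 fun k => by simp [Proto.Kw],
      (alg_int 0).congr_h39 fun k => by simp [Proto.Kw]⟩
  | cons st w ih =>
    exact ((algM_Fr s st.i (!st.b)).mul (algM_Fr st.s st.j st.b).inv).mul (ih st.s)

theorem AlgM.pt {g : ℕ → Mot} (hg : AlgM T g) (s : Bool) (i : ZMod n) :
    Alg T fun k => (T k).pt ((s, g k), i) := by
  exact (hg.1.mul (alg_v_h39 s i)).add hg.2.2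

theorem AlgM.ray {g : ℕ → Mot} (hg : AlgM T g) (s : Bool) (i : ZMod n) (b : Bool) :
    Alg T fun k => (T k).ray b ((s, g k), i) := by
  exact (hg.mul (algM_Fr s i b)).1

variable [NeZero n] {u v : ℕ → Circle}

theorem prod_add_h39 (k : ℕ) (c e : Bool × ZMod n → ℤ) :
    ∏ θ, ((((T k).T θ.1).d θ.2 : ℂ)) ^ (c + e) θ =
      (∏ θ, ((((T k).T θ.1).d θ.2 : ℂ)) ^ c θ) * ∏ θ, ((((T k).T θ.1).d θ.2 : ℂ)) ^ e θ := by
  rw [← Finset.prod_mul_distrib]
  exact Finset.prod_congr rfl fun θ _ => zpow_add₀ (Circle.coe_ne_zero _) _ _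

theorem prod_neg_h39 (k : ℕ) (c : Bool × ZMod n → ℤ) :
    ∏ θ, ((((T k).T θ.1).d θ.2 : ℂ)) ^ (-c) θ = (∏ θ, ((((T k).T θ.1).d θ.2 : ℂ)) ^ c θ)⁻¹ := by
  rw [← Finset.prod_inv_distrib]
  exact Finset.prod_congr rfl fun θ _ => zpow_neg _ _

theorem prod_single_h39 (k : ℕ) (s : Bool) (i : ZMod n) :
    ∏ θ : Bool × ZMod n, ((((T k).T θ.1).d θ.2 : ℂ)) ^ (Pi.single (s, i) 1 : _ → ℤ) θ =
      ((T k).T s).d i := by
  rw [Finset.prod_eq_single (s, i)]
  · rw [Pi.single_eq_same, zpow_one]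
  · intro θ _ h
    rw [Pi.single_eq_of_ne h, zpow_zero]
  · exact fun h => absurd (Finset.mem_univ _) h

theorem Mono.mul (hu : Mono T u) (hv : Mono T v) : Mono T fun k => u k * v k := by
  obtain ⟨c, hc⟩ := hu
  obtain ⟨e, he⟩ := hv
  refine ⟨c + e, ?_⟩
  rcases hc with hc | hc <;> rcases he with he | he
  · exact Or.inl fun k => by rw [Circle.coe_mul, hc, he, prod_add_h39]
  · exact Or.inr fun k => by rw [Circle.coe_mul, hc, he, prod_add_h39, mul_neg]
  · exact Or.inr fun k => by rw [Circle.coe_mul, hc, he, prod_add_h39, neg_mul]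
  · exact Or.inl fun k => by rw [Circle.coe_mul, hc, he, prod_add_h39, neg_mul_neg]

theorem Mono.inv (hu : Mono T u) : Mono T fun k => (u k)⁻¹ := by
  obtain ⟨c, hc⟩ := hu
  refine ⟨-c, ?_⟩
  rcases hc with hc | hc
  · exact Or.inl fun k => by rw [Circle.coe_inv, hc, prod_neg_h39]
  · exact Or.inr fun k => by rw [Circle.coe_inv, hc, prod_neg_h39, inv_neg]

theorem mono_one : Mono T fun _ => 1 := by
  exact ⟨0, Or.inl fun k => by simp⟩

theorem mono_d (s : Bool) (i : ZMod n) : Mono T fun k => ((T k).T s).d i := by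
  exact ⟨Pi.single (s, i) 1, Or.inl fun k => (prod_single_h39 k s i).symm⟩

theorem mono_Fr (s : Bool) (i : ZMod n) (b : Bool) : Mono T fun k => ((T k).Fr s i b).u := by
  cases b
  · refine ⟨Pi.single (s, i - 1) 1, Or.inr fun k => ?_⟩
    rw [prod_single_h39]
    simp [Proto.Fr]
  · exact mono_d s i

theorem mono_Kw (s : Bool) (w : List (Stp n)) : Mono T fun k => ((T k).Kw s w).u := by
  induction w generalizing s with
  | nil => exact mono_one
  | cons st w ih =>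
    exact ((mono_Fr s st.i (!st.b)).mul (mono_Fr st.s st.j st.b).inv).mul (ih st.s)

end Pool.Agent.Ng
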