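import Pool.Agent.P.MP_6145c0_co.Ng.FC

/-! Charts and half charts before folding. -/

open Set Real Metric

namespace Pool.Agent.Ng.FC

variable {n : ℕ} {T : Proto n} (F : FC T)

/-- Two tiles that meet at `w` across the two sides of a link. -/
def OAdj (w : ℂ) (x x' : F.X) : Prop :=
  ∃ i j, F.K.Opp (x, i) (x', j) ∧ w ∈ F.ed (x, i) ∧ w ∈ F.ed (x', j)

/-- The tiles of `H` at a point of `B` are joined through adjacent tiles. -/
def Conn (H : Set F.X) (B : Set ℂ) : Prop :=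
  ∀ w ∈ B, ∀ x ∈ H, ∀ x' ∈ H, w ∈ F.ts x → w ∈ F.ts x' → Relation.ReflTransGen (F.OAdj w) x x'

/-- At `w` the dart `e` has its opposite darts in `H`. -/
def Shut (H : Set F.X) (w : ℂ) (e : F.X × ZMod n) : Prop :=
  ¬F.K.ZT e ∧ ∀ e', F.K.Opp e e' → w ∈ F.ed e' → e'.1 ∈ H

/-- A chart over `B` that needs no reflection. -/
structure Ch0 (H : Set F.X) (B : Set ℂ) : Prop where
  fin : H.Finite
  cov : ∀ w ∈ B, ∃ x ∈ H, w ∈ F.ts x
  conn : F.Conn H B
  shut : ∀ w ∈ B, ∀ x ∈ H, ∀ i, w ∈ F.ed (x, i) → F.Shut H w (x, i)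

/-- A chart of the part of `B` on the left of the line of `e`. -/
structure HC (H : Set F.X) (e : F.X × ZMod n) (B : Set ℂ) : Prop where
  fin : H.Finite
  cov : ∀ w ∈ B, 0 ≤ F.ht e w ↔ ∃ x ∈ H, w ∈ F.ts x
  conn : F.Conn H B
  shut : ∀ w ∈ B, ∀ x ∈ H, ∀ i, w ∈ F.ed (x, i) → F.K.Same (x, i) e ∨ F.Shut H w (x, i)
  side : ∀ w ∈ B, ∀ e', F.K.Same e' e → w ∈ F.ed e' → e'.1 ∈ H

variable {F} {b : Bool} {c c' e e' : F.X × ZMod n} {w : ℂ} {H H' : Set F.X} {B B' : Set ℂ}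
  {f : ℕ → F.X × ZMod n} {l : ℕ}

theorem OAdj.symm {x x' : F.X} (h : F.OAdj w x x') : F.OAdj w x' x :=
  let ⟨i, j, h1, h2, h3⟩ := h
  ⟨j, i, h1.symm, h3, h2⟩

theorem h55_symm {x x' : F.X} (h : Relation.ReflTransGen (F.OAdj w) x x') :
    Relation.ReflTransGen (F.OAdj w) x' x := by
  induction h with
  | refl => exact .refl
  | tail _ a ih => exact .head a.symm ih

theorem h55_eta (b : Bool) (c : F.X × ZMod n) : (c.1, (nr b c).2) = nr b c := by
  cases b <;> rfl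

theorem h55_mem (b : Bool) (c : F.X × ZMod n) {ρ : ℝ} (h0 : 0 ≤ ρ) (h1 : ρ ≤ T.r1) :
    F.pt c + ρ * T.ray b (pc F.pl c) ∈ F.ed (nr b c) := by
  refine (T.mem_edge b _ _).2 ⟨ρ, h0, ?_, ?_⟩
  · linarith [T.r1_le (pc F.pl (nr b c)), T.r1_pos]
  · rw [pc_nr, fc_nr, T.dirn_nr]
    rfl

theorem h55_near {k : ZMod n} (h : w ∈ F.ed (c.1, k)) (hd : dist w (F.pt c) < T.r1) :
    ∃ b, (c.1, k) = nr (!b) c := by
  obtain ⟨b, e⟩ := T.near (pc F.pl c) h hd
  refine ⟨!b, ?_⟩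
  rw [Bool.not_not, ← h55_eta,
    show k = (nr b c).2 from congrArg Prod.snd (e.trans (pc_nr ..).symm)]

theorem h55_idx {X : Type} (a : X × ZMod n → ℝ) (f : ℕ → X × ZMod n) {θ : ℝ} (h0 : 0 ≤ θ) (l : ℕ)
    (h : θ ≤ asum a f (l + 1)) : ∃ i ≤ l, asum a f i ≤ θ ∧ θ ≤ asum a f (i + 1) := by
  induction l with
  | zero => exact ⟨0, le_rfl, h0, h⟩
  | succ l ih =>
    rcases le_total θ (asum a f (l + 1)) with b | b
    · exact (ih b).imp fun i c => ⟨c.1.trans l.le_succ, c.2⟩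
    · exact ⟨l + 1, le_rfl, b, h⟩

theorem h55_supp (h : F.In e w) : w ∈ F.supp e := by
  simpa using h 0 (by simpa using T.r1_pos)

theorem h55_shut (h : F.HC H e B) (h' : F.HC H' e' B) (ho : F.K.Opp e e') (hw : w ∈ B) {x : F.X}
    (hx : x ∈ H) {i : ZMod n} (hi : w ∈ F.ed (x, i)) : F.Shut (H ∪ H') w (x, i) := by
  rcases h.shut w hw x hx i hi with a | a
  · have o := ho.of_same a.symm
    exact ⟨fun z => z _ o, fun y hy m => .inr (h'.side w hw y (o.same F.mat hy).symm m)⟩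
  · exact ⟨a.1, fun y hy m => .inl (a.2 y hy m)⟩

theorem Ch0.mono (h : F.Ch0 H B) (hB : B' ⊆ B) : F.Ch0 H B' := by
  exact ⟨h.fin, fun w hw => h.cov w (hB hw), fun w hw => h.conn w (hB hw),
    fun w hw => h.shut w (hB hw)⟩

theorem HC.mono (h : F.HC H e B) (hB : B' ⊆ B) : F.HC H e B' := by
  exact ⟨h.fin, fun w hw => h.cov w (hB hw), fun w hw => h.conn w (hB hw),
    fun w hw => h.shut w (hB hw), fun w hw => h.side w (hB hw)⟩

theorem HC.of_same (h : F.HC H e B) (hs : F.K.Same e e') : F.HC H e' B := by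
  refine ⟨h.fin, fun w hw => ?_, h.conn, fun w hw x hx i hi => ?_,
    fun w hw a ha => h.side w hw a (ha.trans hs.symm)⟩
  · rw [(same_ht hs).1]
    exact h.cov w hw
  · exact (h.shut w hw x hx i hi).imp_left fun a => a.trans hs

theorem HC.ch0 (h : F.HC H e B) (hB : ∀ w ∈ B, 0 < F.ht e w) : F.Ch0 H B := by
  refine ⟨h.fin, fun w hw => (h.cov w hw).1 (hB w hw).le, h.conn, fun w hw x hx i hi => ?_⟩
  exact (h.shut w hw x hx i hi).resolve_left fun a => (hB w hw).ne' (supp_ht ⟨_, a.symm, hi⟩)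

theorem ch0_int (x : F.X) : F.Ch0 {x} (interior (F.ts x)) := by
  refine ⟨finite_singleton x, fun w hw => ⟨x, rfl, interior_subset hw⟩, ?_, ?_⟩
  · rintro w - _ rfl _ rfl - -
    exact .refl
  · rintro w hw _ rfl i hi
    exact absurd hi (T.not_mem_edge hw)

theorem link_adj (h : F.K.L b c c') {ρ : ℝ} (h0 : 0 ≤ ρ) (h1 : ρ ≤ T.r1)
    (hw : w = F.pt c + ρ * T.ray (!b) (pc F.pl c)) : F.OAdj w c.1 c'.1 := by
  refine ⟨(nr (!b) c).2, (nr b c').2, ?_⟩
  rw [h55_eta, h55_eta]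
  refine ⟨.of_link h, hw ▸ h55_mem _ c h0 h1, ?_⟩
  rw [hw, ← F.geo.ray h, show F.pt c = F.pt c' from (F.geo.pt h).symm]
  exact h55_mem _ c' h0 h1

theorem link_shut (h : F.K.L b c c') (hc : c'.1 ∈ H) (hd : dist w (F.pt c) < T.r1) :
    F.Shut H w (nr (!b) c) := by
  refine ⟨fun a => a _ (.of_link h), fun a ha hw => ?_⟩
  rw [link_close h ha hw hd, nr_fst]
  exact hc

/-- The tiles of a fan. -/
def fan (f : ℕ → F.X × ZMod n) (l : ℕ) : Set F.X := {x | ∃ i ≤ l, x = (f i).1}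

theorem fan_finite (f : ℕ → F.X × ZMod n) (l : ℕ) : (fan f l).Finite := by
  exact ((finite_Iic l).image fun i => (f i).1).subset fun _ ⟨i, hi, e⟩ => ⟨i, hi, e.symm⟩

theorem fan_conn (h : F.K.Ch true f l) (hs : asum (T.an F.pl) f (l + 1) ≤ 2 * π)
    (hc : asum (T.an F.pl) f (l + 1) = 2 * π → F.K.L true (f l) (f 0)) :
    F.Conn (fan f l) (ball (F.pt (f 0)) T.r1) := by
  have key : ∀ w ∈ ball (F.pt (f 0)) T.r1, ∀ i j, i < j → j ≤ l → w ∈ F.ts (f i).1 →
      w ∈ F.ts (f j).1 → Relation.ReflTransGen (F.OAdj w) (f i).1 (f j).1 := by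
    intro w hw i j hij hj h1 h2
    have p : ∀ k ≤ l, F.pt (f k) = F.pt (f 0) := fun k hk => F.geo.ch_pt h hk
    have m := T.asum_mono F.pl f
    by_cases h0 : w = F.pt (f 0)
    · clear h2
      induction j, hij.le using Nat.le_induction with
      | base => exact .refl
      | succ k hk ih =>
        have a : F.OAdj w (f k).1 (f (k + 1)).1 := link_adj (h k hj) le_rfl T.r1_pos.le
          (by rw [h0, p k (by omega)]; simp)
        rcases hk.eq_or_lt with rfl | hk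
        · exact .single a
        · exact (ih hk (by omega)).tail a
    obtain ⟨θ, t0, t1, e⟩ := Proto.polar true _ (T.ray true (pc F.pl (f 0))) h0
    have s := fun k (hk : k ≤ l) =>
      F.geo.sector h hs hk (dist_pos.2 h0) (mem_ball.1 hw) t0 t1
    have a1 := (s i (by omega)).1 (e ▸ h1 :)
    have a2 := (s j hj).1 (e ▸ h2 :)
    have a3 : asum (T.an F.pl) f (i + 1) < asum (T.an F.pl) f (l + 1) := m (by omega)
    replace a1 := a1.resolve_right fun a => by linarith [a.2]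
    rcases a2 with a2 | a2
    · obtain rfl : j = i + 1 := le_antisymm (m.le_iff_le.1 (a2.1.trans a1.2)) hij
      refine .single (link_adj (h i hj) dist_nonneg (mem_ball.1 hw).le ?_)
      rw [F.geo.ch_ray' h (by omega), p i (by omega), ← le_antisymm a1.2 a2.1]
      exact e
    · obtain rfl : j = l := by
        have := m.le_iff_le.1 (hs.trans a2.2.ge)
        omega
      obtain rfl : i = 0 := by
        have := m.le_iff_le.1 (a1.1.trans (a2.1.le.trans (T.asum_nonneg F.pl f 0)))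
        omega
      refine .single (link_adj (hc a2.2) dist_nonneg (mem_ball.1 hw).le ?_).symm
      rw [← F.geo.ray (hc a2.2), p j le_rfl]
      simpa [a2.1] using e
  rintro w hw _ ⟨i, hi, rfl⟩ _ ⟨j, hj, rfl⟩ h1 h2
  rcases lt_trichotomy i j with a | rfl | a
  · exact key w hw i j a hj h1 h2
  · exact .refl
  · exact h55_symm (key w hw j i a hi h2 h1)

theorem ch0_cyc (h : F.K.CycF (T.an F.pl) f l) : F.Ch0 (fan f l) (ball (F.pt (f 0)) T.r1) := by
  refine ⟨fan_finite f l, fun w hw => ?_, fan_conn h.1 h.2.2.le fun _ => h.2.1, ?_⟩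
  · by_cases h0 : w = F.pt (f 0)
    · exact ⟨_, ⟨0, l.zero_le, rfl⟩, h0 ▸ T.pt_mem (pc F.pl (f 0))⟩
    obtain ⟨θ, t0, t1, e⟩ := Proto.polar true _ (T.ray true (pc F.pl (f 0))) h0
    obtain ⟨i, hi, a⟩ := h55_idx (T.an F.pl) f t0 l (t1.le.trans h.2.2.ge)
    refine ⟨_, ⟨i, hi, rfl⟩, ?_⟩
    rw [e]
    exact (F.geo.sector h.1 h.2.2.le hi (dist_pos.2 h0) (mem_ball.1 hw) t0 t1).2 (.inl a)
  · rintro w hw _ ⟨i, hi, rfl⟩ k hk
    have hd : dist w (F.pt (f i)) < T.r1 := by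
      rw [show F.pt (f i) = F.pt (f 0) from F.geo.ch_pt h.1 hi]
      exact hw
    obtain ⟨b, e⟩ := h55_near hk hd
    obtain ⟨j, hj, a⟩ := h.not_end hi b
    rw [e]
    exact link_shut a ⟨j, hj, rfl⟩ hd

theorem hc_half (h : F.K.HalfF (T.an F.pl) true f l) :
    F.HC (fan f l) (nr true (f 0)) (ball (F.pt (f 0)) T.r1) := by
  have p : ∀ k ≤ l, F.pt (f k) = F.pt (f 0) := fun k hk => F.geo.ch_pt h.1 hk
  have hs : asum (T.an F.pl) f (l + 1) ≤ 2 * π := by linarith [h.2.2.2, pi_pos]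
  have z : F.ht (nr true (f 0)) (F.pt (f 0)) = 0 :=
    T.ht_edge (T.pt_mem_edge false (pc F.pl (f 0)))
  refine ⟨fan_finite f l, fun w hw => ?_, fan_conn h.1 hs fun a => ?_, ?_, fun w hw a ha hw' => ?_⟩
  · by_cases h0 : w = F.pt (f 0)
    · exact iff_of_true (h0 ▸ z.ge) ⟨_, ⟨0, l.zero_le, rfl⟩, h0 ▸ T.pt_mem (pc F.pl (f 0))⟩
    obtain ⟨θ, t0, t1, e⟩ := Proto.polar true _ (T.ray true (pc F.pl (f 0))) h0
    have s := fun k (hk : k ≤ l) =>
      F.geo.sector h.1 hs hk (dist_pos.2 h0) (mem_ball.1 hw) t0 t1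
    have q : F.ht (nr true (f 0)) w = dist w (F.pt (f 0)) * sin θ := by
      refine (T.ht_eq z w).trans ?_
      rw [← Proto.h54_im true (T.ray true (pc F.pl (f 0))), ← sub_eq_iff_eq_add'.2 e, sg_true,
        one_mul, pc_nr, T.dirn_nr]
    rw [q, mul_nonneg_iff_of_pos_left (dist_pos.2 h0)]
    constructor
    · intro a
      have a1 : θ ≤ π := not_lt.1 fun b => by
        have := sin_pos_of_pos_of_lt_pi (x := θ - π) (by linarith) (by linarith)
        rw [sin_sub_pi] at this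
        linarith
      obtain ⟨i, hi, a⟩ := h55_idx (T.an F.pl) f t0 l (a1.trans h.2.2.2.ge)
      refine ⟨_, ⟨i, hi, rfl⟩, ?_⟩
      rw [e]
      exact (s i hi).2 (.inl a)
    · rintro ⟨_, ⟨i, hi, rfl⟩, a⟩
      refine sin_nonneg_of_nonneg_of_le_pi t0 ?_
      rcases (s i hi).1 (e ▸ a :) with a | a
      · exact a.2.trans (((T.asum_mono F.pl f).monotone (by omega)).trans h.2.2.2.le)
      · exact a.1.le.trans pi_pos.le
  · linarith [h.2.2.2, pi_pos]
  · rintro w hw _ ⟨i, hi, rfl⟩ k hk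
    have hd : dist w (F.pt (f i)) < T.r1 := p i hi ▸ hw
    obtain ⟨b, e⟩ := h55_near hk hd
    rw [e]
    by_cases a : F.K.End b (f i)
    · left
      cases b
      · rw [(h.end_iff hi).2.1 a]
        exact .refl _
      · rw [(h.end_iff hi).1.1 a]
        exact Cx.Same.symm ⟨_, h.nx.fw⟩
    · obtain ⟨c, hc⟩ := not_forall_not.1 a
      obtain ⟨j, hj, rfl⟩ := h.link hi hc
      exact .inr (link_shut hc ⟨j, hj, rfl⟩ hd)
  · obtain ⟨b, hb⟩ := ha.symm
    cases b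
    · rcases hb.cases with rfl | ⟨a1, h1, h2⟩
      · exact ⟨0, l.zero_le, rfl⟩
      · obtain rfl := h1.fn h.nx
        rw [fw_close h2 hw' (by
          rw [show fc (!false) (nr (!true) (f l)) = f l from fc_nr false _, p l le_rfl]
          exact hw)]
        exact ⟨l, le_rfl, rfl⟩
    · rw [fw_close hb hw' hw]
      exact ⟨0, l.zero_le, rfl⟩

theorem hc_one (hw : w ∈ F.ed e) (hd : ∀ b, T.r1 / 4 ≤ dist w (F.pt (fc b e))) :
    F.HC {e.1} e (ball w T.r2) := by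
  have s := fun z (hz : z ∈ ball w T.r2) =>
    T.half true (pc F.pl e) hw (fun b => pc_fc F.pl b e ▸ hd b) (mem_ball.1 hz)
  refine ⟨finite_singleton _, fun z hz => ?_, ?_, ?_, fun z hz a ha hz' => ?_⟩
  · rw [show F.ht e z = _ from T.ht_eq (T.ht_edge hw) z, ← one_mul (Complex.im _), ← sg_true,
      ← (s z hz).1]
    exact ⟨fun a => ⟨_, rfl, a⟩, fun ⟨_, a, b⟩ => by cases a; exact b⟩
  · rintro z - _ rfl _ rfl - -
    exact .refl
  · rintro z hz _ rfl i hi
    obtain rfl : i = e.2 := (s z hz).2 i hi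
    exact .inl (.refl _)
  · obtain ⟨b, hb⟩ := ha.symm
    obtain ⟨t, -, t1, t2⟩ := fw_mem hb hz'
    refine congrArg Prod.fst (not_not.1 fun hn => ?_ : a = e)
    obtain ⟨r, -, r1, r2⟩ := (T.mem_edge b _ w).1 hw
    have h1 := T.pt_fc b (pc F.pl e)
    rw [← pc_fc] at r2
    rw [← pc_fc, ← pc_fc] at h1
    have h2 := Proto.h54_dist w (F.dn b e) (sub_nonneg.2 r1)
    have h3 := Proto.h54_dist w (F.dn b e) (sub_nonneg.2 (r1.trans (t2 hn)))
    rw [show w + _ = F.pt (fc b e) by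
      simp only [FC.pt, FC.dn]; push_cast; linear_combination r2 - h1, dist_comm] at h2
    rw [show w + _ = z by
      simp only [FC.pt, FC.dn] at t1 ⊢; push_cast; linear_combination r2 - t1] at h3
    linarith [hd b, mem_ball.1 hz, T.r2_le, t2 hn]

theorem In.exists_hc (h : F.In e w) : ∃ H, F.HC H e (ball w T.r2) := by
  obtain ⟨a, ha, hw⟩ := h55_supp h
  by_cases hd : ∀ b, T.r1 / 4 ≤ dist w (F.pt (fc b a))
  · exact ⟨_, (hc_one hw hd).of_same ha.symm⟩
  obtain ⟨b, hb⟩ := not_forall.1 hd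
  rw [not_le] at hb
  have he := (h.of_same ha).end_of hw hb
  obtain ⟨f, l, h0, hf⟩ := (half_of_end he).start he
  have hB : ball w T.r2 ⊆ ball (F.pt (f 0)) T.r1 := ball_subset_ball' (by
    rw [h0]
    linarith [T.r2_le, T.r2_pos])
  cases b
  · refine ⟨_, ((hc_half hf).mono hB).of_same ?_⟩
    rw [h0]
    exact ha.symm
  · have h1 := hc_half hf.rev
    have h2 := hf.nx
    rw [h0, show nr (!true) (fc true a) = a from nr_fc' true a] at h2
    rw [Nat.sub_zero, show F.pt (f l) = F.pt (f 0) from F.geo.ch_pt hf.1 le_rfl] at h1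
    exact ⟨_, (h1.mono hB).of_same (ha.trans ⟨_, h2.fw⟩).symm⟩

/-- Two half charts on the two sides of a link make a chart. -/
theorem HC.glue (h : F.HC H e (ball w T.r2)) (h' : F.HC H' e' (ball w T.r2)) (hi : F.In e w)
    (ho : F.K.Opp e e') : F.Ch0 (H ∪ H') (ball w T.r2) := by
  refine ⟨h.fin.union h'.fin, fun z hz => ?_, ?_, ?_⟩
  · rcases le_total 0 (F.ht e z) with a | a
    · exact ((h.cov z hz).1 a).imp fun x b => ⟨.inl b.1, b.2⟩
    · exact ((h'.cov z hz).1 (by rw [opp_ht ho]; linarith)).imp fun x b => ⟨.inr b.1, b.2⟩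
  · have key : ∀ z ∈ ball w T.r2, ∀ x ∈ H, ∀ x' ∈ H', z ∈ F.ts x → z ∈ F.ts x' →
        Relation.ReflTransGen (F.OAdj z) x x' := by
      intro z hz x hx x' hx' h1 h2
      have a1 := (h.cov z hz).2 ⟨x, hx, h1⟩
      have a2 := (h'.cov z hz).2 ⟨x', hx', h2⟩
      rw [opp_ht ho] at a2
      obtain ⟨t, rfl⟩ := (T.ht_zero_iff (supp_ht (h55_supp hi)) z).1
        (le_antisymm (neg_nonneg.1 a2) a1)
      have a3 := hi t (by
        have := mem_ball.1 hz
        rw [dist_self_add_left, norm_mul, Circle.norm_coe, mul_one, Complex.norm_real,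
          Real.norm_eq_abs] at this
        linarith [T.r2_le])
      obtain ⟨e2, s2, m2⟩ : _ ∈ F.supp e' := opp_supp ho ▸ a3
      obtain ⟨e1, s1, m1⟩ := a3
      refine ((h.conn _ hz x hx _ (h.side _ hz e1 s1.symm m1) h1 (T.edge_subset _ m1)).tail
        ⟨e1.2, e2.2, ((ho.of_same s1).symm.of_same s2).symm, m1, m2⟩).trans ?_
      exact h'.conn _ hz _ (h'.side _ hz e2 s2.symm m2) x' hx' (T.edge_subset _ m2) h2
    rintro z hz x (hx | hx) x' (hx' | hx') h1 h2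
    exacts [h.conn z hz x hx x' hx' h1 h2, key z hz x hx x' hx' h1 h2,
      h55_symm (key z hz x' hx' x hx h2 h1), h'.conn z hz x hx x' hx' h1 h2]
  · rintro z hz x (hx | hx) i hi
    · exact h55_shut h h' ho hz hx hi
    · exact union_comm H' H ▸ h55_shut h' h ho.symm hz hx hi

end Pool.Agent.Ng.FC
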