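import Pool.Agent.P.MP_6145c0_co.Ng.XB2

/-! A surface spread over the plane: charts, sections over balls, packings. -/

open Set Metric

namespace Pool.Agent.Ng

/-- Placed tiles `y` with sets `S y`, folding maps `h y` and adjacency at each point. -/
structure Surf (Y : Type) where
  S : Y → Set ℂ
  h : Y → ℂ ≃ᵢ ℂ
  Adj : ℂ → Y → Y → Prop
  closed : ∀ y, IsClosed (S y)
  clo : ∀ y, S y ⊆ closure (interior (S y))
  conn : ∀ y, IsPreconnected (interior (S y))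
  adj_symm : ∀ {z y y'}, Adj z y y' → Adj z y' y
  adj_mem : ∀ {z y y'}, Adj z y y' → z ∈ S y
  adj_fr : ∀ {z y y'}, Adj z y y' → z ∉ interior (S y)
  adj_fold : ∀ {z y y'}, Adj z y y' → (h y).symm z = (h y').symm z

namespace Surf

variable {Y : Type} (W : Surf Y)

/-- Over each point of `B` the tiles of `F` form exactly one class. -/
structure Chart (F : Set Y) (B : Set ℂ) : Prop where
  fin : F.Finite
  cov : ∀ z ∈ B, ∃ y ∈ F, z ∈ W.S y
  conn : ∀ z ∈ B, ∀ y ∈ F, ∀ y' ∈ F, z ∈ W.S y → z ∈ W.S y' →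
    Relation.ReflTransGen (W.Adj z) y y'
  shut : ∀ z ∈ B, ∀ y ∈ F, ∀ y', W.Adj z y y' → y' ∈ F

variable {W}

theorem Chart.mono {F : Set Y} {B B' : Set ℂ} (h : W.Chart F B) (hB : B' ⊆ B) : W.Chart F B' :=
  ⟨h.fin, fun z hz => h.cov z (hB hz), fun z hz => h.conn z (hB hz), fun z hz => h.shut z (hB hz)⟩

/-- If adjacent tiles have the same folding map, it is constant on a chart. -/
theorem Chart.h_eq {F : Set Y} {B : Set ℂ} (h : W.Chart F B) (hB : IsPreconnected B)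
    (ha : ∀ z y y', W.Adj z y y' → W.h y = W.h y') {y y' : Y} (hy : y ∈ F) (hy' : y' ∈ F)
    {z z' : ℂ} (hz : z ∈ B ∩ W.S y) (hz' : z' ∈ B ∩ W.S y') : W.h y = W.h y' := by
  have e : ∀ u ∈ B, ∀ a ∈ F, ∀ b ∈ F, u ∈ W.S a → u ∈ W.S b → W.h a = W.h b :=
    fun u hu a h1 b h2 h3 h4 => by
      have h5 := h.conn u hu a h1 b h2 h3 h4
      clear h2 h4
      induction h5 with
      | refl => rfl
      | tail _ h6 ih => exact ih.trans (ha _ _ _ h6)
  refine hB.induction₂' (fun u v => ∀ a ∈ F, ∀ b ∈ F, u ∈ W.S a → v ∈ W.S b → W.h a = W.h b)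
    (fun x hx => ?_) (fun u v w _ hv _ h1 h2 a h3 b h4 h5 h6 => ?_) hz.1 hz'.1 y hy y' hy' hz.2 hz'.2
  · have : ∀ᶠ v in nhds x, ∀ a ∈ F, v ∈ W.S a → x ∈ W.S a :=
      (Filter.eventually_all_finite h.fin).2 fun a _ => by
        by_cases e : x ∈ W.S a
        · exact Filter.Eventually.of_forall fun _ _ => e
        · filter_upwards [(W.closed a).isOpen_compl.mem_nhds e] with v h1 h2 using absurd h2 h1
    filter_upwards [mem_nhdsWithin_of_mem_nhds this] with v hv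
    exact ⟨fun a h1 b h2 h3 h4 => e x hx a h1 b h2 h3 (hv b h2 h4),
      fun a h1 b h2 h3 h4 => e x hx a h1 b h2 (hv a h1 h3) h4⟩
  · obtain ⟨c, h7, h8⟩ := h.cov v hv
    exact (h1 a h3 c h7 h5 h8).trans (h2 c h7 b h4 h8 h6)

open Pool.Agent.P.MP_6145c0_co.Ng in
theorem Chart.xb {F : Set Y} {B : Set ℂ} (h : W.Chart F B) : XbAdj W.S W.Adj F B :=
  ⟨h.fin, fun w hw => ⟨h.cov w hw, fun a h1 b h2 h3 h4 => by
    have h5 := h.conn w hw a h1 b h2 h3 h4
    clear h2 h4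
    induction h5 with
    | refl => exact .refl _
    | tail _ h6 ih => exact .trans _ _ _ ih (.rel _ _ h6),
    fun a b e => ⟨fun h1 => h.shut w hw a h1 b e, fun h1 => h.shut w hw b h1 a (W.adj_symm e)⟩⟩⟩

open Pool.Agent.P.MP_6145c0_co.Ng in
/-- Charts of uniform size away from one folded point give packings that cover large balls. -/
theorem pack {r r1 D ρ : ℝ} {p : ℂ} (hr : 0 < r) (hD : ∀ y, ∀ z ∈ W.S y, ∀ w ∈ W.S y, dist z w ≤ D)
    (hc : ∀ y, ∀ z ∈ W.S y, r1 ≤ dist ((W.h y).symm z) p → ∃ F, y ∈ F ∧ W.Chart F (ball z r))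
    {y0 : Y} {z0 : ℂ} (h0 : z0 ∈ W.S y0) (hρ : 0 ≤ ρ)
    (hf : ρ + D + r1 ≤ dist ((W.h y0).symm z0) p) :
    ∃ G : Set Y, (G.Pairwise fun y y' => Disjoint (interior (W.S y)) (interior (W.S y'))) ∧
      ball z0 ρ ⊆ ⋃ y ∈ G, W.S y := by
  have heq : ∀ z, Equivalence (Relation.EqvGen (W.Adj z)) :=
    fun _ => Relation.EqvGen.is_equivalence _
  have hD0 : 0 ≤ D := by simpa using hD y0 z0 h0 z0 h0
  obtain ⟨s, h⟩ := xb_section (tile := W.S) (φ := fun y z => dist ((W.h y).symm z) p) (r₁ := r1)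
    (R := ρ + D) heq hr W.closed
    (fun y z w => (dist_dist_dist_le_left _ _ _).trans ((W.h y).symm.dist_eq z w).le)
    (fun z _ _ _ _ e => xb_eqv (fun y => dist ((W.h y).symm z) p)
      (fun a b e => by rw [W.adj_fold e]) e)
    (fun y z h1 h2 => (hc y z h1 h2).imp fun F hF => ⟨hF.1, hF.2.xb.chart⟩) h0
    (by positivity) (by linarith)
  have hs : ball z0 ρ ⊆ ball z0 (ρ + D) := ball_subset_ball (by linarith)
  have st : ∀ y, (∃ z ∈ ball z0 ρ, y ∈ s z) → ∀ b ∈ W.S y, b ∈ ball z0 (ρ + D) ∧ y ∈ s b := by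
    rintro y ⟨z, hz, hy⟩
    have h1 := (h.cls heq (hs hz) hy).1
    have h2 : W.S y ⊆ ball z0 (ρ + D) := fun b hb => by
      rw [mem_ball] at hz ⊢
      linarith [dist_triangle b z z0, hD y b hb z h1]
    exact fun b hb => ⟨h2 hb,
      h.stay ((W.conn y).subset_closure interior_subset (W.clo y)) h2 h1 hy b hb⟩
  refine ⟨{y | ∃ z ∈ ball z0 ρ, y ∈ s z}, fun a ha b hb hne => ?_, fun z hz => ?_⟩
  · refine disjoint_left.2 fun w h1 h2 => hne (xb_int (tile := W.S) (A := W.Adj w)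
      (fun _ _ e => ⟨W.adj_fr e, W.adj_fr (W.adj_symm e)⟩) ?_ h1)
    obtain ⟨h3, h4⟩ := st a ha w (interior_subset h1)
    have h5 := (st b hb w (interior_subset h2)).2
    rw [(h.cls heq h3 h4).2] at h5
    exact h5.2
  · obtain ⟨y, hy⟩ := h.nonempty heq (hs hz)
    exact mem_biUnion (x := y) ⟨z, hz, hy⟩ (h.cls heq (hs hz) hy).1

end Surf

end Pool.Agent.Ng
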