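import Pool.Agent.P.MP_6145c0_co.Ng.ChartA
import Pool.Agent.P.MP_6145c0_co.Ng.Sect
import Pool.Agent.P.MP_6145c0_co.Ng.XA

/-! The surface of a placed complex, its uniform charts, and the tiling. -/

open Set Real Metric

namespace Pool.Agent.Ng.FC

variable {n : ℕ} {T : Proto n} (F : FC T)

/-- Adjacent placed tiles: across a link, or across a mirror line. -/
def Adj (z : ℂ) (y y' : (ℂ ≃ᵢ ℂ) × F.X) : Prop :=
  (y'.1 = y.1 ∧ F.OAdj (y.1.symm z) y.2 y'.2) ∨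
    ∃ i, F.K.ZT (y.2, i) ∧ y.1.symm z ∈ F.ed (y.2, i) ∧ y' = (y.1 * F.ref (y.2, i), y.2)

variable {F}

theorem h19_mul (g : ℂ ≃ᵢ ℂ) (e : F.X × ZMod n) : g * F.ref e * F.ref e = g := by
  rw [mul_assoc, show F.ref e * F.ref e = 1 from T.ref_mul_self _, mul_one]

theorem h19_symm (g : ℂ ≃ᵢ ℂ) (e : F.X × ZMod n) (z : ℂ) :
    (g * F.ref e).symm z = F.ref e (g.symm z) := by
  rw [IsometryEquiv.symm_apply_eq, ← IsometryEquiv.mul_apply, h19_mul,
    IsometryEquiv.apply_symm_apply]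

theorem h19_fix {e : F.X × ZMod n} {w : ℂ} (h : w ∈ F.ed e) : F.ref e w = w :=
  T.ref_fix (T.ht_edge h)

theorem h19_mem (g : ℂ ≃ᵢ ℂ) (A : Set ℂ) (z : ℂ) : z ∈ g '' A ↔ g.symm z ∈ A :=
  ⟨fun ⟨w, hw, e⟩ => by rwa [← e, IsometryEquiv.symm_apply_apply],
    fun h => ⟨_, h, g.apply_symm_apply z⟩⟩

theorem h19_int (g : ℂ ≃ᵢ ℂ) (A : Set ℂ) : interior (g '' A) = g '' interior A :=
  (g.toHomeomorph.image_interior A).symm

theorem h19_sub {e : F.X × ZMod n} {w : ℂ} (h : w ∈ F.ed e) : w ∈ F.ts e.1 :=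
  T.edge_subset (pc F.pl e) h

theorem h19_lift (g : ℂ ≃ᵢ ℂ) {z : ℂ} {x x' : F.X}
    (h : Relation.ReflTransGen (F.OAdj (g.symm z)) x x') :
    Relation.ReflTransGen (F.Adj z) (g, x) (g, x') :=
  h.lift (fun x => (g, x)) fun _ _ k => Or.inl ⟨rfl, k⟩

theorem Adj.symm {z : ℂ} {y y' : (ℂ ≃ᵢ ℂ) × F.X} (h : F.Adj z y y') : F.Adj z y' y := by
  rcases h with ⟨h1, h2⟩ | ⟨i, h1, h2, rfl⟩
  · exact Or.inl ⟨h1.symm, h1 ▸ h2.symm⟩
  · refine Or.inr ⟨i, h1, ?_, Prod.ext (h19_mul _ _).symm rfl⟩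
    rwa [h19_symm, h19_fix h2]

theorem Adj.ed {z : ℂ} {y y' : (ℂ ≃ᵢ ℂ) × F.X} (h : F.Adj z y y') :
    ∃ i, y.1.symm z ∈ F.ed (y.2, i) := by
  rcases h with ⟨-, i, -, -, h2, -⟩ | ⟨i, -, h2, -⟩
  exacts [⟨i, h2⟩, ⟨i, h2⟩]

theorem Adj.fold {z : ℂ} {y y' : (ℂ ≃ᵢ ℂ) × F.X} (h : F.Adj z y y') :
    y.1.symm z = y'.1.symm z := by
  rcases h with ⟨h1, -⟩ | ⟨i, -, h2, rfl⟩
  · rw [h1]
  · rw [h19_symm, h19_fix h2]

theorem exists_surf (F : FC T) : ∃ W : Surf ((ℂ ≃ᵢ ℂ) × F.X),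
    (∀ y, W.S y = y.1 '' F.ts y.2) ∧ (∀ y, W.h y = y.1) ∧ W.Adj = F.Adj := by
  refine ⟨⟨fun y => y.1 '' F.ts y.2, Prod.fst, F.Adj, fun y => ?_, fun y => ?_, fun y => ?_,
    Adj.symm, fun h => ?_, fun h hz => ?_, Adj.fold⟩, fun _ => rfl, fun _ => rfl, rfl⟩
  · exact ((T.tset_compact _).image y.1.continuous).isClosed
  · rw [h19_int]
    refine Subset.trans ?_ (image_closure_subset_closure_image y.1.continuous)
    exact image_mono (T.tset_clo _).ge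
  · rw [h19_int]
    exact (T.tset_conn _).image _ y.1.continuous.continuousOn
  · obtain ⟨i, hi⟩ := h.ed
    exact (h19_mem _ _ _).2 (h19_sub hi)
  · obtain ⟨i, hi⟩ := h.ed
    rw [h19_int, h19_mem] at hz
    exact T.not_mem_edge (e := pc F.pl (_, i)) hz hi

section

variable {W : Surf ((ℂ ≃ᵢ ℂ) × F.X)} (hS : ∀ y, W.S y = y.1 '' F.ts y.2) (hA : W.Adj = F.Adj)
  {H : Set F.X} {B : Set ℂ} {e : F.X × ZMod n} {w : ℂ}
include hS hA

theorem Ch0.chart (h : F.Ch0 H B) (g : ℂ ≃ᵢ ℂ) : W.Chart ((fun x => (g, x)) '' H) (g '' B) := by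
  refine ⟨h.fin.image _, fun z hz => ?_, ?_, ?_⟩
  · obtain ⟨x, hx, hw⟩ := h.cov _ ((h19_mem _ _ _).1 hz)
    exact ⟨(g, x), ⟨x, hx, rfl⟩, by rwa [hS, h19_mem]⟩
  · rintro z hz _ ⟨x, hx, rfl⟩ _ ⟨x', hx', rfl⟩ h1 h2
    rw [hS, h19_mem] at h1 h2
    rw [hA]
    exact h19_lift g (h.conn _ ((h19_mem _ _ _).1 hz) x hx x' hx' h1 h2)
  · rintro z hz _ ⟨x, hx, rfl⟩ y' ha
    rw [hA] at ha
    have hz' := (h19_mem _ _ _).1 hz
    rcases ha with ⟨h1, i, j, h2, h3, h4⟩ | ⟨i, h1, h2, -⟩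
    · exact ⟨y'.2, (h.shut _ hz' x hx i h3).2 _ h2 h4, Prod.ext h1.symm rfl⟩
    · exact absurd h1 (h.shut _ hz' x hx i h2).1

/-- A half chart and its mirror image make a chart. -/
theorem HC.mirror (h : F.HC H e (ball w T.r2)) (hi : F.In e w) (hz : F.K.ZT e) (g : ℂ ≃ᵢ ℂ) :
    W.Chart ((fun x => (g, x)) '' H ∪ (fun x => (g * F.ref e, x)) '' H) (g '' ball w T.r2) := by
  have hr := T.r1_pos
  have hw : F.ht e w = 0 :=
    supp_ht (by simpa using hi 0 (by rw [abs_zero]; positivity))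
  have hrw : F.ref e w = w := T.ref_fix hw
  have hb : ∀ u ∈ ball w T.r2, F.ref e u ∈ ball w T.r2 := fun u hu => by
    rwa [mem_ball, ← hrw, IsometryEquiv.dist_eq]
  have hneg : ∀ u, F.ht e (F.ref e u) = -F.ht e u := T.ht_ref _
  have hG : ∀ y, y ∈ (fun x => (g, x)) '' H ∪ (fun x => (g * F.ref e, x)) '' H ↔
      (y.1 = g ∨ y.1 = g * F.ref e) ∧ y.2 ∈ H := fun y => by
    constructor
    · rintro (⟨x, hx, rfl⟩ | ⟨x, hx, rfl⟩)
      exacts [⟨.inl rfl, hx⟩, ⟨.inr rfl, hx⟩]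
    · rintro ⟨h1 | h1, h2⟩
      exacts [.inl ⟨_, h2, Prod.ext h1.symm rfl⟩, .inr ⟨_, h2, Prod.ext h1.symm rfl⟩]
  have hk : ∀ k, (k = g ∨ k = g * F.ref e) → ∀ z ∈ g '' ball w T.r2, k.symm z ∈ ball w T.r2 := by
    rintro k (rfl | rfl) z hz
    · exact (h19_mem _ _ _).1 hz
    · rw [h19_symm]
      exact hb _ ((h19_mem _ _ _).1 hz)
  have cross : ∀ (k : ℂ ≃ᵢ ℂ) (z : ℂ), k.symm z ∈ ball w T.r2 → ∀ x ∈ H, ∀ x' ∈ H,
      k.symm z ∈ F.ts x → (k * F.ref e).symm z ∈ F.ts x' →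
      Relation.ReflTransGen (F.Adj z) (k, x) (k * F.ref e, x') := by
    intro k z hu x hx x' hx' h1 h2
    have h2' := h2
    rw [h19_symm] at h2'
    have a1 := (h.cov _ hu).2 ⟨x, hx, h1⟩
    have a2 := (h.cov _ (hb _ hu)).2 ⟨x', hx', h2'⟩
    rw [hneg] at a2
    have a3 : F.ht e (k.symm z) = 0 := by linarith
    have a4 : (k * F.ref e).symm z = k.symm z := by
      rw [h19_symm]
      exact T.ref_fix a3
    obtain ⟨t, ht⟩ := (T.ht_zero_iff hw _).1 a3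
    have a5 : |t| < T.r1 / 4 := by
      have := mem_ball.1 hu
      rw [ht, dist_eq_norm, add_sub_cancel_left, norm_mul, Circle.norm_coe, mul_one,
        Complex.norm_real, Real.norm_eq_abs] at this
      linarith [T.r2_le]
    obtain ⟨e', s1, s2⟩ := hi t a5
    have s3 : k.symm z ∈ F.ed e' := ht ▸ s2
    have s4 := h.side _ hu e' s1.symm s3
    refine (h19_lift k (h.conn _ hu x hx _ s4 h1 (h19_sub s3))).trans
      (Relation.ReflTransGen.head (b := (k * F.ref e, e'.1)) ?_ (h19_lift _ ?_))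
    · exact Or.inr ⟨e'.2, hz.of_same s1, s3, by rw [← (same_ht s1).2]⟩
    · rw [a4] at h2 ⊢
      exact h.conn _ hu _ s4 x' hx' (h19_sub s3) h2
  refine ⟨(h.fin.image _).union (h.fin.image _), fun z hz' => ?_, ?_, ?_⟩
  · have hu := (h19_mem _ _ _).1 hz'
    rcases le_total 0 (F.ht e (g.symm z)) with a | a
    · obtain ⟨x, hx, h1⟩ := (h.cov _ hu).1 a
      exact ⟨(g, x), .inl ⟨x, hx, rfl⟩, by rwa [hS, h19_mem]⟩
    · obtain ⟨x, hx, h1⟩ := (h.cov _ (hb _ hu)).1 (by rw [hneg]; linarith)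
      exact ⟨(g * F.ref e, x), .inr ⟨x, hx, rfl⟩, by rwa [hS, h19_mem, h19_symm]⟩
  · rintro z hz' ⟨k, x⟩ hy ⟨k', x'⟩ hy' h1 h2
    obtain ⟨a1, hx⟩ := (hG _).1 hy
    obtain ⟨a2, hx'⟩ := (hG _).1 hy'
    rw [hS, h19_mem] at h1 h2
    rw [hA]
    have hu := hk k a1 z hz'
    have a3 : k' = k ∨ k' = k * F.ref e := by
      rcases a1 with a1 | a1 <;> rcases a2 with a2 | a2
      · exact .inl (a2.trans a1.symm)
      · exact .inr (by rw [show k = g from a1]; exact a2)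
      · exact .inr (by rw [show k = _ from a1, h19_mul]; exact a2)
      · exact .inl (a2.trans a1.symm)
    rcases a3 with rfl | rfl
    · exact h19_lift _ (h.conn _ hu x hx x' hx' h1 h2)
    · exact cross k z hu x hx x' hx' h1 h2
  · rintro z hz' ⟨k, x⟩ hy y' ha
    obtain ⟨a1, hx⟩ := (hG _).1 hy
    rw [hA] at ha
    have hu := hk k a1 z hz'
    rw [hG]
    rcases ha with ⟨h1, i, j, h2, h3, h4⟩ | ⟨i, h1, h2, rfl⟩
    · refine ⟨h1 ▸ a1, ?_⟩
      rcases h.shut _ hu x hx i h3 with s | s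
      · exact absurd h2 (hz.of_same s.symm _)
      · exact s.2 _ h2 h4
    · refine ⟨?_, hx⟩
      rcases h.shut _ hu x hx i h2 with s | s
      · rw [← (same_ht s).2]
        rcases a1 with a1 | a1
        · exact .inr (by rw [show k = g from a1])
        · exact .inl (by rw [show k = _ from a1, h19_mul])
      · exact absurd h1 s.1

theorem HC.chart (h : F.HC H e (ball w T.r2)) (hi : F.In e w) (g : ℂ ≃ᵢ ℂ) :
    ∃ G, (∀ x ∈ H, (g, x) ∈ G) ∧ W.Chart G (ball (g w) T.r2) := by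
  rw [← g.image_ball]
  by_cases hz : F.K.ZT e
  · exact ⟨_, fun x hx => .inl ⟨x, hx, rfl⟩, h.mirror hS hA hi hz g⟩
  · obtain ⟨e', ho⟩ : ∃ e', F.K.Opp e e' := by
      by_contra hn
      exact hz fun e' ho => hn ⟨e', ho⟩
    obtain ⟨H', h'⟩ := (hi.opp ho).exists_hc
    exact ⟨_, fun x hx => mem_image_of_mem (fun x => (g, x)) (Or.inl hx : x ∈ H ∪ H'),
      (h.glue h' hi ho).chart hS hA g⟩

/-- The uniform chart. -/
theorem chart (g : ℂ ≃ᵢ ℂ) {x : F.X} (hw : w ∈ F.ts x) (hp : T.r1 ≤ dist w F.p) :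
    ∃ G, (g, x) ∈ G ∧ W.Chart G (ball (g w) (T.r2 / 2)) := by
  have h2 := T.r2_pos
  have h4 := T.r2_le
  have k0 : ∀ {H : Set F.X}, x ∈ H → F.Ch0 H (ball w (T.r2 / 2)) →
      ∃ G, (g, x) ∈ G ∧ W.Chart G (ball (g w) (T.r2 / 2)) := fun hx h =>
    ⟨_, mem_image_of_mem (fun x => (g, x)) hx, g.image_ball w _ ▸ h.chart hS hA g⟩
  have k1 : ∀ {H : Set F.X} {e : F.X × ZMod n} {q : ℂ}, x ∈ H → F.HC H e (ball q T.r2) →
      F.In e q → dist w q < T.r2 / 2 →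
      ∃ G, (g, x) ∈ G ∧ W.Chart G (ball (g w) (T.r2 / 2)) := fun hx h hi hd => by
    obtain ⟨G, h1, h3⟩ := h.chart hS hA hi g
    exact ⟨G, h1 x hx, h3.mono (ball_subset_ball' (by rw [g.dist_eq]; linarith))⟩
  by_cases hf : ∃ q ∈ ball w (T.r2 / 2), q ∈ frontier (F.ts x)
  swap
  · have a1 : ∀ q ∈ ball w (T.r2 / 2), q ∈ F.ts x → q ∈ interior (F.ts x) := fun q hq h => by
      by_contra hn
      exact hf ⟨q, hq, subset_closure h, hn⟩
    have a2 : w ∈ ball w (T.r2 / 2) := mem_ball_self (by positivity)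
    refine k0 (mem_singleton x) ((ch0_int x).mono ?_)
    refine (convex_ball w _).isPreconnected.subset_of_closure_inter_subset isOpen_interior
      ⟨w, a2, a1 w a2 hw⟩ fun q hq => a1 q hq.2 ?_
    exact (T.tset_clo _).le hq.1
  obtain ⟨q, hq, hq'⟩ := hf
  rw [ts, T.tset_fr] at hq'
  obtain ⟨i, hi⟩ := mem_iUnion.1 hq'
  have hi' : q ∈ F.ed (x, i) := hi
  have hd : dist w q < T.r2 / 2 := mem_ball'.1 hq
  by_cases hm : ∀ b, T.r1 / 4 ≤ dist q (F.pt (fc b (x, i)))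
  · exact k1 (mem_singleton x) (hc_one hi' hm) (in_of_mid hi' hm) hd
  obtain ⟨b, hb⟩ := not_forall.1 hm
  have hc : dist w (F.pt (fc b (x, i))) < T.r1 / 4 + T.r2 / 2 := by
    linarith [dist_triangle w q (F.pt (fc b (x, i))), not_le.1 hb]
  have hx : (fc b (x, i)).1 = x := fc_fst _ _
  generalize fc b (x, i) = c at hc hx
  rcases F.star c with ⟨f, l, rfl, hs⟩ | ⟨f, l, j, hj, rfl, hs⟩ | ⟨hs, -⟩
  · exact k0 (H := fan f l) ⟨0, Nat.zero_le _, hx.symm⟩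
      ((ch0_cyc hs).mono (ball_subset_ball' (by linarith)))
  · have e0 : F.pt (f j) = F.pt (f 0) := F.geo.ch_pt hs.1 hj
    rw [e0] at hc
    have hx' : x ∈ fan f l := ⟨j, hj, hx.symm⟩
    have hh := hc_half hs
    have a1 := (hh.cov w (mem_ball.2 (by linarith))).2 ⟨x, hx', hw⟩
    rcases le_or_gt (T.r2 / 2) (F.ht (nr true (f 0)) w) with a2 | a2
    · refine k0 hx' ((hh.mono (ball_subset_ball' (by linarith))).ch0 fun u hu => ?_)
      have a3 : |F.ht (nr true (f 0)) w - F.ht (nr true (f 0)) u| ≤ dist w u :=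
        T.abs_ht_sub _ w u
      linarith [le_abs_self (F.ht (nr true (f 0)) w - F.ht (nr true (f 0)) u), mem_ball'.1 hu]
    · obtain ⟨w0, b1, b2, b3⟩ := T.exists_foot (pc F.pl (nr true (f 0))) w
      have b4 : dist w0 (F.pt (f 0)) ≤ dist w (F.pt (f 0)) :=
        b3 _ (T.ht_edge (T.pt_mem_edge false (pc F.pl (nr true (f 0)))))
      have b5 : dist w w0 < T.r2 / 2 := by
        rw [b2]
        exact (abs_of_nonneg a1).trans_lt a2
      refine k1 hx' (hh.mono (ball_subset_ball' (by linarith))) (in_of_nx hs.nx b1 ?_) b5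
      rw [fc_nr]
      linarith
  · rw [show F.pt c = F.p from hs] at hc
    linarith

end

/-- The placed complex is unbounded. -/
theorem far (F : FC T) (R : ℝ) : ∃ x, ∃ w ∈ F.ts x, R ≤ dist w F.p := by
  by_cases hz : ∃ e, F.K.ZT e
  · obtain ⟨e, he⟩ := hz
    exact zt_far he R
  obtain ⟨W, hS, hh, hA⟩ := F.exists_surf
  have h1 := T.r1_pos
  have h2 := T.r2_pos
  have ha : ∀ z y y', W.Adj z y y' → W.h y = W.h y' := fun z y y' h => by
    rw [hA] at h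
    rcases h with ⟨h, -⟩ | ⟨i, h, -⟩
    · rw [hh, hh, h]
    · exact absurd ⟨_, h⟩ hz
  have key : ∀ k : ℕ, ∃ x, ∃ w ∈ F.ts x, T.r1 + k * (T.r2 / 4) ≤ dist w F.p := by
    intro k
    induction k with
    | zero =>
      have a1 := T.r1_le (F.pl F.x0, 0)
      have a2 : dist (T.pt (fc true (F.pl F.x0, 0))) (T.pt (fc (!true) (F.pl F.x0, 0))) =
          T.len (F.pl F.x0, 0) := by
        rw [T.pt_fc true]
        exact Proto.h54_dist _ _ (T.len_pos _).le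
      have a3 := dist_triangle_right (T.pt (fc true (F.pl F.x0, 0)))
        (T.pt (fc (!true) (F.pl F.x0, 0))) F.p
      rw [Nat.cast_zero, zero_mul, add_zero]
      rcases le_or_gt T.r1 (dist (T.pt (fc true (F.pl F.x0, 0))) F.p) with a | a
      · exact ⟨F.x0, _, T.edge_subset _ (T.pt_mem_edge true (F.pl F.x0, 0)), a⟩
      · exact ⟨F.x0, _, T.edge_subset _ (T.pt_mem_edge (!true) (F.pl F.x0, 0)), by linarith⟩
    | succ k ih =>
      obtain ⟨x, w, hw, hd⟩ := ih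
      have a0 : 0 ≤ k * (T.r2 / 4) := by positivity
      obtain ⟨G, hG, hc⟩ := chart hS hA 1 hw (by linarith)
      have a1 : 0 < ‖w - F.p‖ := by
        rw [← dist_eq_norm]
        linarith
      obtain ⟨s, hs⟩ : ∃ s : ℝ, s = T.r2 / 4 / ‖w - F.p‖ := ⟨_, rfl⟩
      have a2 : 0 < s := by rw [hs]; positivity
      have a3 : s * ‖w - F.p‖ = T.r2 / 4 := by rw [hs]; field_simp
      have a4 : w + s • (w - F.p) ∈ ball ((1 : ℂ ≃ᵢ ℂ) w) (T.r2 / 2) := by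
        change dist _ w < _
        rw [dist_eq_norm, add_sub_cancel_left, norm_smul, Real.norm_of_nonneg a2.le]
        linarith
      obtain ⟨y, hy, a5⟩ := hc.cov _ a4
      have a6 := hc.h_eq (convex_ball _ _).isPreconnected ha hy hG ⟨a4, a5⟩
        (z' := w) ⟨mem_ball_self (by positivity), by rw [hS]; exact ⟨w, hw, rfl⟩⟩
      rw [hh, hh] at a6
      rw [hS, a6] at a5
      obtain ⟨w', b1, b2⟩ := a5
      refine ⟨y.2, w', b1, ?_⟩
      have b3 : w' - F.p = (1 + s) • (w - F.p) := by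
        rw [show w' = w + s • (w - F.p) from b2, add_smul, one_smul]
        ring
      rw [dist_eq_norm] at hd ⊢
      rw [b3, norm_smul, Real.norm_of_nonneg (by linarith), Nat.cast_succ]
      linarith
  obtain ⟨k, hk⟩ := exists_nat_ge (R / (T.r2 / 4))
  obtain ⟨x, w, hw, hd⟩ := key k
  rw [div_le_iff₀ (by positivity)] at hk
  exact ⟨x, w, hw, by linarith⟩

theorem tiles (F : FC T) : Tiles T.C := by
  obtain ⟨W, hS, hh, hA⟩ := F.exists_surf
  have key : ∀ R : ℝ, ∃ (z : ℂ) (P : Set (Set ℂ)), (∀ D ∈ P, ∃ f : ℂ ≃ᵢ ℂ, D = f '' T.C) ∧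
      (P.Pairwise fun A B => Disjoint (interior A) (interior B)) ∧ ball z R ⊆ ⋃₀ P := by
    intro R
    obtain ⟨x, w, hw, hd⟩ := F.far (max R 0 + T.D + T.r1)
    obtain ⟨G, h1, h2⟩ := Surf.pack (W := W) (r := T.r2 / 2) (r1 := T.r1) (D := T.D) (p := F.p)
      (half_pos T.r2_pos) (fun y z hz u hu => by
        rw [hS, h19_mem] at hz hu
        rw [← y.1.symm.dist_eq]
        exact T.dist_le_D hz hu) (fun y z hz hp => by
        rw [hS, h19_mem] at hz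
        rw [hh] at hp
        have := chart hS hA y.1 hz hp
        rwa [IsometryEquiv.apply_symm_apply] at this)
      (y0 := (1, x)) (z0 := w) (by rw [hS]; exact ⟨w, hw, rfl⟩) (le_max_right R 0)
      (by rw [hh]; exact hd)
    refine ⟨w, W.S '' G, ?_, ?_, ?_⟩
    · rintro _ ⟨y, -, rfl⟩
      obtain ⟨f, hf⟩ := T.tset_congr (F.pl y.2)
      exact ⟨f.trans y.1, by rw [hS, ts, hf, image_image]; rfl⟩
    · rintro _ ⟨y, hy, rfl⟩ _ ⟨y', hy', rfl⟩ hne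
      exact h1 hy hy' fun e => hne (by rw [e])
    · rw [sUnion_image]
      exact (ball_subset_ball (le_max_left R 0)).trans h2
  obtain ⟨P, h1, h2, h3⟩ := P.MP_6145c0_co.Ng.xa_compact (T.T false).cpt key
  exact ⟨P, ⟨h1, h2⟩, h3⟩

end Pool.Agent.Ng.FC
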