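import Pool.Agent.P.MP_6145c0_co.Ng.Poly

/-! Complexes of linked corners: chains, sides and typed walks. No geometry. -/

open Set

namespace Pool.Agent.Ng

/-- The first `l` steps of the sequence `f` are steps of `R`. -/
def Seq {α : Type} (R : α → α → Prop) (f : ℕ → α) (l : ℕ) : Prop := ∀ i < l, R (f i) (f (i + 1))

section

variable {α : Type} {R R' : α → α → Prop} {f f' : ℕ → α} {l l' : ℕ}

theorem Seq.zero (R : α → α → Prop) (f : ℕ → α) : Seq R f 0 := fun _ h => absurd h (by omega)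

theorem Seq.mono (h : Seq R f l) (hl : l' ≤ l) : Seq R f l' := fun i hi => h i (by omega)

theorem Seq.imp (h : Seq R f l) (hR : ∀ i < l, R (f i) (f (i + 1)) → R' (f i) (f (i + 1))) :
    Seq R' f l := fun i hi => hR i hi (h i hi)

theorem Seq.of_eq (h : Seq R f l) (he : ∀ i ≤ l, f' i = f i) : Seq R f' l := by
  intro i hi
  rw [he i hi.le, he (i + 1) hi]
  exact h i hi

theorem Seq.shift (h : Seq R f l) (j : ℕ) : Seq R (fun i => f (j + i)) (l - j) := by
  exact fun i hi => h (j + i) (by omega)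

theorem Seq.rev (h : Seq R f l) (hR : ∀ a b, R a b → R' b a) :
    Seq R' (fun i => f (l - i)) l := by
  intro i hi
  have h1 := hR _ _ (h (l - (i + 1)) (by omega))
  rwa [show l - (i + 1) + 1 = l - i by omega] at h1

theorem Seq.snoc (h : Seq R f l) {a : α} (ha : R (f l) a) :
    ∃ g, (∀ i ≤ l, g i = f i) ∧ g (l + 1) = a ∧ Seq R g (l + 1) := by
  refine ⟨fun i => if i ≤ l then f i else a, fun i hi => if_pos hi, if_neg (by omega),
    fun i hi => ?_⟩
  show R (if i ≤ l then f i else a) (if i + 1 ≤ l then f (i + 1) else a)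
  rw [if_pos (show i ≤ l by omega)]
  split_ifs with e
  · exact h i e
  · rwa [show i = l by omega]

theorem Seq.append (h : Seq R f l) (h' : Seq R f' l') (he : f' 0 = f l) :
    ∃ g, (∀ i ≤ l, g i = f i) ∧ (∀ i, g (l + i) = f' i) ∧ Seq R g (l + l') := by
  have h1 : ∀ i, (if l + i ≤ l then f (l + i) else f' (l + i - l)) = f' i := fun i => by
    split_ifs with hi
    · obtain rfl : i = 0 := by omega
      exact he.symm
    · rw [Nat.add_sub_cancel_left]
  refine ⟨fun i => if i ≤ l then f i else f' (i - l), fun i hi => if_pos hi, h1, fun i hi => ?_⟩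
  by_cases e : i < l
  · show R (if i ≤ l then f i else _) (if i + 1 ≤ l then f (i + 1) else _)
    rw [if_pos e.le, if_pos (show i + 1 ≤ l from e)]
    exact h i e
  · obtain ⟨j, rfl⟩ : ∃ j, i = l + j := ⟨i - l, by omega⟩
    show R (if l + j ≤ l then f (l + j) else f' (l + j - l))
      (if l + (j + 1) ≤ l then f (l + (j + 1)) else f' (l + (j + 1) - l))
    rw [h1 j, h1 (j + 1)]
    exact h' j (by omega)

theorem Seq.unique (hR : ∀ a b c, R a b → R a c → b = c) (h : Seq R f l) (h' : Seq R f' l')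
    (h0 : f 0 = f' 0) {i : ℕ} (hi : i ≤ l) (hi' : i ≤ l') : f i = f' i := by
  induction i with
  | zero => exact h0
  | succ i ih =>
    have e := ih (by omega) (by omega)
    exact hR _ _ _ (h i hi) (e ▸ h' i hi')

theorem Seq.le_of_end (hR : ∀ a b c, R a b → R a c → b = c) (h : Seq R f l) (h' : Seq R f' l')
    (h0 : f 0 = f' 0) (he : ∀ a, ¬R (f l) a) : l' ≤ l := by
  by_contra hl
  have e := h.unique hR h' h0 le_rfl (show l ≤ l' by omega)
  exact he _ (e ▸ h' l (by omega))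

theorem Seq.no_return (hR : ∀ a b c, R a b → R a c → b = c) (h : Seq R f l)
    (he : ∀ a, ¬R (f l) a) {i : ℕ} (h0 : 0 < i) (hi : i ≤ l) : f i ≠ f 0 := by
  intro e
  have h1 := (h.shift i).le_of_end hR h e (by
    show ∀ a, ¬R (f (i + (l - i))) a
    rwa [show i + (l - i) = l by omega])
  omega

theorem Seq.back (hR : ∀ a b c, R a c → R b c → a = b) (h : Seq R f l) (h' : Seq R f' l')
    (he : f l = f' l') (h0 : ∀ a, ¬R a (f 0)) (h0' : ∀ a, ¬R a (f' 0)) : l = l' ∧ f 0 = f' 0 := by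
  have hR' : ∀ a b c, R b a → R c a → b = c := fun a b c => hR b c a
  have r := h.rev (R' := fun a b => R b a) fun _ _ => id
  have r' := h'.rev (R' := fun a b => R b a) fun _ _ => id
  have e1 := r.le_of_end hR' r' he (by simpa using h0)
  have e2 := r'.le_of_end hR' r he.symm (by simpa using h0')
  obtain rfl : l = l' := by omega
  exact ⟨rfl, by simpa using r.unique hR' r' he le_rfl le_rfl⟩

end

/-- Tiles with a kind, and links between their corners. -/
structure Cx (n : ℕ) (X : Type) where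
  kd : X → Bool
  L : Bool → X × ZMod n → X × ZMod n → Prop
  fn : ∀ {b c c' c''}, L b c c' → L b c c'' → c' = c''
  inv : ∀ {b c c'}, L b c c' → L (!b) c' c

/-- The type of a step along a link. -/
structure Stp (n : ℕ) where
  i : ZMod n
  b : Bool
  s : Bool
  j : ZMod n

theorem finite_words (n : ℕ) [NeZero n] (r : ℕ) : {w : List (Stp n) | w.length ≤ r}.Finite := by
  have : Finite (Stp n) :=
    Finite.of_injective (fun s : Stp n => (s.i, s.b, s.s, s.j)) fun s t h => by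
      cases s; cases t; simpa using h
  exact List.finite_length_le _ r

namespace Cx

variable {n : ℕ} {X : Type} (K : Cx n X)

/-- No link leaves `c` in the direction `b`. -/
def End (b : Bool) (c : X × ZMod n) : Prop := ∀ c', ¬K.L b c c'

/-- A chain of links. -/
def Ch (b : Bool) (f : ℕ → X × ZMod n) (l : ℕ) : Prop := Seq (K.L b) f l

/-- The dart `e'` continues the dart `e` in the direction `b`. -/
def Nx (b : Bool) (e e' : X × ZMod n) : Prop :=
  K.End b (fc b e) ∧ ∃ f l, f 0 = fc b e ∧ K.Ch (!b) f l ∧ K.End (!b) (f l) ∧ e' = nr b (f l)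

/-- A side: a sequence of darts, each continuing the one before. -/
def Sd (b : Bool) (g : ℕ → X × ZMod n) (l : ℕ) : Prop := Seq (K.Nx b) g l

/-- A walk along links with given types. -/
def Walk : List (Stp n) → X → X → Prop
  | [], x, y => y = x
  | st :: w, x, y => ∃ x', K.L st.b (x, st.i) (x', st.j) ∧ K.kd x' = st.s ∧ Walk w x' y

/-- `y` is at most `r` links from `x`. -/
def Near (x : X) (r : ℕ) (y : X) : Prop := ∃ w : List (Stp n), w.length ≤ r ∧ K.Walk w x y

/-- `e'` comes after `e` on a side run in the direction `b`. -/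
def Fw (b : Bool) (e e' : X × ZMod n) : Prop := ∃ g l, g 0 = e ∧ K.Sd b g l ∧ g l = e'

/-- Two darts of one side. -/
def Same (e e' : X × ZMod n) : Prop := ∃ b, K.Fw b e e'

/-- Two darts on the two sides of a link. -/
def Opp (e e' : X × ZMod n) : Prop :=
  ∃ b a a', K.L b a a' ∧ K.Same e (nr (!b) a) ∧ K.Same e' (nr b a')

/-- A dart of a side with no link at either end. -/
def ZT (e : X × ZMod n) : Prop := ∀ e', ¬K.Opp e e'

/-- If one side of a link ends with a link, the other side ends there too. -/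
def Match : Prop :=
  ∀ b a a' g' l' c, K.L b a a' → g' 0 = nr b a' → K.Sd b g' l' → K.L b (fc b (g' l')) c →
    ∃ g l, g 0 = nr (!b) a ∧ K.Sd (!b) g l ∧ fc (!b) (g l) = c

variable {K} {b : Bool} {c c' c'' e e' e'' : X × ZMod n}

theorem inv' (h : K.L (!b) c c') : K.L b c' c := by simpa using K.inv h

theorem inj (h : K.L b c c'') (h' : K.L b c' c'') : c = c' := K.fn (K.inv h) (K.inv h')

theorem Ch.rev {f : ℕ → X × ZMod n} {l : ℕ} (h : K.Ch b f l) :
    K.Ch (!b) (fun i => f (l - i)) l := Seq.rev h fun _ _ => K.inv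

theorem Ch.unique {f f' : ℕ → X × ZMod n} {l l' : ℕ} (h : K.Ch b f l) (h' : K.Ch b f' l')
    (h0 : f 0 = f' 0) {i : ℕ} (hi : i ≤ l) (hi' : i ≤ l') : f i = f' i :=
  Seq.unique (R := K.L b) (fun _ _ _ => K.fn) h h' h0 hi hi'

theorem Ch.le_of_end {f f' : ℕ → X × ZMod n} {l l' : ℕ} (h : K.Ch b f l) (h' : K.Ch b f' l')
    (h0 : f 0 = f' 0) (he : K.End b (f l)) : l' ≤ l :=
  Seq.le_of_end (R := K.L b) (fun _ _ _ => K.fn) h h' h0 he

theorem Nx.fn (h : K.Nx b e e') (h' : K.Nx b e e'') : e' = e'' := by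
  obtain ⟨-, f, l, f0, hf, hl, rfl⟩ := h
  obtain ⟨-, f', l', f0', hf', hl', rfl⟩ := h'
  have e := f0.trans f0'.symm
  obtain rfl : l = l' := le_antisymm (hf'.le_of_end hf e.symm hl') (hf.le_of_end hf' e hl)
  rw [hf.unique hf' e le_rfl le_rfl]

theorem Nx.symm (h : K.Nx b e e') : K.Nx (!b) e' e := by
  obtain ⟨h1, f, l, f0, hf, hl, rfl⟩ := h
  refine ⟨by simpa using hl, fun i => f (l - i), l, by simp, hf.rev, ?_, ?_⟩
  · simpa [f0] using h1
  · simp [f0]

theorem Nx.inj (h : K.Nx b e e'') (h' : K.Nx b e' e'') : e = e' := h.symm.fn h'.symm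

theorem Sd.rev {g : ℕ → X × ZMod n} {l : ℕ} (h : K.Sd b g l) :
    K.Sd (!b) (fun i => g (l - i)) l := Seq.rev h fun _ _ => Nx.symm

theorem Sd.unique {g g' : ℕ → X × ZMod n} {l l' : ℕ} (h : K.Sd b g l) (h' : K.Sd b g' l')
    (h0 : g 0 = g' 0) {i : ℕ} (hi : i ≤ l) (hi' : i ≤ l') : g i = g' i :=
  Seq.unique (R := K.Nx b) (fun _ _ _ => Nx.fn) h h' h0 hi hi'

theorem Sd.le_of_link {g g' : ℕ → X × ZMod n} {l l' : ℕ} (h : K.Sd b g l) (h' : K.Sd b g' l')
    (h0 : g 0 = g' 0) (he : K.L b (fc b (g l)) c) : l' ≤ l :=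
  Seq.le_of_end (R := K.Nx b) (fun _ _ _ => Nx.fn) h h' h0 fun _ ha => ha.1 _ he

/-- A dart fixes the link at which its side starts. -/
theorem Sd.back {g g' : ℕ → X × ZMod n} {l l' : ℕ} {a a' : X × ZMod n} (h : K.Sd b g l)
    (h' : K.Sd b g' l') (he : g l = g' l') (h0 : g 0 = nr b a) (h0' : g' 0 = nr b a')
    (ha : K.L (!b) a c) (ha' : K.L (!b) a' c') : a = a' := by
  have k : ∀ {a c : X × ZMod n}, K.L (!b) a c → ∀ e, ¬K.Nx b e (nr b a) :=
    fun ha e hn => hn.symm.1 _ (by simpa using ha)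
  have e := (Seq.back (R := K.Nx b) (fun _ _ _ => Nx.inj) h h' he (h0 ▸ k ha) (h0' ▸ k ha')).2
  rw [h0, h0'] at e
  simpa using congrArg (fc (!b)) e

theorem Walk.fn {w : List (Stp n)} {x y y' : X} (h : K.Walk w x y) (h' : K.Walk w x y') :
    y = y' := by
  induction w generalizing x with
  | nil => exact Eq.trans h (Eq.symm h')
  | cons st w ih =>
    obtain ⟨x1, a1, -, a2⟩ := h
    obtain ⟨x2, b1, -, b2⟩ := h'
    obtain rfl : x1 = x2 := congrArg Prod.fst (K.fn a1 b1)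
    exact ih a2 b2

theorem Walk.inj {w : List (Stp n)} {x x' y : X} (h : K.Walk w x y) (h' : K.Walk w x' y) :
    x = x' := by
  induction w generalizing x x' with
  | nil => exact Eq.trans (Eq.symm h) h'
  | cons st w ih =>
    obtain ⟨x1, a1, -, a2⟩ := h
    obtain ⟨x2, b1, -, b2⟩ := h'
    obtain rfl : x1 = x2 := ih a2 b2
    exact congrArg Prod.fst (Cx.inj a1 b1)

theorem walk_append {w w' : List (Stp n)} {x z : X} :
    K.Walk (w ++ w') x z ↔ ∃ y, K.Walk w x y ∧ K.Walk w' y z := by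
  induction w generalizing x with
  | nil =>
    refine ⟨fun h => ⟨x, rfl, h⟩, ?_⟩
    rintro ⟨y, h1, h2⟩
    obtain rfl : y = x := h1
    exact h2
  | cons st w ih =>
    constructor
    · rintro ⟨x1, a1, a2, a3⟩
      obtain ⟨y, b1, b2⟩ := ih.1 a3
      exact ⟨y, ⟨x1, a1, a2, b1⟩, b2⟩
    · rintro ⟨y, ⟨x1, a1, a2, b1⟩, b2⟩
      exact ⟨x1, a1, a2, ih.2 ⟨y, b1, b2⟩⟩

theorem Near.refl (x : X) (r : ℕ) : K.Near x r x := ⟨[], Nat.zero_le _, rfl⟩

theorem Near.mono {x y : X} {r r' : ℕ} (h : K.Near x r y) (hr : r ≤ r') : K.Near x r' y :=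
  let ⟨w, h1, h2⟩ := h
  ⟨w, h1.trans hr, h2⟩

theorem Near.step {x : X} {r : ℕ} (h : K.Near x r c.1) (hl : K.L b c c') :
    K.Near x (r + 1) c'.1 := by
  obtain ⟨w, h1, h2⟩ := h
  refine ⟨w ++ [⟨c.2, b, K.kd c'.1, c'.2⟩], by simpa using h1,
    walk_append.2 ⟨c.1, h2, c'.1, hl, rfl, rfl⟩⟩

theorem Fw.refl (b : Bool) (e : X × ZMod n) : K.Fw b e e := ⟨fun _ => e, 0, rfl, Seq.zero _ _, rfl⟩

theorem Fw.symm (h : K.Fw b e e') : K.Fw (!b) e' e := by
  obtain ⟨g, l, rfl, hg, rfl⟩ := h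
  exact ⟨fun i => g (l - i), l, rfl, hg.rev, by simp⟩

theorem Fw.trans (h : K.Fw b e e') (h' : K.Fw b e' e'') : K.Fw b e e'' := by
  obtain ⟨g, l, rfl, hg, rfl⟩ := h
  obtain ⟨g', l', e0, hg', rfl⟩ := h'
  obtain ⟨k, k1, k2, k3⟩ := Seq.append hg hg' e0
  exact ⟨k, l + l', k1 0 (Nat.zero_le _), k3, k2 l'⟩

theorem Fw.total (h : K.Fw b e e') (h' : K.Fw b e e'') : K.Fw b e' e'' ∨ K.Fw b e'' e' := by
  have k : ∀ {g g' : ℕ → X × ZMod n} {l l' : ℕ}, K.Sd b g l → K.Sd b g' l' → g 0 = g' 0 →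
      l ≤ l' → K.Fw b (g l) (g' l') := fun {g g' l l'} hg hg' e0 hl =>
    ⟨fun i => g' (l + i), l' - l, (hg.unique hg' e0 le_rfl hl).symm, Seq.shift hg' l,
      congrArg g' (by omega)⟩
  obtain ⟨g, l, rfl, hg, rfl⟩ := h
  obtain ⟨g', l', e0, hg', rfl⟩ := h'
  exact (le_total l l').imp (k hg hg' e0.symm) (k hg' hg e0)

theorem Nx.fw (h : K.Nx b e e') : K.Fw b e e' := by
  obtain ⟨g, g1, g2, g3⟩ := (Seq.zero (K.Nx b) fun _ => e).snoc h
  exact ⟨g, 0 + 1, g1 0 le_rfl, g3, g2⟩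

theorem Fw.cases (h : K.Fw b e e') : e' = e ∨ ∃ e1, K.Nx b e e1 ∧ K.Fw b e1 e' := by
  obtain ⟨g, l, rfl, hg, rfl⟩ := h
  rcases l with _ | l
  · exact .inl rfl
  · exact .inr ⟨g 1, hg 0 (by omega), fun i => g (1 + i), l + 1 - 1, rfl, Seq.shift hg 1,
      congrArg g (by omega)⟩

theorem Same.refl (e : X × ZMod n) : K.Same e e := ⟨true, Fw.refl _ _⟩

theorem Same.symm (h : K.Same e e') : K.Same e' e := let ⟨_, h⟩ := h; ⟨_, h.symm⟩

theorem Same.trans (h : K.Same e e') (h' : K.Same e' e'') : K.Same e e'' := by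
  obtain ⟨b, h⟩ := h
  obtain ⟨b', h'⟩ := h'
  by_cases e : b' = b
  · exact ⟨b, h.trans (e ▸ h')⟩
  · obtain rfl : b' = !b := Bool.eq_not_iff.2 e
    rcases h.symm.total h' with k | k
    · exact ⟨_, k⟩
    · exact ⟨_, k.symm⟩

/-- From a dart whose far corner has a link, the side can only be run backwards. -/
theorem Same.fw (h : K.Same e e') (hl : K.L b (fc b e) c) : K.Fw (!b) e e' := by
  obtain ⟨b', h⟩ := h
  by_cases e0 : b' = b
  · subst e0
    rcases h.cases with rfl | ⟨e1, h1, -⟩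
    · exact Fw.refl _ _
    · exact absurd hl (h1.1 _)
  · obtain rfl : b' = !b := Bool.eq_not_iff.2 e0
    exact h

theorem Opp.symm (h : K.Opp e e') : K.Opp e' e := by
  obtain ⟨b, a, a', h1, h2, h3⟩ := h
  exact ⟨!b, a', a, K.inv h1, by simpa using h3, h2⟩

theorem Opp.of_same (h : K.Opp e e') (h' : K.Same e e'') : K.Opp e'' e' := by
  obtain ⟨b, a, a', h1, h2, h3⟩ := h
  exact ⟨b, a, a', h1, h'.symm.trans h2, h3⟩

theorem Opp.of_link (h : K.L b c c') : K.Opp (nr (!b) c) (nr b c') :=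
  ⟨b, c, c', h, Same.refl _, Same.refl _⟩

theorem Opp.same (hK : K.Match) (h : K.Opp e e') (h' : K.Opp e e'') : K.Same e' e'' := by
  obtain ⟨b, a, a', h1, h2, h3⟩ := h
  obtain ⟨b1, a1, a1', k1, k2, k3⟩ := h'
  obtain ⟨g, l, g0, hg, gl⟩ := (h2.symm.trans k2).fw (b := b) (c := a') (by simpa using h1)
  by_cases e0 : b1 = b
  · subst e0
    obtain rfl : a = a1 := hg.back (Seq.zero _ fun _ => nr (!b1) a1) gl g0 rfl
      (c := a') (c' := a1') (by simpa using h1) (by simpa using k1)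
    obtain rfl := K.fn h1 k1
    exact h3.trans k3.symm
  · obtain rfl : b1 = !b := Bool.eq_not_iff.2 e0
    obtain ⟨g', l', g0', hg', gl'⟩ := hK (!b) a' a g l a1' (K.inv h1) g0 hg (by simpa [gl] using k1)
    have s : K.Same (nr b a') (nr (!b) a1') :=
      ⟨_, g', l', by simpa using g0', hg', by simp [← gl']⟩
    exact (h3.trans s).trans k3.symm

theorem ZT.of_same (h : K.ZT e) (h' : K.Same e e') : K.ZT e' :=
  fun _ ho => h _ (ho.of_same h'.symm)

/-- A side ends with a link or is infinite. -/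
theorem end_or_inf (hK : ∀ e, K.End b (fc b e) → ∃ e', K.Nx b e e') (e : X × ZMod n) :
    (∃ g l c, g 0 = e ∧ K.Sd b g l ∧ K.L b (fc b (g l)) c) ∨ ∀ l, ∃ g, g 0 = e ∧ K.Sd b g l := by
  refine or_iff_not_imp_left.2 fun hn l => ?_
  induction l with
  | zero => exact ⟨fun _ => e, rfl, Seq.zero _ _⟩
  | succ l ih =>
    obtain ⟨g, g0, hg⟩ := ih
    obtain ⟨e', he'⟩ := hK (g l) fun c hc => hn ⟨g, l, c, g0, hg, hc⟩
    obtain ⟨k, k1, -, k3⟩ := Seq.snoc hg he'
    exact ⟨k, (k1 0 (Nat.zero_le _)).trans g0, k3⟩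

theorem ZT.not_end (h : K.ZT e) {g : ℕ → X × ZMod n} {l : ℕ} (h0 : g 0 = e) (hg : K.Sd b g l) :
    K.End b (fc b (g l)) := by
  intro c hc
  have o : K.Opp (g l) (nr b c) := by simpa using Opp.of_link hc
  exact h _ (o.of_same (Same.symm ⟨b, g, l, h0, hg, rfl⟩))

end Cx

end Pool.Agent.Ng
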