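import Mathlib

/-! Heesch's problem for polygons with a fixed number of sides: the definitions. -/

open Set

namespace Pool.Agent.Ng

/-- A nonempty compact set equal to the closure of its interior. -/
def IsBody (C : Set ℂ) : Prop := C.Nonempty ∧ IsCompact C ∧ C = closure (interior C)

/-- A family of congruent copies of `C` with pairwise disjoint interiors. -/
def IsPacking (C : Set ℂ) (P : Set (Set ℂ)) : Prop :=
  (∀ D ∈ P, ∃ f : ℂ ≃ᵢ ℂ, D = f '' C) ∧ P.Pairwise fun A B => Disjoint (interior A) (interior B)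

/-- `C` tiles the plane by congruent copies. -/
def Tiles (C : Set ℂ) : Prop := ∃ P, IsPacking C P ∧ ⋃₀ P = univ

/-- `C` is surrounded `k` times. -/
def Surrounded (C : Set ℂ) (k : ℕ) : Prop :=
  ∃ P : ℕ → Set (Set ℂ), P 0 = {C} ∧ (∀ i ≤ k, (P i).Finite ∧ IsPacking C (P i)) ∧
    ∀ i < k, P i ⊂ P (i + 1) ∧ ∀ D ∈ P i, Disjoint (closure (⋃₀ P (i + 1))ᶜ) D

/-- A body with connected interior whose frontier is a simple closed polygonal line with `n`
vertices (straight angles allowed). -/
def IsPolygon (n : ℕ) (C : Set ℂ) : Prop :=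
  IsBody C ∧ IsConnected (interior C) ∧ ∃ v : ZMod n → ℂ, Function.Injective v ∧
    frontier C = ⋃ i, segment ℝ (v i) (v (i + 1)) ∧
    ∀ i j, i ≠ j → segment ℝ (v i) (v (i + 1)) ∩ segment ℝ (v j) (v (j + 1)) ⊆
      {v i, v (i + 1)} ∩ {v j, v (j + 1)}

end Pool.Agent.Ng
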