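import Pool.Agent.P.MP_6145c0_co.Ng.Geo

/-! A placed complex with finite stars away from one point and matching sides. -/

open Set Real

namespace Pool.Agent.Ng

variable {n : ℕ}

/-- A placed complex with finite stars off the point `p` and matching sides. -/
structure FC (T : Proto n) where
  X : Type
  K : Cx n X
  pl : X → Tile
  geo : Geo T K pl
  x0 : X
  p : ℂ
  star : ∀ c, K.Cyc (T.an pl) c ∨ K.Half (T.an pl) c ∨ (T.pt (pc pl c) = p ∧ ∀ b, ¬K.End b c)
  mat : K.Match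

namespace FC

variable {T : Proto n} (F : FC T)

/-- The set of a tile of the complex. -/
def ts (x : F.X) : Set ℂ := T.tset (F.pl x)

/-- The edge of a dart of the complex. -/
def ed (e : F.X × ZMod n) : Set ℂ := T.edge (pc F.pl e)

/-- The point of a corner of the complex. -/
noncomputable def pt (c : F.X × ZMod n) : ℂ := T.pt (pc F.pl c)

/-- The direction of a dart of the complex. -/
noncomputable def dn (b : Bool) (e : F.X × ZMod n) : Circle := T.dirn b (pc F.pl e)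

/-- The height over the line of a dart of the complex. -/
noncomputable def ht (e : F.X × ZMod n) (w : ℂ) : ℝ := T.ht (pc F.pl e) w

/-- The reflection in the line of a dart of the complex. -/
noncomputable def ref (e : F.X × ZMod n) : ℂ ≃ᵢ ℂ := T.ref (pc F.pl e)

/-- The union of the edges of the side of `e`. -/
def supp (e : F.X × ZMod n) : Set ℂ := {z | ∃ e', F.K.Same e e' ∧ z ∈ F.ed e'}

/-- The side of `e` contains the points of its line close to `w`. -/
def In (e : F.X × ZMod n) (w : ℂ) : Prop :=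
  ∀ t : ℝ, |t| < T.r1 / 4 → w + t * F.dn true e ∈ F.supp e

variable {F} {b : Bool} {c c' e e' : F.X × ZMod n} {w : ℂ}

theorem half_of_end (h : F.K.End b c) : F.K.Half (T.an F.pl) c := by
  rcases F.star c with ⟨f, l, f0, hf⟩ | h1 | ⟨-, h1⟩
  · obtain ⟨j, -, hj⟩ := hf.not_end (Nat.zero_le l) b
    exact absurd (f0 ▸ hj) (h _)
  · exact h1
  · exact absurd h (h1 b)

theorem exists_nx (h : F.K.End b (fc b e)) : ∃ e', F.K.Nx b e e' := (half_of_end h).exists_nx h

theorem sd_row {g : ℕ → F.X × ZMod n} {l : ℕ} (h : F.K.Sd b g l) :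
    Seq (T.Cont b) (fun i => pc F.pl (g i)) l := by
  exact fun i hi => F.geo.nx_cont (h i hi) (half_of_end (h i hi).1)

theorem h31_dn_not (b : Bool) (e : F.X × ZMod n) : F.dn (!b) e = -F.dn b e := T.dirn_not _ _

theorem h31_dn_sg (b : Bool) (e : F.X × ZMod n) : (F.dn b e : ℂ) = sg b * F.dn true e := by
  cases b
  · have k : F.dn false e = -F.dn true e := h31_dn_not true e
    rw [k, Circle.coe_neg]
    simp
  · simp

theorem h31_mem_ed (b : Bool) (e : F.X × ZMod n) (z : ℂ) : z ∈ F.ed e ↔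
    ∃ s : ℝ, 0 ≤ s ∧ s ≤ T.len (pc F.pl e) ∧ z = F.pt (fc (!b) e) + s * F.dn b e := by
  rw [pt, pc_fc]
  exact T.mem_edge b _ z

theorem h31_pt_mem (b : Bool) (e : F.X × ZMod n) : F.pt (fc b e) ∈ F.ed e := by
  rw [pt, pc_fc]
  exact T.pt_mem_edge b _

theorem h31_row_mem {g : ℕ → F.X × ZMod n} {l i : ℕ} (h : F.K.Sd b g l) (hi : i ≤ l) (z : ℂ) :
    z ∈ F.ed (g i) ↔ ∃ s : ℝ, T.slen (fun i => pc F.pl (g i)) i ≤ s ∧
      s ≤ T.slen (fun i => pc F.pl (g i)) (i + 1) ∧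
      z = F.pt (fc (!b) (g 0)) + s * F.dn b (g 0) := by
  rw [pt, pc_fc]
  exact Proto.row_mem (sd_row h) hi z

theorem h31_row_far {g : ℕ → F.X × ZMod n} {l : ℕ} (h : F.K.Sd b g l) :
    F.pt (fc b (g l)) =
      F.pt (fc (!b) (g 0)) + T.slen (fun i => pc F.pl (g i)) (l + 1) * F.dn b (g 0) := by
  rw [pt, pt, pc_fc, pc_fc]
  exact Proto.row_far (sd_row h) le_rfl

theorem h31_cancel {q : ℂ} {a : Circle} {s t : ℝ} (h : q + s * a = q + t * a) : s = t := by
  have k := mul_right_cancel₀ a.coe_ne_zero (add_left_cancel h)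
  exact_mod_cast k

theorem h31_dist (q : ℂ) (a : Circle) (s : ℝ) : dist (q + s * a) q = |s| := by
  rw [dist_eq_norm, add_sub_cancel_left, norm_mul, Circle.norm_coe, mul_one, Complex.norm_real,
    Real.norm_eq_abs]

theorem h31_ht_line (b b' : Bool) (e : F.X × ZMod n) (s : ℝ) :
    F.ht e (F.pt (fc b e) + s * F.dn b' e) = 0 := by
  refine (T.ht_zero_iff (T.ht_edge (h31_pt_mem b e)) _).2 ⟨s * sg b', ?_⟩
  rw [h31_dn_sg, Complex.ofReal_mul, mul_assoc]
  rfl

theorem same_dn (h : F.K.Same e e') (b : Bool) : F.dn b e' = F.dn b e := by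
  obtain ⟨b', g, l, rfl, hg, rfl⟩ := h
  have k : F.dn b' (g l) = F.dn b' (g 0) := Proto.row_dirn (sd_row hg) le_rfl
  by_cases e0 : b = b'
  · exact e0 ▸ k
  · obtain rfl : b = !b' := Bool.eq_not_iff.2 e0
    rw [h31_dn_not, h31_dn_not, k]

theorem fw_mem (h : F.K.Fw b e e') (hw : w ∈ F.ed e') :
    ∃ s : ℝ, 0 ≤ s ∧ w = F.pt (fc (!b) e) + s * F.dn b e ∧ (e' ≠ e → T.len (pc F.pl e) ≤ s) := by
  obtain ⟨g, l, rfl, hg, rfl⟩ := h
  obtain ⟨s, h0, -, hs⟩ := (h31_row_mem hg le_rfl w).1 hw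
  refine ⟨s, (T.slen_nonneg _ _).trans h0, hs, fun hne => ?_⟩
  have hl : 0 + 1 ≤ l := Nat.pos_of_ne_zero fun e0 => hne (by rw [e0])
  have k := (T.slen_mono fun i => pc F.pl (g i)).monotone hl
  rw [T.slen_succ] at k
  linarith [T.slen_nonneg (fun i => pc F.pl (g i)) 0]

theorem fw_close (h : F.K.Fw b e e') (hw : w ∈ F.ed e') (hd : dist w (F.pt (fc (!b) e)) < T.r1) :
    e' = e := by
  by_contra hne
  obtain ⟨s, h0, rfl, hs⟩ := fw_mem h hw
  rw [h31_dist, abs_of_nonneg h0] at hd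
  linarith [hs hne, T.r1_le (pc F.pl e), T.r1_pos]

theorem h31_ht_zero (h : F.K.Same e e') (hw : w ∈ F.ed e') : F.ht e w = 0 := by
  obtain ⟨b, h⟩ := h
  obtain ⟨s, -, rfl, -⟩ := fw_mem h hw
  exact h31_ht_line _ _ _ _

theorem same_ht (h : F.K.Same e e') : F.ht e' = F.ht e ∧ F.ref e' = F.ref e := by
  exact T.ht_same (same_dn h true) (h31_ht_zero h (h31_pt_mem false e'))

theorem supp_ht (h : w ∈ F.supp e) : F.ht e w = 0 := by
  obtain ⟨e', h1, h2⟩ := h
  exact h31_ht_zero h1 h2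

theorem same_supp (h : F.K.Same e e') : F.supp e' = F.supp e := by
  ext z
  exact ⟨fun ⟨x, h1, h2⟩ => ⟨x, h.trans h1, h2⟩, fun ⟨x, h1, h2⟩ => ⟨x, h.symm.trans h1, h2⟩⟩

theorem In.of_same (h : F.In e w) (h' : F.K.Same e e') : F.In e' w := by
  intro t ht
  rw [same_supp h', same_dn h']
  exact h t ht

theorem opp_dn (h : F.K.Opp e e') (b : Bool) : F.dn b e' = -F.dn b e := by
  obtain ⟨b', a, a', h1, h2, h3⟩ := h
  have k : F.dn b' e' = -F.dn b' e := by
    rw [← same_dn h3, ← same_dn h2, ← h31_dn_not]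
    exact F.geo.link_dirn h1
  by_cases e0 : b = b'
  · exact e0 ▸ k
  · obtain rfl : b = !b' := Bool.eq_not_iff.2 e0
    rw [h31_dn_not, h31_dn_not, k]

theorem h31_link_pt (h : F.K.L b c c') : F.pt c' = F.pt c := F.geo.pt h

theorem h31_link_dn (h : F.K.L b c c') : F.dn b (nr b c') = F.dn (!b) (nr (!b) c) :=
  F.geo.link_dirn h

theorem opp_ht (h : F.K.Opp e e') (w : ℂ) : F.ht e' w = -F.ht e w := by
  obtain ⟨b, a, a', h1, h2, h3⟩ := h
  rw [← (same_ht h2).1, ← (same_ht h3).1]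
  refine T.ht_opp (opp_dn (Cx.Opp.of_link h1) true) ?_ w
  obtain ⟨s, -, -, hs⟩ := (h31_mem_ed b _ _).1 (h31_pt_mem false (nr b a'))
  have k := h31_ht_line b (!b) (nr (!b) a) s
  rw [fc_nr', ← h31_link_pt h1, ← h31_link_dn h1] at k
  rw [fc_nr] at hs
  rw [← hs] at k
  exact k

theorem h31_cover {g : ℕ → F.X × ZMod n} {l : ℕ} (h : F.K.Sd b g l) {s : ℝ} (h0 : 0 ≤ s)
    (h1 : s ≤ T.slen (fun i => pc F.pl (g i)) (l + 1)) :
    F.pt (fc (!b) (g 0)) + s * F.dn b (g 0) ∈ F.supp (g 0) := by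
  rcases h1.eq_or_lt with k | k
  · refine ⟨g l, ⟨b, g, l, rfl, h, rfl⟩, (h31_row_mem h le_rfl _).2 ⟨s, ?_, h1, rfl⟩⟩
    rw [k]
    exact (T.slen_mono _).monotone (Nat.le_succ l)
  · obtain ⟨i, hi, k1, k2⟩ := T.slen_index _ h0 k
    exact ⟨g i, ⟨b, g, i, rfl, Seq.mono h hi, rfl⟩, (h31_row_mem h hi _).2 ⟨s, k1, k2.le, rfl⟩⟩

theorem h31_link_supp (h : F.K.L b c c') : F.supp (nr b c') ⊆ F.supp (nr (!b) c) := by
  rintro z ⟨x, hx, hz⟩
  have fw := hx.fw (b := !b) (c := c) (by simpa using F.K.inv h)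
  rw [Bool.not_not] at fw
  rcases Cx.end_or_inf (b := !b) (fun _ => exists_nx) (nr (!b) c) with
    ⟨g, l, x', g0, hg, hl⟩ | hi
  · obtain ⟨k, m, k0, hk, km⟩ := F.mat (!b) c' c g l x' (F.K.inv h) g0 hg hl
    rw [Bool.not_not] at k0 hk km
    obtain ⟨g', l', g0', hg', rfl⟩ := fw
    have e0 := k0.trans g0'.symm
    have hle : l' ≤ m := hk.le_of_link hg' e0 (c := fc (!b) (g l)) (km ▸ Cx.inv' hl)
    rw [← hk.unique hg' e0 hle le_rfl] at hz
    obtain ⟨s, h0, h1, rfl⟩ := (h31_row_mem hk hle z).1 hz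
    have p1 := h31_row_far hk
    have p2 := h31_row_far hg
    rw [km, h31_link_pt hl, p2, k0, g0, fc_nr, fc_nr, h31_link_pt h, h31_link_dn h] at p1
    have c1 := h31_cover hg ((T.slen_nonneg _ _).trans h0) (by
      rw [h31_cancel p1]
      exact h1.trans ((T.slen_mono _).monotone (Nat.succ_le_succ hle)))
    rw [g0, fc_nr] at c1
    rw [k0, fc_nr, h31_link_pt h, h31_link_dn h]
    exact c1
  · obtain ⟨s, h0, rfl, -⟩ := fw_mem fw hz
    obtain ⟨l, hl⟩ := exists_nat_ge (s / (2 * T.r1))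
    obtain ⟨g, g0, hg⟩ := hi l
    rw [div_le_iff₀ (by linarith [T.r1_pos])] at hl
    have c1 := h31_cover hg h0
      ((hl.trans (T.le_slen _ l)).trans ((T.slen_mono _).monotone (Nat.le_succ l)))
    rw [g0, fc_nr] at c1
    rw [fc_nr, h31_link_pt h, h31_link_dn h]
    exact c1

/-- The two sides of a link cover the same segment or ray. -/
theorem opp_supp (h : F.K.Opp e e') : F.supp e' = F.supp e := by
  obtain ⟨b, a, a', h1, h2, h3⟩ := h
  rw [← same_supp h2, ← same_supp h3]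
  refine Subset.antisymm (h31_link_supp h1) ?_
  simpa using h31_link_supp (F.K.inv h1)

theorem In.opp (h : F.In e w) (h' : F.K.Opp e e') : F.In e' w := by
  intro t ht
  have k := h (-t) (by rwa [abs_neg])
  rw [opp_supp h', opp_dn h', Circle.coe_neg, mul_neg, ← neg_mul, ← Complex.ofReal_neg]
  exact k

/-- Close to a link, the only dart opposite to its first dart is the linked one. -/
theorem link_close (h : F.K.L b c c') (ho : F.K.Opp (nr (!b) c) e') (hw : w ∈ F.ed e')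
    (hd : dist w (F.pt c) < T.r1) : e' = nr b c' := by
  have fw := ((Cx.Opp.of_link h).same F.mat ho).fw (b := !b) (c := c) (by simpa using F.K.inv h)
  rw [Bool.not_not] at fw
  exact fw_close fw hw (by rwa [fc_nr, h31_link_pt h])

theorem In.end_of (h : F.In e w) (hw : w ∈ F.ed e) (hd : dist w (F.pt (fc b e)) < T.r1 / 4) :
    F.K.End b (fc b e) := by
  intro x hx
  obtain ⟨s, h0, -, hs⟩ := (h31_mem_ed (!b) e w).1 hw
  rw [Bool.not_not] at hs
  rw [hs, h31_dist, abs_of_nonneg h0] at hd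
  obtain ⟨t, t0, t1⟩ := exists_between hd
  obtain ⟨y, hy, hz⟩ := h (sg b * t) (by
    rw [abs_mul, abs_sg, one_mul, abs_of_nonneg (by linarith)]
    exact t1)
  obtain ⟨u, u0, hu, -⟩ := fw_mem (hy.fw hx) hz
  have k : F.pt (fc b e) + (s - t : ℝ) * (F.dn (!b) e : ℂ) = F.pt (fc b e) + u * F.dn (!b) e := by
    rw [Bool.not_not] at hu
    rw [← hu, hs, h31_dn_sg, sg_not]
    push_cast
    ring
  linarith [h31_cancel k]

theorem in_of_mid (hw : w ∈ F.ed e) (hd : ∀ b, T.r1 / 4 ≤ dist w (F.pt (fc b e))) : F.In e w := by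
  intro t ht
  obtain ⟨s, h0, h1, hs⟩ := (h31_mem_ed true e w).1 hw
  have d0 := hd (!true)
  rw [hs, h31_dist, abs_of_nonneg h0] at d0
  have d1 := hd true
  have k : w = F.pt (fc true e) + (s - T.len (pc F.pl e) : ℝ) * (F.dn true e : ℂ) := by
    rw [hs, pt, pt, pc_fc, pc_fc, T.pt_fc true, dn]
    push_cast
    ring
  rw [k, h31_dist, abs_of_nonpos (by linarith)] at d1
  rw [abs_lt] at ht
  refine ⟨e, Cx.Same.refl e, (h31_mem_ed true e _).2 ⟨s + t, by linarith, by linarith, ?_⟩⟩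
  rw [hs]
  push_cast
  ring

theorem in_of_nx (h : F.K.Nx b e e') (hw : F.ht e w = 0) (hd : dist w (F.pt (fc b e)) < T.r1) :
    F.In e w := by
  intro t ht
  obtain ⟨u, hu⟩ := (T.ht_zero_iff (T.ht_edge (h31_pt_mem b e)) w).1 hw
  have hu' : w = F.pt (fc b e) + u * F.dn true e := hu
  rw [hu', h31_dist] at hd
  have hv : |sg b * (u + t)| ≤ 2 * T.r1 := by
    rw [abs_mul, abs_sg, one_mul]
    linarith [abs_add_le u t, T.r1_pos]
  rw [abs_le] at hv
  have s2 : (sg b : ℂ) * sg b = 1 := by exact_mod_cast sg_mul_self b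
  rcases le_total 0 (sg b * (u + t)) with k | k
  · have hp : F.pt (fc (!b) e') = F.pt (fc b e) := by
      rw [pt, pt, pc_fc, pc_fc]
      exact (F.geo.nx_cont h (half_of_end h.1)).1
    refine ⟨e', ⟨b, h.fw⟩, (h31_mem_ed b e' _).2
      ⟨_, k, hv.2.trans (T.r1_le _), ?_⟩⟩
    rw [hp, same_dn ⟨b, h.fw⟩, hu', h31_dn_sg b]
    push_cast
    linear_combination (-(u + t) * F.dn true e : ℂ) * s2
  · refine ⟨e, Cx.Same.refl e, (h31_mem_ed (!b) e _).2
      ⟨-(sg b * (u + t)), by linarith, by linarith [T.r1_le (pc F.pl e)], ?_⟩⟩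
    rw [Bool.not_not, hu', h31_dn_sg (!b), sg_not]
    push_cast
    linear_combination (-(u + t) * F.dn true e : ℂ) * s2

/-- A side with no link at either end is unbounded. -/
theorem zt_far (h : F.K.ZT e) (R : ℝ) : ∃ x, ∃ w ∈ F.ts x, R ≤ dist w F.p := by
  rcases Cx.end_or_inf (b := true) (fun _ => exists_nx) e with ⟨g, l, x, g0, hg, hl⟩ | hi
  · exact absurd hl (h.not_end g0 hg x)
  · obtain ⟨l, hl⟩ := exists_nat_ge ((R + dist (F.pt (fc (!true) e)) F.p) / (2 * T.r1))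
    obtain ⟨g, g0, hg⟩ := hi l
    rw [div_le_iff₀ (by linarith [T.r1_pos])] at hl
    refine ⟨(fc true (g l)).1, F.pt (fc true (g l)), T.pt_mem (pc F.pl _), ?_⟩
    have k := dist_triangle_right (F.pt (fc true (g l))) (F.pt (fc (!true) e)) F.p
    have k1 := (T.le_slen (fun i => pc F.pl (g i)) l).trans
      ((T.slen_mono _).monotone (Nat.le_succ l))
    have k2 := h31_row_far hg
    rw [g0] at k2
    have k3 : dist (F.pt (fc true (g l))) (F.pt (fc (!true) e)) =
        T.slen (fun i => pc F.pl (g i)) (l + 1) := by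
      rw [k2, h31_dist, abs_of_nonneg (T.slen_nonneg _ _)]
    linarith

end FC

end Pool.Agent.Ng
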