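import Pool.Agent.P.MP_6145c0_co.Ng.Fam5

/-! Section 4: the chain of inequalities and its two ends. -/

open Set Real Metric Filter
open scoped ComplexConjugate

namespace Pool.Agent.Ng

open Pool.Agent.P.MP_6145c0_co.Ng

variable {n : ℕ}

theorem fam_pos (Y : NestTy n) (hδ : 0 < Y.δ) (jj : ZMod n) (hm : 2 ≤ Y.m) : ∃ N₀ : ℕ,
    ∀ (T : Proto n) (P : Set Tile) (Z : NestDat), Fam T P Y Z →
      T.D ≤ n * (T.T (Y.kd Y.m)).len jj → (∀ i < Y.m, N₀ ≤ Z.N i) →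
      0 < Z.tau T Y jj (Y.m - 1) := by
  obtain ⟨M, δ', hδ', hS⟩ := fam_slice hδ
  obtain ⟨Λ, hΛ⟩ := exists_nat_gt (2 / δ')
  obtain ⟨N₁, hN₁⟩ := exists_nat_gt ((|Y.c| + 7) * ((Λ + 1) * (2 * n)))
  refine ⟨N₁ + M + Λ + 1, fun T P Z h hℓ hN => ?_⟩
  obtain ⟨j, hj⟩ : ∃ j, Y.m = j + 2 := ⟨Y.m - 2, by omega⟩
  have e1 : Y.m - 1 = j + 1 := by omega
  have hj1 : j + 1 < Y.m := by omega
  have hD := T.D_pos
  have hs := h.s_pos _ hj1
  rw [e1]
  cases hf : Y.fan (j + 1)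
  swap
  · rw [NestDat.tau, if_pos hf]
    positivity
  refine (h.tau_nonneg jj hj1).lt_of_ne fun e => ?_
  have er : Z.err T Y = 0 := by simp [NestDat.err, e1, hf]
  have Λ0 : 0 < Λ := (Nat.cast_pos (α := ℝ)).1 (lt_of_le_of_lt (by positivity) hΛ)
  obtain ⟨tp, J, S, hJ⟩ := hS Y.m j Λ Z.N Z.S hj1 (fun i hi => by have := hN i hi; omega)
    (by have := hN j (by omega); omega) Λ0 (by have := hN _ hj1; omega) h.box h.dens
  obtain ⟨a, ha, a', ha', hlt⟩ : ∃ a ∈ J, ∃ a' ∈ J, a < a' := by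
    rw [div_lt_iff₀' hδ'] at hΛ
    obtain ⟨a, ha, a', ha', ne⟩ := Finset.one_lt_card.1 (show 1 < J.card by
      exact_mod_cast (show (1 : ℝ) < J.card by linarith))
    exact (lt_or_gt_of_ne ne).elim (fun c => ⟨a, ha, a', ha', c⟩) fun c => ⟨a', ha', a, ha, c⟩
  obtain ⟨t, ht⟩ : ∃ t, t = tp false a := ⟨_, rfl⟩
  obtain ⟨t', ht'⟩ : ∃ t, t = tp false a' := ⟨_, rfl⟩
  have m1 : t ∈ Z.S := ht ▸ S.mem _ _ ha
  have m2 : t' ∈ Z.S := ht' ▸ S.mem _ _ ha'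
  have ag : ∀ i < j + 1, t' i = t i := fun i hi => by
    rw [ht, ht']
    by_cases c : i = j
    · exact c ▸ S.row _ _ _
    · exact S.ag _ _ _ _ i c (by omega)
  have eF : Z.F Y.m t' = Z.G Y (j + 1) t t' * Z.F Y.m t := by
    have := h.H_succ m1 m2 hj1
    rw [NestDat.H, NestDat.H, h.dep t' m2 t m1 _ hj1.le ag, mul_inv_cancel, one_mul] at this
    rw [← this, hj, inv_mul_cancel_right]
  have ne := h.row_ne m1 m2 hj1 ag (by rwa [ht, ht', S.col, S.col]) (by simp [hf]) (p := 0)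
    (by simp [hf])
  rw [← show Y.m = j + 1 + 1 from hj] at ne
  obtain ⟨x, hx⟩ : ∃ x, x = sg (Y.sb (j + 1)) * (Z.pos (j + 1) t' - Z.pos (j + 1) t) := ⟨_, rfl⟩
  have x1 : |x| ≤ (Λ + 1) * Z.s (j + 1) := by
    rw [hx, f2_sg]
    refine h.pos_est m1 m2 hj1 ?_ ?_ <;> rw [ht, ht', S.col, S.col]
    exacts [S.win _ ha' _ ha, S.win _ ha _ ha']
  have Gw : ∀ w : ℂ, Z.G Y (j + 1) t t' • w = w + x * ((Z.E (j + 1) t).u : ℂ) := fun w => by
    have := f2_conj (Z.E (j + 1) t) false x w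
    rw [NestDat.G, hf, ← hx, ← sub_eq_iff_eq_add', this]
    simp
  have Gu : (Z.G Y (j + 1) t t').u = 1 := by simp [NestDat.G, hf, gen, tr]
  have im0 : (conj (Z.dl T Y jj t) * (Z.E (j + 1) t).u).im = 0 := by
    have k := h.nu_est m1 jj hj1 hf
    rw [NestDat.tau, hf, er] at e
    simp only [Bool.false_eq_true, if_false, add_zero] at e
    rw [er, mul_zero, ← e, sub_zero, abs_nonpos_iff, mul_eq_zero, abs_eq_zero] at k
    exact k.resolve_left hs.ne'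
  obtain ⟨μ, μ1, μ2⟩ : ∃ μ : ℝ, |μ| ≤ 1 ∧ ((Z.E (j + 1) t).u : ℂ) = μ * Z.dl T Y jj t := by
    refine ⟨(conj (Z.dl T Y jj t) * (Z.E (j + 1) t).u).re, (Complex.abs_re_le_norm _).trans_eq
      (by rw [norm_mul, Complex.norm_conj, dl_norm, Circle.norm_coe, one_mul]), ?_⟩
    rw [Complex.conj_eq_iff_re.1 (Complex.conj_eq_iff_im.2 im0), mul_right_comm, Complex.conj_mul',
      dl_norm]
    simp
  obtain ⟨ℓ, eℓ⟩ : ∃ ℓ, ℓ = (T.T (Y.kd Y.m)).len jj := ⟨_, rfl⟩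
  have ℓ0 : 0 < ℓ := eℓ ▸ (T.T _).len_pos _
  have sm : |x * μ| < ℓ / 2 := by
    have k1 := h.sig_le hj1
    rw [NestDat.sig, hf] at k1
    simp only [Bool.false_eq_true, if_false] at k1
    have k2 : (N₁ : ℝ) ≤ Z.N (j + 1) := by
      exact_mod_cast (show N₁ ≤ Z.N (j + 1) by have := hN _ hj1; omega)
    rw [← eℓ] at hℓ
    have k3 : |x * μ| ≤ (Λ + 1) * Z.s (j + 1) := by
      rw [abs_mul]
      exact (mul_le_of_le_one_right (abs_nonneg _) μ1).trans x1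
    have c0 : 0 < |Y.c| + 7 := by positivity
    have n0 : (0 : ℝ) < n := pos_of_mul_pos_left (hD.trans_le hℓ) ℓ0.le
    have k4 := mul_lt_mul_of_pos_right (hN₁.trans_le k2) hs
    have k5 : (Λ + 1) * (2 * n) * Z.s (j + 1) < n * ℓ := lt_of_mul_lt_mul_left
      (by linarith [mul_le_mul_of_nonneg_left hℓ c0.le]) c0.le
    have k6 : (Λ + 1) * Z.s (j + 1) * 2 < ℓ := lt_of_mul_lt_mul_left (by linarith) n0.le
    linarith
  have dd : T.dirn true ((Z.mem Y Y.m t').1, jj) = T.dirn true ((Z.mem Y Y.m t).1, jj) := by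
    show (Z.F Y.m t').u * _ = (Z.F Y.m t).u * _
    rw [eF, Mot.mul_u, Gu, one_mul]
    rfl
  have pp : T.pt ((Z.mem Y Y.m t').1, jj) =
      T.pt ((Z.mem Y Y.m t).1, jj) + (x * μ : ℝ) * Z.dl T Y jj t := by
    show Z.F Y.m t' • _ = Z.F Y.m t • _ + _
    rw [eF, mul_smul, Gw, μ2, Complex.ofReal_mul, mul_assoc]
    rfl
  rw [abs_lt] at sm
  have o1 : T.pt ((Z.mem Y Y.m t).1, jj) + (ℓ / 2 : ℝ) * Z.dl T Y jj t ∈
      T.oedge ((Z.mem Y Y.m t).1, jj) :=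
    (T.mem_oedge true _ _).2 ⟨ℓ / 2, by linarith, (by linarith : ℓ / 2 < ℓ).trans_eq eℓ, rfl⟩
  have o2 : T.pt ((Z.mem Y Y.m t).1, jj) + (ℓ / 2 : ℝ) * Z.dl T Y jj t ∈
      T.oedge ((Z.mem Y Y.m t').1, jj) := by
    refine (T.mem_oedge true _ _).2 ⟨ℓ / 2 - x * μ, by linarith,
      (by linarith : ℓ / 2 - x * μ < ℓ).trans_eq eℓ, ?_⟩
    show _ = T.pt ((Z.mem Y Y.m t').1, jj) + _
    rw [pp, dd, NestDat.dl]
    push_cast
    ring
  have w1 := T.wedge_flat true _ o1 le_rfl pi_pos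
  have w2 := T.wedge_flat true _ o2 le_rfl pi_pos
  rw [dd] at w2
  exact w1.meet T w2 (h.pack (h.mem t m1 _ (by omega) le_rfl) (h.mem t' m2 _ (by omega) le_rfl)
    fun c => ne (congrArg (fun g : Tile => g.2 • (0 : ℂ)) c).symm)

theorem fam_chain [NeZero n] (U : Ultrafilter ℕ) (T : ℕ → Proto n) (P : ℕ → Set Tile)
    (Y : NestTy n) (Z : ℕ → NestDat) (hδ : 0 < Y.δ)
    (h : ∀ᶠ k in (U : Filter ℕ), Fam (T k) (P k) Y (Z k))
    (hN : ∀ i < Y.m, Tendsto (fun k => (Z k).N i) U atTop) (hm : 2 ≤ Y.m) (j : ZMod n)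
    (hj : ∀ᶠ k in (U : Filter ℕ), (T k).D ≤ n * ((T k).T (Y.kd Y.m)).len j) (r : ℕ) :
    ∀ i, i + r + 1 = Y.m → (∀ᶠ k in (U : Filter ℕ), 0 < (Z k).tau (T k) Y j i) ∧
      ∀ l, i < l → l < Y.m → ∀ G : ℝ, ∀ᶠ k in (U : Filter ℕ),
        G * (Z k).tau (T k) Y j l ≤ (Z k).tau (T k) Y j i := by
  have big : ∀ N₀, ∀ᶠ k in (U : Filter ℕ), ∀ i < Y.m, N₀ ≤ (Z k).N i := fun N₀ =>
    (eventually_all_finite (finite_lt_nat Y.m)).2 fun i hi => (hN i hi).eventually_ge_atTop N₀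
  induction r with
  | zero =>
    intro i hi
    obtain ⟨N₀, H⟩ := fam_pos Y hδ j hm
    refine ⟨?_, fun l h1 h2 => by omega⟩
    filter_upwards [h, hj, big N₀] with k h1 h2 h3
    exact (show Y.m - 1 = i by omega) ▸ H _ _ _ h1 h2 h3
  | succ r ih =>
    intro i hi
    obtain ⟨p, q⟩ := ih (i + 1) (by omega)
    have key : ∀ G : ℝ, ∀ᶠ k in (U : Filter ℕ),
        G * (Z k).tau (T k) Y j (i + 1) ≤ (Z k).tau (T k) Y j i := by
      intro G
      by_contra c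
      obtain ⟨N₀, H⟩ := fam_step Y hδ j (j := i) (by omega) (le_max_left 1 G)
      have q' : ∀ᶠ k in (U : Filter ℕ), ∀ l ∈ {l | i + 1 < l ∧ l < Y.m},
          2 * (|Y.c| + 1) * (Z k).tau (T k) Y j l ≤ (Z k).tau (T k) Y j (i + 1) :=
        (eventually_all_finite ((finite_lt_nat Y.m).subset fun l hl => hl.2)).2
          fun l hl => q l hl.1 hl.2 _
      obtain ⟨k, h1, h2, h3, h4, h5, h6⟩ := (h.and (hj.and ((big N₀).and (p.and
        ((Ultrafilter.eventually_not.2 c).and q'))))).exists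
      exact H _ _ _ h1 h2 h3 h4 ((not_le.1 h5).le.trans
        (mul_le_mul_of_nonneg_right (le_max_right _ _) h4.le)) fun l a b => h6 l ⟨a, b⟩
    refine ⟨?_, fun l h1 h2 G => ?_⟩
    · filter_upwards [p, key 1] with k h1 h2
      linarith
    · rcases (show i + 1 ≤ l from h1).eq_or_lt with rfl | h1
      · exact key G
      · filter_upwards [q l h1 h2 G, key 1] with k h3 h4
        linarith

theorem fam_edge [NeZero n] (U : Ultrafilter ℕ) (T : ℕ → Proto n) (s : Bool) :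
    ∃ j, ∀ᶠ k in (U : Filter ℕ), (T k).D ≤ n * ((T k).T s).len j := by
  choose f hf using fun k => (T k).exists_long s
  obtain ⟨j, hj⟩ := Ultrafilter.eq_pure_of_finite (U.map f)
  refine ⟨j, ?_⟩
  filter_upwards [show ∀ᶠ k in (U : Filter ℕ), f k = j from
    (show {j} ∈ U.map f by rw [hj]; exact rfl)] with k hk
  exact hk ▸ hf k

/-- Section 4, first and last level fans. -/
theorem fam_fan [NeZero n] (U : Ultrafilter ℕ) (T : ℕ → Proto n) (P : ℕ → Set Tile) (Y : NestTy n)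
    (Z : ℕ → NestDat) (hδ : 0 < Y.δ) (h : ∀ᶠ k in (U : Filter ℕ), Fam (T k) (P k) Y (Z k))
    (hN : ∀ i < Y.m, Tendsto (fun k => (Z k).N i) U atTop) (hm : 2 ≤ Y.m) (h0 : Y.fan 0 = true)
    (h1 : Y.fan (Y.m - 1) = true) (G : ℝ) :
    ∀ᶠ k in (U : Filter ℕ), G * (Z k).s (Y.m - 1) ≤ (Z k).s 0 := by
  obtain ⟨j, hj⟩ := fam_edge U T (Y.kd Y.m)
  filter_upwards [(fam_chain U T P Y Z hδ h hN hm j hj (Y.m - 1) 0 (by omega)).2 (Y.m - 1)
    (by omega) (by omega) G] with k hk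
  rw [NestDat.tau, NestDat.tau, if_pos h0, if_pos h1, ← mul_assoc] at hk
  exact le_of_mul_le_mul_right hk (T k).D_pos

/-- Section 4, all levels but the first are runs; `j` is a long edge of the last tile. -/
theorem fam_run [NeZero n] (U : Ultrafilter ℕ) (T : ℕ → Proto n) (P : ℕ → Set Tile) (Y : NestTy n)
    (Z : ℕ → NestDat) (hδ : 0 < Y.δ) (h : ∀ᶠ k in (U : Filter ℕ), Fam (T k) (P k) Y (Z k))
    (hN : ∀ i < Y.m, Tendsto (fun k => (Z k).N i) U atTop) (hm : 2 ≤ Y.m)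
    (h1 : Y.fan (Y.m - 1) = false) (j : ZMod n)
    (hj : ∀ᶠ k in (U : Filter ℕ), (T k).D ≤ n * ((T k).T (Y.kd Y.m)).len j) :
    (∀ᶠ k in (U : Filter ℕ), (((Z k).W (T k) Y j (Y.m - 1) : Circle) : ℂ).im ≠ 0) ∧
      ∀ l, 0 < l → l + 1 < Y.m → ∀ G : ℝ, ∀ᶠ k in (U : Filter ℕ),
        G * ((Z k).s (l + 1) * |(((Z k).W (T k) Y j (l + 1) : Circle) : ℂ).im|) ≤
          (Z k).s l * |(((Z k).W (T k) Y j l : Circle) : ℂ).im| := by
  have e : ∀ k l, Y.fan l = false → (Z k).tau (T k) Y j l =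
      (Z k).s l * |(((Z k).W (T k) Y j l : Circle) : ℂ).im| := fun k l hl => by
    simp [NestDat.tau, NestDat.err, NestDat.nu, hl, h1, gen, tr]
  refine ⟨?_, fun l l0 l1 G => ?_⟩
  · filter_upwards [(fam_chain U T P Y Z hδ h hN hm j hj 0 (Y.m - 1) (by omega)).1] with k hk c
    simp [e k _ h1, c] at hk
  · obtain ⟨k₀, h0⟩ := h.exists
    have f1 : Y.fan (l + 1) = false := by
      by_cases c : l + 1 = Y.m - 1
      · exact c ▸ h1
      · exact h0.runs _ (by omega) (by omega)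
    filter_upwards [(fam_chain U T P Y Z hδ h hN hm j hj (Y.m - 1 - l) l (by omega)).2 (l + 1)
      (by omega) l1 G] with k hk
    rwa [e k _ f1, e k _ (h0.runs l l0 l1)] at hk

/-- The end: no long nest of runs whose frames turn by signed words in the edge directions. -/
theorem fam_long [NeZero n] (U : Ultrafilter ℕ) (T : ℕ → Proto n) (P : ℕ → Set Tile) (Y : NestTy n)
    (Z : ℕ → NestDat) (hδ : 0 < Y.δ) (h : ∀ᶠ k in (U : Filter ℕ), Fam (T k) (P k) Y (Z k))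
    (hN : ∀ i < Y.m, Tendsto (fun k => (Z k).N i) U atTop) (hm : 2 * n * (2 * n + 1) + 2 ≤ Y.m)
    (h1 : Y.fan (Y.m - 1) = false)
    (hA : ∀ i, 0 < i → i < Y.m → ∃ (ε : Bool) (c : Bool × ZMod n → ℤ), ∀ᶠ k in (U : Filter ℕ),
      (((Z k).A i).u : ℂ) = sg ε * ∏ x : Bool × ZMod n, (((T k).T x.1).d x.2 : ℂ) ^ c x)
    (hB : ∀ i, 0 < i → i < Y.m → ∃ (ε : Bool) (c : Bool × ZMod n → ℤ), ∀ᶠ k in (U : Filter ℕ),
      (((Z k).B i).u : ℂ) = sg ε * ∏ x : Bool × ZMod n, (((T k).T x.1).d x.2 : ℂ) ^ c x)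
    (hs : ∀ i, 0 < i → i < Y.m → ∃ x : Bool × ZMod n, ∀ᶠ k in (U : Filter ℕ),
      (Z k).s i = ((T k).T x.1).len x.2) : False := by
  classical
  obtain ⟨j, hj⟩ := fam_edge U T (Y.kd Y.m)
  obtain ⟨r1, r2⟩ := fam_run U T P Y Z hδ h hN (by omega) h1 j hj
  let Wd : (ℕ → Circle) → Prop := fun u => ∃ c : Bool × ZMod n → ℤ, ∀ᶠ k in (U : Filter ℕ),
    (u k : ℂ) = ∏ x : Bool × ZMod n, (((T k).T x.1).d x.2 : ℂ) ^ c x ∨
      (u k : ℂ) = -∏ x : Bool × ZMod n, (((T k).T x.1).d x.2 : ℂ) ^ c x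
  have wmul : ∀ u v, Wd u → Wd v → Wd fun k => u k * v k := by
    rintro u v ⟨c, hc⟩ ⟨c', hc'⟩
    refine ⟨c + c', ?_⟩
    filter_upwards [hc, hc'] with k a b
    have e : ∏ x : Bool × ZMod n, (((T k).T x.1).d x.2 : ℂ) ^ (c + c') x =
        (∏ x : Bool × ZMod n, (((T k).T x.1).d x.2 : ℂ) ^ c x) *
          ∏ x : Bool × ZMod n, (((T k).T x.1).d x.2 : ℂ) ^ c' x := by
      rw [← Finset.prod_mul_distrib]
      exact Finset.prod_congr rfl fun x _ => zpow_add₀ (Circle.coe_ne_zero _) _ _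
    rw [Circle.coe_mul, e]
    rcases a with a | a <;> rcases b with b | b <;> simp [a, b]
  have wsg : ∀ u : ℕ → Circle, (∃ (ε : Bool) (c : Bool × ZMod n → ℤ), ∀ᶠ k in (U : Filter ℕ),
      (u k : ℂ) = sg ε * ∏ x : Bool × ZMod n, (((T k).T x.1).d x.2 : ℂ) ^ c x) → Wd u := by
    rintro u ⟨ε, c, hc⟩
    refine ⟨c, hc.mono fun k a => ?_⟩
    cases ε <;> simp [a]
  have wpr : ∀ l e, 0 < l → l ≤ e → e ≤ Y.m →
      Wd fun k => ∏ i ∈ Finset.Ico l e, ((Z k).A i).u * ((Z k).B i).u := by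
    intro l e l0 hl
    induction e, hl using Nat.le_induction with
    | base => exact fun _ => ⟨0, .of_forall fun k => Or.inl (by simp)⟩
    | succ e hl ih =>
      intro he
      simp only [Finset.prod_Ico_succ_top hl]
      exact wmul _ _ (ih (by omega))
        (wmul _ _ (wsg _ (hA e (by omega) he)) (wsg _ (hB e (by omega) he)))
  have wW : ∀ l, ∃ c : Bool × ZMod n → ℤ, l < Y.m - 1 → ∀ᶠ k in (U : Filter ℕ),
      ((Z k).W (T k) Y j (l + 1) : ℂ) = ∏ x : Bool × ZMod n, (((T k).T x.1).d x.2 : ℂ) ^ c x ∨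
      ((Z k).W (T k) Y j (l + 1) : ℂ) = -∏ x : Bool × ZMod n, (((T k).T x.1).d x.2 : ℂ) ^ c x := by
    intro l
    by_cases c : l < Y.m - 1
    · exact (wmul _ _ (wmul _ _ (wsg _ (hB (l + 1) (by omega) (by omega)))
        (wpr (l + 1 + 1) Y.m (by omega) (by omega) le_rfl))
        (⟨Pi.single (Y.kd Y.m, j) 1, .of_forall fun k => Or.inl (by
          rw [Finset.prod_eq_single (Y.kd Y.m, j) (fun x _ hx => by simp [hx]) (by simp)]
          simp)⟩ : Wd fun k => ((T k).T (Y.kd Y.m)).d j)).imp fun _ h _ => h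
    · exact ⟨0, fun h => absurd h c⟩
  have wS : ∀ l, ∃ x : Bool × ZMod n, l < Y.m - 1 → ∀ᶠ k in (U : Filter ℕ),
      (Z k).s (l + 1) = ((T k).T x.1).len x.2 := by
    intro l
    by_cases c : l < Y.m - 1
    · exact (hs (l + 1) (by omega) (by omega)).imp fun _ h _ => h
    · exact ⟨(true, 0), fun h => absurd h c⟩
  choose c hc using wW
  choose ty hty using wS
  refine xa_end (U : Filter ℕ) (fun k (x : Bool × ZMod n) => (((T k).T x.1).d x.2 : ℂ))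
    (.of_forall fun k x => Circle.norm_coe _) (Y.m - 1) ?_ c
    (fun l k => (Z k).W (T k) Y j (l + 1)) hc ty (fun k x => ((T k).T x.1).len x.2)
    (.of_forall fun k x => ((T k).T _).len_pos _) ?_ fun l hl G => ?_
  · simp only [Fintype.card_prod, Fintype.card_bool, ZMod.card]
    omega
  · rwa [show Y.m - 1 - 1 + 1 = Y.m - 1 by omega]
  · filter_upwards [r2 (l + 1) (by omega) (by omega) G, hty l (by omega), hty (l + 1) hl]
      with k a b d
    rwa [b, d] at a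

end Pool.Agent.Ng
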