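import Pool.Agent.P.MP_6145c0_co.Ng.FamDefs

/-! Routes through a nest. -/

open Set Real Metric

namespace Pool.Agent.Ng

open Pool.Agent.P.MP_6145c0_co.Ng

variable {n : ℕ}

theorem f1_exp (θ : ℝ) (a : Circle) (q : ℂ) (ρ : ℝ) :
    q + ρ * (a * Circle.exp (sg true * θ) : Circle) = q + ρ * a * Complex.exp (θ * Complex.I) := by
  rw [sg_true, one_mul, Circle.coe_mul, Circle.coe_exp, mul_assoc]

theorem tset_lc (T : Proto n) (x : Tile) : LC (T.tset x) ∧ ST (T.tset x) := by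
  refine x4_sector fun u hu => ?_
  rcases T.mem_cases hu with h | ⟨i, h⟩ | ⟨i, rfl⟩
  · exact Or.inl h
  · obtain ⟨ρ, hρ, H⟩ := T.flat true (x, i) h
    refine Or.inr ⟨ρ, π, T.dirn true (x, i), hρ, pi_pos, Circle.norm_coe _, ?_⟩
    have k : ∀ s θ : ℝ, ((u + s * (T.dirn true (x, i) : ℂ) * Complex.exp (θ * Complex.I) - u) *
        ((T.dirn true (x, i))⁻¹ : Circle)).im = s * sin θ := by
      intro s θ
      rw [add_sub_cancel_left, Circle.coe_inv, mul_right_comm,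
        mul_inv_cancel_right₀ (Circle.coe_ne_zero _), Complex.im_ofReal_mul,
        Complex.exp_ofReal_mul_I_im]
    ext w
    constructor
    · rintro ⟨h1, h2⟩
      have h3 := (H w h2).2.1 h1
      have h4 : w ≠ u := by
        rintro rfl
        simp at h3
      obtain ⟨θ, t1, t2, e⟩ := Proto.polar true u (T.dirn true (x, i)) h4
      rw [f1_exp] at e
      rw [e, k, sg_true, one_mul] at h3
      have h5 : 0 < sin θ := pos_of_mul_pos_right h3 dist_nonneg
      refine ⟨_, θ, dist_pos.2 h4, h2, t1.lt_of_ne ?_, not_le.1 fun h6 => ?_, e⟩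
      · rintro rfl
        simp at h5
      · have := sin_nonneg_of_nonneg_of_le_pi (x := θ - π) (by linarith) (by linarith)
        rw [sin_sub_pi] at this
        linarith
    · rintro ⟨s, θ, h1, h2, h3, h4, rfl⟩
      have h5 := (x4_sec_mem (u := u) (φ := θ) (Circle.norm_coe (T.dirn true (x, i))) h1).2 h2
      refine ⟨(H _ h5).2.2 ?_, h5⟩
      rw [k, sg_true, one_mul]
      exact mul_pos h1 (sin_pos_of_pos_of_lt_pi h3 h4)
  · refine Or.inr ⟨T.r1, T.ang (x, i), T.ray true (x, i), T.r1_pos, T.ang_pos _,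
      Circle.norm_coe _, ?_⟩
    have ed : ∀ (b : Bool) (s : ℝ), 0 ≤ s → s < T.r1 →
        T.pt (x, i) + s * T.ray b (x, i) ∉ interior (T.tset x) := fun b s h0 h1 h2 => by
      refine T.not_mem_edge (e := nr b (x, i)) (by rwa [nr_fst]) ((T.mem_edge b _ _).2 ⟨s, h0, ?_, ?_⟩)
      · linarith [T.r1_le (nr b (x, i)), T.r1_pos]
      · rw [fc_nr, T.dirn_nr]
    ext w
    constructor
    · rintro ⟨h1, h2⟩
      have h4 : w ≠ T.pt (x, i) := by
        rintro rfl
        exact ed true 0 le_rfl T.r1_pos (by simpa using h1)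
      obtain ⟨θ, t1, t2, e⟩ := Proto.polar true (T.pt (x, i)) (T.ray true (x, i)) h4
      have h5 := (T.cone true (x, i) (dist_pos.2 h4) h2 t1 t2).1 (e ▸ interior_subset h1)
      refine ⟨_, θ, dist_pos.2 h4, h2, t1.lt_of_ne ?_, h5.lt_of_ne ?_, by rwa [f1_exp] at e⟩
      · rintro rfl
        refine ed true _ dist_nonneg h2 ?_
        rw [e] at h1
        simpa using h1
      · rintro rfl
        refine ed false _ dist_nonneg h2 ?_
        rw [← T.ray_not true] at e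
        exact e ▸ h1
    · rintro ⟨s, θ, h1, h2, h3, h4, rfl⟩
      exact ⟨f1_exp θ _ _ s ▸ T.cone_int true (x, i) h1 h2 h3 h4,
        (x4_sec_mem (Circle.norm_coe _) h1).2 h2⟩

/-- The fan point of the last level. -/
noncomputable def NestDat.fp (Y : NestTy n) (Z : NestDat) (t : ℕ → ℕ) : ℂ :=
  (Z.F (Y.m - 1) t * Z.A (Y.m - 1)).b

/-- A family of routes from the entry corner of level `lo` to the edge `j` of the last member. -/
structure RF (T : Proto n) (P : Set Tile) (Y : NestTy n) (Z : NestDat) (j : ZMod n) (lo Q : ℕ)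
    (y : (ℕ → ℕ) → ℕ → Tile) (R : (ℕ → ℕ) → ℕ → ℂ) : Prop where
  tl : ∀ q ≤ Q, ∃ l, lo ≤ l ∧ l ≤ Y.m ∧ ∃ κ, ∀ t ∈ Z.S, y t q = mv (Z.F l t) κ
  pt : ∀ q ≤ Q + 1, ∃ l, lo ≤ l ∧ l ≤ Y.m ∧ ∃ p : ℂ, ∀ t ∈ Z.S, R t q = Z.F l t • p
  mem : ∀ t ∈ Z.S, ∀ q ≤ Q, y t q ∈ P
  seg : ∀ t ∈ Z.S, ∀ q ≤ Q, segment ℝ (R t q) (R t (q + 1)) ⊆ frontier (T.tset (y t q))
  jn : ∀ t ∈ Z.S, ∀ q < Q, y t q = y t (q + 1) ∨ Acr T (y t q) (y t (q + 1)) (R t (q + 1)) ∨
    (Y.fan (Y.m - 1) = true ∧ R t (q + 1) = Z.fp Y t)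
  first : ∀ t ∈ Z.S, y t 0 = (Z.mem Y lo t).1 ∧ R t 0 = T.pt (Z.mem Y lo t)
  last : ∀ t ∈ Z.S, y t Q = (Z.mem Y Y.m t).1 ∧ R t Q = T.pt ((Z.mem Y Y.m t).1, j) ∧
    R t (Q + 1) = T.pt ((Z.mem Y Y.m t).1, j + 1)

variable {T : Proto n} {P : Set Tile} {Y : NestTy n} {Z : NestDat}

theorem Fam.entry (h : Fam T P Y Z) {t : ℕ → ℕ} (ht : t ∈ Z.S) {i : ℕ} (hi : i < Y.m) :
    T.pt (Z.mem Y (i + 1) t) =
      (Z.F i t * Z.A i * gen (Y.fan i) (sg (Y.sb i) * Z.pos i t)) • (0 : ℂ) := by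
  show Z.F (i + 1) t • _ = _
  rw [h.step t ht i hi, mul_smul]
  exact congrArg _ (h.ent i hi)

theorem Fam.entry_fan (h : Fam T P Y Z) {t : ℕ → ℕ} (ht : t ∈ Z.S) {i : ℕ} (hi : i < Y.m)
    (hf : Y.fan i = true) : T.pt (Z.mem Y (i + 1) t) = (Z.F i t * Z.A i).b := by
  rw [h.entry ht hi, hf, Mot.smul_def]
  simp [gen, rot]

theorem edge_fr (T : Proto n) (x : Tile) (i : ZMod n) : T.edge (x, i) ⊆ frontier (T.tset x) := by
  rw [T.tset_fr]
  exact subset_iUnion (fun i => T.edge (x, i)) i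

theorem exists_RF [NeZero n] (Y : NestTy n) (j : ZMod n) (r : ℕ) : ∀ lo, 0 < lo → lo + r = Y.m →
    ∃ Q, ∀ (T : Proto n) (P : Set Tile) (Z : NestDat), Fam T P Y Z →
      ∃ y R, RF T P Y Z j lo Q y R := by
  induction r with
  | zero =>
    intro lo h0 hlo
    obtain rfl : lo = Y.m := hlo
    refine ⟨(j - Y.ie Y.m).val, fun T P Z h => ⟨fun t _ => (Z.mem Y Y.m t).1,
      fun t q => T.pt ((Z.mem Y Y.m t).1, Y.ie Y.m + q), fun q _ => ⟨_, le_rfl, le_rfl,
        (Y.kd Y.m, 1), fun t _ => by simp [mv, NestDat.mem]⟩,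
      fun q _ => ⟨_, le_rfl, le_rfl, (T.T (Y.kd Y.m)).v (Y.ie Y.m + q), fun t _ => rfl⟩,
      fun t ht q _ => h.mem t ht _ h0 le_rfl,
      fun t _ q _ => ?_, fun t _ q _ => Or.inl rfl, fun t _ => ⟨rfl, by simp [NestDat.mem]⟩,
      fun t _ => ⟨rfl, by simp, by simp [← add_assoc]⟩⟩⟩
    rw [Nat.cast_succ, ← add_assoc]
    exact edge_fr T _ _
  | succ r ih =>
    intro lo h0 hlo
    obtain ⟨Q, hQ⟩ := ih (lo + 1) (by omega) (by omega)
    refine ⟨Y.Q lo + 1 + Q, fun T P Z h => ?_⟩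
    obtain ⟨y, R, H⟩ := hQ T P Z h
    obtain ⟨κ, p, i, k1, k2, k3⟩ := h.leg lo h0 (by omega)
    refine ⟨fun t q => if q ≤ Y.Q lo then mv (Z.F lo t) (κ q) else y t (q - (Y.Q lo + 1)),
      fun t q => if q ≤ Y.Q lo then Z.F lo t • p q else R t (q - (Y.Q lo + 1)),
      fun q hq => ?_, fun q hq => ?_, fun t ht q hq => ?_, fun t ht q hq => ?_,
      fun t ht q hq => ?_, fun t ht => ?_, fun t ht => ?_⟩
    · by_cases c : q ≤ Y.Q lo
      · exact ⟨lo, le_rfl, by omega, κ q, fun t _ => if_pos c⟩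
      · obtain ⟨l, h1, h2, κ', h3⟩ := H.tl (q - (Y.Q lo + 1)) (by omega)
        exact ⟨l, by omega, h2, κ', fun t ht => (if_neg c).trans (h3 t ht)⟩
    · by_cases c : q ≤ Y.Q lo
      · exact ⟨lo, le_rfl, by omega, p q, fun t _ => if_pos c⟩
      · obtain ⟨l, h1, h2, κ', h3⟩ := H.pt (q - (Y.Q lo + 1)) (by omega)
        exact ⟨l, by omega, h2, κ', fun t ht => (if_neg c).trans (h3 t ht)⟩
    · by_cases c : q ≤ Y.Q lo
      · rw [if_pos c]
        exact (k3 t ht).1.mem q c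
      · rw [if_neg c]
        exact H.mem t ht _ (by omega)
    · rcases lt_trichotomy q (Y.Q lo) with c | rfl | c
      · rw [if_pos c.le, if_pos c.le, if_pos (show q + 1 ≤ _ from c)]
        exact (k3 t ht).1.seg q c
      · rw [if_pos le_rfl, if_pos le_rfl, if_neg (by omega), Nat.sub_self, (H.first t ht).2]
        exact (k3 t ht).1.last
      · rw [if_neg (by omega), if_neg (by omega), if_neg (by omega),
          show q + 1 - (Y.Q lo + 1) = q - (Y.Q lo + 1) + 1 by omega]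
        exact H.seg t ht _ (by omega)
    · rcases lt_trichotomy q (Y.Q lo) with c | rfl | c
      · rw [if_pos c.le, if_pos (show q + 1 ≤ _ from c), if_pos (show q + 1 ≤ _ from c)]
        exact ((k3 t ht).1.jn q c).imp (congrArg _) Or.inl
      · rw [if_pos le_rfl, if_neg (by omega), if_neg (by omega), Nat.sub_self, (H.first t ht).1,
          (H.first t ht).2]
        cases hf : Y.fan lo
        · exact Or.inr (Or.inl ((k3 t ht).2 hf).1)
        · obtain rfl : lo = Y.m - 1 := by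
            by_contra c
            rw [h.runs lo h0 (by omega)] at hf
            exact absurd hf (by simp)
          exact Or.inr (Or.inr ⟨hf, h.entry_fan ht (by omega) hf⟩)
      · rw [if_neg (by omega), if_neg (by omega), if_neg (by omega),
          show q + 1 - (Y.Q lo + 1) = q - (Y.Q lo + 1) + 1 by omega]
        exact H.jn t ht _ (by omega)
    · rw [if_pos (Nat.zero_le _), if_pos (Nat.zero_le _), k1, k2]
      exact ⟨by simp [mv, NestDat.mem], rfl⟩
    · rw [if_neg (by omega), if_neg (by omega), if_neg (by omega), Nat.add_sub_cancel_left,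
        show Y.Q lo + 1 + Q + 1 - (Y.Q lo + 1) = Q + 1 by omega]
      exact H.last t ht

theorem fr_sub (T : Proto n) (x : Tile) : frontier (T.tset x) ⊆ T.tset x :=
  (T.tset_closed x).frontier_subset

theorem Acr.j {x y : Tile} {z : ℂ} (h : Acr T x y z) {A : Set Tile} (hx : x ∈ A) (hy : y ∈ A)
    (X : Set ℂ) : J (interior (⋃ i ∈ A, T.tset i) ∪ X) {z} (T.tset x) z (T.tset y) z := by
  have k : z ∈ T.tset x ∩ T.tset y := by
    rw [← ((T.tset_closed x).inter (T.tset_closed y)).closure_eq]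
    exact closure_mono inter_subset_left h
  refine (J.across (tset_lc T x).1 (tset_lc T y).1 k.1 k.2 h).mono
    (subset_union_of_subset_left (interior_mono (union_subset ?_ ?_)) _) subset_rfl
  · exact subset_biUnion_of_mem (u := T.tset) hx
  · exact subset_biUnion_of_mem (u := T.tset) hy

theorem int_sub {x : Tile} {A : Set Tile} (hx : x ∈ A) (X : Set ℂ) :
    interior (T.tset x) ⊆ interior (⋃ i ∈ A, T.tset i) ∪ X :=
  subset_union_of_subset_left (interior_mono (subset_biUnion_of_mem (u := T.tset) hx)) _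

theorem thr_j {x y : Tile} {z : ℂ} (h1 : z ∈ T.tset x) (h2 : z ∈ T.tset y) {A : Set Tile}
    (hx : x ∈ A) (hy : y ∈ A) {X : Set ℂ} (hz : z ∈ X) :
    J (interior (⋃ i ∈ A, T.tset i) ∪ X) {z} (T.tset x) z (T.tset y) z :=
  (J.through (tset_lc T x).2 (tset_lc T y).2 h1 h2).mono (union_subset
    (union_subset (int_sub hx X) (int_sub hy X)) (singleton_subset_iff.2 (Or.inr hz))) subset_rfl

theorem RF.route {j : ZMod n} {lo Q : ℕ} {y : (ℕ → ℕ) → ℕ → Tile} {R : (ℕ → ℕ) → ℕ → ℂ}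
    (H : RF T P Y Z j lo Q y R) {t : ℕ → ℕ} (ht : t ∈ Z.S) {A : Set Tile}
    (hA : ∀ q ≤ Q, y t q ∈ A) {X : Set ℂ} (hX : Y.fan (Y.m - 1) = true → Z.fp Y t ∈ X) :
    Route (interior (⋃ i ∈ A, T.tset i) ∪ X) Q (fun q => T.tset (y t q)) (R t) := by
  have s : ∀ q ≤ Q, segment ℝ (R t q) (R t (q + 1)) ⊆ T.tset (y t q) := fun q hq =>
    (H.seg t ht q hq).trans (fr_sub T _)
  refine ⟨fun q _ => (tset_lc T _).1, fun q hq => int_sub (hA q hq) X, s, fun q hq => ?_⟩
  have m1 := s q hq.le (right_mem_segment _ _ _)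
  rcases H.jn t ht q hq with e | e | ⟨e1, e2⟩
  · show J _ _ (T.tset (y t q)) _ (T.tset (y t (q + 1))) _
    rw [← e]
    exact ((tset_lc T _).1.2 _ m1).mono (int_sub (hA q hq.le) X) subset_rfl
  · exact e.j (hA q hq.le) (hA _ hq) X
  · exact thr_j m1 (s _ hq (left_mem_segment _ _ _)) (hA q hq.le) (hA _ hq) (e2 ▸ hX e1)

theorem RF.dist_le {j : ZMod n} {lo Q : ℕ} {y : (ℕ → ℕ) → ℕ → Tile} {R : (ℕ → ℕ) → ℕ → ℂ}
    (H : RF T P Y Z j lo Q y R) {t : ℕ → ℕ} (ht : t ∈ Z.S) :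
    ∀ q ≤ Q + 1, dist (R t q) (R t 0) ≤ q * T.D := by
  intro q
  induction q with
  | zero => simp
  | succ q ih =>
    intro hq
    have s := (H.seg t ht q (by omega)).trans (fr_sub T _)
    have := T.dist_le_D (s (right_mem_segment _ _ _)) (s (left_mem_segment _ _ _))
    push_cast
    linarith [ih (by omega), dist_triangle (R t (q + 1)) (R t q) (R t 0)]

theorem Leg.dist_le {Q : ℕ} {κ : ℕ → Tile} {p : ℕ → ℂ} {g : Mot} {z : ℂ}
    (H : Leg T P Q κ p g z) : dist (g • p 0) z ≤ (Q + 1) * T.D := by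
  have k : ∀ q ≤ Q, dist (g • p 0) (g • p q) ≤ q * T.D := by
    intro q
    induction q with
    | zero => simp
    | succ q ih =>
      intro hq
      have s := (H.seg q hq).trans (fr_sub T _)
      have := T.dist_le_D (s (left_mem_segment _ _ _)) (s (right_mem_segment _ _ _))
      push_cast
      linarith [ih (by omega), dist_triangle (g • p 0) (g • p q) (g • p (q + 1))]
  have s := H.last.trans (fr_sub T _)
  have := T.dist_le_D (s (left_mem_segment _ _ _)) (s (right_mem_segment _ _ _))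
  linarith [k Q le_rfl, dist_triangle (g • p 0) (g • p Q) z]

end Pool.Agent.Ng
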