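import Pool.Agent.P.MP_6145c0_co.Ng.Fam1

/-! Displacements inside a nest. -/

open Set Real Metric
open scoped ComplexConjugate

namespace Pool.Agent.Ng

variable {n : ℕ}

theorem gen_add (f : Bool) (x y : ℝ) : gen f (x + y) = gen f x * gen f y := by
  cases f
  · exact tr_add x y
  · exact rot_add x y

theorem f2_exp (x : ℝ) : ‖(Circle.exp x : ℂ) - 1‖ ≤ |x| := by
  rw [Circle.coe_exp, mul_comm]
  exact Real.norm_exp_I_mul_ofReal_sub_one_le

theorem f2_exp2 (x y : ℝ) : ‖(Circle.exp x : ℂ) - Circle.exp y‖ ≤ |x - y| := by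
  have : (Circle.exp x : ℂ) - Circle.exp y = Circle.exp y * (Circle.exp (x - y) - 1) := by
    rw [mul_sub, ← Circle.coe_mul, ← Circle.exp_add]
    simp
  rw [this, norm_mul, Circle.norm_coe, one_mul]
  exact f2_exp _

theorem f2_sg (b : Bool) (x : ℝ) : |sg b * x| = |x| := by rw [abs_mul, abs_sg, one_mul]

theorem f2_conj (E : Mot) (f : Bool) (x : ℝ) (w : ℂ) : (E * gen f x * E⁻¹) • w - w =
    if f then (Circle.exp x - 1) * (w - E.b) else x * E.u := by
  have h := Circle.coe_ne_zero E.u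
  cases f <;> simp only [gen, rot, tr, Mot.smul_def, Mot.mul_u, Mot.mul_b, Mot.inv_u, Mot.inv_b,
    Circle.coe_mul, Circle.coe_inv, Circle.coe_one, if_true, if_false, Bool.false_eq_true] <;>
    field_simp <;> ring

namespace NestDat

variable (T : Proto n) (Y : NestTy n) (Z : NestDat)

/-- The anchor frame of level `l`. -/
noncomputable def E (l : ℕ) (t : ℕ → ℕ) : Mot := Z.F l t * Z.A l

/-- The direction of the last edge. -/
noncomputable def dl (j : ZMod n) (t : ℕ → ℕ) : ℂ := T.dirn true ((Z.mem Y Y.m t).1, j)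

noncomputable def err : ℝ := if Y.fan (Y.m - 1) then Z.s (Y.m - 1) * T.D else 0

noncomputable def nu (j : ZMod n) (l : ℕ) : ℝ :=
  |((Z.W T Y j l * (gen (Y.fan (Y.m - 1)) (sg (Y.sb (Y.m - 1)) * Z.b (Y.m - 1))).u : Circle) :
    ℂ).im|

noncomputable def tau (j : ZMod n) (l : ℕ) : ℝ :=
  if Y.fan l then Z.s l * T.D else Z.s l * Z.nu T Y j l + Z.err T Y

noncomputable def sig (l : ℕ) : ℝ := if Y.fan l then Z.s l * T.D else Z.s l

noncomputable def G (l : ℕ) (t₀ t : ℕ → ℕ) : Mot :=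
  Z.E l t₀ * gen (Y.fan l) (sg (Y.sb l) * (Z.pos l t - Z.pos l t₀)) * (Z.E l t₀)⁻¹

noncomputable def H (l : ℕ) (t₀ t : ℕ → ℕ) : Mot := Z.F l t * (Z.F l t₀)⁻¹

end NestDat

variable {T : Proto n} {P : Set Tile} {Y : NestTy n} {Z : NestDat} {t t₀ : ℕ → ℕ}

theorem Fam.H_succ (h : Fam T P Y Z) (h0 : t₀ ∈ Z.S) (ht : t ∈ Z.S) {l : ℕ} (hl : l < Y.m) :
    Z.H (l + 1) t₀ t = Z.H l t₀ t * Z.G Y l t₀ t := by
  have e := gen_add (Y.fan l) (sg (Y.sb l) * (Z.pos l t - Z.pos l t₀)) (sg (Y.sb l) * Z.pos l t₀)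
  rw [← mul_add, sub_add_cancel] at e
  simp only [NestDat.H, NestDat.G, NestDat.E, h.step t ht l hl, h.step t₀ h0 l hl, e]
  group

theorem Fam.N_anti (h : Fam T P Y Z) {i l : ℕ} (hi : i ≤ l) (hl : l < Y.m) : Z.N l ≤ Z.N i := by
  induction l, hi using Nat.le_induction with
  | base => exact le_rfl
  | succ l _ ih => exact (h.anti l hl).trans (ih (by omega))

theorem Fam.err_nonneg (h : Fam T P Y Z) (hm : 0 < Y.m) : 0 ≤ Z.err T Y := by
  unfold NestDat.err
  split_ifs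
  · exact mul_nonneg (h.s_pos _ (by omega)).le T.D_pos.le
  · exact le_rfl

theorem Fam.tau_nonneg (h : Fam T P Y Z) (j : ZMod n) {l : ℕ} (hl : l < Y.m) :
    0 ≤ Z.tau T Y j l := by
  unfold NestDat.tau
  split_ifs
  · exact mul_nonneg (h.s_pos _ hl).le T.D_pos.le
  · exact add_nonneg (mul_nonneg (h.s_pos _ hl).le (abs_nonneg _)) (h.err_nonneg (by omega))

theorem Fam.dl_eq (h : Fam T P Y Z) (ht : t ∈ Z.S) (j : ZMod n) {l : ℕ} (hl : l < Y.m)
    (hf : Y.fan l = false) : Z.dl T Y j t = (Z.E l t).u *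
      (Z.W T Y j l * (gen (Y.fan (Y.m - 1)) (sg (Y.sb (Y.m - 1)) * Z.pos (Y.m - 1) t)).u :
        Circle) := by
  have k : ∀ k, l + 1 ≤ k → k ≤ Y.m → (Z.F k t).u = (Z.E l t).u * (Z.B l).u *
      (∏ i ∈ Finset.Ico (l + 1) k, (Z.A i).u * (Z.B i).u) *
        (gen (Y.fan (k - 1)) (sg (Y.sb (k - 1)) * Z.pos (k - 1) t)).u := by
    intro k hk
    induction k, hk using Nat.le_induction with
    | base =>
      intro _
      rw [h.step t ht l hl]
      simp [NestDat.E, mul_right_comm]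
    | succ k hk ih =>
      intro hk'
      have hr : Y.fan (k - 1) = false := by
        rcases hk.eq_or_lt with e | e
        · rw [← e]; exact hf
        · exact h.runs _ (by omega) (by omega)
      rw [h.step t ht k hk', Finset.prod_Ico_succ_top hk, Mot.mul_u, Mot.mul_u, Mot.mul_u,
        ih (by omega), hr]
      simp only [gen, tr, Bool.false_eq_true, if_false, Nat.add_sub_cancel, mul_one]
      ac_rfl
  rw [← Circle.coe_mul]
  show (((Z.F Y.m t).u * (T.T (Y.kd Y.m)).d j : Circle) : ℂ) = _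
  refine congrArg _ ?_
  rw [k Y.m hl le_rfl, NestDat.W]
  ac_rfl

theorem Fam.nu_est (h : Fam T P Y Z) (ht : t ∈ Z.S) (j : ZMod n) {l : ℕ} (hl : l < Y.m)
    (hf : Y.fan l = false) : |Z.s l * |(conj (Z.dl T Y j t) * (Z.E l t).u).im| -
      Z.s l * Z.nu T Y j l| ≤ |Y.c| * Z.err T Y := by
  have hs := h.s_pos l hl
  have e : ∀ (u : Circle) (w : ℂ), |(conj (u * w) * u).im| = |w.im| := fun u w => by
    rw [map_mul, mul_right_comm, Complex.conj_mul', Circle.norm_coe]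
    simp
  rw [h.dl_eq ht j hl hf, e, ← mul_sub, abs_mul, abs_of_pos hs, NestDat.nu, NestDat.err]
  cases hm : Y.fan (Y.m - 1)
  · simp [gen, tr]
  · simp only [gen, rot, if_true]
    have h1 := h.win t ht (Y.m - 1) (by omega)
    have h2 : ((t (Y.m - 1) : ℝ) + 1) ≤ Z.N l := by
      exact_mod_cast ((h.box t ht).1 (Y.m - 1) (by omega)).trans_le (h.N_anti (by omega) (by omega))
    have h3 := h.s_pos (Y.m - 1) (by omega)
    have h4 := h.tot l hl
    rw [hf] at h4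
    have h5 : |Z.pos (Y.m - 1) t - Z.b (Y.m - 1)| ≤ Z.N l * Z.s (Y.m - 1) := by
      have : (0 : ℝ) ≤ t (Y.m - 1) := Nat.cast_nonneg _
      exact abs_le.2 ⟨by nlinarith [h1.1], by nlinarith [h1.2]⟩
    have h6 := (abs_abs_sub_abs_le_abs_sub _ _).trans ((Complex.abs_im_le_norm
      (((Z.W T Y j l * Circle.exp (sg (Y.sb (Y.m - 1)) * Z.pos (Y.m - 1) t) : Circle) : ℂ) -
        (Z.W T Y j l * Circle.exp (sg (Y.sb (Y.m - 1)) * Z.b (Y.m - 1)) : Circle))).trans (b := _)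
      (c := Z.N l * Z.s (Y.m - 1)) (by
        rw [Circle.coe_mul, Circle.coe_mul, ← mul_sub, norm_mul, Circle.norm_coe, one_mul]
        refine (f2_exp2 _ _).trans ?_
        rwa [← mul_sub, f2_sg]))
    have h7 : Z.N l * Z.s l ≤ |Y.c| * T.D :=
      (h4.trans (mul_le_mul_of_nonneg_right (le_abs_self _) T.D_pos.le) :)
    refine (mul_le_mul_of_nonneg_left h6 hs.le).trans ?_
    nlinarith

theorem Fam.pos_est (h : Fam T P Y Z) (h0 : t₀ ∈ Z.S) (ht : t ∈ Z.S) {i a : ℕ} (hi : i < Y.m)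
    (h1 : t i ≤ t₀ i + a) (h2 : t₀ i ≤ t i + a) : |Z.pos i t - Z.pos i t₀| ≤ (a + 1) * Z.s i := by
  have k1 := h.win t ht i hi
  have k2 := h.win t₀ h0 i hi
  have k3 := h.s_pos i hi
  have e1 : (t i : ℝ) ≤ t₀ i + a := by exact_mod_cast h1
  have e2 : (t₀ i : ℝ) ≤ t i + a := by exact_mod_cast h2
  exact abs_le.2 ⟨by nlinarith [k1.1, k2.2], by nlinarith [k1.2, k2.1]⟩

theorem Fam.pos_gap (h : Fam T P Y Z) (h0 : t₀ ∈ Z.S) (ht : t ∈ Z.S) {i a : ℕ} (hi : i < Y.m)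
    (h1 : t₀ i + a < t i) : Z.pos i t₀ + a * Z.s i < Z.pos i t := by
  have k1 := h.win t ht i hi
  have k2 := h.win t₀ h0 i hi
  have k3 := h.s_pos i hi
  have e1 : (t₀ i : ℝ) + a + 1 ≤ t i := by exact_mod_cast h1
  nlinarith [k1.1, k2.2]

theorem dl_norm (j : ZMod n) : ‖Z.dl T Y j t‖ = 1 := Circle.norm_coe _

theorem f2_im (j : ZMod n) (w : ℂ) : |(conj (Z.dl T Y j t) * w).im| ≤ ‖w‖ :=
  (Complex.abs_im_le_norm _).trans_eq (by rw [norm_mul, Complex.norm_conj, dl_norm, one_mul])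

/-- One level: the size of the displacement and of its part across the last edge. -/
theorem Fam.G_est (h : Fam T P Y Z) (h0 : t₀ ∈ Z.S) (j : ZMod n) {i : ℕ} (hi : i < Y.m) {a cQ : ℝ}
    (hQ : 1 ≤ cQ) (ha : |Z.pos i t - Z.pos i t₀| ≤ a * Z.s i) {w : ℂ}
    (hw : Y.fan i = true → ‖w - (Z.E i t₀).b‖ ≤ cQ * T.D) :
    ‖Z.G Y i t₀ t • w - w‖ ≤ a * cQ * Z.sig T Y i ∧
      |(conj (Z.dl T Y j t₀) * (Z.G Y i t₀ t • w - w)).im| ≤
        a * (cQ + |Y.c|) * Z.tau T Y j i := by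
  have hs := h.s_pos i hi
  have ha0 : 0 ≤ a := nonneg_of_mul_nonneg_left ((abs_nonneg _).trans ha) hs
  have hc := abs_nonneg Y.c
  have hD := T.D_pos
  rw [← f2_sg (Y.sb i)] at ha
  unfold NestDat.sig NestDat.tau NestDat.G
  rw [f2_conj]
  cases hf : Y.fan i
  · simp only [Bool.false_eq_true, if_false]
    refine ⟨?_, ?_⟩
    · rw [norm_mul, Circle.norm_coe, mul_one, Complex.norm_real]
      exact ha.trans (by nlinarith [mul_nonneg ha0 hs.le])
    · have k := (abs_le.1 (h.nu_est h0 j hi hf)).2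
      have k1 := h.err_nonneg (by omega)
      have k2 : 0 ≤ Z.s i * Z.nu T Y j i := mul_nonneg hs.le (abs_nonneg _)
      rw [mul_left_comm, Complex.im_ofReal_mul, abs_mul]
      refine (mul_le_mul_of_nonneg_right ha (abs_nonneg _)).trans ?_
      rw [mul_assoc, mul_assoc]
      refine mul_le_mul_of_nonneg_left ?_ ha0
      nlinarith [mul_nonneg hc k2]
  · simp only [if_true]
    have k : ‖((Circle.exp (sg (Y.sb i) * (Z.pos i t - Z.pos i t₀)) : ℂ) - 1) *
        (w - (Z.E i t₀).b)‖ ≤ a * cQ * (Z.s i * T.D) := by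
      rw [norm_mul]
      refine (mul_le_mul ((f2_exp _).trans ha) (hw hf) (norm_nonneg _) (by positivity)).trans_eq ?_
      ring
    exact ⟨k, (f2_im j _).trans (k.trans (by gcongr; linarith))⟩

theorem Fam.disp (h : Fam T P Y Z) (h0 : t₀ ∈ Z.S) (ht : t ∈ Z.S) (jj : ZMod n) {j M Λ : ℕ}
    (hj : j + 1 < Y.m) (ag : ∀ i, i ≠ j → i ≠ j + 1 → t i = t₀ i)
    (hM : t j ≤ t₀ j + M ∧ t₀ j ≤ t j + M) (hΛ : t (j + 1) ≤ t₀ (j + 1) + Λ ∧ t₀ (j + 1) ≤ t (j + 1) + Λ)
    {cQ C₁ τ lam : ℝ} (hQ : 1 ≤ cQ) (hC : 1 ≤ C₁) (h1 : Z.tau T Y jj j ≤ C₁ * τ)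
    (h2 : ∀ l, j + 1 < l → l < Y.m → Z.tau T Y jj l ≤ τ) (hτ : 0 ≤ τ)
    (h3 : ∀ i < Y.m, (M + Λ + 1) * cQ * Z.sig T Y i ≤ lam) (h4 : lam ≤ T.D) {l : ℕ}
    (hl : j + 2 ≤ l) (hl' : l ≤ Y.m) {w : ℂ}
    (hw : ∀ i, j ≤ i → i < l → Y.fan i = true → ‖w - (Z.E i t₀).b‖ ≤ cQ * T.D) :
    ‖Z.H l t₀ t • w - w‖ ≤ Y.m * lam ∧
      |(conj (Z.dl T Y jj t₀) * (Z.H l t₀ t • w - w)).im -
        (conj (Z.dl T Y jj t₀) * (Z.G Y (j + 1) t₀ t • w - w)).im| ≤
        Y.m * ((M + 1) * (cQ + |Y.c| + 1) * C₁) * τ := by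
  have hc := abs_nonneg Y.c
  have hM0 : (0 : ℝ) ≤ M := Nat.cast_nonneg _
  have hΛ0 : (0 : ℝ) ≤ Λ := Nat.cast_nonneg _
  have Hj : Z.H j t₀ t = 1 := by
    rw [NestDat.H, h.dep t ht t₀ h0 j (by omega) fun i hi => ag i (by omega) (by omega),
      mul_inv_cancel]
  have sum : ∀ k, j ≤ k → k ≤ Y.m → Z.H k t₀ t • w - w =
      ∑ i ∈ Finset.Ico j k, ((Z.H i t₀ t).u : ℂ) * (Z.G Y i t₀ t • w - w) := by
    intro k hk
    induction k, hk using Nat.le_induction with
    | base => simp [Hj]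
    | succ k hk ih =>
      intro hk'
      rw [Finset.sum_Ico_succ_top hk, ← ih (by omega), h.H_succ h0 ht hk', mul_smul,
        ← Mot.smul_sub]
      ring
  have pj := h.pos_est h0 ht (by omega : j < Y.m) hM.1 hM.2
  have rt : ∀ k, j ≤ k → k < Y.m → ‖((Z.H k t₀ t).u : ℂ) - 1‖ * T.D ≤ (M + 1) * (C₁ * τ) := by
    have r1 : ∀ k, j + 1 ≤ k → k < Y.m → (Z.H k t₀ t).u = (Z.G Y j t₀ t).u := by
      intro k hk
      induction k, hk using Nat.le_induction with
      | base => intro _; rw [h.H_succ h0 ht (by omega), Hj, one_mul]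
      | succ k hk ih =>
        intro hk'
        rw [h.H_succ h0 ht (by omega), Mot.mul_u, ih (by omega)]
        simp [NestDat.G, h.runs k (by omega) hk', gen, tr]
    intro k hk hk'
    have z : (0 : ℝ) ≤ (M + 1) * (C₁ * τ) := by positivity
    rcases hk.eq_or_lt with rfl | hk
    · simpa [Hj] using z
    · rw [r1 k hk hk']
      cases hf : Y.fan j
      · simpa [NestDat.G, hf, gen, tr] using z
      · have e : (Z.G Y j t₀ t).u = Circle.exp (sg (Y.sb j) * (Z.pos j t - Z.pos j t₀)) := by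
          simp [NestDat.G, hf, gen, rot]
        rw [NestDat.tau, if_pos hf] at h1
        rw [e]
        refine (mul_le_mul_of_nonneg_right ((f2_exp _).trans ((f2_sg _ _).trans_le pj))
          T.D_pos.le).trans ?_
        rw [mul_assoc]
        exact mul_le_mul_of_nonneg_left h1 (by positivity)
  have nm : ∀ i, j ≤ i → i < l → ‖Z.G Y i t₀ t • w - w‖ ≤ lam := by
    intro i hi hi'
    refine (h.G_est (a := M + Λ + 1) h0 jj (by omega) hQ ?_ (hw i hi hi')).1.trans (h3 i (by omega))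
    have := h.pos_est (a := M + Λ) h0 ht (by omega : i < Y.m) (by
      by_cases c : i = j
      · subst c; omega
      · by_cases c' : i = j + 1
        · subst c'; omega
        · rw [ag i c c']; omega) (by
      by_cases c : i = j
      · subst c; omega
      · by_cases c' : i = j + 1
        · subst c'; omega
        · rw [ag i c c']; omega)
    rwa [Nat.cast_add] at this
  have lam0 : 0 ≤ lam := (norm_nonneg _).trans (nm j le_rfl (by omega))
  have card : ((Finset.Ico j l).card : ℝ) ≤ Y.m := by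
    rw [Nat.card_Ico]
    exact_mod_cast (by omega : l - j ≤ Y.m)
  rw [sum l (by omega) hl']
  refine ⟨(norm_sum_le _ _).trans ((Finset.sum_le_card_nsmul _ _ lam fun i hi => ?_).trans ?_), ?_⟩
  · rw [norm_mul, Circle.norm_coe, one_mul]
    exact nm i (Finset.mem_Ico.1 hi).1 (Finset.mem_Ico.1 hi).2
  · rw [nsmul_eq_mul]
    exact mul_le_mul_of_nonneg_right card lam0
  have e : (conj (Z.dl T Y jj t₀) * (Z.G Y (j + 1) t₀ t • w - w)).im = ∑ i ∈ Finset.Ico j l,
      if i = j + 1 then (conj (Z.dl T Y jj t₀) * (Z.G Y i t₀ t • w - w)).im else 0 := by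
    rw [Finset.sum_ite_eq', if_pos (Finset.mem_Ico.2 ⟨by omega, by omega⟩)]
  rw [e, Finset.mul_sum, Complex.im_sum, ← Finset.sum_sub_distrib]
  refine (Finset.abs_sum_le_sum_abs _ _).trans ((Finset.sum_le_card_nsmul _ _
    ((M + 1) * (cQ + |Y.c| + 1) * C₁ * τ) fun i hi => ?_).trans ?_)
  · obtain ⟨i1, i2⟩ := Finset.mem_Ico.1 hi
    have k1 : |(conj (Z.dl T Y jj t₀) * (((Z.H i t₀ t).u : ℂ) * (Z.G Y i t₀ t • w - w))).im -
        (conj (Z.dl T Y jj t₀) * (Z.G Y i t₀ t • w - w)).im| ≤ (M + 1) * (C₁ * τ) := by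
      rw [← Complex.sub_im, ← mul_sub, ← sub_one_mul]
      refine (f2_im jj _).trans (le_trans ?_ (rt i i1 (by omega)))
      rw [norm_mul]
      exact mul_le_mul_of_nonneg_left ((nm i i1 i2).trans h4) (norm_nonneg _)
    have z : 0 ≤ (M + 1) * (cQ + |Y.c|) * (C₁ * τ) := by positivity
    split_ifs with c
    · linarith
    · have k2 : |(conj (Z.dl T Y jj t₀) * (Z.G Y i t₀ t • w - w)).im| ≤
          (M + 1) * (cQ + |Y.c|) * (C₁ * τ) := by
        rcases i1.eq_or_lt with rfl | i1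
        · exact (h.G_est h0 jj (by omega) hQ pj (hw _ le_rfl i2)).2.trans
            (mul_le_mul_of_nonneg_left h1 (by positivity))
        · have p1 := h.pos_est (a := M) h0 ht (by omega : i < Y.m)
            (by rw [ag i (by omega) c]; omega) (by rw [ag i (by omega) c]; omega)
          exact (h.G_est h0 jj (by omega) hQ p1 (hw _ i1.le i2)).2.trans
            (mul_le_mul_of_nonneg_left ((h2 i (by omega) (by omega)).trans
              (le_mul_of_one_le_left hτ hC)) (by positivity))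
      rw [abs_le] at k1 k2 ⊢
      exact ⟨by linarith [k1.1, k2.1], by linarith [k1.2, k2.2]⟩
  · rw [nsmul_eq_mul, ← mul_assoc]
    exact mul_le_mul_of_nonneg_right (mul_le_mul_of_nonneg_right card (by positivity)) hτ

end Pool.Agent.Ng
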