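import Pool.Agent.P.MP_6145c0_co.Ng.Fam2

/-! Slices of a nest and the choice of four members. -/

open Set Real Metric
open scoped ComplexConjugate

namespace Pool.Agent.Ng

open Pool.Agent.P.MP_6145c0_co.Ng

variable {n : ℕ}

/-- Two rows of the coordinate `j` over a window of the coordinate `j + 1`. -/
structure Slc (S : Finset (ℕ → ℕ)) (j M Λ : ℕ) (tp : Bool → ℕ → ℕ → ℕ) (J : Finset ℕ) : Prop where
  win : ∀ a ∈ J, ∀ a' ∈ J, a ≤ a' + Λ
  mem : ∀ r, ∀ a ∈ J, tp r a ∈ S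
  col : ∀ r a, tp r a (j + 1) = a
  ag : ∀ r a r' a' i, i ≠ j → i ≠ j + 1 → tp r a i = tp r' a' i
  row : ∀ r a a', tp r a j = tp r a' j
  lt : ∀ a a', tp false a j < tp true a' j
  le : ∀ r a r' a', tp r a j ≤ tp r' a' j + M

theorem fam_slice {δ : ℝ} (hδ : 0 < δ) : ∃ (M : ℕ) (δ' : ℝ), 0 < δ' ∧
    ∀ (m j Λ : ℕ) (N : ℕ → ℕ) (S : Finset (ℕ → ℕ)), j + 1 < m → (∀ i < m, 0 < N i) → M ≤ N j →
      0 < Λ → Λ ≤ N (j + 1) → (∀ t ∈ S, (∀ i < m, t i < N i) ∧ ∀ i, m ≤ i → t i = 0) →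
      δ * ∏ i ∈ Finset.range m, (N i : ℝ) ≤ S.card →
      ∃ tp J, Slc S j M Λ tp J ∧ δ' * Λ ≤ J.card := by
  classical
  obtain ⟨M, δ', h0, H⟩ := xa_slice hδ
  refine ⟨M, δ', h0, fun m j Λ N S hj hN hM hΛ hΛ' hb hd => ?_⟩
  let z : (ℕ → ℕ) → ℕ → ℕ := fun t i => if i = j ∨ i = j + 1 then 0 else t i
  let tp : ℕ → ℕ → (ℕ → ℕ) → ℕ → ℕ := fun s a f i => if i = j then s else if i = j + 1 then a else f i
  have inv : ∀ t, tp (t j) (t (j + 1)) (z t) = t := fun t => funext fun i => by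
    simp only [tp, z]
    split_ifs <;> simp_all
  have hS : S.Nonempty := by
    rw [← Finset.card_pos, ← Nat.cast_pos (α := ℝ)]
    exact lt_of_lt_of_le (mul_pos hδ (Finset.prod_pos fun i hi => by
      exact_mod_cast hN i (Finset.mem_range.1 hi))) hd
  have c1 : (S.image z).card ≤ ∏ i ∈ Finset.range m, if i = j ∨ i = j + 1 then 1 else N i := by
    rw [Finset.prod_range]
    refine (Finset.card_le_card_of_injOn (fun f (i : Fin m) => f i) (t := Fintype.piFinset
      fun i : Fin m => Finset.range (if (i : ℕ) = j ∨ (i : ℕ) = j + 1 then 1 else N i))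
      (fun f hf => ?_) fun f hf g hg e => funext fun i => ?_).trans_eq (by simp)
    · obtain ⟨t, ht, rfl⟩ := Finset.mem_image.1 hf
      refine Finset.mem_coe.2 (Fintype.mem_piFinset.2 fun i => Finset.mem_range.2 ?_)
      simp only [z]
      split_ifs
      exacts [one_pos, (hb t ht).1 i i.2]
    · by_cases c : i < m
      · exact congrFun e ⟨i, c⟩
      · obtain ⟨t, ht, rfl⟩ := Finset.mem_image.1 hf
        obtain ⟨t', ht', rfl⟩ := Finset.mem_image.1 hg
        simp only [z, (hb t ht).2 i (not_lt.1 c), (hb t' ht').2 i (not_lt.1 c)]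
  have c2 : N j * N (j + 1) * (∏ i ∈ Finset.range m, if i = j ∨ i = j + 1 then 1 else N i) =
      ∏ i ∈ Finset.range m, N i := by
    have m1 : j ∈ Finset.range m := Finset.mem_range.2 (by omega)
    have m2 : j + 1 ∈ (Finset.range m).erase j := by simp [hj]
    rw [← Finset.mul_prod_erase _ _ m1, ← Finset.mul_prod_erase _ _ m2,
      ← Finset.mul_prod_erase _ N m1, ← Finset.mul_prod_erase _ N m2, if_pos (Or.inl rfl),
      if_pos (Or.inr rfl), one_mul, one_mul, mul_assoc]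
    congr 2
    refine Finset.prod_congr rfl fun i hi => if_neg ?_
    simp only [Finset.mem_erase] at hi
    tauto
  obtain ⟨s₁, s₂, w₀, f, h1, h2, h3⟩ := H (ℕ → ℕ) (S.image z) (N j) (N (j + 1)) Λ
    (S.image fun t => (t j, t (j + 1), z t)) hM hΛ hΛ' (hS.image _) (fun x hx => by
      obtain ⟨t, ht, rfl⟩ := Finset.mem_image.1 hx
      simp only [Finset.mem_product, Finset.mem_range]
      exact ⟨(hb t ht).1 j (by omega), (hb t ht).1 _ hj, Finset.mem_image_of_mem _ ht⟩) (by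
      have ij : Function.Injective fun t : ℕ → ℕ => (t j, t (j + 1), z t) := fun t t' e => by
        simp only [Prod.mk.injEq] at e
        rw [← inv t, ← inv t', e.1, e.2.1, e.2.2]
      rw [Finset.card_image_of_injective _ ij]
      refine le_trans (mul_le_mul_of_nonneg_left ?_ hδ.le) hd
      exact_mod_cast (Nat.mul_le_mul_left _ c1).trans_eq c2)
  have mm : ∀ s a, (s, a, f) ∈ S.image (fun t => (t j, t (j + 1), z t)) → tp s a f ∈ S := by
    intro s a h
    obtain ⟨t, ht, e⟩ := Finset.mem_image.1 h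
    simp only [Prod.mk.injEq] at e
    rwa [← e.1, ← e.2.1, ← e.2.2, inv]
  refine ⟨fun r a => tp (if r then s₂ else s₁) a f, _, ⟨fun a ha a' ha' => ?_, fun r a ha => ?_,
    fun r a => by simp [tp], fun r a r' a' i h1 h2 => by simp [tp, h1, h2],
    fun r a a' => by simp [tp], fun a a' => by simpa [tp] using h1, fun r a r' a' => ?_⟩,
    h3.trans_eq (by congr)⟩
  · simp only [Finset.mem_filter, Finset.mem_Ico] at ha ha'
    omega
  · cases r
    · exact mm _ _ (Finset.mem_filter.1 ha).2.1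
    · exact mm _ _ (Finset.mem_filter.1 ha).2.2
  · cases r <;> cases r' <;> simp [tp] <;> omega

theorem f3_pick {J B : Finset ℕ} {r b G : ℕ} (hB : B.card ≤ b) (h : r + (b + G + 1) ≤ J.card) :
    ∃ a ∈ J, a ∉ B ∧ r ≤ (J.filter (a + G < ·)).card := by
  have ne : (J \ B).Nonempty := Finset.card_pos.1 (by
    have := Finset.le_card_sdiff B J
    omega)
  have hm := Finset.mem_sdiff.1 ((J \ B).min'_mem ne)
  refine ⟨_, hm.1, hm.2, ?_⟩
  have : J ⊆ J.filter ((J \ B).min' ne + G < ·) ∪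
      (B ∪ Finset.Icc ((J \ B).min' ne) ((J \ B).min' ne + G)) := fun x hx => by
    simp only [Finset.mem_union, Finset.mem_filter, Finset.mem_Icc]
    by_cases c : x ∈ B
    · exact Or.inr (Or.inl c)
    · have := (J \ B).min'_le x (Finset.mem_sdiff.2 ⟨hx, c⟩)
      by_cases c' : (J \ B).min' ne + G < x
      · exact Or.inl ⟨hx, c'⟩
      · exact Or.inr (Or.inr ⟨this, not_lt.1 c'⟩)
  have h1 := (Finset.card_le_card this).trans ((Finset.card_union_le _ _).trans
    (Nat.add_le_add_left (Finset.card_union_le _ _) _))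
  rw [Nat.card_Icc] at h1
  omega

theorem f3_bad {X : Type} {J : Finset ℕ} {Q G : ℕ} {y : ℕ → ℕ → X}
    (h : ∀ a ∈ J, ∀ a' ∈ J, ∀ q ≤ Q, a + G < a' → y a q ≠ y a' q) (A : Finset X) :
    ∃ B : Finset ℕ, B.card ≤ A.card * ((Q + 1) * (G + 1)) ∧
      ∀ a ∈ J, a ∉ B → ∀ q ≤ Q, y a q ∉ A := by
  classical
  refine ⟨A.biUnion fun x => (Finset.range (Q + 1)).biUnion fun q => J.filter (y · q = x),
    Finset.card_biUnion_le_card_mul _ _ _ fun x _ => ?_, fun a ha hB q hq hA => hB ?_⟩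
  · refine (Finset.card_biUnion_le_card_mul _ _ (G + 1) fun q hq => ?_).trans_eq (by simp)
    rcases (J.filter (y · q = x)).eq_empty_or_nonempty with e | ne
    · simp [e]
    · have hm := Finset.mem_filter.1 (Finset.min'_mem _ ne)
      refine (Finset.card_le_card (t := Finset.Icc (Finset.min' _ ne) (Finset.min' _ ne + G))
        fun a ha => Finset.mem_Icc.2 ⟨Finset.min'_le _ _ ha, not_lt.1 fun c => ?_⟩).trans_eq
        (by rw [Nat.card_Icc]; omega)
      exact h _ hm.1 a (Finset.mem_filter.1 ha).1 q (by simpa [Nat.lt_succ_iff] using hq) c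
        (hm.2.trans (Finset.mem_filter.1 ha).2.symm)
  · simp only [Finset.mem_biUnion, Finset.mem_filter, Finset.mem_range]
    exact ⟨_, hA, q, by omega, ha, rfl⟩

theorem f3_four {X : Type} {J : Finset ℕ} {Q G : ℕ} {y : Bool → ℕ → ℕ → X} {w : Bool → X}
    (h : ∀ r, ∀ a ∈ J, ∀ a' ∈ J, ∀ q ≤ Q, a + G < a' → y r a q ≠ y r a' q) (hw : w false ≠ w true)
    (hJ : 4 * ((2 * Q + 3) * ((Q + 1) * (G + 1)) + G + 1) ≤ J.card) :
    ∃ a ∈ J, ∃ c ∈ J, ∃ b ∈ J, ∃ e ∈ J, a + G < c ∧ c + G < b ∧ b + G < e ∧ ∃ A₁ A₂ : Finset X,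
      Disjoint A₁ A₂ ∧ (∀ x, x ∈ A₁ ↔ x = w false ∨ ∃ q ≤ Q, x = y false a q ∨ x = y false b q) ∧
        ∀ x, x ∈ A₂ ↔ x = w true ∨ ∃ q ≤ Q, x = y true c q ∨ x = y true e q := by
  classical
  obtain ⟨K, hK⟩ : ∃ K, K = (2 * Q + 3) * ((Q + 1) * (G + 1)) := ⟨_, rfl⟩
  let D : Bool → ℕ → Finset X := fun r a => (Finset.range (Q + 1)).image (y r a)
  have cD : ∀ r a, (D r a).card ≤ Q + 1 := fun r a => Finset.card_image_le.trans_eq (by simp)
  have mD : ∀ r a x, x ∈ D r a ↔ ∃ q ≤ Q, x = y r a q := fun r a x => by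
    simp only [D, Finset.mem_image, Finset.mem_range, Nat.lt_succ_iff, eq_comm]
  have st : ∀ (r : Bool) (A : Finset X) (J' : Finset ℕ) (k : ℕ), J' ⊆ J → A.card ≤ 2 * Q + 3 →
      k + (K + G + 1) ≤ J'.card → ∃ a ∈ J', (∀ q ≤ Q, y r a q ∉ A) ∧
        k ≤ (J'.filter (a + G < ·)).card := by
    intro r A J' k h1 h2 h3
    obtain ⟨B, b1, b2⟩ := f3_bad (h r) A
    obtain ⟨a, a1, a2, a3⟩ := f3_pick (b1.trans (hK ▸ Nat.mul_le_mul_right _ h2)) h3
    exact ⟨a, a1, b2 a (h1 a1) a2, a3⟩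
  rw [← hK] at hJ
  obtain ⟨a, a1, a2, a3⟩ := st false {w true} J (3 * (K + G + 1)) subset_rfl (by simp) (by omega)
  obtain ⟨c, c1, c2, c3⟩ := st true (insert (w false) (D false a)) _ (2 * (K + G + 1))
    (Finset.filter_subset _ _) ((Finset.card_insert_le _ _).trans (by have := cD false a; omega))
    (le_trans (by omega) a3)
  obtain ⟨b, b1, b2, b3⟩ := st false (insert (w true) (D true c)) _ (K + G + 1)
    ((Finset.filter_subset _ _).trans (Finset.filter_subset _ _))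
    ((Finset.card_insert_le _ _).trans (by have := cD true c; omega)) (le_trans (by omega) c3)
  obtain ⟨e, e1, e2, -⟩ := st true (insert (w false) (D false a ∪ D false b)) _ 0
    (((Finset.filter_subset _ _).trans (Finset.filter_subset _ _)).trans (Finset.filter_subset _ _))
    ((Finset.card_insert_le _ _).trans (by
      have := cD false a
      have := cD false b
      have := Finset.card_union_le (D false a) (D false b)
      omega)) (le_trans (by omega) b3)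
  simp only [Finset.mem_filter] at c1 b1 e1
  simp only [Finset.mem_insert, Finset.mem_union, Finset.mem_singleton, mD, not_or, not_exists,
    not_and] at a2 c2 b2 e2
  refine ⟨a, a1, c, c1.1, b, b1.1.1, e, e1.1.1.1, c1.2, b1.2, e1.2,
    insert (w false) (D false a ∪ D false b), insert (w true) (D true c ∪ D true e),
    Finset.disjoint_left.2 fun x h1 h2 => ?_, fun x => ?_, fun x => ?_⟩
  · simp only [Finset.mem_insert, Finset.mem_union, mD] at h1 h2
    rcases h2 with rfl | ⟨q, hq, rfl⟩ | ⟨q, hq, rfl⟩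
    · rcases h1 with h1 | ⟨q, hq, h1⟩ | ⟨q, hq, h1⟩
      exacts [hw h1.symm, a2 q hq h1.symm, (b2 q hq).1 h1.symm]
    · rcases h1 with h1 | ⟨q', hq', h1⟩ | ⟨q', hq', h1⟩
      exacts [(c2 q hq).1 h1, (c2 q hq).2 q' hq' h1, (b2 q' hq').2 q hq h1.symm]
    · rcases h1 with h1 | ⟨q', hq', h1⟩ | ⟨q', hq', h1⟩
      exacts [(e2 q hq).1 h1, (e2 q hq).2.1 q' hq' h1, (e2 q hq).2.2 q' hq' h1]
  · simp only [Finset.mem_insert, Finset.mem_union, mD, and_or_left, exists_or]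
  · simp only [Finset.mem_insert, Finset.mem_union, mD, and_or_left, exists_or]

variable {T : Proto n} {P : Set Tile}

theorem f3_touch
    (hP : P.Pairwise fun x y => Disjoint (interior (T.tset x)) (interior (T.tset y)))
    {A : Set Tile} (h : A.Finite) (hA : A ⊆ P) {x : Tile} (hx : x ∈ P) {z : ℂ} (hz : z ∈ T.tset x)
    (hz' : z ∈ interior (⋃ i ∈ A, T.tset i)) : x ∈ A := by
  obtain ⟨j, hj, w, hw⟩ := x4_fin T.tset T.tset_closed h
    (interior (⋃ i ∈ A, T.tset i) ∩ interior (T.tset x)) (isOpen_interior.inter isOpen_interior)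
    (mem_closure_iff.1 ((T.tset_clo x).symm.subset hz) _ isOpen_interior hz')
    (inter_subset_left.trans interior_subset)
  by_contra hi
  exact disjoint_left.1 (hP hx (hA hj) fun e => hi (e ▸ hj)) hw.1.2 hw.2

theorem f3_disj
    (hP : P.Pairwise fun x y => Disjoint (interior (T.tset x)) (interior (T.tset y)))
    {A₁ A₂ : Set Tile} (h1 : A₁.Finite) (h2 : A₂.Finite) (s1 : A₁ ⊆ P) (s2 : A₂ ⊆ P)
    (hT : Disjoint A₁ A₂) {X₁ X₂ : Set ℂ} (hX : Disjoint X₁ X₂) (hX1 : X₁ ⊆ ⋃ i ∈ A₁, T.tset i)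
    (hX2 : X₂ ⊆ ⋃ i ∈ A₂, T.tset i) :
    Disjoint (interior (⋃ i ∈ A₁, T.tset i) ∪ X₁) (interior (⋃ i ∈ A₂, T.tset i) ∪ X₂) := by
  have k1 : ∀ x ∈ ⋃ i ∈ A₁, T.tset i, x ∉ interior (⋃ i ∈ A₂, T.tset i) := fun x hx hx' => by
    obtain ⟨i, hi, hx⟩ := mem_iUnion₂.1 hx
    exact disjoint_left.1 hT hi (f3_touch hP h2 s2 (s1 hi) hx hx')
  have k2 : ∀ x ∈ ⋃ i ∈ A₂, T.tset i, x ∉ interior (⋃ i ∈ A₁, T.tset i) := fun x hx hx' => by
    obtain ⟨i, hi, hx⟩ := mem_iUnion₂.1 hx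
    exact disjoint_left.1 hT (f3_touch hP h1 s1 (s2 hi) hx hx') hi
  refine disjoint_left.2 fun x hx hx' => ?_
  rcases hx with hx | hx <;> rcases hx' with hx' | hx'
  · exact k1 x (interior_subset hx) hx'
  · exact k2 x (hX2 hx') hx
  · exact k1 x (hX1 hx) hx'
  · exact disjoint_left.1 hX hx hx'

end Pool.Agent.Ng
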