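import Pool.Agent.P.MP_6145c0_co.Ng.Fam3

/-! The main term of the displacement, rows and joins. -/

open Set Real Metric
open scoped ComplexConjugate

namespace Pool.Agent.Ng

open Pool.Agent.P.MP_6145c0_co.Ng

variable {n : ℕ}

namespace NestDat

variable (T : Proto n) (Y : NestTy n) (Z : NestDat)

noncomputable def al (j : ZMod n) (i : ℕ) (t₀ : ℕ → ℕ) : ℝ :=
  sg (Y.sb i) * if Y.fan i then -(conj (Z.dl T Y j t₀) * (Z.E i t₀).b).re
    else (conj (Z.dl T Y j t₀) * (Z.E i t₀).u).im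

noncomputable def be (Y : NestTy n) (i : ℕ) : ℝ := if Y.fan i then sg (Y.sb i) else 0

end NestDat

variable {T : Proto n} {P : Set Tile} {Y : NestTy n} {Z : NestDat} {t t' t₀ : ℕ → ℕ}

theorem Fam.main_est (h : Fam T P Y Z) (j : ZMod n) {i : ℕ} (hi : i < Y.m) {a cQ : ℝ}
    (hQ : 1 ≤ cQ) (ha1 : 1 ≤ a) (ha : |Z.pos i t - Z.pos i t₀| ≤ a * Z.s i)
    (hs : a * (a * cQ * Z.sig T Y i) ≤ T.D) {w : ℂ}
    (hw : Y.fan i = true → ‖w - (Z.E i t₀).b‖ ≤ cQ * T.D) :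
    |(conj (Z.dl T Y j t₀) * (Z.G Y i t₀ t • w - w)).im - (Z.pos i t - Z.pos i t₀) *
      (Z.al T Y j i t₀ + NestDat.be Y i * (conj (Z.dl T Y j t₀) * w).re)| ≤ Z.tau T Y j i := by
  have h0 := h.tau_nonneg j hi
  have hD := T.D_pos
  have hs0 := h.s_pos i hi
  unfold NestDat.G NestDat.al NestDat.be
  rw [f2_conj]
  cases hf : Y.fan i
  · simp only [Bool.false_eq_true, if_false]
    rw [mul_left_comm, Complex.im_ofReal_mul]
    exact le_of_eq_of_le (by rw [abs_eq_zero]; ring) h0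
  · simp only [if_true]
    rw [NestDat.sig, if_pos hf] at hs
    rw [NestDat.tau, if_pos hf]
    rw [← f2_sg (Y.sb i)] at ha
    obtain ⟨x, hx⟩ : ∃ x, x = sg (Y.sb i) * (Z.pos i t - Z.pos i t₀) := ⟨_, rfl⟩
    have s1 : a * a * cQ * Z.s i ≤ 1 := le_of_mul_le_mul_right (by linarith) hD
    have s2 : a * Z.s i ≤ 1 := by
      refine le_trans (mul_le_mul_of_nonneg_right ?_ hs0.le) s1
      nlinarith [mul_le_mul ha1 hQ zero_le_one (by linarith)]
    have e : (conj (Z.dl T Y j t₀) * (((Circle.exp x : ℂ) - 1) * (w - (Z.E i t₀).b))).im -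
        (Z.pos i t - Z.pos i t₀) * (sg (Y.sb i) * -(conj (Z.dl T Y j t₀) * (Z.E i t₀).b).re +
          sg (Y.sb i) * (conj (Z.dl T Y j t₀) * w).re) = (conj (Z.dl T Y j t₀) *
            ((Complex.exp (x * Complex.I) - 1 - x * Complex.I) * (w - (Z.E i t₀).b))).im := by
      have : conj (Z.dl T Y j t₀) * ((Complex.exp (x * Complex.I) - 1 - x * Complex.I) *
          (w - (Z.E i t₀).b)) = conj (Z.dl T Y j t₀) * ((Complex.exp (x * Complex.I) - 1) *
          (w - (Z.E i t₀).b)) - x * (Complex.I * (conj (Z.dl T Y j t₀) * w -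
            conj (Z.dl T Y j t₀) * (Z.E i t₀).b)) := by ring
      rw [this, Complex.sub_im, Complex.im_ofReal_mul, Complex.I_mul_im, Complex.sub_re,
        Circle.coe_exp, hx]
      ring
    rw [← hx] at ha ⊢
    have nx : ‖(x : ℂ) * Complex.I‖ = |x| := by simp
    rw [e]
    refine (f2_im j _).trans ?_
    rw [norm_mul]
    refine (mul_le_mul ((Complex.norm_exp_sub_one_sub_id_le (nx.trans_le (ha.trans s2))).trans
      (pow_le_pow_left₀ (norm_nonneg _) (nx.trans_le ha) 2)) (hw hf) (norm_nonneg _)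
      (by positivity)).trans ?_
    nlinarith [mul_pos hs0 hD]

theorem Fam.gap (h : Fam T P Y Z) (h0 : t₀ ∈ Z.S) (j : ZMod n) {i : ℕ} (hi : i < Y.m) {L K x : ℝ}
    (hK : 2 ≤ K) (hL : T.D ≤ K * L)
    (he : Y.fan i = false → 2 * (|Y.c| + 1) * Z.err T Y ≤ Z.tau T Y j i)
    (hx : Y.fan i = true → L ≤ |x - (conj (Z.dl T Y j t₀) * (Z.E i t₀).b).re|) :
    Z.tau T Y j i ≤ K * (|Z.al T Y j i t₀ + NestDat.be Y i * x| * Z.s i) := by
  have hs := h.s_pos i hi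
  unfold NestDat.al NestDat.be
  cases hf : Y.fan i
  · have k := (abs_le.1 (h.nu_est h0 j hi hf)).1
    have k1 := he hf
    have k2 := h.tau_nonneg j hi
    simp only [Bool.false_eq_true, if_false, zero_mul, add_zero, f2_sg]
    have k3 : Z.tau T Y j i = Z.s i * Z.nu T Y j i + Z.err T Y := by simp [NestDat.tau, hf]
    have k4 : 0 ≤ |(conj (Z.dl T Y j t₀) * (Z.E i t₀).u).im| * Z.s i := by positivity
    nlinarith
  · simp only [if_true]
    rw [← mul_add, f2_sg, neg_add_eq_sub, NestDat.tau, if_pos hf]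
    have k := mul_le_mul_of_nonneg_left (hx hf) (by linarith : 0 ≤ K)
    nlinarith

theorem Fam.row_ne (h : Fam T P Y Z) (ht : t ∈ Z.S) (ht' : t' ∈ Z.S) {j : ℕ} (hj : j < Y.m)
    (ag : ∀ i < j, t' i = t i) (hlt : t j < t' j)
    (hs : Y.fan j = true → |Z.pos j t' - Z.pos j t| ≤ 1) {p : ℂ}
    (hp : Y.fan j = true → Z.F (j + 1) t • p ≠ (Z.E j t).b) :
    Z.F (j + 1) t' • p ≠ Z.F (j + 1) t • p := by
  have e : Z.F (j + 1) t' • p = Z.G Y j t t' • Z.F (j + 1) t • p := by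
    have := h.H_succ ht ht' hj
    rw [NestDat.H, NestDat.H, h.dep t' ht' t ht j hj.le ag, mul_inv_cancel, one_mul] at this
    rw [← this, mul_smul, inv_smul_smul]
  have g := h.pos_gap (a := 0) ht ht' hj hlt
  have x0 : sg (Y.sb j) * (Z.pos j t' - Z.pos j t) ≠ 0 := by
    rw [← abs_pos, f2_sg, abs_pos, sub_ne_zero]
    exact ne_of_gt (by simpa using g)
  rw [e, ← sub_ne_zero, NestDat.G, f2_conj]
  cases hf : Y.fan j
  · exact mul_ne_zero (Complex.ofReal_ne_zero.2 x0) (Circle.coe_ne_zero _)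
  · refine mul_ne_zero (sub_ne_zero.2 fun c => ?_) (sub_ne_zero.2 (hp hf))
    obtain ⟨k, hk⟩ := Circle.exp_eq_one.1 (Circle.coe_eq_one.1 c)
    have k1 := hs hf
    rw [← f2_sg (Y.sb j), hk, abs_mul, abs_of_pos two_pi_pos] at k1
    have k2 : (1 : ℝ) ≤ |(k : ℝ)| := by
      rw [← Int.cast_abs]
      exact_mod_cast Int.one_le_abs (by rintro rfl; exact x0 (by simpa using hk))
    nlinarith [pi_gt_three]

theorem mv_one (s : Bool) (g : Mot) : mv g (s, 1) = (s, g) := by simp [mv]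

/-- Two members of one row are joined through their wall or their fan point. -/
theorem Fam.join (h : Fam T P Y Z) {i : ℕ} (h0 : 0 < i) (hi : i < Y.m) : ∃ κ : Tile,
    (∀ t ∈ Z.S, mv (Z.F i t) κ ∈ P ∧
      dist (T.pt (Z.mem Y i t)) (T.pt (Z.mem Y (i + 1) t)) ≤ (Y.Q i + 1) * T.D) ∧
    ∀ t ∈ Z.S, ∀ t' ∈ Z.S, Z.F i t = Z.F i t' → ∀ (A : Set Tile) (X : Set ℂ),
      mv (Z.F i t) κ ∈ A → (Z.mem Y (i + 1) t).1 ∈ A → (Z.mem Y (i + 1) t').1 ∈ A →
      (Y.fan (Y.m - 1) = true → Z.fp Y t ∈ X) →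
      J (interior (⋃ x ∈ A, T.tset x) ∪ X)
        (segment ℝ (T.pt (Z.mem Y (i + 1) t)) (T.pt (Z.mem Y (i + 1) t')))
        (T.tset (Z.mem Y (i + 1) t).1) (T.pt (Z.mem Y (i + 1) t))
        (T.tset (Z.mem Y (i + 1) t').1) (T.pt (Z.mem Y (i + 1) t')) := by
  obtain ⟨κ, p, e, k1, k2, k3⟩ := h.leg i h0 hi
  refine ⟨κ (Y.Q i), fun t ht => ⟨(k3 t ht).1.mem _ le_rfl, ?_⟩,
    fun t ht t' ht' hF A X a1 a2 a3 hX => ?_⟩
  · have := (k3 t ht).1.dist_le
    rwa [k2] at this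
  cases hf : Y.fan i
  · obtain ⟨c1, c2⟩ := (k3 t ht).2 hf
    obtain ⟨c3, c4⟩ := (k3 t' ht').2 hf
    rw [← hF] at c3 c4
    have sg := ((convex_segment _ _).segment_subset c2 c4).trans (T.edge_subset _)
    have lc := (tset_lc T (mv (Z.F i t) (κ (Y.Q i)))).1
    exact (((c1.j a1 a2 X).symm.mono subset_rfl
      (singleton_subset_iff.2 (left_mem_segment _ _ _))).trans
      ((J.along lc (convex_segment _ _).isPreconnected sg (left_mem_segment _ _ _)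
        (right_mem_segment _ _ _)).mono (int_sub a1 X) subset_rfl)
      (lc.1 (sg (left_mem_segment _ _ _)))).trans ((c3.j a1 a3 X).mono subset_rfl
      (singleton_subset_iff.2 (right_mem_segment _ _ _))) (lc.1 (sg (right_mem_segment _ _ _)))
  · obtain rfl : i = Y.m - 1 := by
      by_contra c
      rw [h.runs i h0 (by omega)] at hf
      exact absurd hf (by simp)
    have e1 := h.entry_fan ht hi hf
    have e2 : T.pt (Z.mem Y (Y.m - 1 + 1) t') = T.pt (Z.mem Y (Y.m - 1 + 1) t) := by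
      rw [h.entry_fan ht' hi hf, e1, hF]
    have m2 := T.pt_mem (Z.mem Y (Y.m - 1 + 1) t')
    rw [e2] at m2 ⊢
    exact (thr_j (T.pt_mem _) m2 a2 a3 (e1 ▸ hX hf)).mono subset_rfl
      (singleton_subset_iff.2 (left_mem_segment _ _ _))

/-- The displacement of a member of a slice. -/
theorem Fam.est (h : Fam T P Y Z) {jj : ZMod n} {j M Λ Q : ℕ} {y : (ℕ → ℕ) → ℕ → Tile}
    {R : (ℕ → ℕ) → ℕ → ℂ} (H : RF T P Y Z jj (j + 2) Q y R) (hj : j + 1 < Y.m)
    {tp : Bool → ℕ → ℕ → ℕ} {J : Finset ℕ} (hS : Slc Z.S j M Λ tp J) {a₀ a : ℕ} {r : Bool}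
    (h0 : a₀ ∈ J) (ha : a ∈ J) {cQ C₁ lam : ℝ} (hQ : 2 * Q + Y.Q (j + 1) + 3 ≤ cQ) (hC : 1 ≤ C₁)
    (h1 : Z.tau T Y jj j ≤ C₁ * Z.tau T Y jj (j + 1))
    (h2 : ∀ l, j + 1 < l → l < Y.m → Z.tau T Y jj l ≤ Z.tau T Y jj (j + 1))
    (h3 : ∀ i < Y.m, (M + Λ + 1) * cQ * Z.sig T Y i ≤ lam) (h4 : (Λ + 1) * lam ≤ T.D) {l : ℕ}
    (hl : j + 2 ≤ l) (hl' : l ≤ Y.m) {w : ℂ}
    (hw : dist w (R (tp false a₀) 0) ≤ (Q + 1) * T.D) :
    ‖Z.H l (tp false a₀) (tp r a) • w - w‖ ≤ Y.m * lam ∧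
      |(conj (Z.dl T Y jj (tp false a₀)) * (Z.H l (tp false a₀) (tp r a) • w - w)).im -
        (Z.pos (j + 1) (tp r a) - Z.pos (j + 1) (tp false a₀)) * (Z.al T Y jj (j + 1) (tp false a₀) +
          NestDat.be Y (j + 1) * (conj (Z.dl T Y jj (tp false a₀)) * w).re)| ≤
        (Y.m * ((M + 1) * (cQ + |Y.c| + 1) * C₁) + 1) * Z.tau T Y jj (j + 1) ∧
      |(Z.pos (j + 1) (tp r a) - Z.pos (j + 1) (tp false a₀)) * (Z.al T Y jj (j + 1) (tp false a₀) +
          NestDat.be Y (j + 1) * (conj (Z.dl T Y jj (tp false a₀)) * w).re)| ≤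
        ((Λ + 1) * (cQ + |Y.c|) + 1) * Z.tau T Y jj (j + 1) := by
  have m0 := hS.mem false a₀ h0
  have m1 := hS.mem r a ha
  have hD := T.D_pos
  have q0 : (0 : ℝ) ≤ Q := Nat.cast_nonneg _
  have q1 : (0 : ℝ) ≤ Y.Q (j + 1) := Nat.cast_nonneg _
  have hM0 : (0 : ℝ) ≤ M := Nat.cast_nonneg _
  have hΛ0 : (0 : ℝ) ≤ Λ := Nat.cast_nonneg _
  have hQ1 : 1 ≤ cQ := by linarith
  have near : ∀ i, j ≤ i → i < Y.m → Y.fan i = true →
      ‖w - (Z.E i (tp false a₀)).b‖ ≤ cQ * T.D := by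
    intro i hi hi' hf
    rw [← dist_eq_norm, NestDat.E, ← h.entry_fan m0 hi' hf]
    refine (dist_triangle _ (R (tp false a₀) 0) _).trans ?_
    rcases hi.eq_or_lt with rfl | hi
    · obtain ⟨κ, k, -⟩ := h.join (i := j + 1) (by omega) hj
      have := (k _ m0).2
      rw [dist_comm, ← (H.first _ m0).2] at this
      nlinarith
    · obtain rfl : i = Y.m - 1 := by
        by_contra c
        rw [h.runs i (by omega) (by omega)] at hf
        exact absurd hf (by simp)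
      rw [show Y.m - 1 + 1 = Y.m by omega]
      have d1 := H.dist_le m0 Q (by omega)
      have d2 := T.dist_le_D (T.pt_mem ((Z.mem Y Y.m (tp false a₀)).1, jj))
        (T.pt_mem (Z.mem Y Y.m (tp false a₀)))
      rw [← (H.last _ m0).2.1] at d2
      rw [dist_comm] at d1
      nlinarith [dist_triangle (R (tp false a₀) 0) (R (tp false a₀) Q)
        (T.pt (Z.mem Y Y.m (tp false a₀)))]
  have cΛ : tp r a (j + 1) ≤ tp false a₀ (j + 1) + Λ ∧ tp false a₀ (j + 1) ≤ tp r a (j + 1) + Λ := by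
    rw [hS.col, hS.col]
    exact ⟨hS.win a ha a₀ h0, hS.win a₀ h0 a ha⟩
  have s0 : ∀ i < Y.m, 0 ≤ Z.sig T Y i := fun i hi => by
    have := h.s_pos i hi
    unfold NestDat.sig
    split_ifs <;> positivity
  have l0 : 0 ≤ lam := le_trans (mul_nonneg (by positivity) (s0 _ hj)) (h3 _ hj)
  obtain ⟨d1, d2⟩ := h.disp m0 m1 jj hj (fun i h1 h2 => hS.ag _ _ _ _ i h1 h2)
    ⟨hS.le _ _ _ _, hS.le _ _ _ _⟩ cΛ hQ1 hC h1 h2 (h.tau_nonneg jj hj) h3 (by nlinarith) hl hl'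
    fun i h1 h2 => near i h1 (by omega)
  have p1 := h.pos_est m0 m1 hj cΛ.1 cΛ.2
  have d3 := h.main_est jj hj hQ1 (by linarith) p1 (le_trans (mul_le_mul_of_nonneg_left
    (le_trans (mul_le_mul_of_nonneg_right (mul_le_mul_of_nonneg_right (by linarith) (by linarith))
      (s0 _ hj)) (h3 _ hj)) (by linarith)) h4) (near _ (by omega) hj)
  have d4 := (h.G_est m0 jj hj hQ1 p1 (near _ (by omega) hj)).2
  rw [abs_le] at d2 d3 d4
  exact ⟨d1, abs_le.2 ⟨by linarith [d2.1, d3.1], by linarith [d2.2, d3.2]⟩,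
    abs_le.2 ⟨by linarith [d4.1, d3.2], by linarith [d4.2, d3.1]⟩⟩

end Pool.Agent.Ng
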