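import Pool.Agent.P.MP_6145c0_co.Ng.Fam4

/-! One step of the inequality of section 4, in one patch. -/

open Set Real Metric
open scoped ComplexConjugate

namespace Pool.Agent.Ng

open Pool.Agent.P.MP_6145c0_co.Ng

variable {n : ℕ} {T : Proto n} {P : Set Tile} {Y : NestTy n} {Z : NestDat}

theorem Fam.sig_le (h : Fam T P Y Z) {i : ℕ} (hi : i < Y.m) :
    Z.N i * Z.sig T Y i ≤ (|Y.c| + 7) * T.D := by
  have k := h.tot i hi
  have hD := T.D_pos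
  have hc := abs_nonneg Y.c
  unfold NestDat.sig
  split_ifs at k ⊢
  · nlinarith [pi_lt_d2, mul_le_mul_of_nonneg_right k hD.le]
  · nlinarith [le_abs_self Y.c]

theorem Fam.tau_le (h : Fam T P Y Z) (j : ZMod n) {i : ℕ} (hi : i < Y.m) {x : ℝ}
    (hx : ∀ l < Y.m, Z.sig T Y l ≤ x) : Z.tau T Y j i ≤ 2 * x := by
  have k1 := hx i hi
  have k2 := hx (Y.m - 1) (by omega)
  have k3 := h.s_pos i hi
  have k4 := h.s_pos (Y.m - 1) (by omega)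
  have hD := T.D_pos
  have k5 : Z.nu T Y j i ≤ 1 := (Complex.abs_im_le_norm _).trans_eq (Circle.norm_coe _)
  unfold NestDat.tau NestDat.err
  unfold NestDat.sig at k1 k2
  split_ifs at k1 k2 ⊢ <;> nlinarith [mul_pos k3 hD]

theorem RF.ref {j : ZMod n} {lo Q : ℕ} {y : (ℕ → ℕ) → ℕ → Tile} {R : (ℕ → ℕ) → ℕ → ℂ}
    (H : RF T P Y Z j lo Q y R) (h : Fam T P Y Z) {t : ℕ → ℕ} (ht : t ∈ Z.S) :
    R t (Q + 1) = R t Q + (T.T (Y.kd Y.m)).len j * Z.dl T Y j t ∧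
      (∀ q ≤ Q, Disjoint (segment ℝ (R t q) (R t (q + 1))) (interior (T.tset (y t Q)))) ∧
      ∀ m ∈ openSegment ℝ (R t Q) (R t (Q + 1)), ∃ δ > 0, ∀ z ∈ ball m δ,
        0 < (conj (Z.dl T Y j t) * (z - m)).im → z ∈ interior (T.tset (y t Q)) := by
  obtain ⟨l1, l2, l3⟩ := H.last t ht
  refine ⟨?_, fun q hq => disjoint_left.2 fun z h1 h2 => ?_, fun m hm => ?_⟩
  · rw [l2, l3]
    exact T.pt_fc true ((Z.mem Y Y.m t).1, j)
  · have k := H.seg t ht q hq h1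
    by_cases e : y t Q = y t q
    · exact k.2 (e ▸ h2)
    · exact T.not_mem_of_disj (h.pack (H.mem t ht Q le_rfl) (H.mem t ht q hq) e) h2 (fr_sub T _ k)
  · rw [l2, l3] at hm
    obtain ⟨ρ, h1, h2⟩ := T.flat true ((Z.mem Y Y.m t).1, j) hm
    refine ⟨ρ, h1, fun z hz h3 => l1 ▸ (h2 z hz).2.2 ?_⟩
    rwa [sg_true, one_mul, Circle.coe_inv_eq_conj, mul_comm]

theorem fam_step [NeZero n] (Y : NestTy n) (hδ : 0 < Y.δ) (jj : ZMod n) {j : ℕ}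
    (hj : j + 1 < Y.m) {C₁ : ℝ} (hC : 1 ≤ C₁) : ∃ N₀ : ℕ, ∀ (T : Proto n) (P : Set Tile)
      (Z : NestDat), Fam T P Y Z → T.D ≤ n * (T.T (Y.kd Y.m)).len jj → (∀ i < Y.m, N₀ ≤ Z.N i) →
      0 < Z.tau T Y jj (j + 1) → Z.tau T Y jj j ≤ C₁ * Z.tau T Y jj (j + 1) →
      (∀ l, j + 1 < l → l < Y.m → 2 * (|Y.c| + 1) * Z.tau T Y jj l ≤ Z.tau T Y jj (j + 1)) →
      False := by
  obtain ⟨Q, hQ⟩ := exists_RF Y jj (Y.m - (j + 2)) (j + 2) (by omega) (by omega)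
  obtain ⟨M, δ', hδ', hS⟩ := fam_slice hδ
  obtain ⟨cQ, hcQ⟩ : ∃ cQ : ℝ, cQ = 2 * Q + Y.Q (j + 1) + 3 := ⟨_, rfl⟩
  obtain ⟨C, hC0⟩ : ∃ C : ℝ, C = Y.m * ((M + 1) * (cQ + |Y.c| + 1) * C₁) + 1 := ⟨_, rfl⟩
  obtain ⟨K, hK⟩ : ∃ K : ℝ, K = n * (2 * (Q + 3)) := ⟨_, rfl⟩
  obtain ⟨G, hG⟩ := exists_nat_ge ((2 * C + 6) * K)
  obtain ⟨Λ, hΛ⟩ := exists_nat_gt
    ((4 * ((2 * Q + 3) * ((Q + 1) * (G + 1)) + G + 1) : ℕ) / δ')
  have cQ1 : 1 ≤ cQ := by rw [hcQ]; linarith [Q.cast_nonneg (α := ℝ), (Y.Q (j + 1)).cast_nonneg (α := ℝ)]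
  have C0 : 0 ≤ C := by rw [hC0]; positivity
  have n1 : (1 : ℝ) ≤ n := by exact_mod_cast Nat.pos_of_neZero n
  have K2 : 2 ≤ K := by rw [hK]; nlinarith [Q.cast_nonneg (α := ℝ)]
  obtain ⟨κ, hκ, X4⟩ := x4_cross Q C0 (C' := (Λ + 1) * (cQ + |Y.c|) + 1) (by positivity)
  obtain ⟨B, hB⟩ : ∃ B : ℝ, B = (M + Λ + 1) * cQ := ⟨_, rfl⟩
  have B0 : 0 < B := by rw [hB]; positivity
  obtain ⟨N₁, hN₁⟩ := exists_nat_ge ((|Y.c| + 7) * ((Λ + 1) * B + n * (κ * (Y.m * B + 2))))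
  refine ⟨N₁ + M + Λ + 1, fun T P Z h hℓ hN hτ h1 h2 => ?_⟩
  have hD := T.D_pos
  have hc := abs_nonneg Y.c
  have Λ0 : 0 < Λ := (Nat.cast_pos (α := ℝ)).1 (lt_of_le_of_lt (by positivity) hΛ)
  obtain ⟨y, R, H⟩ := hQ T P Z h
  obtain ⟨tp, J, S, hJ⟩ := hS Y.m j Λ Z.N Z.S hj (fun i hi => by have := hN i hi; omega)
    (by have := hN j (by omega); omega) Λ0 (by have := hN _ hj; omega) h.box h.dens
  have hJ' : 4 * ((2 * Q + 3) * ((Q + 1) * (G + 1)) + G + 1) ≤ J.card := by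
    rw [div_lt_iff₀' hδ'] at hΛ
    exact_mod_cast hΛ.le.trans hJ
  obtain ⟨a₀, h0⟩ : J.Nonempty := Finset.card_pos.1 (by omega)
  obtain ⟨η, hη⟩ : ∃ η, η = T.D / ((Λ + 1) * B + n * (κ * (Y.m * B + 2))) := ⟨_, rfl⟩
  have η0 : 0 < η := by rw [hη]; positivity
  have η1 : ((Λ + 1) * B + n * (κ * (Y.m * B + 2))) * η = T.D := by rw [hη]; field_simp
  have sη : ∀ i < Y.m, Z.sig T Y i ≤ η := fun i hi => by
    have k1 := h.sig_le hi
    have k2 : (N₁ : ℝ) + 1 ≤ Z.N i := by exact_mod_cast (by have := hN i hi; omega)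
    by_contra k3
    have k4 := mul_lt_mul_of_pos_left (not_le.1 k3) (show (0 : ℝ) < Z.N i by
      linarith [N₁.cast_nonneg (α := ℝ)])
    nlinarith [mul_le_mul_of_nonneg_right hN₁ η0.le]
  have h3 : ∀ i < Y.m, (M + Λ + 1) * cQ * Z.sig T Y i ≤ B * η := fun i hi =>
    hB ▸ mul_le_mul_of_nonneg_left (sη i hi) (hB ▸ B0.le)
  have z1 : 0 ≤ n * (κ * (Y.m * B + 2)) * η := by positivity
  have z2 : 0 ≤ (Λ + 1) * B * η := by positivity
  have h4 : (Λ + 1) * (B * η) ≤ T.D := by linarith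
  have h2' : ∀ l, j + 1 < l → l < Y.m → Z.tau T Y jj l ≤ Z.tau T Y jj (j + 1) := fun l a b => by
    nlinarith [h2 l a b, h.tau_nonneg jj b]
  have est := fun (r : Bool) (a : ℕ) (ha : a ∈ J) (l : ℕ) (w : ℂ) =>
    @Fam.est n T P Y Z h jj j M Λ Q y R H hj tp J S a₀ a r h0 ha cQ C₁ _ hcQ.ge hC h1 h2' h3 h4 l
      (w := w)
  rw [← hC0] at est
  obtain ⟨t₀, ht₀⟩ : ∃ t₀, t₀ = tp false a₀ := ⟨_, rfl⟩
  rw [← ht₀] at est
  have m0 : t₀ ∈ Z.S := ht₀ ▸ S.mem _ _ h0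
  obtain ⟨ℓ, eℓ⟩ : ∃ ℓ, ℓ = (T.T (Y.kd Y.m)).len jj := ⟨_, rfl⟩
  obtain ⟨r1, r2, r3⟩ := H.ref h m0
  rw [← eℓ] at hℓ r1
  have ℓ0 : 0 < ℓ := eℓ ▸ (T.T _).len_pos _
  have gap : ∀ x : ℝ, (Y.fan (j + 1) = true →
      ℓ / (2 * (Q + 3)) ≤ |x - (conj (Z.dl T Y jj t₀) * R t₀ 0).re|) →
      (2 * C + 6) * Z.tau T Y jj (j + 1) ≤
        |Z.al T Y jj (j + 1) t₀ + NestDat.be Y (j + 1) * x| * (G * Z.s (j + 1)) := by
    intro x hx
    have k := h.gap m0 jj hj (x := x) K2 (L := ℓ / (2 * (Q + 3)))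
      (hℓ.trans_eq (by rw [hK]; field_simp)) (fun hf => by
        unfold NestDat.err
        split_ifs with c
        · have c' : j + 1 ≠ Y.m - 1 := fun e => by simp [← e, hf] at c
          have := h2 (Y.m - 1) (by omega) (by omega)
          rwa [NestDat.tau, if_pos c] at this
        · simpa using hτ.le) fun hf => by
      rw [NestDat.E, ← h.entry_fan m0 hj hf, ← (H.first _ m0).2]
      exact hx hf
    have k1 : 0 ≤ |Z.al T Y jj (j + 1) t₀ + NestDat.be Y (j + 1) * x| * Z.s (j + 1) :=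
      mul_nonneg (abs_nonneg _) (h.s_pos _ hj).le
    nlinarith [mul_le_mul_of_nonneg_left k (show 0 ≤ 2 * C + 6 by linarith),
      mul_le_mul_of_nonneg_right hG k1]
  have pg : ∀ r, ∀ a ∈ J, ∀ r', ∀ a' ∈ J, a + G < a' → Z.pos (j + 1) (tp r a) - Z.pos (j + 1) t₀ +
      G * Z.s (j + 1) ≤ Z.pos (j + 1) (tp r' a') - Z.pos (j + 1) t₀ := fun r a ha r' a' ha' hg => by
    linarith [h.pos_gap (a := G) (S.mem r a ha) (S.mem r' a' ha') hj (by rwa [S.col, S.col])]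
  have inj : ∀ r, ∀ a ∈ J, ∀ r', ∀ a' ∈ J, a + G < a' → ∀ l, j + 2 ≤ l → l ≤ Y.m → ∀ w,
      dist w (R t₀ 0) ≤ (Q + 1) * T.D → (Y.fan (j + 1) = true → ℓ / (2 * (Q + 3)) ≤
        |(conj (Z.dl T Y jj t₀) * w).re - (conj (Z.dl T Y jj t₀) * R t₀ 0).re|) →
      Z.H l t₀ (tp r a) • w ≠ Z.H l t₀ (tp r' a') • w := by
    intro r a ha r' a' ha' hg l l1 l2 w hw hx e
    have k1 := abs_le.1 (est r a ha l w l1 l2 hw).2.1
    have k2 := abs_le.1 (est r' a' ha' l w l1 l2 hw).2.1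
    have k3 := gap _ hx
    have k4 := pg r a ha r' a' ha' hg
    rw [e] at k1
    have k5 : 0 ≤ G * Z.s (j + 1) := mul_nonneg G.cast_nonneg (h.s_pos _ hj).le
    rcases le_total 0 (Z.al T Y jj (j + 1) t₀ +
      NestDat.be Y (j + 1) * (conj (Z.dl T Y jj t₀) * w).re) with c | c
    · rw [abs_of_nonneg c] at k3
      linarith [mul_le_mul_of_nonneg_right k4 c, k1.1, k1.2, k2.1, k2.2]
    · rw [abs_of_nonpos c] at k3
      linarith [mul_le_mul_of_nonpos_right k4 c, k1.1, k1.2, k2.1, k2.2]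
  have dR : ∀ q ≤ Q + 1, dist (R t₀ q) (R t₀ 0) ≤ (Q + 1) * T.D := fun q hq =>
    (H.dist_le m0 q hq).trans (mul_le_mul_of_nonneg_right (by exact_mod_cast hq) hD.le)
  obtain ⟨w₀, w1, w2⟩ : ∃ w, dist w (R t₀ 0) ≤ (Q + 1) * T.D ∧ ℓ / (2 * (Q + 3)) ≤
      |(conj (Z.dl T Y jj t₀) * w).re - (conj (Z.dl T Y jj t₀) * R t₀ 0).re| := by
    have e : (conj (Z.dl T Y jj t₀) * R t₀ (Q + 1)).re = (conj (Z.dl T Y jj t₀) * R t₀ Q).re + ℓ := by
      rw [r1, mul_add, mul_left_comm, Complex.conj_mul', dl_norm]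
      simp
    have k : ℓ / (2 * (Q + 3)) ≤ ℓ / 2 :=
      div_le_div_of_nonneg_left ℓ0.le two_pos (by linarith [Q.cast_nonneg (α := ℝ)])
    by_cases c : ℓ / 2 ≤
      |(conj (Z.dl T Y jj t₀) * R t₀ Q).re - (conj (Z.dl T Y jj t₀) * R t₀ 0).re|
    · exact ⟨_, dR Q (by omega), k.trans c⟩
    · refine ⟨_, dR _ le_rfl, k.trans (le_abs.2 (Or.inl ?_))⟩
      linarith [(abs_lt.1 (not_le.1 c)).1]
  obtain ⟨W, W1, W2⟩ := h.join (i := j + 1) (by omega) hj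
  have rowF : ∀ r, ∀ a ∈ J, ∀ a' ∈ J, Z.F (j + 1) (tp r a) = Z.F (j + 1) (tp r a') :=
    fun r a ha a' ha' => h.dep _ (S.mem r a ha) _ (S.mem r a' ha') _ hj.le fun i hi => by
      by_cases c : i = j
      · exact c ▸ S.row r a a'
      · exact S.ag _ _ _ _ i c (by omega)
  have rowN : ∀ p : ℂ, (Y.fan j = true → Z.F (j + 1) t₀ • p ≠ (Z.E j t₀).b) →
      Z.F (j + 1) (tp true a₀) • p ≠ Z.F (j + 1) t₀ • p := fun p hp =>
    h.row_ne m0 (S.mem true a₀ h0) (by omega)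
      (fun i hi => ht₀ ▸ S.ag _ _ _ _ i (by omega) (by omega)) (ht₀ ▸ S.lt _ _) (fun hf => by
        have k1 := h.pos_est (a := M) m0 (S.mem true a₀ h0) (by omega : j < Y.m)
          (ht₀ ▸ S.le _ _ _ _) (ht₀ ▸ S.le _ _ _ _)
        have k2 := h3 j (by omega)
        rw [NestDat.sig, if_pos hf] at k2
        have k3 := mul_pos (h.s_pos j (by omega)) hD
        have k4 : (M + 1 : ℝ) ≤ (M + Λ + 1) * cQ := by
          nlinarith [M.cast_nonneg (α := ℝ), Λ.cast_nonneg (α := ℝ)]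
        have k5 : B * η ≤ (Λ + 1) * (B * η) :=
          le_mul_of_one_le_left (by positivity) (by linarith [Λ.cast_nonneg (α := ℝ)])
        refine k1.trans (le_of_mul_le_mul_right ?_ hD)
        linarith [mul_le_mul_of_nonneg_right k4 k3.le]) hp
  obtain ⟨a, ha, c, hc', b, hb, e, he, g1, g2, g3, A₁, A₂, hA, mA₁, mA₂⟩ :=
    f3_four (J := J) (Q := Q) (G := G) (y := fun r a => y (tp r a))
      (w := fun r => mv (Z.F (j + 1) (tp r a₀)) W) (fun r a ha a' ha' q hq hg e => by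
        obtain ⟨l, l1, l2, x, hx⟩ := H.tl q hq
        rw [hx _ (S.mem r a ha), hx _ (S.mem r a' ha')] at e
        refine inj r a ha r a' ha' hg l l1 l2 w₀ w1 (fun _ => w2) ?_
        rw [NestDat.H, NestDat.H, mul_right_cancel (congrArg Prod.snd e)]) (fun e =>
        rowN ((Z.F (j + 1) t₀)⁻¹ • ((Z.E j t₀).b + 1)) (fun _ => by simp)
          (by rw [ht₀, mul_right_cancel (congrArg Prod.snd e)])) hJ'
  have fpN : Y.fan (Y.m - 1) = true → ∀ x ∈ J, ∀ x' ∈ J, x + G < x' ∨ x' + G < x →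
      Z.fp Y (tp false x) ≠ Z.fp Y (tp true x') := by
    intro hf x hx x' hx' hg
    have fe : ∀ t, Z.fp Y t = Z.F (Y.m - 1) t • (Z.A (Y.m - 1)).b := fun t => rfl
    by_cases c : j + 1 = Y.m - 1
    · rw [fe, fe, ← c, rowF false x hx a₀ h0, rowF true x' hx' a₀ h0, ← ht₀]
      refine (rowN _ fun hf' => ?_).symm
      obtain rfl : j = 0 := by
        by_contra c'
        rw [h.runs j (by omega) hj] at hf'
        exact absurd hf' (by simp)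
      exact h.sing _ m0 _ (by omega) hj hf' (c ▸ hf)
    · have fh : ∀ t, Z.fp Y t = Z.H (Y.m - 1) t₀ t • Z.fp Y t₀ := fun t => by
        rw [fe, fe, NestDat.H, mul_smul, inv_smul_smul]
      have d0 : dist (Z.fp Y t₀) (R t₀ 0) ≤ (Q + 1) * T.D := by
        have e := h.entry_fan m0 (by omega : Y.m - 1 < Y.m) hf
        rw [show Y.m - 1 + 1 = Y.m by omega] at e
        have d2 := T.dist_le_D (T.pt_mem (Z.mem Y Y.m t₀)) (T.pt_mem ((Z.mem Y Y.m t₀).1, jj))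
        rw [← (H.last _ m0).2.1, e] at d2
        exact (dist_triangle _ (R t₀ Q) _).trans (by
          linarith [H.dist_le m0 Q (by omega), show dist (Z.fp Y t₀) (R t₀ Q) ≤ _ from d2])
      have nf : ¬Y.fan (j + 1) = true := by simp [h.runs (j + 1) (by omega) (by omega)]
      rw [fh (tp false x), fh (tp true x')]
      exact hg.elim (fun g => inj _ x hx _ x' hx' g _ (by omega) (by omega) _ d0 (absurd · nf))
        fun g => (inj _ x' hx' _ x hx g _ (by omega) (by omega) _ d0 (absurd · nf)).symm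
  have fpM : Y.fan (Y.m - 1) = true → ∀ t ∈ Z.S, Z.fp Y t ∈ T.tset (y t Q) := fun hf t ht => by
    have e := h.entry_fan ht (by omega : Y.m - 1 < Y.m) hf
    rw [show Y.m - 1 + 1 = Y.m by omega] at e
    rw [(H.last t ht).1, NestDat.fp, ← e]
    exact T.pt_mem _
  have side : ∀ (r : Bool) (A : Finset Tile), ∀ x ∈ J, ∀ x' ∈ J, (∀ u, u ∈ A ↔
      u = mv (Z.F (j + 1) (tp r a₀)) W ∨ ∃ q ≤ Q, u = y (tp r x) q ∨ u = y (tp r x') q) →
      ∀ X : Set ℂ, X = {z | Y.fan (Y.m - 1) = true ∧ (z = Z.fp Y (tp r x) ∨ z = Z.fp Y (tp r x'))} →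
      (A : Set Tile) ⊆ P ∧ X ⊆ ⋃ i ∈ (A : Set Tile), T.tset i ∧
      Route (interior (⋃ i ∈ (A : Set Tile), T.tset i) ∪ X) Q
        (fun q => T.tset (y (tp r x) q)) (R (tp r x)) ∧
      Route (interior (⋃ i ∈ (A : Set Tile), T.tset i) ∪ X) Q
        (fun q => T.tset (y (tp r x') q)) (R (tp r x')) ∧
      Pool.Agent.P.MP_6145c0_co.Ng.J (interior (⋃ i ∈ (A : Set Tile), T.tset i) ∪ X)
        (segment ℝ (R (tp r x) 0) (R (tp r x') 0))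
        (T.tset (y (tp r x) 0)) (R (tp r x) 0) (T.tset (y (tp r x') 0)) (R (tp r x') 0) := by
    rintro r A x hx x' hx' mA X rfl
    have m1 := S.mem r x hx
    have m2 := S.mem r x' hx'
    have i1 : ∀ q ≤ Q, y (tp r x) q ∈ (A : Set Tile) := fun q hq =>
      (mA _).2 (Or.inr ⟨q, hq, Or.inl rfl⟩)
    have i2 : ∀ q ≤ Q, y (tp r x') q ∈ (A : Set Tile) := fun q hq =>
      (mA _).2 (Or.inr ⟨q, hq, Or.inr rfl⟩)
    refine ⟨fun u hu => ?_, ?_, H.route m1 i1 fun hf => ⟨hf, Or.inl rfl⟩,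
      H.route m2 i2 fun hf => ⟨hf, Or.inr rfl⟩, ?_⟩
    · rcases (mA u).1 hu with rfl | ⟨q, hq, rfl | rfl⟩
      exacts [(W1 _ (S.mem r a₀ h0)).1, H.mem _ m1 q hq, H.mem _ m2 q hq]
    · rintro z ⟨hf, rfl | rfl⟩
      exacts [mem_biUnion (i1 Q le_rfl) (fpM hf _ m1), mem_biUnion (i2 Q le_rfl) (fpM hf _ m2)]
    · rw [(H.first _ m1).1, (H.first _ m1).2, (H.first _ m2).1, (H.first _ m2).2]
      exact W2 _ m1 _ m2 (rowF r x hx x' hx') _ _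
        ((mA _).2 (Or.inl (by rw [rowF r x hx a₀ h0]))) ((H.first _ m1).1 ▸ i1 0 (Nat.zero_le _))
        ((H.first _ m2).1 ▸ i2 0 (Nat.zero_le _)) fun hf => ⟨hf, Or.inl rfl⟩
  obtain ⟨p1, p2, p3, p4, p5⟩ := side false A₁ a ha b hb mA₁ _ rfl
  obtain ⟨q1, q2, q3, q4, q5⟩ := side true A₂ c hc' e he mA₂ _ rfl
  let rr : Fin 4 → Bool := ![false, true, false, true]
  let aa : Fin 4 → ℕ := ![a, c, b, e]
  have ma : ∀ i, aa i ∈ J := fun i => by fin_cases i <;> assumption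
  have E3 : ∀ i, ∀ q ≤ Q + 1, ∃ l, j + 2 ≤ l ∧ l ≤ Y.m ∧
      R (tp (rr i) (aa i)) q = Z.H l t₀ (tp (rr i) (aa i)) • R t₀ q := fun i q hq => by
    obtain ⟨l, l1, l2, p, hp⟩ := H.pt q hq
    exact ⟨l, l1, l2, by rw [hp _ (S.mem _ _ (ma i)), hp _ m0, NestDat.H, mul_smul, inv_smul_smul]⟩
  refine X4 (Z.dl T Y jj t₀) ℓ (Z.tau T Y jj (j + 1)) (Y.m * (B * η)) (Z.al T Y jj (j + 1) t₀)
    (NestDat.be Y (j + 1)) (G * Z.s (j + 1)) (R t₀) _ _ _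
    (fun i q => T.tset (y (tp (rr i) (aa i)) q)) (fun i => R (tp (rr i) (aa i)))
    (fun i => Z.pos (j + 1) (tp (rr i) (aa i)) - Z.pos (j + 1) t₀) (dl_norm jj) hτ (by positivity)
    ?_ r1 r2 r3 (f3_disj h.pack A₁.finite_toSet A₂.finite_toSet p1 q1
      (Finset.disjoint_coe.2 hA) (disjoint_left.2 ?_) p2 q2) p3 q3 p4 q4 p5 q5
    (fun i q hq => ?_) (fun i q hq => ?_) (fun i q hq => ?_)
    (mul_nonneg G.cast_nonneg (h.s_pos _ hj).le) (pg _ a ha _ c hc' g1) (pg _ c hc' _ b hb g2)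
    (pg _ b hb _ e he g3) fun x hx => gap x fun _ => hx 0 (Nat.zero_le _)
  · have k := mul_le_mul_of_nonneg_left (h.tau_le jj hj sη) hκ.le
    refine le_of_mul_le_mul_left (le_trans ?_ hℓ) (by linarith : (0 : ℝ) < n)
    nlinarith [mul_le_mul_of_nonneg_left k (by linarith : (0 : ℝ) ≤ n)]
  · rintro z ⟨hf, rfl | rfl⟩ ⟨-, k | k⟩
    exacts [fpN hf a ha c hc' (Or.inl g1) k, fpN hf a ha e he (Or.inl (by omega)) k,
      fpN hf b hb c hc' (Or.inr g2) k, fpN hf b hb e he (Or.inl g3) k]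
  · obtain ⟨l, l1, l2, k⟩ := E3 i q hq
    rw [k]
    exact (est _ _ (ma i) l _ l1 l2 (dR q hq)).1
  · obtain ⟨l, l1, l2, k⟩ := E3 i q hq
    rw [k]
    exact (est _ _ (ma i) l _ l1 l2 (dR q hq)).2.1
  · exact (est _ _ (ma i) Y.m _ hj le_rfl (dR q hq)).2.2

end Pool.Agent.Ng
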