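import Pool.Agent.P.MP_6145c0_co.Ng.X4d

set_option autoImplicit false

open Set Metric Complex
open scoped ComplexConjugate

namespace Pool.Agent.P.MP_6145c0_co.Ng

theorem x4_php (n : ℕ) (f : ℕ → ℝ) (S : ℕ → Set ℝ) (hd : ∀ i j, i < j → Disjoint (S i) (S j)) :
    ∃ i ≤ n, ∀ q < n, f q ∉ S i := by
  by_contra h
  push Not at h
  choose! g hg using h
  obtain ⟨i, hi, j, hj, hne, e⟩ := Finset.exists_ne_map_eq_of_card_lt_of_maps_to
    (s := Finset.range (n + 1)) (t := Finset.range n) (by simp) (f := g)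
    fun i hi => Finset.mem_coe.2 (Finset.mem_range.2 (hg i (by simpa [Nat.lt_succ_iff] using hi)).1)
  have h1 := (hg i (by simpa [Nat.lt_succ_iff] using hi)).2
  have h2 := (hg j (by simpa [Nat.lt_succ_iff] using hj)).2
  rcases lt_or_gt_of_ne hne with k | k
  · exact disjoint_left.1 (hd i j k) h1 (e ▸ h2)
  · exact disjoint_left.1 (hd j i k) h2 (e ▸ h1)

theorem x4_cr {ω o a b : ℂ} {V : Set ℂ} {L : ℝ} (hL : 0 < L) (hd : Disjoint (segment ℝ a b) V)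
    (hV : ∀ t : ℝ, |t| < L → ∃ δ > 0, ∀ z, ‖ω * (z - o) - t * I‖ < δ → (ω * (z - o)).re < 0 → z ∈ V)
    (hc : L ≤ (ω * (a - o)).im ∧ (ω * (b - o)).im ≤ -L ∨
      (ω * (a - o)).im ≤ -L ∧ L ≤ (ω * (b - o)).im) :
    ∃ ξ, Cr L (ω * (a - o)) (ω * (b - o)) ξ := by
  obtain ⟨p, hp⟩ : ∃ p, p = ω * (a - o) := ⟨_, rfl⟩
  obtain ⟨p', hp'⟩ : ∃ p, p = ω * (b - o) := ⟨_, rfl⟩
  have iv : ∀ t : ℝ, |t| < L → ∃ z ∈ segment ℝ a b, (ω * (z - o)).im = t := fun t ht => by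
    rw [abs_lt] at ht
    rcases hc with h | h
    · exact (convex_segment a b).isPreconnected.intermediate_value (right_mem_segment _ _ _)
        (left_mem_segment _ _ _) (f := fun z => (ω * (z - o)).im) (by fun_prop)
        ⟨by linarith [h.2], by linarith [h.1]⟩
    · exact (convex_segment a b).isPreconnected.intermediate_value (left_mem_segment _ _ _)
        (right_mem_segment _ _ _) (f := fun z => (ω * (z - o)).im) (by fun_prop)
        ⟨by linarith [h.1], by linarith [h.2]⟩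
  rw [← hp, ← hp'] at hc ⊢
  have h0 : p'.im - p.im ≠ 0 := hc.elim (fun h => by linarith [h.1, h.2] |> ne_of_lt)
    fun h => by linarith [h.1, h.2] |> ne_of_gt
  obtain ⟨σ, hσ⟩ : ∃ σ, σ * (p'.im - p.im) = p'.re - p.re := ⟨_, div_mul_cancel₀ _ h0⟩
  obtain ⟨ξ, e1⟩ : ∃ ξ, p.re = ξ + σ * p.im := ⟨p.re - σ * p.im, by ring⟩
  have e2 : p'.re = ξ + σ * p'.im := by linarith
  refine ⟨ξ, hc, σ, e1, e2, not_lt.1 fun h => ?_⟩
  have h1 : 0 < |σ| := pos_of_mul_pos_left ((abs_nonneg _).trans_lt h) hL.le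
  have h2 : σ ≠ 0 := abs_pos.1 h1
  have h3 : |-ξ / σ| < L := by rwa [abs_div, abs_neg, div_lt_iff₀ h1, mul_comm]
  obtain ⟨δ, hδ, H⟩ := hV _ h3
  obtain ⟨η, hη, k1, k2⟩ : ∃ η > 0, |σ| * η < L - |-ξ / σ| ∧ (σ ^ 2 + |σ|) * η < δ := by
    have m1 := min_le_left δ (L - |-ξ / σ|)
    have m2 := min_le_right δ (L - |-ξ / σ|)
    have m0 : 0 < min δ (L - |-ξ / σ|) := lt_min hδ (sub_pos.2 h3)
    have m3 : (σ ^ 2 + |σ|) * (min δ (L - |-ξ / σ|) / (2 * (σ ^ 2 + |σ|))) =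
        min δ (L - |-ξ / σ|) / 2 := by field_simp
    have m4 : 0 < min δ (L - |-ξ / σ|) / (2 * (σ ^ 2 + |σ|)) := by positivity
    exact ⟨_, m4, by nlinarith [mul_nonneg (sq_nonneg σ) m4.le], by linarith⟩
  obtain ⟨z, hz, hz'⟩ := iv (-ξ / σ - σ * η) (by
    have := abs_sub (-ξ / σ) (σ * η)
    rw [abs_mul, abs_of_pos hη] at this
    linarith)
  have e3 : (ω * (z - o)).re = -(σ ^ 2 * η) := by
    obtain ⟨s, t, -, -, hst, e⟩ := x4_seg ω o hz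
    rw [← hp, ← hp'] at e
    rw [← e] at hz' ⊢
    simp only [add_re, add_im, smul_re, smul_im, smul_eq_mul] at hz' ⊢
    have e4 : σ * (-ξ / σ) = -ξ := by field_simp
    linear_combination s * e1 + t * e2 + ξ * hst + σ * hz' + e4
  refine disjoint_left.1 hd hz (H z ((norm_le_abs_re_add_abs_im _).trans_lt ?_) ?_)
  · simp only [sub_re, sub_im, e3, hz', re_ofReal_mul, im_ofReal_mul, I_re, I_im, mul_zero, mul_one,
      sub_zero, sub_sub_cancel_left, abs_neg, abs_mul, abs_of_pos hη, abs_sq]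
    linarith
  · rw [e3, neg_lt_zero]
    positivity

theorem Cr.neg {L ξ : ℝ} {p p' : ℂ} (h : Cr L p p' ξ) : Cr L (-p) (-p') (-ξ) := by
  obtain ⟨h1, σ, h2, h3, h4⟩ := h
  refine ⟨?_, σ, ?_, ?_, by rwa [abs_neg]⟩ <;> simp only [neg_re, neg_im]
  · exact h1.symm.imp (fun h => ⟨by linarith [h.1], by linarith [h.2]⟩)
      fun h => ⟨by linarith [h.1], by linarith [h.2]⟩
  · linarith
  · linarith

theorem Dp.neg {lam a b u u' : ℝ} {p r : ℂ} (h : Dp lam a b u u' p r) :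
    Dp lam (-a) b u u' (-p) (-r) := by
  obtain ⟨h1, h2, h3⟩ := h
  refine ⟨by rwa [← neg_sub', norm_neg], ?_, ?_⟩
  · rw [← abs_neg] at h2
    refine le_of_eq_of_le (congrArg _ ?_) h2
    simp only [neg_re, neg_im, sub_re]
    ring
  · rw [← abs_neg] at h3
    refine le_of_eq_of_le (congrArg _ ?_) h3
    simp only [neg_im]
    ring

theorem x4_ord {a b c e φ g u : ℝ} (h : u ≤ |φ| * g) (g1 : a + g ≤ b) (g2 : b + g ≤ c)
    (g3 : c + g ≤ e) :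
    (-(a * φ) + u ≤ -(b * φ) ∧ -(b * φ) + u ≤ -(c * φ) ∧ -(c * φ) + u ≤ -(e * φ)) ∨
      -(b * φ) + u ≤ -(a * φ) ∧ -(c * φ) + u ≤ -(b * φ) ∧ -(e * φ) + u ≤ -(c * φ) := by
  rcases le_total 0 φ with k | k
  · rw [abs_of_nonneg k] at h
    exact Or.inr ⟨by nlinarith, by nlinarith, by nlinarith⟩
  · rw [abs_of_nonpos k] at h
    exact Or.inl ⟨by nlinarith, by nlinarith, by nlinarith⟩

/-- The finite crossing lemma of section 4. `P` is the reference route, its last segment is the edge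
of direction `d` and length `ℓ`, `V` is the interior of the last reference tile. -/
theorem x4_cross (Q : ℕ) {C C' : ℝ} (hC : 0 ≤ C) (hC' : 0 ≤ C') : ∃ κ : ℝ, 0 < κ ∧
    ∀ (d : ℂ) (ℓ τ lam α β g : ℝ) (P : ℕ → ℂ) (V Ω₁ Ω₂ : Set ℂ)
      (y : Fin 4 → ℕ → Set ℂ) (R : Fin 4 → ℕ → ℂ) (Δ : Fin 4 → ℝ),
      ‖d‖ = 1 → 0 < τ → 0 ≤ lam → κ * (lam + τ) ≤ ℓ → P (Q + 1) = P Q + ℓ * d →
      (∀ q ≤ Q, Disjoint (segment ℝ (P q) (P (q + 1))) V) →
      (∀ m ∈ openSegment ℝ (P Q) (P (Q + 1)), ∃ δ > 0, ∀ z ∈ ball m δ,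
        0 < (conj d * (z - m)).im → z ∈ V) →
      Disjoint Ω₁ Ω₂ →
      Route Ω₁ Q (y 0) (R 0) → Route Ω₂ Q (y 1) (R 1) →
      Route Ω₁ Q (y 2) (R 2) → Route Ω₂ Q (y 3) (R 3) →
      J Ω₁ (segment ℝ (R 0 0) (R 2 0)) (y 0 0) (R 0 0) (y 2 0) (R 2 0) →
      J Ω₂ (segment ℝ (R 1 0) (R 3 0)) (y 1 0) (R 1 0) (y 3 0) (R 3 0) →
      (∀ i, ∀ q ≤ Q + 1, ‖R i q - P q‖ ≤ lam) →
      (∀ i, ∀ q ≤ Q + 1,
        |(conj d * (R i q - P q)).im - Δ i * (α + β * (conj d * P q).re)| ≤ C * τ) →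
      (∀ i, ∀ q ≤ Q + 1, |Δ i * (α + β * (conj d * P q).re)| ≤ C' * τ) →
      0 ≤ g → Δ 0 + g ≤ Δ 1 → Δ 1 + g ≤ Δ 2 → Δ 2 + g ≤ Δ 3 →
      (∀ h : ℝ, (∀ q ≤ Q + 1, ℓ / (2 * (Q + 3)) ≤ |h - (conj d * P q).re|) →
        (2 * C + 6) * τ ≤ |α + β * h| * g) → False := by
  obtain ⟨X₀, hX₀⟩ : ∃ X₀, X₀ = 2 * C' + C + 4 := ⟨_, rfl⟩
  have hX1 : 4 ≤ X₀ := by linarith
  refine ⟨8 * (Q + 3) * (X₀ * 8 ^ (Q + 1)) ^ 2, by positivity, ?_⟩
  intro d ℓ τ lam α β g P V Ω₁ Ω₂ y R Δ hd hτ hl hκ hP hV hV' hΩ r0 r1 r2 r3 j1 j2 D1 D2 D3 hg g1 g2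
    g3 hG
  obtain ⟨L, hL⟩ : ∃ L, L = ℓ / (2 * (Q + 3)) := ⟨_, rfl⟩
  have hℓ : ℓ = 2 * (Q + 3) * L := by rw [hL]; field_simp
  have hLm : 4 * (X₀ * 8 ^ (Q + 1)) ^ 2 * (lam + τ) ≤ L := by
    rw [hL, le_div_iff₀ (by positivity)]
    linarith
  have hL0 : 0 < L := lt_of_lt_of_le (by positivity) hLm
  have dd : conj d * d = 1 := by rw [conj_mul', hd]; simp
  obtain ⟨j, hj, hj'⟩ := x4_php (Q + 2) (fun q => (conj d * P q).re - (conj d * P Q).re)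
    (fun j => Ioo (2 * j * L) (2 * (j + 1) * L)) fun i j h => disjoint_left.2 fun x h1 h2 => by
      have : (i : ℝ) + 1 ≤ j := by exact_mod_cast h
      nlinarith [h1.2, h2.1]
  obtain ⟨t, ht⟩ : ∃ t : ℝ, t = (2 * j + 1) * L := ⟨_, rfl⟩
  obtain ⟨h, hh⟩ : ∃ h, h = (conj d * P Q).re + t := ⟨_, rfl⟩
  obtain ⟨o, ho⟩ : ∃ o, o = P Q + t * d := ⟨_, rfl⟩
  obtain ⟨ω, hω⟩ : ∃ ω, ω = I * conj d := ⟨_, rfl⟩
  have hω1 : ‖ω‖ = 1 := by simp [hω, hd]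
  have hj0 : (0 : ℝ) ≤ j := j.cast_nonneg
  have hj1 : (j : ℝ) ≤ Q + 2 := by exact_mod_cast hj
  have co : conj d * o = conj d * P Q + t := by rw [ho]; linear_combination t * dd
  have cim : ∀ z, (ω * (z - o)).im = (conj d * z).re - h := fun z => by
    rw [hω, mul_assoc, I_mul_im, mul_sub, co, hh, sub_re, add_re, ofReal_re]
  have far : ∀ q ≤ Q + 1, L ≤ |h - (conj d * P q).re| := fun q hq => by
    have := hj' q (by omega)
    rw [mem_Ioo, not_and_or, not_lt, not_lt] at this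
    exact le_abs.2 (this.imp (fun _ => by linarith) fun _ => by linarith)
  have far' : ∀ q ≤ Q + 1, L ≤ (ω * (P q - o)).im ∨ (ω * (P q - o)).im ≤ -L := fun q hq => by
    rw [cim]
    exact (le_abs.1 (far q hq)).symm.imp (fun _ => by linarith) fun _ => by linarith
  have hD : ∀ i, ∀ q ≤ Q + 1, Dp lam (-(Δ i * (α + β * h))) (-(Δ i * β)) (C * τ) (C' * τ)
      (ω * (P q - o)) (ω * (R i q - o)) := fun i q hq => by
    have e : ω * (R i q - o) - ω * (P q - o) = I * (conj d * (R i q - P q)) := by rw [hω]; ring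
    refine ⟨by rw [e]; simpa [hd] using D1 i q hq, ?_, ?_⟩
    · rw [e, I_mul_re, cim, ← abs_neg]
      exact le_of_eq_of_le (congrArg _ (by ring)) (D2 i q hq)
    · rw [cim, ← abs_neg]
      exact le_of_eq_of_le (congrArg _ (by ring)) (D3 i q hq)
  have hW : ∀ s : ℝ, |s| < L → ∃ δ > 0, ∀ z, ‖ω * (z - o) - s * I‖ < δ →
      (ω * (z - o)).re < 0 → z ∈ V := by
    intro s hs
    rw [abs_lt] at hs
    have hℓ0 : 0 < ℓ := by rw [hℓ]; positivity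
    obtain ⟨δ, hδ, H⟩ := hV' (o + s * d) (by
      rw [openSegment_eq_image']
      refine ⟨(t + s) / ℓ, ⟨div_pos (by nlinarith) hℓ0, (div_lt_one hℓ0).2 (by nlinarith)⟩, ?_⟩
      have : (ℓ : ℂ) ≠ 0 := by exact_mod_cast hℓ0.ne'
      simp only [hP, ho, real_smul]
      push_cast
      field_simp
      ring)
    refine ⟨δ, hδ, fun z h1 h2 => ?_⟩
    have e : ω * (z - o) - s * I = I * (conj d * (z - (o + s * d))) := by
      rw [hω]; linear_combination (s * I) * dd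
    refine H z (by rw [e] at h1; simpa [hd, dist_eq_norm] using h1) ?_
    have e2 := congrArg re e
    rw [I_mul_re, sub_re, re_ofReal_mul, I_re] at e2
    linarith
  have hc : ∀ q, ∃ ξ, q ≤ Q → (L ≤ (ω * (P q - o)).im ∧ L ≤ (ω * (P (q + 1) - o)).im ∨
      (ω * (P q - o)).im ≤ -L ∧ (ω * (P (q + 1) - o)).im ≤ -L) ∨
      Cr L (ω * (P q - o)) (ω * (P (q + 1) - o)) ξ := by
    intro q
    by_cases hq : q ≤ Q
    · rcases far' q (by omega) with a | a <;> rcases far' (q + 1) (by omega) with b | b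
      · exact ⟨0, fun _ => Or.inl (Or.inl ⟨a, b⟩)⟩
      · exact (x4_cr hL0 (hV q hq) hW (Or.inl ⟨a, b⟩)).imp fun _ h _ => Or.inr h
      · exact (x4_cr hL0 (hV q hq) hW (Or.inr ⟨a, b⟩)).imp fun _ h _ => Or.inr h
      · exact ⟨0, fun _ => Or.inl (Or.inr ⟨a, b⟩)⟩
    · exact ⟨0, fun h => absurd h hq⟩
  choose ξ hξ using hc
  obtain ⟨i, hi, hi'⟩ := x4_php (Q + 1) (fun q => |ξ q|)
    (fun i => Ioo (X₀ * 8 ^ i * τ) (8 * (X₀ * 8 ^ i * τ))) fun i j h =>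
      disjoint_left.2 fun x h1 h2 => by
        have h3 : (8 : ℝ) ^ (i + 1) ≤ 8 ^ j := pow_le_pow_right₀ (by norm_num) h
        have h4 : X₀ * τ * 8 ^ (i + 1) ≤ X₀ * τ * 8 ^ j :=
          mul_le_mul_of_nonneg_left h3 (by positivity)
        rw [pow_succ] at h4
        linarith [h1.2, h2.1]
  obtain ⟨X, hX⟩ : ∃ X, X = X₀ * 8 ^ i := ⟨_, rfl⟩
  rw [← hX] at hi'
  have hX2 : X₀ ≤ X := by
    rw [hX]
    exact le_mul_of_one_le_right (by linarith) (one_le_pow₀ (by norm_num))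
  have hX3 : X ≤ X₀ * 8 ^ (Q + 1) := by
    rw [hX]
    exact mul_le_mul_of_nonneg_left (pow_le_pow_right₀ (by norm_num) hi) (by linarith)
  have hXL : X * (lam + 4 * (X * τ)) ≤ L := by
    have h1 : X ^ 2 ≤ (X₀ * 8 ^ (Q + 1)) ^ 2 := pow_le_pow_left₀ (by linarith) hX3 2
    have h2 : 4 * X ^ 2 * (lam + τ) ≤ L :=
      (mul_le_mul_of_nonneg_right (by linarith) (by linarith)).trans hLm
    have h3 : X * lam ≤ 4 * X ^ 2 * lam := mul_le_mul_of_nonneg_right (by nlinarith) hl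
    linarith
  have last : ∃ q, q ≤ Q ∧ ∃ ζ, Cr L (ω * (P q - o)) (ω * (P (q + 1) - o)) ζ ∧ |ζ| ≤ X * τ := by
    have e1 : ω * (P Q - o) = (-t : ℝ) * I := by
      rw [hω, ho]; push_cast; linear_combination (-t * I) * dd
    have e2 : ω * (P (Q + 1) - o) = (ℓ - t : ℝ) * I := by
      rw [hω, ho, hP]; push_cast; linear_combination ((ℓ - t) * I) * dd
    refine ⟨Q, le_rfl, 0, ⟨Or.inr ?_, 0, ?_, ?_, by simp⟩, by rw [abs_zero]; nlinarith⟩
    · rw [e1, e2, im_ofReal_mul, im_ofReal_mul, I_im]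
      exact ⟨by nlinarith, by nlinarith⟩
    · simp [e1]
    · simp [e2]
  classical
  obtain ⟨hq, ζ, hN, hζ⟩ := Nat.find_spec last
  have hF : ∀ j < Nat.find last, (L ≤ (ω * (P j - o)).im ∧ L ≤ (ω * (P (j + 1) - o)).im ∨
      (ω * (P j - o)).im ≤ -L ∧ (ω * (P (j + 1) - o)).im ≤ -L) ∨
      ∃ ζ, Cr L (ω * (P j - o)) (ω * (P (j + 1) - o)) ζ ∧ 8 * (X * τ) ≤ |ζ| := by
    intro j hj
    refine (hξ j (by omega)).imp_right fun h => ⟨_, h, not_lt.1 fun h1 => ?_⟩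
    exact Nat.find_min last hj ⟨by omega, _, h, not_lt.1 fun h2 => hi' j (by omega) ⟨h2, h1⟩⟩
  have hG' := hG h (hL ▸ far)
  have ord := x4_ord hG' g1 g2 g3
  have h0 : L ≤ |(ω * (P 0 - o)).im| :=
    le_abs.2 ((far' 0 (by omega)).imp id fun _ => by linarith)
  rcases far' (Nat.find last) (by omega) with hu | hu
  · exact x4_core hω1 hΩ r0 r1 r2 r3 j1 j2 hq hC hC' hτ hl (hX₀ ▸ hX2) hXL hD h0 hF hN hζ hu ord
  · refine x4_core (ω := -ω) (o := o) (P := P) (a := fun i => - -(Δ i * (α + β * h)))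
      (b := fun i => -(Δ i * β)) (ξ := -ζ) (by rwa [norm_neg]) hΩ r0 r1 r2 r3 j1 j2 hq hC hC' hτ hl
      (hX₀ ▸ hX2) hXL (fun i q hq => ?_) ?_ (fun j hj => ?_) ?_ (by rwa [abs_neg]) ?_ ?_
    · rw [neg_mul, neg_mul]
      exact (hD i q hq).neg
    · rwa [neg_mul, neg_im, abs_neg]
    · rw [neg_mul, neg_mul, neg_im, neg_im]
      exact (hF j hj).imp (fun h => h.symm.imp (fun h => ⟨by linarith [h.1], by linarith [h.2]⟩)
        fun h => ⟨by linarith [h.1], by linarith [h.2]⟩)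
        fun ⟨ζ, h1, h2⟩ => ⟨-ζ, h1.neg, by rwa [abs_neg]⟩
    · rw [neg_mul, neg_mul]
      exact hN.neg
    · rw [neg_mul, neg_im]
      linarith
    · exact ord.symm.imp (fun h => ⟨by linarith [h.1], by linarith [h.2.1], by linarith [h.2.2]⟩)
        fun h => ⟨by linarith [h.1], by linarith [h.2.1], by linarith [h.2.2]⟩

end Pool.Agent.P.MP_6145c0_co.Ng
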