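import Pool.Agent.P.MP_6145c0_co.Ng.LocB
import Pool.Agent.P.MP_6145c0_co.Ng.X4
import Pool.Agent.P.MP_6145c0_co.Ng.XA

/-! Nests of one patch, described by frames and typed legs. -/

open Set Real

namespace Pool.Agent.Ng

variable {n : ℕ}

/-- The tile `x` moved by `g`. -/
noncomputable def mv (g : Mot) (x : Tile) : Tile := (x.1, g * x.2)

/-- Rotation for a fan, translation for a run. -/
noncomputable def gen (f : Bool) (x : ℝ) : Mot := if f then rot x else tr x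

/-- One can pass from `x` to `y` next to the common point `z`. -/
def Acr (T : Proto n) (x y : Tile) (z : ℂ) : Prop :=
  z ∈ closure (T.tset x ∩ T.tset y ∩ interior (T.tset x ∪ T.tset y))

/-- A typed leg in the frame `g`: `Q + 1` segments in frontiers of tiles, the last one ends at `z`. -/
structure Leg (T : Proto n) (P : Set Tile) (Q : ℕ) (κ : ℕ → Tile) (p : ℕ → ℂ) (g : Mot) (z : ℂ) :
    Prop where
  mem : ∀ q ≤ Q, mv g (κ q) ∈ P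
  seg : ∀ q < Q, segment ℝ (g • p q) (g • p (q + 1)) ⊆ frontier (T.tset (mv g (κ q)))
  last : segment ℝ (g • p Q) z ⊆ frontier (T.tset (mv g (κ Q)))
  jn : ∀ q < Q, κ q = κ (q + 1) ∨ Acr T (mv g (κ q)) (mv g (κ (q + 1))) (g • p (q + 1))

/-- The numbers and types of a nest that do not depend on the patch. -/
structure NestTy (n : ℕ) where
  m : ℕ
  δ : ℝ
  c : ℝ
  fan : ℕ → Bool
  sb : ℕ → Bool
  Q : ℕ → ℕ
  kd : ℕ → Bool
  ie : ℕ → ZMod n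

/-- The data of a nest in one patch. -/
structure NestDat where
  N : ℕ → ℕ
  S : Finset (ℕ → ℕ)
  s : ℕ → ℝ
  b : ℕ → ℝ
  A : ℕ → Mot
  B : ℕ → Mot
  F : ℕ → (ℕ → ℕ) → Mot
  pos : ℕ → (ℕ → ℕ) → ℝ

/-- The member of level `i`, with its entry corner. -/
def NestDat.mem (Y : NestTy n) (Z : NestDat) (i : ℕ) (t : ℕ → ℕ) : Tile × ZMod n :=
  ((Y.kd i, Z.F i t), Y.ie i)

/-- A nest of length `Y.m` in the packing `P`. -/
structure Fam (T : Proto n) (P : Set Tile) (Y : NestTy n) (Z : NestDat) : Prop where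
  pack : P.Pairwise fun x y => Disjoint (interior (T.tset x)) (interior (T.tset y))
  box : ∀ t ∈ Z.S, (∀ i < Y.m, t i < Z.N i) ∧ ∀ i, Y.m ≤ i → t i = 0
  dens : Y.δ * ∏ i ∈ Finset.range Y.m, (Z.N i : ℝ) ≤ Z.S.card
  anti : ∀ i, i + 1 < Y.m → Z.N (i + 1) ≤ Z.N i
  s_pos : ∀ i < Y.m, 0 < Z.s i
  tot : ∀ i < Y.m, Z.N i * Z.s i ≤ if Y.fan i then 2 * π else Y.c * T.D
  runs : ∀ i, 0 < i → i + 1 < Y.m → Y.fan i = false
  dep : ∀ t ∈ Z.S, ∀ t' ∈ Z.S, ∀ l ≤ Y.m, (∀ i < l, t i = t' i) → Z.F l t = Z.F l t'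
  step : ∀ t ∈ Z.S, ∀ i < Y.m,
    Z.F (i + 1) t = Z.F i t * Z.A i * gen (Y.fan i) (sg (Y.sb i) * Z.pos i t) * Z.B i
  win : ∀ t ∈ Z.S, ∀ i < Y.m,
    Z.b i + t i * Z.s i ≤ Z.pos i t ∧ Z.pos i t < Z.b i + (t i + 1) * Z.s i
  ent : ∀ i < Y.m, Z.B i • (T.T (Y.kd (i + 1))).v (Y.ie (i + 1)) = 0
  mem : ∀ t ∈ Z.S, ∀ i, 0 < i → i ≤ Y.m → (Z.mem Y i t).1 ∈ P
  leg : ∀ i, 0 < i → i < Y.m → ∃ (κ : ℕ → Tile) (p : ℕ → ℂ) (j : ZMod n), κ 0 = (Y.kd i, 1) ∧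
    p 0 = (T.T (Y.kd i)).v (Y.ie i) ∧ ∀ t ∈ Z.S,
      Leg T P (Y.Q i) κ p (Z.F i t) (T.pt (Z.mem Y (i + 1) t)) ∧ (Y.fan i = false →
        Acr T (mv (Z.F i t) (κ (Y.Q i))) (Z.mem Y (i + 1) t).1 (T.pt (Z.mem Y (i + 1) t)) ∧
        T.pt (Z.mem Y (i + 1) t) ∈ T.edge (mv (Z.F i t) (κ (Y.Q i)), j))
  sing : ∀ t ∈ Z.S, ∀ i, 0 < i → i < Y.m → Y.fan 0 = true → Y.fan i = true →
    (Z.F i t * Z.A i).b ≠ (Z.F 0 t * Z.A 0).b

/-- The direction of the edge `j` of the last tile, seen from the line of the run `l`, when all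
later levels are runs. -/
noncomputable def NestDat.W (T : Proto n) (Y : NestTy n) (Z : NestDat) (j : ZMod n) (l : ℕ) :
    Circle :=
  (Z.B l).u * (∏ i ∈ Finset.Ico (l + 1) Y.m, (Z.A i).u * (Z.B i).u) * (T.T (Y.kd Y.m)).d j

end Pool.Agent.Ng
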