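import Pool.Agent.P.MP_6145c0_co.Ng.LocC

/-! A complex placed in the plane: links, fans and typed walks. -/

open Set Real

namespace Pool.Agent.Ng

variable {n : ℕ} {X : Type}

/-- The sum of the first `l` angles. -/
noncomputable def asum (a : X × ZMod n → ℝ) (f : ℕ → X × ZMod n) (l : ℕ) : ℝ :=
  ∑ i ∈ Finset.range l, a (f i)

namespace Cx

variable (K : Cx n X) (a : X × ZMod n → ℝ)

/-- A full star. -/
def CycF (f : ℕ → X × ZMod n) (l : ℕ) : Prop :=
  K.Ch true f l ∧ K.L true (f l) (f 0) ∧ asum a f (l + 1) = 2 * π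

/-- A half star. -/
def HalfF (b : Bool) (f : ℕ → X × ZMod n) (l : ℕ) : Prop :=
  K.Ch b f l ∧ K.End (!b) (f 0) ∧ K.End b (f l) ∧ asum a f (l + 1) = π

/-- The corner `c` lies in a full star. -/
def Cyc (c : X × ZMod n) : Prop := ∃ f l, f 0 = c ∧ K.CycF a f l

/-- The corner `c` lies in a half star. -/
def Half (c : X × ZMod n) : Prop := ∃ f l j, j ≤ l ∧ f j = c ∧ K.HalfF a true f l

variable {K a} {b : Bool} {c : X × ZMod n} {f : ℕ → X × ZMod n} {l : ℕ}

theorem HalfF.rev (h : K.HalfF a b f l) : K.HalfF a (!b) (fun i => f (l - i)) l := by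
  refine ⟨h.1.rev, by simpa using h.2.2.1, by simpa using h.2.1, ?_⟩
  rw [← h.2.2.2]
  exact Finset.sum_range_reflect (fun i => a (f i)) (l + 1)

theorem Half.flag (h : K.Half a c) (b : Bool) :
    ∃ f l j, j ≤ l ∧ f j = c ∧ K.HalfF a b f l := by
  obtain ⟨f, l, j, hj, e, h⟩ := h
  cases b
  · exact ⟨_, l, l - j, by omega, by rw [← e, Nat.sub_sub_self hj], h.rev⟩
  · exact ⟨f, l, j, hj, e, h⟩

theorem HalfF.half (h : K.HalfF a b f l) {j : ℕ} (hj : j ≤ l) : K.Half a (f j) := by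
  cases b
  · exact ⟨_, l, l - j, by omega, by rw [Nat.sub_sub_self hj], h.rev⟩
  · exact ⟨f, l, j, hj, rfl, h⟩

theorem CycF.not_end (h : K.CycF a f l) {i : ℕ} (hi : i ≤ l) (b : Bool) :
    ∃ j ≤ l, K.L b (f i) (f j) := by
  cases b
  · rcases i with _ | i
    · exact ⟨l, le_rfl, K.inv h.2.1⟩
    · exact ⟨i, by omega, K.inv (h.1 i hi)⟩
  · rcases hi.lt_or_eq with e | rfl
    · exact ⟨i + 1, e, h.1 i e⟩
    · exact ⟨0, Nat.zero_le _, h.2.1⟩

theorem HalfF.link (h : K.HalfF a b f l) {i : ℕ} (hi : i ≤ l) {b' : Bool} {c' : X × ZMod n}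
    (hl : K.L b' (f i) c') : ∃ j ≤ l, c' = f j := by
  by_cases e : b' = b
  · subst e
    rcases hi.lt_or_eq with e | rfl
    · exact ⟨i + 1, e, K.fn hl (h.1 i e)⟩
    · exact absurd hl (h.2.2.1 _)
  · obtain rfl : b' = !b := by
      revert e
      cases b <;> cases b' <;> simp
    rcases i with _ | i
    · exact absurd hl (h.2.1 _)
    · exact ⟨i, by omega, K.fn hl (K.inv (h.1 i hi))⟩

theorem HalfF.end_iff (h : K.HalfF a b f l) {i : ℕ} (hi : i ≤ l) :
    (K.End b (f i) ↔ i = l) ∧ (K.End (!b) (f i) ↔ i = 0) := by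
  refine ⟨⟨fun e => ?_, fun e => e ▸ h.2.2.1⟩, fun e => ?_, fun e => e ▸ h.2.1⟩
  · by_contra k
    exact e _ (h.1 i (by omega))
  · rcases i with _ | i
    · rfl
    · exact absurd (K.inv (h.1 i hi)) (e _)

/-- A half star started at one of its ends. -/
theorem Half.start (h : K.Half a c) (he : K.End b c) :
    ∃ f l, f 0 = c ∧ K.HalfF a (!b) f l := by
  obtain ⟨f, l, j, hj, rfl, hf⟩ := h.flag (!b)
  obtain rfl := (hf.end_iff hj).2.1 (by simpa using he)
  exact ⟨f, l, rfl, hf⟩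

theorem HalfF.nx (h : K.HalfF a b f l) : K.Nx (!b) (nr b (f 0)) (nr (!b) (f l)) := by
  exact ⟨by simpa using h.2.1, f, l, by simp, by simpa using h.1, by simpa using h.2.2.1, rfl⟩

theorem Half.exists_nx {e : X × ZMod n} (h : K.Half a (fc b e)) (he : K.End b (fc b e)) :
    ∃ e', K.Nx b e e' := by
  obtain ⟨f, l, e, h⟩ := h.start he
  exact ⟨_, he, f, l, e, h.1, h.2.2.1, rfl⟩

end Cx

namespace Proto

variable (T : Proto n)

/-- The relative placement across a link of type `st` from a tile of kind `s`. -/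
noncomputable def Kst (s : Bool) (st : Stp n) : Mot :=
  T.Fr s st.i (!st.b) * (T.Fr st.s st.j st.b)⁻¹

/-- The relative placement along a typed walk. -/
noncomputable def Kw : Bool → List (Stp n) → Mot
  | _, [] => 1
  | s, st :: w => T.Kst s st * Kw st.s w

end Proto

/-- The kind at the end of a typed walk. -/
def kw : Bool → List (Stp n) → Bool
  | s, [] => s
  | _, st :: w => kw st.s w

/-- The placed corner or dart. -/
def pc (pl : X → Tile) (c : X × ZMod n) : Tile × ZMod n := (pl c.1, c.2)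

@[simp] theorem pc_id (c : Tile × ZMod n) : pc id c = c := rfl
@[simp] theorem pc_fst (pl : X → Tile) (c : X × ZMod n) : (pc pl c).1 = pl c.1 := rfl
theorem pc_fc (pl : X → Tile) (b : Bool) (c : X × ZMod n) : pc pl (fc b c) = fc b (pc pl c) := by
  cases b <;> rfl
theorem pc_nr (pl : X → Tile) (b : Bool) (c : X × ZMod n) : pc pl (nr b c) = nr b (pc pl c) := by
  cases b <;> rfl

/-- The placement `pl` realises the links of `K`. -/
structure Geo (T : Proto n) (K : Cx n X) (pl : X → Tile) : Prop where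
  kd : ∀ x, (pl x).1 = K.kd x
  pt : ∀ {b c c'}, K.L b c c' → T.pt (pc pl c') = T.pt (pc pl c)
  ray : ∀ {b c c'}, K.L b c c' → T.ray b (pc pl c') = T.ray (!b) (pc pl c)

/-- The angle of a corner of the complex. -/
def Proto.an (T : Proto n) (pl : X → Tile) (c : X × ZMod n) : ℝ := T.ang (pc pl c)

theorem Proto.asum_mono (T : Proto n) (pl : X → Tile) (f : ℕ → X × ZMod n) :
    StrictMono (asum (T.an pl) f) := by
  refine strictMono_nat_of_lt_succ fun l => ?_
  have h : asum (T.an pl) f (l + 1) = asum (T.an pl) f l + T.ang (pc pl (f l)) :=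
    Finset.sum_range_succ _ _
  linarith [T.ang_pos (pc pl (f l))]

theorem Proto.asum_nonneg (T : Proto n) (pl : X → Tile) (f : ℕ → X × ZMod n) (l : ℕ) :
    0 ≤ asum (T.an pl) f l := by
  exact Finset.sum_nonneg fun _ _ => (T.ang_pos _).le

theorem h25_succ (T : Proto n) (pl : X → Tile) (f : ℕ → X × ZMod n) (l : ℕ) :
    asum (T.an pl) f (l + 1) = asum (T.an pl) f l + T.ang (pc pl (f l)) :=
  Finset.sum_range_succ _ _

theorem h25_pi (b : Bool) (a : Circle) : a * Circle.exp (sg b * π) = -a := by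
  cases b
  · apply Circle.ext
    simp [Circle.coe_exp, Complex.exp_pi_mul_I]
  · exact (Proto.h54_neg a).symm

namespace Geo

variable {T : Proto n} {K : Cx n X} {pl : X → Tile} (G : Geo T K pl) {b : Bool}
  {c c' e e' : X × ZMod n} {f : ℕ → X × ZMod n} {l i : ℕ}
include G

theorem ch_pt (h : K.Ch b f l) (hi : i ≤ l) : T.pt (pc pl (f i)) = T.pt (pc pl (f 0)) := by
  induction i with
  | zero => rfl
  | succ i ih => rw [G.pt (h i hi), ih (by omega)]

theorem ch_ray (h : K.Ch b f l) (hi : i ≤ l) :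
    T.ray b (pc pl (f i)) = T.ray b (pc pl (f 0)) * Circle.exp (sg b * asum (T.an pl) f i) := by
  induction i with
  | zero => simp [asum]
  | succ i ih =>
    rw [G.ray (h i hi), T.ray_not, ih (by omega), h25_succ, mul_add, Circle.exp_add, mul_assoc]

theorem ch_ray' (h : K.Ch b f l) (hi : i ≤ l) :
    T.ray (!b) (pc pl (f i)) =
      T.ray b (pc pl (f 0)) * Circle.exp (sg b * asum (T.an pl) f (i + 1)) := by
  rw [T.ray_not, G.ch_ray h hi, h25_succ, mul_add, Circle.exp_add, mul_assoc]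

theorem no_return (h : K.Ch b f l) (h0 : 0 < i) (hi : i ≤ l) (hs : asum (T.an pl) f i < 2 * π) :
    f i ≠ f 0 := by
  intro e
  have h1 := G.ch_ray h hi
  rw [e, left_eq_mul] at h1
  have h2 : 0 < asum (T.an pl) f i := by simpa [asum] using T.asum_mono pl f h0
  have h3 := Proto.h54_inj b (x := asum (T.an pl) f i) (y := 0) (by simpa using h1)
    (by linarith) (by linarith [Real.pi_pos])
  exact h2.ne' h3

/-- The sector of one tile of a fan. -/
theorem sector (h : K.Ch b f l) (hs : asum (T.an pl) f (l + 1) ≤ 2 * π) (hi : i ≤ l) {ρ θ : ℝ}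
    (h0 : 0 < ρ) (h1 : ρ < T.r1) (h2 : 0 ≤ θ) (h3 : θ < 2 * π) :
    T.pt (pc pl (f 0)) + ρ * (T.ray b (pc pl (f 0)) * Circle.exp (sg b * θ) : Circle) ∈
        T.tset (pl (f i).1) ↔
      (asum (T.an pl) f i ≤ θ ∧ θ ≤ asum (T.an pl) f (i + 1)) ∨
        (θ = 0 ∧ asum (T.an pl) f (i + 1) = 2 * π) := by
  have a0 := T.asum_nonneg pl f i
  have a1 := h25_succ T pl f i
  have a2 : asum (T.an pl) f (i + 1) ≤ 2 * π :=
    ((T.asum_mono pl f).monotone (by omega)).trans hs
  have a3 := T.ang_pos (pc pl (f i))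
  have e1 : T.ray b (pc pl (f 0)) * Circle.exp (sg b * θ) =
      T.ray b (pc pl (f i)) * Circle.exp (sg b * (θ - asum (T.an pl) f i)) := by
    rw [G.ch_ray h hi, mul_assoc, ← Circle.exp_add, ← mul_add, add_sub_cancel]
  rw [← G.ch_pt h hi, e1]
  by_cases k : asum (T.an pl) f i ≤ θ
  · refine (T.cone b (pc pl (f i)) h0 h1 (by linarith) (by linarith)).trans ⟨fun e => ?_, ?_⟩
    · exact Or.inl ⟨k, by linarith⟩
    · rintro (e | e) <;> linarith [e.1, e.2]
  · rw [← Proto.h54_per]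
    refine (T.cone b (pc pl (f i)) h0 h1 (by linarith) (by linarith)).trans ⟨fun e => ?_, ?_⟩
    · exact Or.inr ⟨by linarith, by linarith⟩
    · rintro (e | e)
      · exact absurd e.1 k
      · linarith [e.1, e.2]

theorem nx_cont (h : K.Nx b e e') (hh : K.Half (T.an pl) (fc b e)) :
    T.Cont b (pc pl e) (pc pl e') := by
  obtain ⟨f, l, e0, hf⟩ := hh.start h.1
  obtain rfl : e' = nr b (f l) := h.fn ⟨h.1, f, l, e0, hf.1, hf.2.2.1, rfl⟩
  constructor
  · rw [pc_nr, fc_nr, G.ch_pt hf.1 le_rfl, e0, pc_fc]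
  · have h1 := G.ch_ray' hf.1 le_rfl
    rw [Bool.not_not, hf.2.2.2, e0, pc_fc, T.ray_fc, h25_pi, neg_neg] at h1
    rw [pc_nr, T.dirn_nr, h1]

theorem link_tch (h : K.L b c c') : T.Tch (pc pl (nr (!b) c)) (pc pl c') b := by
  rw [pc_nr]
  exact T.tch_of_link (G.pt h) (G.ray h)

theorem link_dirn (h : K.L b c c') :
    T.dirn b (pc pl (nr b c')) = T.dirn (!b) (pc pl (nr (!b) c)) := by
  rw [pc_nr, pc_nr, T.dirn_nr, T.dirn_nr, G.ray h]

theorem walk_eq {w : List (Stp n)} {x y : X} (h : K.Walk w x y) :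
    pl y = (kw (pl x).1 w, (pl x).2 * T.Kw (pl x).1 w) := by
  induction w generalizing x with
  | nil =>
    obtain rfl : y = x := h
    simp [kw, Proto.Kw]
  | cons st w ih =>
    obtain ⟨x', h1, h2, h3⟩ := h
    have e1 : (pl x').1 = st.s := (G.kd x').trans h2
    have e2 : (pl x').2 * T.Fr (pl x').1 st.j st.b = (pl x).2 * T.Fr (pl x).1 st.i (!st.b) :=
      Mot.ext (G.ray h1) (G.pt h1)
    rw [e1] at e2
    rw [ih h3, e1, eq_mul_inv_of_mul_eq e2]
    simp only [kw, Proto.Kw, Proto.Kst, mul_assoc]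

theorem walk_dist {w : List (Stp n)} {x y : X} (h : K.Walk w x y) {z z' : ℂ}
    (hz : z ∈ T.tset (pl x)) (hz' : z' ∈ T.tset (pl y)) :
    dist z z' ≤ (w.length + 1) * T.D := by
  induction w generalizing x z with
  | nil =>
    obtain rfl : y = x := h
    simpa using T.dist_le_D hz hz'
  | cons st w ih =>
    obtain ⟨x', h1, -, h3⟩ := h
    have a1 := T.dist_le_D hz (T.pt_mem (pc pl (x, st.i)))
    have a2 := ih h3 (T.pt_mem (pc pl (x', st.j)))
    rw [G.pt h1] at a2
    have a3 := dist_triangle z (T.pt (pc pl (x, st.i))) z'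
    rw [List.length_cons]
    push_cast
    linarith

end Geo

end Pool.Agent.Ng
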