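import Pool.Agent.P.MP_6145c0_co.Ng.Lev

/-! A typed walk gives a typed leg. -/

open Set Real

namespace Pool.Agent.Ng

variable {n : ℕ} [NeZero n]

omit [NeZero n] in
theorem h14_edge_fr (T : Proto n) (x : Tile) (i : ZMod n) :
    T.edge (x, i) ⊆ frontier (T.tset x) := by
  rw [T.tset_fr]
  exact subset_iUnion (fun j => T.edge (x, j)) i

theorem h14_mv_mul (g h : Mot) (x : Tile) : mv g (mv h x) = mv (g * h) x := by
  simp only [mv, mul_assoc]

theorem h14_mv_one (g : Mot) (s : Bool) : mv g (s, 1) = (s, g) := by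
  simp only [mv, mul_one]

omit [NeZero n] in
/-- One more segment in front of a leg. -/
theorem Leg.h14_cons {T : Proto n} {P : Set Tile} {Q : ℕ} {κ : ℕ → Tile} {p : ℕ → ℂ} {g : Mot}
    {z : ℂ} (h : Leg T P Q κ p g z) (x : Tile) (a : ℂ) (h1 : mv g x ∈ P)
    (h2 : segment ℝ (g • a) (g • p 0) ⊆ frontier (T.tset (mv g x)))
    (h3 : x = κ 0 ∨ Acr T (mv g x) (mv g (κ 0)) (g • p 0)) :
    Leg T P (Q + 1) (fun q => Nat.casesOn q x κ) (fun q => Nat.casesOn q a p) g z := by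
  refine ⟨fun q hq => ?_, fun q hq => ?_, h.last, fun q hq => ?_⟩
  · rcases q with _ | q
    · exact h1
    · exact h.mem q (by omega)
  · rcases q with _ | q
    · exact h2
    · exact h.seg q (by omega)
  · rcases q with _ | q
    · exact h3
    · exact h.jn q (by omega)

omit [NeZero n] in
/-- A leg seen from another frame. -/
theorem Leg.h14_frame {T : Proto n} {P : Set Tile} {Q : ℕ} {κ : ℕ → Tile} {p : ℕ → ℂ} {g k : Mot}
    {z : ℂ} (h : Leg T P Q κ p (g * k) z) :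
    Leg T P Q (fun q => mv k (κ q)) (fun q => k • p q) g z := by
  refine ⟨fun q hq => ?_, fun q hq => ?_, ?_, fun q hq => ?_⟩
  · rw [h14_mv_mul]
    exact h.mem q hq
  · rw [h14_mv_mul, ← mul_smul, ← mul_smul]
    exact h.seg q hq
  · rw [h14_mv_mul, ← mul_smul]
    exact h.last
  · rcases h.jn q hq with e | e
    · exact Or.inl (congrArg (mv k) e)
    · rw [h14_mv_mul, h14_mv_mul, ← mul_smul]
      exact Or.inr e

/-- The statement for one walk and one starting corner. -/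
def H14Good (w : List (Stp n)) (s0 : Bool) (i0 f : ZMod n) : Prop := ∃ Q : ℕ, ∀ T : Proto n,
    ∃ (κ : ℕ → Tile) (p : ℕ → ℂ), κ 0 = (s0, 1) ∧ p 0 = (T.T s0).v i0 ∧
      κ Q = (kw s0 w, T.Kw s0 w) ∧ ∀ (K : ℕ) (P : Patch T K) (g : Mot) (W : Tile) (z : ℂ),
        (s0, g) ∈ P.all → P.cx.Walk w (s0, g) W → z ∈ T.edge (W, f) → Leg T P.all Q κ p g z

omit [NeZero n] in
theorem h14_succ {w : List (Stp n)} {s0 : Bool} {i0 f : ZMod n} (h : H14Good w s0 (i0 + 1) f) :
    H14Good w s0 i0 f := by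
  obtain ⟨Q, h⟩ := h
  refine ⟨Q + 1, fun T => ?_⟩
  obtain ⟨κ, p, h1, h2, h3, h4⟩ := h T
  refine ⟨fun q => Nat.casesOn q (s0, 1) κ, fun q => Nat.casesOn q ((T.T s0).v i0) p, rfl, rfl, h3,
    fun K P g W z hg hw hz => (h4 K P g W z hg hw hz).h14_cons _ _ ?_ ?_ (Or.inl h1.symm)⟩
  · rwa [h14_mv_one]
  · rw [h14_mv_one, h2]
    exact h14_edge_fr T (s0, g) i0

theorem h14_any {w : List (Stp n)} {s0 : Bool} {i1 f : ZMod n} (h : H14Good w s0 i1 f)
    (i0 : ZMod n) : H14Good w s0 i0 f := by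
  have key : ∀ (m : ℕ) (i : ZMod n), H14Good w s0 (i + m) f → H14Good w s0 i f := by
    intro m
    induction m with
    | zero => intro i hi; simpa using hi
    | succ m ih =>
      intro i hi
      refine h14_succ (ih _ ?_)
      rwa [Nat.cast_succ, add_comm (m : ZMod n) 1, ← add_assoc] at hi
  refine key (i1 - i0).val i0 ?_
  rwa [ZMod.natCast_zmod_val, add_sub_cancel]

omit [NeZero n] in
theorem h14_nil (s0 : Bool) (f : ZMod n) : H14Good [] s0 f f := by
  refine ⟨0, fun T => ⟨fun _ => (s0, 1), fun _ => (T.T s0).v f, rfl, rfl, rfl, ?_⟩⟩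
  intro K P g W z hg hw hz
  obtain rfl : W = (s0, g) := hw
  refine ⟨fun q _ => by rwa [h14_mv_one], fun q hq => absurd hq (by omega), ?_,
    fun q hq => absurd hq (by omega)⟩
  rw [h14_mv_one]
  refine Subset.trans ?_ (h14_edge_fr T (s0, g) f)
  exact (convex_segment _ _).segment_subset (left_mem_segment _ _ _) hz

omit [NeZero n] in
theorem h14_step {w : List (Stp n)} {st : Stp n} {f : ZMod n} (h : H14Good w st.s st.j f)
    (s0 : Bool) : H14Good (st :: w) s0 st.i f := by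
  obtain ⟨Q, h⟩ := h
  refine ⟨Q + 1, fun T => ?_⟩
  obtain ⟨κ, p, h1, h2, h3, h4⟩ := h T
  refine ⟨fun q => Nat.casesOn q (s0, 1) fun q => mv (T.Kst s0 st) (κ q),
    fun q => Nat.casesOn q ((T.T s0).v st.i) fun q => T.Kst s0 st • p q, rfl, rfl, ?_, ?_⟩
  · show mv (T.Kst s0 st) (κ Q) = _
    rw [h3]
    rfl
  intro K P g W z hg hw hz
  obtain ⟨x', l1, l2, l3⟩ := hw
  have e : x' = (st.s, g * T.Kst s0 st) := by
    have e0 := P.geo.walk_eq (w := [st]) (x := (s0, g)) (y := x') ⟨x', l1, l2, rfl⟩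
    simpa only [id, kw, Proto.Kw, mul_one] using e0
  subst e
  have hp : g • T.Kst s0 st • p 0 = T.pt ((st.s, g * T.Kst s0 st), st.j) := by
    rw [h2, ← mul_smul]
    rfl
  refine (h4 K P _ W z l1.2.1 l3 hz).h14_frame.h14_cons _ _ ?_ ?_ (Or.inr ?_)
  · rwa [h14_mv_one]
  · rw [h14_mv_one, hp, l1.2.2.1]
    show segment ℝ (T.pt ((s0, g), st.i)) (T.pt ((s0, g), st.i)) ⊆ _
    rw [segment_same, singleton_subset_iff]
    exact h14_edge_fr T (s0, g) st.i (left_mem_segment _ _ _)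
  · have t := P.geo.link_tch l1
    rw [pc_id, pc_id] at t
    have a := Patch.tch_acr (P := P) (by rw [nr_fst]; exact hg) l1.2.1
      (by rw [nr_fst]; exact (Patch.link_ne l1).symm) t
    rw [nr_fst] at a
    rw [h14_mv_one, hp, h14_mv_mul, h1, h14_mv_one]
    exact a

theorem leg_of_walk (w : List (Stp n)) (s0 : Bool) (i0 f : ZMod n) : ∃ Q : ℕ, ∀ T : Proto n,
    ∃ (κ : ℕ → Tile) (p : ℕ → ℂ), κ 0 = (s0, 1) ∧ p 0 = (T.T s0).v i0 ∧
      κ Q = (kw s0 w, T.Kw s0 w) ∧ ∀ (K : ℕ) (P : Patch T K) (g : Mot) (W : Tile) (z : ℂ),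
        (s0, g) ∈ P.all → P.cx.Walk w (s0, g) W → z ∈ T.edge (W, f) → Leg T P.all Q κ p g z := by
  show H14Good w s0 i0 f
  induction w generalizing s0 i0 with
  | nil => exact h14_any (h14_nil s0 f) i0
  | cons st w ih => exact h14_any (h14_step (ih st.s st.j) s0) i0

end Pool.Agent.Ng
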