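import Pool.Agent.P.MP_6145c0_co.Ng.LimB
import Pool.Agent.P.MP_6145c0_co.Ng.FamDefs

/-! One level of a nest: members of a long side or of a long fan. -/

open Set Real

namespace Pool.Agent.Ng

variable {n : ℕ}

/-- The types of one level: walk `w` to the anchor corner `i`, direction `b`, walk `w2` to the edge
`f` that carries the entry corner `j` of the member, of kind `s`. -/
structure LD (n : ℕ) where
  b : Bool
  w : List (Stp n)
  i : ZMod n
  w2 : List (Stp n)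
  f : ZMod n
  s : Bool
  j : ZMod n

theorem finite_LD (n : ℕ) [NeZero n] (r : ℕ) :
    {a : LD n | a.w.length ≤ r ∧ a.w2.length ≤ r}.Finite := by
  refine Set.Finite.of_injOn (f := fun a : LD n => (a.w, a.w2, a.b, a.i, a.f, a.s, a.j))
    (t := {w : List (Stp n) | w.length ≤ r} ×ˢ {w : List (Stp n) | w.length ≤ r} ×ˢ univ)
    (fun a ha => ⟨ha.1, ha.2, mem_univ _⟩) (fun a _ a' _ h => ?_)
    ((finite_words n r).prod ((finite_words n r).prod finite_univ))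
  cases a
  cases a'
  simp only [Prod.mk.injEq] at h
  obtain ⟨rfl, rfl, rfl, rfl, rfl, rfl, rfl⟩ := h
  rfl

/-- The anchor frame relative to the parent tile, of kind `s0`. -/
noncomputable def LD.A (a : LD n) (T : Proto n) (s0 : Bool) : Mot :=
  T.Kw s0 a.w * T.Fr (kw s0 a.w) a.i a.b

/-- The member relative to its frame. -/
noncomputable def LD.B (a : LD n) (T : Proto n) : Mot := (T.Fr a.s a.j a.b)⁻¹

/-- The turning direction of a fan. -/
def LD.sb (a : LD n) (φ : Bool) : Bool := if φ then a.b else true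

theorem LD.B_v (a : LD n) (T : Proto n) : a.B T • (T.T a.s).v a.j = 0 := by
  rw [LD.B, inv_smul_eq_iff, Mot.smul_def, mul_zero, zero_add]
  rfl

/-- The angle or the length of a type. -/
def Proto.val (T : Proto n) (φ : Bool) (θ : Bool × ZMod n) : ℝ :=
  if φ then (T.T θ.1).ang θ.2 else (T.T θ.1).len θ.2

theorem Proto.val_pos (T : Proto n) (φ : Bool) (θ : Bool × ZMod n) : 0 < T.val φ θ := by
  cases φ
  · exact (T.T θ.1).len_pos θ.2
  · exact (T.T θ.1).ang_pos θ.2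

namespace Patch

variable {T : Proto n} {K : ℕ} (P : Patch T K)

/-- `y` is a member at position `pos` of a fan (`φ = true`) or a run with parent `x`. -/
structure Lev (φ : Bool) (a : LD n) (x y : Tile) (pos : ℝ) : Prop where
  kd : y.1 = a.s
  fr : y.2 = x.2 * a.A T x.1 * gen φ (sg (a.sb φ) * pos) * a.B T
  wall : ∃ W, P.cx.Walk a.w2 x W ∧ T.pt (y, a.j) ∈ T.edge (W, a.f) ∧
    (φ = false → Acr T W y (T.pt (y, a.j)))

variable {P} [NeZero n] {x : Tile} {d r M : ℕ}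

omit [NeZero n] in
theorem tch_acr {e c : Tile × ZMod n} {b : Bool} (he : e.1 ∈ P.all) (hc : c.1 ∈ P.all)
    (hne : e.1 ≠ c.1) (h : T.Tch e c b) : Acr T e.1 c.1 (T.pt c) := by
  refine Metric.mem_closure_iff.2 fun ε hε => ?_
  obtain ⟨z, ⟨z1, z2⟩, hz⟩ := h.2 ε hε
  have k1 := T.edge_subset _ (T.oedge_subset _ z2)
  have k2 := T.int_union z1 z2 (by rw [nr_fst]; exact P.disj he hc hne)
  rw [nr_fst] at k1 k2
  exact ⟨z, ⟨⟨T.edge_subset _ (T.oedge_subset _ z1), k1⟩, k2⟩, by rwa [dist_comm]⟩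

omit [NeZero n] in
theorem h61_anchor {w : List (Stp n)} {c : Tile × ZMod n} (h : P.cx.Walk w x c.1) (b : Bool) :
    x.2 * (T.Kw x.1 w * T.Fr (kw x.1 w) c.2 b) = ⟨T.ray b c, T.pt c⟩ := by
  have e : c.1 = (kw x.1 w, x.2 * T.Kw x.1 w) := P.geo.walk_eq h
  have e1 : c.1.2 * T.Fr c.1.1 c.2 b = ⟨T.ray b c, T.pt c⟩ := rfl
  rw [← e1, e, mul_assoc]

omit [NeZero n] in
theorem h61_member {c : Tile × ZMod n} {b : Bool} {g : Mot} (hu : T.ray b c = g.u)
    (hb : T.pt c = g.b) : c.1.2 = g * (T.Fr c.1.1 c.2 b)⁻¹ :=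
  eq_mul_inv_of_mul_eq (Mot.ext hu hb)

theorem fan_seq {Sg : Set ℂ} (hx : x ∈ P.lay d) (hK : d + r + 3 ≤ K) (h : P.BadFan Sg x r M) :
    ∃ ty : ℕ → Bool × ZMod n, ∑ i ∈ Finset.range M, T.val true (ty i) ≤ 2 * π ∧
      ∀ l ≤ M, ∃ a ∈ {a : LD n | a.w.length ≤ r + 1 ∧ a.w2.length ≤ r + 1}, ∃ y,
        P.Lev true a x y (∑ i ∈ Finset.range l, T.val true (ty i)) ∧ y ∈ P.lay (d + r + 1) ∧
          (x.2 * a.A T x.1).b ∉ Sg := by
  obtain ⟨b, f, hn, hs, hf, hr⟩ := h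
  have h0 : (f 0).1 ∈ P.lay (d + r) := near_lay (by omega) hx hn
  obtain ⟨w, hw, hw'⟩ := hn
  refine ⟨fun i => ((f i).1.1, (f i).2), (asum_lt (P.sub _ h0) hf hr le_rfl).le, fun l hl => ?_⟩
  have e1 : T.pt (f l) = T.pt (f 0) := P.geo.ch_pt hf hl
  have e2 : T.ray b (f l) = T.ray b (f 0) * Circle.exp (sg b * asum (T.an id) f l) :=
    P.geo.ch_ray hf hl
  have e3 := h61_anchor hw' b
  refine ⟨⟨b, w, (f 0).2, w, (f 0).2, (f l).1.1, (f l).2⟩, ⟨by simp; omega, by simp; omega⟩,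
    (f l).1, ⟨rfl, ?_, (f 0).1, hw', ?_, fun k => absurd k (by simp)⟩, ?_, ?_⟩
  · refine h61_member (c := f l) (b := b) ?_ ?_
    · rw [LD.A, e3]
      exact e2
    · rw [LD.A, e3, e1]
      simp [gen, rot]
  · show T.pt (f l) ∈ T.edge (f 0)
    rw [e1]
    exact T.pt_mem_edge false (f 0)
  · exact touch (by omega) h0 (ch_all (P.sub _ h0) hf hl) (T.pt_mem (f 0)) (e1 ▸ T.pt_mem (f l))
  · rw [LD.A, e3]
    exact hs

theorem run_seq (hx : x ∈ P.lay d) (hK : d + r + 3 ≤ K) (h : P.BadRun x r M) :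
    ∃ ty : ℕ → Bool × ZMod n, ∑ i ∈ Finset.range M, T.val false (ty i) ≤ (2 * r + 2) * T.D ∧
      ∀ l ≤ M, ∃ a ∈ {a : LD n | a.w.length ≤ r + 1 ∧ a.w2.length ≤ r + 1}, ∃ y,
        P.Lev false a x y (∑ i ∈ Finset.range l, T.val false (ty i)) ∧ y ∈ P.lay (d + r + 1) := by
  obtain ⟨b, a, a', c, g', l', g, hl, g0', hg', hc, hn, g0, hg⟩ := h
  have S : P.Short (d + r) b a a' c g' l' :=
    ⟨hl, g0', hg', hc, fun i hi => near_lay (by omega) hx (hn i hi), by omega⟩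
  refine ⟨fun i => ((g i).1.1, (g i).2), ?_, fun l hlM => ?_⟩
  · have k1 : T.slen g M < T.slen g' (l' + 1) := (S.long g0 hg).2.1
    obtain ⟨w, hw, hw'⟩ := hn 0 (Nat.zero_le _)
    obtain ⟨w1, hw1, hw1'⟩ := hn l' le_rfl
    have p0 : T.pt (fc (!b) (g' 0)) ∈ T.tset (g' 0).1 := by simpa using T.pt_mem (fc (!b) (g' 0))
    have p1 : T.pt (fc b (g' l')) ∈ T.tset (g' l').1 := by simpa using T.pt_mem (fc b (g' l'))
    have d0 := P.geo.walk_dist hw' (T.pt_mem (x, 0)) p0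
    have d1 := P.geo.walk_dist hw1' (T.pt_mem (x, 0)) p1
    have d2 := dist_triangle_left (T.pt (fc b (g' l'))) (T.pt (fc (!b) (g' 0))) (T.pt (x, 0))
    rw [S.h78_p0] at d0 d2
    rw [S.h78_far le_rfl] at d1 d2
    rw [Proto.h54_dist _ _ (T.slen_nonneg _ _)] at d2
    have c0 : (w.length : ℝ) ≤ r := by exact_mod_cast hw
    have c1 : (w1.length : ℝ) ≤ r := by exact_mod_cast hw1
    have c2 := T.D_pos
    show T.slen g M ≤ _
    nlinarith
  · have hgl : P.cx.Sd (!b) g l := Seq.mono hg hlM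
    obtain ⟨p1, p2, i, hi, ht, hne⟩ := S.wall g0 hgl
    have hy := (S.long g0 hgl).2.2
    obtain ⟨w, hw, hw'⟩ := Cx.Near.step (c := a') (by simpa [g0'] using hn 0 (Nat.zero_le _))
      (P.cx.inv hl)
    obtain ⟨w2, hw2, hw2'⟩ := hn i hi
    have e3 := h61_anchor hw' (!b)
    have e4 : ((g l).1, (fc b (g l)).2) = fc b (g l) := Prod.ext (fc_fst b (g l)).symm rfl
    refine ⟨⟨!b, w, a.2, w2, (g' i).2, (g l).1.1, (fc b (g l)).2⟩, ⟨hw, by simp; omega⟩,
      (g l).1, ⟨rfl, ?_, (g' i).1, hw2', ?_, fun _ => ?_⟩, hy⟩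
    · refine h61_member (c := ((g l).1, (fc b (g l)).2)) (b := !b) ?_ ?_
      · rw [LD.A, e3, e4, p2]
        simp [gen, tr]
      · rw [LD.A, e3, e4, p1]
        show _ = (T.ray (!b) a : ℂ) * ((1 * T.slen g l : ℝ) : ℂ) + T.pt a
        rw [one_mul]
        ring
    · show T.pt ((g l).1, (fc b (g l)).2) ∈ T.edge (g' i)
      rw [e4]
      exact ht.1
    · show Acr T (g' i).1 (g l).1 (T.pt ((g l).1, (fc b (g l)).2))
      rw [e4]
      simpa using tch_acr (P.sub _ (S.lay i hi)) (by simpa using P.sub _ hy) (by simpa using hne) ht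

end Patch

end Pool.Agent.Ng
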