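import Pool.Agent.P.MP_6145c0_co.Ng.Cx

/-! The limit of a sequence of rooted complexes along an ultrafilter. -/

open Set Filter

namespace Pool.Agent.Ng

/-- The free ultrafilter used throughout, as a filter. -/
noncomputable abbrev U : Filter ℕ := hyperfilter ℕ

theorem U_le : U ≤ atTop := Nat.hyperfilter_le_atTop

theorem U_ge (a : ℕ) : ∀ᶠ k in U, a ≤ k := U_le (eventually_ge_atTop a)

theorem U_or {p q : ℕ → Prop} : (∀ᶠ k in U, p k ∨ q k) ↔ (∀ᶠ k in U, p k) ∨ ∀ᶠ k in U, q k :=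
  Ultrafilter.eventually_or

theorem U_not {p : ℕ → Prop} : (∀ᶠ k in U, ¬p k) ↔ ¬∀ᶠ k in U, p k := Ultrafilter.eventually_not

theorem U_fin {β : Type} {A : Set β} (hA : A.Finite) {p : ℕ → β → Prop}
    (h : ∀ᶠ k in U, ∃ c ∈ A, p k c) : ∃ c ∈ A, ∀ᶠ k in U, p k c :=
  (Ultrafilter.eventually_exists_mem_iff hA).1 h

theorem U_le_nat {M : ℕ} {p : ℕ → ℕ → Prop} (h : ∀ᶠ k in U, ∃ l ≤ M, p k l) :
    ∃ l ≤ M, ∀ᶠ k in U, p k l :=
  U_fin (finite_le_nat M) h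

variable {n : ℕ}

/-- The tiles reached from the root `x k` by standard walks. -/
structure Lim (K : ℕ → Cx n Tile) (x : ℕ → Tile) where
  X : Type
  C : Cx n X
  re : X → ℕ → Tile
  x0 : X
  re0 : ∀ᶠ k in U, re x0 k = x k
  inj : ∀ a a', (∀ᶠ k in U, re a k = re a' k) → a = a'
  kd : ∀ a, ∀ᶠ k in U, (K k).kd (re a k) = C.kd a
  lk : ∀ b c c', C.L b c c' ↔ ∀ᶠ k in U, (K k).L b (re c.1 k, c.2) (re c'.1 k, c'.2)
  en : ∀ b c, C.End b c → ∀ᶠ k in U, (K k).End b (re c.1 k, c.2)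
  reach : ∀ a, ∃ w, C.Walk w x0 a

theorem exists_lim [NeZero n] (K : ℕ → Cx n Tile) (x : ℕ → Tile) : Nonempty (Lim K x) := by
  classical
  have : Nonempty Tile := ⟨x 0⟩
  let P : (ℕ → Tile) → Prop := fun t => ∃ w, ∀ᶠ k in U, (K k).Walk w (x k) (t k)
  let X : Type := {g : Quotient (germSetoid U Tile) // P g.out}
  let re : X → ℕ → Tile := fun a => a.1.out
  have lift : ∀ t, P t → ∃ a : X, ∀ᶠ k in U, re a k = t k := by
    rintro t ⟨w, hw⟩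
    have e : ∀ᶠ k in U, (Quotient.mk (germSetoid U Tile) t).out k = t k :=
      Quotient.mk_out (s := germSetoid U Tile) t
    exact ⟨⟨Quotient.mk _ t, w, (e.and hw).mono fun k h => h.1.symm ▸ h.2⟩, e⟩
  have inj : ∀ a a' : X, (∀ᶠ k in U, re a k = re a' k) → a = a' := fun a a' h =>
    Subtype.ext (Quotient.out_equiv_out.1 h)
  have step : ∀ (a : X) (st : Stp n) (t : ℕ → Tile), (∀ᶠ k in U,
      (K k).L st.b (re a k, st.i) (t k, st.j) ∧ (K k).kd (t k) = st.s) →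
      ∃ a' : X, ∀ᶠ k in U, re a' k = t k := fun a st t h => by
    obtain ⟨w, hw⟩ := a.2
    exact lift t ⟨w ++ [st], (hw.and h).mono fun k e =>
      Cx.walk_append.2 ⟨_, e.1, t k, e.2.1, e.2.2, rfl⟩⟩
  let C : Cx n X :=
    { kd := fun a => decide (∀ᶠ k in U, (K k).kd (re a k) = true)
      L := fun b c c' => ∀ᶠ k in U, (K k).L b (re c.1 k, c.2) (re c'.1 k, c'.2)
      fn := fun h h' => by
        have e := (h.and h').mono fun k e => (K k).fn e.1 e.2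
        obtain ⟨k, hk⟩ := e.exists
        exact Prod.ext (inj _ _ (e.mono fun k e => congrArg Prod.fst e)) (congrArg Prod.snd hk :)
      inv := fun h => h.mono fun k e => (K k).inv e }
  have kd : ∀ a, ∀ᶠ k in U, (K k).kd (re a k) = C.kd a := fun a => by
    by_cases h : ∀ᶠ k in U, (K k).kd (re a k) = true
    · exact h.mono fun k e => e.trans (decide_eq_true h).symm
    · exact (U_not.2 h).mono fun k e => (Bool.eq_false_iff.2 e).trans (decide_eq_false h).symm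
  have back : ∀ (w : List (Stp n)) (a a' : X),
      (∀ᶠ k in U, (K k).Walk w (re a k) (re a' k)) → C.Walk w a a' := by
    intro w
    induction w with
    | nil => exact fun a a' h => inj _ _ h
    | cons st w ih =>
      intro a a' h
      obtain ⟨t, ht⟩ := Eventually.choice h
      obtain ⟨a1, h1⟩ := step a st t (ht.mono fun k e => ⟨e.1, e.2.1⟩)
      obtain ⟨k, e1, e2, e3⟩ := (ht.and (h1.and (kd a1))).exists
      exact ⟨a1, (ht.and h1).mono fun k e => e.2.symm ▸ e.1.1, e3.symm.trans (e2.symm ▸ e1.2.1),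
        ih a1 a' ((ht.and h1).mono fun k e => e.2.symm ▸ e.1.2.2)⟩
  obtain ⟨x0, h0⟩ := lift x ⟨[], Eventually.of_forall fun _ => rfl⟩
  refine ⟨⟨X, C, re, x0, h0, inj, kd, fun _ _ _ => Iff.rfl, fun b c h => ?_, fun a => ?_⟩⟩
  · by_contra hc
    obtain ⟨q, -, hq⟩ := U_fin (A := (univ : Set (ZMod n × Bool))) finite_univ
      (p := fun k q => ∃ y, (K k).L b (re c.1 k, c.2) (y, q.1) ∧ (K k).kd y = q.2)
      ((U_not.2 hc).mono fun k e => by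
        obtain ⟨d, hd⟩ := not_forall.1 e
        exact ⟨(d.2, (K k).kd d.1), mem_univ _, d.1, not_not.1 hd, rfl⟩)
    obtain ⟨t, ht⟩ := Eventually.choice hq
    obtain ⟨a1, h1⟩ := step c.1 ⟨c.2, b, q.2, q.1⟩ t ht
    exact h (a1, q.1) ((ht.and h1).mono fun k e => e.2.symm ▸ e.1.1)
  · obtain ⟨w, hw⟩ := a.2
    exact ⟨w, back w x0 a ((hw.and h0).mono fun k e => e.2.symm ▸ e.1)⟩

namespace Lim

variable {K : ℕ → Cx n Tile} {x : ℕ → Tile} (Λ : Lim K x)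

/-- The corner or dart at stage `k`. -/
def rc (c : Λ.X × ZMod n) (k : ℕ) : Tile × ZMod n := (Λ.re c.1 k, c.2)

theorem rc_fc (b : Bool) (c : Λ.X × ZMod n) (k : ℕ) : Λ.rc (fc b c) k = fc b (Λ.rc c k) := by
  cases b <;> rfl

theorem rc_nr (b : Bool) (c : Λ.X × ZMod n) (k : ℕ) : Λ.rc (nr b c) k = nr b (Λ.rc c k) := by
  cases b <;> rfl

variable {Λ} {b : Bool} {c c' e e' : Λ.X × ZMod n} {f : ℕ → Λ.X × ZMod n} {l : ℕ}

theorem rc_inj (h : ∀ᶠ k in U, Λ.rc c k = Λ.rc c' k) : c = c' := by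
  obtain ⟨k, hk⟩ := h.exists
  exact Prod.ext (Λ.inj _ _ (h.mono fun k e => congrArg Prod.fst e)) (congrArg Prod.snd hk :)

theorem end_iff : Λ.C.End b c ↔ ∀ᶠ k in U, (K k).End b (Λ.rc c k) := by
  refine ⟨Λ.en b c, fun h d hd => ?_⟩
  obtain ⟨k, e1, e2⟩ := (h.and ((Λ.lk b c d).1 hd)).exists
  exact e1 _ e2

theorem h14_fw {R : Λ.X × ZMod n → Λ.X × ZMod n → Prop}
    {R' : ℕ → Tile × ZMod n → Tile × ZMod n → Prop}
    (hR : ∀ c c', R c c' → ∀ᶠ k in U, R' k (Λ.rc c k) (Λ.rc c' k)) (h : Seq R f l) :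
    ∀ᶠ k in U, Seq (R' k) (fun i => Λ.rc (f i) k) l :=
  (eventually_all_finite (finite_lt_nat l)).2 fun i hi => hR _ _ (h i hi)

theorem h14_back {R : Λ.X × ZMod n → Λ.X × ZMod n → Prop}
    {R' : ℕ → Tile × ZMod n → Tile × ZMod n → Prop}
    (hR : ∀ c (d : ℕ → Tile × ZMod n), (∀ᶠ k in U, R' k (Λ.rc c k) (d k)) →
      ∃ c', R c c' ∧ ∀ᶠ k in U, d k = Λ.rc c' k) {f' : ℕ → ℕ → Tile × ZMod n}
    (h : ∀ᶠ k in U, f' k 0 = Λ.rc c k ∧ Seq (R' k) (f' k) l) :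
    ∃ f, f 0 = c ∧ Seq R f l ∧ ∀ᶠ k in U, ∀ i ≤ l, f' k i = Λ.rc (f i) k := by
  induction l with
  | zero =>
    exact ⟨fun _ => c, rfl, Seq.zero _ _, h.mono fun k e i hi => Nat.le_zero.1 hi ▸ e.1⟩
  | succ l ih =>
    obtain ⟨f, f0, hf, he⟩ := ih (h.mono fun k e => ⟨e.1, e.2.mono l.le_succ⟩)
    obtain ⟨d, h1, h2⟩ := hR (f l) (fun k => f' k (l + 1))
      ((h.and he).mono fun k e => e.2 l le_rfl ▸ e.1.2 l l.lt_succ_self)
    obtain ⟨g, g1, g2, g3⟩ := hf.snoc h1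
    refine ⟨g, (g1 0 l.zero_le).trans f0, g3, (he.and h2).mono fun k e i hi => ?_⟩
    rcases Nat.of_le_succ hi with hi | rfl
    · rw [g1 i hi]
      exact e.1 i hi
    · rw [g2]
      exact e.2

theorem ch (h : Λ.C.Ch b f l) : ∀ᶠ k in U, (K k).Ch b (fun i => Λ.rc (f i) k) l :=
  h14_fw (R' := fun k => (K k).L b) (fun c c' => (Λ.lk b c c').1) h

theorem ch_back {f' : ℕ → ℕ → Tile × ZMod n}
    (h : ∀ᶠ k in U, f' k 0 = Λ.rc c k ∧ (K k).Ch b (f' k) l) :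
    ∃ f, f 0 = c ∧ Λ.C.Ch b f l ∧ ∀ᶠ k in U, ∀ i ≤ l, f' k i = Λ.rc (f i) k := by
  refine h14_back (R' := fun k => (K k).L b) (fun c d hd => ?_) h
  have h1 : ¬Λ.C.End b c := fun e => by
    obtain ⟨k, e1, e2⟩ := ((end_iff.1 e).and hd).exists
    exact e1 _ e2
  obtain ⟨c', hc'⟩ := not_forall.1 h1
  exact ⟨c', not_not.1 hc', (hd.and ((Λ.lk b c c').1 (not_not.1 hc'))).mono fun k e =>
    (K k).fn e.1 e.2⟩

theorem nx (h : Λ.C.Nx b e e') : ∀ᶠ k in U, (K k).Nx b (Λ.rc e k) (Λ.rc e' k) := by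
  obtain ⟨h1, f, l, f0, hf, hl, rfl⟩ := h
  refine ((end_iff.1 h1).and ((ch hf).and (end_iff.1 hl))).mono fun k e => ?_
  exact ⟨Λ.rc_fc b _ k ▸ e.1, fun i => Λ.rc (f i) k, l, by rw [← rc_fc, ← f0], e.2.1, e.2.2,
    Λ.rc_nr b _ k⟩

theorem sd (h : Λ.C.Sd b f l) : ∀ᶠ k in U, (K k).Sd b (fun i => Λ.rc (f i) k) l :=
  h14_fw (R' := fun k => (K k).Nx b) (fun _ _ => nx) h

theorem sd_back (hn : ∀ e, Λ.C.End b (fc b e) → ∃ e', Λ.C.Nx b e e')
    {g' : ℕ → ℕ → Tile × ZMod n} (h : ∀ᶠ k in U, g' k 0 = Λ.rc e k ∧ (K k).Sd b (g' k) l) :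
    ∃ g, g 0 = e ∧ Λ.C.Sd b g l ∧ ∀ᶠ k in U, ∀ i ≤ l, g' k i = Λ.rc (g i) k := by
  refine h14_back (R' := fun k => (K k).Nx b) (fun c d hd => ?_) h
  obtain ⟨c', hc'⟩ := hn c (end_iff.2 (hd.mono fun k e => (Λ.rc_fc b c k).symm ▸ e.1))
  exact ⟨c', hc', (hd.and (nx hc')).mono fun k e => e.1.fn e.2⟩

theorem walk {w : List (Stp n)} {a a' : Λ.X} (h : Λ.C.Walk w a a') :
    ∀ᶠ k in U, (K k).Walk w (Λ.re a k) (Λ.re a' k) := by
  induction w generalizing a with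
  | nil => exact Eventually.of_forall fun k => congrArg (fun z => Λ.re z k) h
  | cons st w ih =>
    obtain ⟨y, h1, h2, h3⟩ := h
    exact (((Λ.lk _ _ _).1 h1).and ((Λ.kd y).and (ih h3))).mono fun k e =>
      ⟨_, e.1, e.2.1.trans h2, e.2.2⟩

theorem near (a : Λ.X) : ∃ r, ∀ᶠ k in U, (K k).Near (x k) r (Λ.re a k) := by
  obtain ⟨w, hw⟩ := Λ.reach a
  exact ⟨w.length, (Λ.re0.and (walk hw)).mono fun k e => ⟨w, le_rfl, e.1 ▸ e.2⟩⟩

end Lim

end Pool.Agent.Ng
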