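import Pool.Agent.P.MP_6145c0_co.Ng.Star

/-! The two sides of a link in a patch. -/

open Set Real

namespace Pool.Agent.Ng.Patch

variable {n : ℕ} {T : Proto n} {K : ℕ} (P : Patch T K)

/-- The side `g'` starts at the link `a → a'`, ends with a link to `c` and lies in layer `d`. -/
structure Short (d : ℕ) (b : Bool) (a a' c : Tile × ZMod n) (g' : ℕ → Tile × ZMod n) (l' : ℕ) :
    Prop where
  lk : P.cx.L b a a'
  g0 : g' 0 = nr b a'
  sd : P.cx.Sd b g' l'
  en : P.cx.L b (fc b (g' l')) c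
  lay : ∀ i ≤ l', (g' i).1 ∈ P.lay d
  dp : d + 2 ≤ K

variable {P} [NeZero n] {d : ℕ} {b : Bool} {a a' c : Tile × ZMod n} {g g' : ℕ → Tile × ZMod n}
  {l l' : ℕ}

theorem sd_row (h : P.cx.Sd b g l) (hd : d < K) (hl : ∀ i < l, (g i).1 ∈ P.lay d) :
    Seq (T.Cont b) g l := by
  intro i hi
  have hx := hl i hi
  exact P.geo.nx_cont (h i hi) (half_of_end (by simpa using P.sub _ hx)
    (deep hd hx (by simpa using T.pt_mem (fc b (g i)))) (h i hi).1)

theorem Short.row (h : P.Short d b a a' c g' l') : Seq (T.Cont b) g' l' :=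
  sd_row h.sd (by linarith [h.dp]) fun i hi => h.lay i hi.le

omit [NeZero n] in
theorem Short.h78_d0 (h : P.Short d b a a' c g' l') : T.dirn b (g' 0) = T.ray (!b) a := by
  rw [h.g0, T.dirn_nr]; exact h.lk.2.2.2

omit [NeZero n] in
theorem Short.h78_p0 (h : P.Short d b a a' c g' l') : T.pt (fc (!b) (g' 0)) = T.pt a := by
  rw [h.g0, fc_nr]; exact h.lk.2.2.1

theorem Short.h78_dirn (h : P.Short d b a a' c g' l') {i : ℕ} (hi : i ≤ l') :
    T.dirn b (g' i) = T.ray (!b) a := (Proto.row_dirn h.row hi).trans h.h78_d0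

theorem Short.h78_near (h : P.Short d b a a' c g' l') {i : ℕ} (hi : i ≤ l') :
    T.pt (fc (!b) (g' i)) = T.pt a + T.slen g' i * T.ray (!b) a := by
  rw [Proto.row_near h.row hi, h.h78_d0, h.h78_p0]

theorem Short.h78_far (h : P.Short d b a a' c g' l') {i : ℕ} (hi : i ≤ l') :
    T.pt (fc b (g' i)) = T.pt a + T.slen g' (i + 1) * T.ray (!b) a := by
  rw [Proto.row_far h.row hi, h.h78_d0, h.h78_p0]

theorem Short.h78_mem (h : P.Short d b a a' c g' l') {i : ℕ} (hi : i ≤ l') {s : ℝ}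
    (h0 : T.slen g' i ≤ s) (h1 : s ≤ T.slen g' (i + 1)) :
    T.pt a + s * T.ray (!b) a ∈ T.edge (g' i) :=
  (Proto.row_mem h.row hi _).2 ⟨s, h0, h1, by rw [h.h78_d0, h.h78_p0]⟩

theorem Short.h78_omem (h : P.Short d b a a' c g' l') {i : ℕ} (hi : i ≤ l') {s : ℝ}
    (h0 : T.slen g' i < s) (h1 : s < T.slen g' (i + 1)) :
    T.pt a + s * T.ray (!b) a ∈ T.oedge (g' i) :=
  (Proto.row_omem h.row hi _).2 ⟨s, h0, h1, by rw [h.h78_d0, h.h78_p0]⟩

theorem Short.h78_pc (h : P.Short d b a a' c g' l') :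
    T.pt c = T.pt a + T.slen g' (l' + 1) * T.ray (!b) a := h.en.2.2.1.trans (h.h78_far le_rfl)

theorem Short.h78_rc (h : P.Short d b a a' c g' l') : T.ray b c = -T.ray (!b) a := by
  rw [h.en.2.2.2, T.ray_fc, h.h78_dirn le_rfl]

omit [NeZero n] in
theorem h78_wedge (b : Bool) (c : Tile × ZMod n) : T.Wedge c.1 (T.pt c) (T.ray b c) b := by
  simpa using T.wedge_corner b c le_rfl (T.ang_pos c)

omit [NeZero n] in
theorem h78_ne {e c : Tile × ZMod n} (h : c.1 = e.1) (hz : T.pt c ∈ T.oedge e) : False := by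
  obtain ⟨x, i⟩ := e
  obtain ⟨y, j⟩ := c
  obtain rfl : y = x := h
  exact T.oedge_ne_pt hz rfl

/-- One dart of the other side that starts along the short side ends along it. -/
theorem Short.dart (h : P.Short d b a a' c g' l') {e : Tile × ZMod n} (he : e.1 ∈ P.all) {s : ℝ}
    (h0 : 0 ≤ s) (h1 : s < T.slen g' (l' + 1)) (hp : T.pt (fc b e) = T.pt a + s * T.ray (!b) a)
    (hd : T.dirn (!b) e = T.ray (!b) a) :
    e.1 ∈ P.lay (d + 1) ∧ s + T.len e ≤ T.slen g' (l' + 1) ∧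
      (s + T.len e = T.slen g' (l' + 1) → fc (!b) e = c) ∧
      (s + T.len e < T.slen g' (l' + 1) → P.cx.End (!b) (fc (!b) e)) := by
  have hK : d < K := by linarith [h.dp]
  have hle := T.len_pos e
  have hfar : T.pt (fc (!b) e) = T.pt a + ((s + T.len e : ℝ) : ℂ) * T.ray (!b) a := by
    rw [T.pt_fc (!b) e, Bool.not_not, hp, hd]; push_cast; ring
  have hray : T.ray b (fc (!b) e) = -T.ray (!b) a := by
    have := T.ray_fc (!b) e
    rwa [Bool.not_not, hd] at this
  have hdb : T.dirn b e = -T.ray (!b) a := by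
    have := T.dirn_not (!b) e
    rwa [Bool.not_not, hd] at this
  refine ⟨?_, ?_, fun hs => ?_, fun hs c' hc' => ?_⟩
  · obtain ⟨i, hi, k0, k1⟩ := T.slen_index g' h0 h1
    refine touch hK (h.lay i hi) he (T.edge_subset _ (h.h78_mem hi k0 k1.le)) ?_
    rw [← hp]
    simpa using T.pt_mem (fc b e)
  · by_contra hs
    have hz : T.pt c ∈ T.oedge e := by
      refine (T.mem_oedge (!b) e _).2 ⟨T.slen g' (l' + 1) - s, by linarith, by linarith, ?_⟩
      rw [Bool.not_not, hp, hd, h.h78_pc]; push_cast; ring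
    have w1 : T.Wedge e.1 (T.pt c) (T.ray b c) b := by
      have := T.wedge_flat b e hz le_rfl pi_pos
      rw [hdb, ← h.h78_rc] at this
      simpa using this
    exact h78_ne (P.eq_of_wedge h.en.2.1 he (h78_wedge b c) w1) hz
  · refine P.corner_eq (b := b) (by simpa using he) h.en.2.1 ?_ ?_
    · rw [hfar, hs, h.h78_pc]
    · rw [hray, h.h78_rc]
  · obtain ⟨i, hi, k0, k1⟩ := T.slen_index' g' (show 0 < s + T.len e by linarith) hs.le
    have q1 : T.pt c' = T.pt a + ((s + T.len e : ℝ) : ℂ) * T.ray (!b) a := hc'.2.2.1.trans hfar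
    have q2 : T.ray (!b) c' = -T.ray (!b) a := by
      have := hc'.2.2.2
      rwa [Bool.not_not, hray] at this
    have hall : (g' i).1 ∈ P.all := P.sub _ (h.lay i hi)
    rcases k1.lt_or_eq with k1 | k1
    · have hz : T.pt c' ∈ T.oedge (g' i) := q1 ▸ h.h78_omem hi k0 k1
      have w1 : T.Wedge (g' i).1 (T.pt c') (T.ray (!b) c') (!b) := by
        have := T.wedge_flat (!b) (g' i) hz le_rfl pi_pos
        rw [T.dirn_not, h.h78_dirn hi, ← q2] at this
        simpa using this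
      exact h78_ne (P.eq_of_wedge hc'.2.1 hall (h78_wedge (!b) c') w1) hz
    · have e1 : c' = fc b (g' i) := by
        refine P.corner_eq (b := !b) hc'.2.1 (by simpa using hall) ?_ ?_
        · rw [q1, k1, h.h78_far hi]
        · rw [q2, T.ray_fc, h.h78_dirn hi]
      have hil : i < l' := by
        rw [k1] at hs
        have := (T.slen_mono g').lt_iff_lt.1 hs
        omega
      exact (h.sd i hil).1 _ (e1 ▸ Cx.inv' hc')

omit [NeZero n] in
theorem h78_pos (h0 : g 0 = nr (!b) a) (hr : Seq (T.Cont (!b)) g l) :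
    T.pt (fc b (g l)) = T.pt a + T.slen g l * T.ray (!b) a ∧
      T.dirn (!b) (g l) = T.ray (!b) a := by
  have e1 : T.dirn (!b) (g 0) = T.ray (!b) a := by rw [h0, T.dirn_nr]
  refine ⟨?_, (Proto.row_dirn hr le_rfl).trans e1⟩
  have := Proto.row_near hr le_rfl
  rwa [Bool.not_not, e1, h0, fc_nr'] at this

theorem Short.h78_long (h : P.Short d b a a' c g' l') (h0 : g 0 = nr (!b) a) (l : ℕ)
    (hg : P.cx.Sd (!b) g l) :
    Seq (T.Cont (!b)) g l ∧ T.slen g l < T.slen g' (l' + 1) ∧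
      ∀ i ≤ l, (g i).1 ∈ P.lay (d + 1) := by
  induction l with
  | zero =>
    have hr := Seq.zero (T.Cont (!b)) g
    have hs : T.slen g 0 < T.slen g' (l' + 1) := T.slen_mono g' (Nat.succ_pos l')
    refine ⟨hr, hs, fun i hi => ?_⟩
    obtain rfl : i = 0 := by omega
    exact (h.dart (by rw [h0, nr_fst]; exact h.lk.1) (T.slen_nonneg g 0) hs (h78_pos h0 hr).1
      (h78_pos h0 hr).2).1
  | succ l ih =>
    obtain ⟨hr, hs, hl⟩ := ih (Seq.mono hg (Nat.le_succ l))
    have hr' : Seq (T.Cont (!b)) g (l + 1) :=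
      sd_row hg (show d + 1 < K by linarith [h.dp]) fun i hi => hl i (by omega)
    have hall : (g l).1 ∈ P.all := P.sub _ (hl l le_rfl)
    obtain ⟨-, k1, k2, -⟩ := h.dart hall (T.slen_nonneg g l) hs (h78_pos h0 hr).1 (h78_pos h0 hr).2
    have hn := hg l (Nat.lt_succ_self l)
    have hs' : T.slen g (l + 1) < T.slen g' (l' + 1) := by
      rw [T.slen_succ]
      refine lt_of_le_of_ne k1 fun e => ?_
      exact hn.1 _ (k2 e ▸ P.cx.inv h.en)
    refine ⟨hr', hs', fun i hi => ?_⟩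
    rcases hi.lt_or_eq with hi | rfl
    · exact hl i (by omega)
    · exact (h.dart (nx_all hall hn) (T.slen_nonneg g _) hs' (h78_pos h0 hr').1
        (h78_pos h0 hr').2).1

/-- Every dart of the other side lies along the short side. -/
theorem Short.long (h : P.Short d b a a' c g' l') (h0 : g 0 = nr (!b) a)
    (hg : P.cx.Sd (!b) g l) :
    Seq (T.Cont (!b)) g l ∧ T.slen g l < T.slen g' (l' + 1) ∧ (g l).1 ∈ P.lay (d + 1) := by
  obtain ⟨h1, h2, h3⟩ := h.h78_long h0 l hg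
  exact ⟨h1, h2, h3 l le_rfl⟩

/-- The other side ends at the same link. -/
theorem Short.other (h : P.Short d b a a' c g' l') :
    ∃ g l, g 0 = nr (!b) a ∧ P.cx.Sd (!b) g l ∧ fc (!b) (g l) = c := by
  by_contra hn
  have k : ∀ l, ∃ g, g 0 = nr (!b) a ∧ P.cx.Sd (!b) g l := by
    intro l
    induction l with
    | zero => exact ⟨fun _ => nr (!b) a, rfl, Seq.zero _ _⟩
    | succ l ih =>
      obtain ⟨g, g0, hg⟩ := ih
      obtain ⟨hr, hs, hl⟩ := h.long g0 hg
      have hall : (g l).1 ∈ P.all := P.sub _ hl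
      obtain ⟨-, k1, k2, k3⟩ :=
        h.dart hall (T.slen_nonneg g l) hs (h78_pos g0 hr).1 (h78_pos g0 hr).2
      have he := k3 (lt_of_le_of_ne k1 fun e => hn ⟨g, l, g0, hg, k2 e⟩)
      obtain ⟨e', he'⟩ := Cx.Half.exists_nx (half_of_end (by simpa using hall)
        (deep (show d + 1 < K by linarith [h.dp]) hl
          (by simpa using T.pt_mem (fc (!b) (g l)))) he) he
      obtain ⟨f, f1, -, f3⟩ := Seq.snoc hg he'
      exact ⟨f, (f1 0 (Nat.zero_le _)).trans g0, f3⟩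
  have hr : 0 < 2 * T.r1 := by linarith [T.r1_pos]
  obtain ⟨l, hl⟩ := exists_nat_gt (T.slen g' (l' + 1) / (2 * T.r1))
  obtain ⟨g, g0, hg⟩ := k l
  rw [div_lt_iff₀ hr] at hl
  linarith [T.le_slen g l, (h.long g0 hg).2.1]

/-- The near end of a dart of the other side lies on a wall of the short side. -/
theorem Short.wall (h : P.Short d b a a' c g' l') (h0 : g 0 = nr (!b) a)
    (hg : P.cx.Sd (!b) g l) :
    T.pt (fc b (g l)) = T.pt a + T.slen g l * T.ray (!b) a ∧
      T.ray (!b) (fc b (g l)) = T.ray (!b) a ∧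
      ∃ i ≤ l', T.Tch (g' i) (fc b (g l)) (!b) ∧ (g' i).1 ≠ (g l).1 := by
  obtain ⟨hr, hs, -⟩ := h.long h0 hg
  obtain ⟨p1, p2⟩ := h78_pos h0 hr
  have p3 : T.ray (!b) (fc b (g l)) = T.ray (!b) a := by
    rw [← p2, Proto.dirn, Bool.not_not]
  obtain ⟨i, hi, k0, k1⟩ := T.slen_index g' (T.slen_nonneg g l) hs
  have ht : T.Tch (g' i) (fc b (g l)) (!b) := by
    refine T.tch_of_pos (s := T.slen g l - T.slen g' i) (by linarith)
      (by linarith [T.slen_succ g' i]) ?_ ?_
    · rw [Bool.not_not, p1, h.h78_near hi, h.h78_dirn hi]; push_cast; ring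
    · rw [Bool.not_not, p3, h.h78_dirn hi]
  refine ⟨p1, p3, i, hi, ht, fun e => ?_⟩
  obtain ⟨z, ⟨z1, z2⟩, -⟩ := ht.2 1 one_pos
  rw [nr_fc'] at z2
  have e2 : (g l).2 = (g' i).2 :=
    T.oedge_unique (x := (g' i).1) z1 (by rw [e]; exact T.oedge_subset _ z2)
  have e3 : g l = g' i := Prod.ext e.symm e2
  rw [e3, T.dirn_not, h.h78_dirn hi] at p2
  have e4 : -((T.ray (!b) a : Circle) : ℂ) = T.ray (!b) a := by
    simpa using congrArg (fun u : Circle => (u : ℂ)) p2
  exact Circle.coe_ne_zero _ (neg_eq_self.1 e4)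

end Pool.Agent.Ng.Patch
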