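import Pool.Agent.P.MP_6145c0_co.Ng.LimA
import Pool.Agent.P.MP_6145c0_co.Ng.Side

/-! Bad roots. At a good root the limit complex has finite stars and matching sides. -/

open Set Filter Real

namespace Pool.Agent.Ng

variable {n : ℕ}

namespace Patch

variable {T : Proto n} {K : ℕ} (P : Patch T K)

/-- Within `r` links of `x` there is a corner off `Sg` with `M` new corners after it. -/
def BadFan (Sg : Set ℂ) (x : Tile) (r M : ℕ) : Prop :=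
  ∃ b f, P.cx.Near x r (f 0).1 ∧ T.pt (f 0) ∉ Sg ∧ P.cx.Ch b f M ∧ ∀ i, 0 < i → i ≤ M → f i ≠ f 0

/-- Within `r` links of `x` there is a side that ends, and the other side has `M` more darts. -/
def BadRun (x : Tile) (r M : ℕ) : Prop :=
  ∃ b a a' c g' l' g, P.cx.L b a a' ∧ g' 0 = nr b a' ∧ P.cx.Sd b g' l' ∧
    P.cx.L b (fc b (g' l')) c ∧ (∀ i ≤ l', P.cx.Near x r (g' i).1) ∧
    g 0 = nr (!b) a ∧ P.cx.Sd (!b) g M

/-- Within `r` links of `x` there is a corner on `Sg` with a missing link. -/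
def BadEnd (Sg : Set ℂ) (x : Tile) (r : ℕ) : Prop :=
  ∃ b c, P.cx.Near x r c.1 ∧ T.pt c ∈ Sg ∧ P.cx.End b c

variable {P} {Sg : Set ℂ} {x : Tile} {r M : ℕ} {c : Tile × ZMod n}

theorem fan_lt_h47 (hb : ¬P.BadFan Sg x r M) {b : Bool} {f : ℕ → Tile × ZMod n} {l : ℕ}
    (hn : P.cx.Near x r (f 0).1) (hs : T.pt (f 0) ∉ Sg) (hf : P.cx.Ch b f l)
    (hr : ∀ i, 0 < i → i ≤ l → f i ≠ f 0) : l ≤ M := by
  by_contra hl
  exact hb ⟨b, f, hn, hs, Seq.mono hf (by omega), fun i h0 hi => hr i h0 (by omega)⟩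

theorem star_h47 [NeZero n] (hb : ¬P.BadFan Sg x r M) (hn : P.cx.Near x r c.1)
    (hs : T.pt c ∉ Sg) (hc : c.1 ∈ P.all) (hd : P.Deep (T.pt c)) :
    (∃ l ≤ M, ∃ f, f 0 = c ∧ P.cx.CycF (T.an id) f l) ∨
      ∃ l ≤ M + M, ∃ j ≤ l, ∃ f, f j = c ∧ P.cx.HalfF (T.an id) true f l := by
  rcases P.star hc hd with ⟨f, l, rfl, hf⟩ | ⟨f, l, j, hj, rfl, hf⟩
  · refine .inl ⟨l, fan_lt_h47 hb hn hs hf.1 fun i h0 hi => P.geo.no_return hf.1 h0 hi ?_,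
      f, rfl, hf⟩
    rw [← hf.2.2]
    exact T.asum_mono id f (by omega)
  · have c1 : P.cx.Ch true (fun i => f (j + i)) (l - j) := Seq.shift hf.1 j
    have c2 : P.cx.Ch false (fun i => f (j - i)) j := Cx.Ch.rev (Seq.mono hf.1 hj)
    have e1 : P.cx.End true (f (j + (l - j))) := by
      rw [show j + (l - j) = l by omega]
      exact hf.2.2.1
    have e2 : P.cx.End false (f (j - j)) := by
      rw [Nat.sub_self]
      exact hf.2.1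
    have k1 : l - j ≤ M := fan_lt_h47 hb (f := fun i => f (j + i)) hn hs c1 fun i h0 hi =>
      Seq.no_return (R := P.cx.L true) (fun _ _ _ => P.cx.fn) c1 e1 h0 hi
    have k2 : j ≤ M := fan_lt_h47 hb (f := fun i => f (j - i)) hn hs c2 fun i h0 hi =>
      Seq.no_return (R := P.cx.L false) (fun _ _ _ => P.cx.fn) c2 e2 h0 hi
    exact .inr ⟨l, by omega, j, hj, f, rfl, hf⟩

end Patch

theorem asum_eq_h47 {X : Type} (a : X × ZMod n → ℝ) {f g : ℕ → X × ZMod n} {l : ℕ}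
    (h : ∀ i ≤ l, f i = g i) : asum a g (l + 1) = asum a f (l + 1) :=
  Finset.sum_congr rfl fun i hi => by rw [h i (Nat.lt_succ_iff.1 (Finset.mem_range.1 hi))]

theorem asum_const_h47 {X : Type} (t : ℝ) (f : ℕ → X × ZMod n) (l : ℕ) :
    asum (fun _ => t / ((l : ℝ) + 1)) f (l + 1) = t := by
  have h : (l : ℝ) + 1 ≠ 0 := by positivity
  rw [asum, Finset.sum_const, Finset.card_range, nsmul_eq_mul]
  push_cast
  field_simp

theorem Lim.near_all_h47 {K : ℕ → Cx n Tile} {x : ℕ → Tile} (Λ : Lim K x) (g : ℕ → Λ.X)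
    (l : ℕ) : ∃ r, ∀ᶠ k in U, ∀ i ≤ l, (K k).Near (x k) r (Λ.re (g i) k) := by
  induction l with
  | zero =>
    obtain ⟨r, hr⟩ := Lim.near (g 0)
    refine ⟨r, hr.mono fun k hk i hi => ?_⟩
    obtain rfl : i = 0 := by omega
    exact hk
  | succ l ih =>
    obtain ⟨r, hr⟩ := ih
    obtain ⟨r', hr'⟩ := Lim.near (g (l + 1))
    refine ⟨r + r', ?_⟩
    filter_upwards [hr, hr'] with k h1 h2 i hi
    by_cases e : i ≤ l
    · exact (h1 i e).mono (by omega)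
    · obtain rfl : i = l + 1 := by omega
      exact h2.mono (by omega)

/-- A root of bounded depth that is not bad. -/
structure Good (T : ℕ → Proto n) (P : ∀ k, Patch (T k) k) (Sg : ℕ → Set ℂ) (x : ℕ → Tile) :
    Prop where
  sg : ∀ k, (Sg k).Subsingleton
  dp : ∃ d, ∀ᶠ k in U, x k ∈ (P k).lay d
  nb : ∀ r, ∃ M, ∀ᶠ k in U,
    ¬(P k).BadFan (Sg k) (x k) r M ∧ ¬(P k).BadRun (x k) r M ∧ ¬(P k).BadEnd (Sg k) (x k) r

namespace Good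

variable [NeZero n] {T : ℕ → Proto n} {P : ∀ k, Patch (T k) k} {Sg : ℕ → Set ℂ} {x : ℕ → Tile}
  (G : Good T P Sg x) (Λ : Lim (fun k => (P k).cx) x)
include G

theorem lay (a : Λ.X) : ∃ d, ∀ᶠ k in U, Λ.re a k ∈ (P k).lay d := by
  obtain ⟨d, hd⟩ := G.dp
  obtain ⟨r, hr⟩ := Lim.near a
  refine ⟨d + r, ?_⟩
  filter_upwards [hd, hr, U_ge (d + r)] with k h1 h2 h3
  exact Patch.near_lay h3 h1 h2

theorem star (c : Λ.X × ZMod n) :
    (∃ f l, f 0 = c ∧ Λ.C.Ch true f l ∧ Λ.C.L true (f l) (f 0) ∧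
      ∀ᶠ k in U, asum ((T k).an id) (fun i => Λ.rc (f i) k) (l + 1) = 2 * π) ∨
    (∃ f l j, j ≤ l ∧ f j = c ∧ Λ.C.Ch true f l ∧ Λ.C.End false (f 0) ∧ Λ.C.End true (f l) ∧
      ∀ᶠ k in U, asum ((T k).an id) (fun i => Λ.rc (f i) k) (l + 1) = π) ∨
    ((∀ᶠ k in U, (T k).pt (Λ.rc c k) ∈ Sg k) ∧ ∀ b, ¬Λ.C.End b c) := by
  obtain ⟨r, hr⟩ := Lim.near c.1
  obtain ⟨M, hM⟩ := G.nb r
  obtain ⟨d, hd⟩ := G.lay Λ c.1
  by_cases hS : ∀ᶠ k in U, (T k).pt (Λ.rc c k) ∈ Sg k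
  · refine .inr (.inr ⟨hS, fun b hb => ?_⟩)
    obtain ⟨k, h1, h2, h3, h4⟩ := (hM.and (hr.and (hS.and (Lim.end_iff.1 hb)))).exists
    exact h1.2.2 ⟨b, Λ.rc c k, h2, h3, h4⟩
  have key : ∀ᶠ k in U, (∃ l ≤ M, ∃ f, f 0 = Λ.rc c k ∧ (P k).cx.CycF ((T k).an id) f l) ∨
      ∃ l ≤ M + M, ∃ j ≤ l, ∃ f, f j = Λ.rc c k ∧ (P k).cx.HalfF ((T k).an id) true f l := by
    filter_upwards [hM, hr, hd, U_not.2 hS, U_ge (d + 1)] with k h1 h2 h3 h4 h5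
    exact Patch.star_h47 h1.1 h2 h4 ((P k).sub _ h3) (Patch.deep h5 h3 ((T k).pt_mem (Λ.rc c k)))
  rcases U_or.1 key with h | h
  · obtain ⟨l, -, h⟩ := U_le_nat h
    obtain ⟨f', h⟩ := h.choice
    obtain ⟨f, f0, hf, e⟩ := Lim.ch_back (Λ := Λ) (c := c) (b := true) (l := l) (f' := f')
      (h.mono fun k hk => ⟨hk.1, hk.2.1⟩)
    refine .inl ⟨f, l, f0, hf, (Λ.lk _ _ _).2 ?_, ?_⟩
    · filter_upwards [h, e] with k h1 h2
      have h3 := h1.2.2.1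
      rw [h2 l le_rfl, h2 0 (Nat.zero_le _)] at h3
      exact h3
    · filter_upwards [h, e] with k h1 h2
      rw [asum_eq_h47 _ h2]
      exact h1.2.2.2
  · obtain ⟨l, -, h⟩ := U_le_nat h
    obtain ⟨j, hj, h⟩ := U_le_nat h
    obtain ⟨f', h⟩ := h.choice
    obtain ⟨g, -, -, e⟩ := Lim.ch_back (Λ := Λ) (c := c) (b := false) (l := j)
      (f' := fun k i => f' k (j - i))
      (h.mono fun k hk => ⟨hk.1, Cx.Ch.rev (b := true) (Seq.mono hk.2.1 hj)⟩)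
    obtain ⟨f, -, hf, e'⟩ := Lim.ch_back (Λ := Λ) (c := g j) (b := true) (l := l) (f' := f') (by
      filter_upwards [h, e] with k h1 h2
      exact ⟨by simpa using h2 j le_rfl, h1.2.1⟩)
    refine .inr (.inl ⟨f, l, j, hj, Lim.rc_inj ?_, hf, Lim.end_iff.2 ?_, Lim.end_iff.2 ?_, ?_⟩)
    · filter_upwards [h, e'] with k h1 h2
      rw [← h2 j hj, h1.1]
    · filter_upwards [h, e'] with k h1 h2
      rw [← h2 0 (Nat.zero_le _)]
      exact h1.2.2.1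
    · filter_upwards [h, e'] with k h1 h2
      rw [← h2 l le_rfl]
      exact h1.2.2.2.1
    · filter_upwards [h, e'] with k h1 h2
      rw [asum_eq_h47 _ h2]
      exact h1.2.2.2.2

theorem exists_nx {b : Bool} (e : Λ.X × ZMod n) (h : Λ.C.End b (fc b e)) :
    ∃ e', Λ.C.Nx b e e' := by
  rcases G.star Λ (fc b e) with ⟨f, l, f0, h1, h2, -⟩ | ⟨f, l, j, hj, f0, h1, h2, h3, -⟩ | ⟨-, h1⟩
  · have h3 : Λ.C.CycF (fun _ => 2 * π / ((l : ℝ) + 1)) f l := ⟨h1, h2, asum_const_h47 _ f l⟩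
    obtain ⟨j, -, h4⟩ := h3.not_end (Nat.zero_le l) b
    exact absurd (f0 ▸ h4) (h _)
  · have h4 : Λ.C.Half (fun _ => π / ((l : ℝ) + 1)) (fc b e) :=
      ⟨f, l, j, hj, f0, h1, h2, h3, asum_const_h47 _ f l⟩
    exact h4.exists_nx h
  · exact absurd h (h1 b)

theorem mat : Λ.C.Match := by
  intro b a a' g' l' c hl g0 hg hc
  obtain ⟨d, hd⟩ := G.dp
  obtain ⟨r, hr⟩ := Λ.near_all_h47 (fun i => (g' i).1) l'
  obtain ⟨M, hM⟩ := G.nb r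
  have key : ∀ᶠ k in U, ∃ l ≤ M, ∃ g : ℕ → Tile × ZMod n, g 0 = Λ.rc (nr (!b) a) k ∧
      (P k).cx.Sd (!b) g l ∧ fc (!b) (g l) = Λ.rc c k := by
    filter_upwards [hd, hr, hM, U_ge (d + r + 2), (Λ.lk _ _ _).1 hl, (Λ.lk _ _ _).1 hc,
      Lim.sd hg] with k h1 h2 h3 h4 h5 h6 h7
    have s0 : Λ.rc (g' 0) k = nr b (Λ.rc a' k) := by rw [g0, Λ.rc_nr]
    have s1 : (P k).cx.L b (fc b (Λ.rc (g' l') k)) (Λ.rc c k) := by
      rw [← Λ.rc_fc]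
      exact h6
    have S : (P k).Short (d + r) b (Λ.rc a k) (Λ.rc a' k) (Λ.rc c k) (fun i => Λ.rc (g' i) k) l' :=
      ⟨h5, s0, h7, s1, fun i hi => Patch.near_lay (by omega) h1 (h2 i hi), h4⟩
    obtain ⟨g, l, e0, e1, e2⟩ := S.other
    refine ⟨l, ?_, g, by rw [e0, Λ.rc_nr], e1, e2⟩
    by_contra hM'
    exact h3.2.1 ⟨b, Λ.rc a k, Λ.rc a' k, Λ.rc c k, fun i => Λ.rc (g' i) k, l', g, h5, s0, h7, s1,
      h2, e0, Seq.mono e1 (by omega)⟩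
  obtain ⟨l, -, h⟩ := U_le_nat key
  obtain ⟨g1, h⟩ := h.choice
  obtain ⟨g, e0, e1, e⟩ := Lim.sd_back (Λ := Λ) (b := !b) (e := nr (!b) a) (l := l) (g' := g1)
    (fun e he => G.exists_nx Λ e he) (h.mono fun k hk => ⟨hk.1, hk.2.1⟩)
  refine ⟨g, l, e0, e1, Lim.rc_inj ?_⟩
  filter_upwards [h, e] with k h1 h2
  rw [Λ.rc_fc, ← h2 l le_rfl, h1.2.2]

end Good

end Pool.Agent.Ng
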