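import Pool.Agent.P.MP_6145c0_co.Ng.LimB
import Pool.Agent.P.MP_6145c0_co.Ng.Alg
import Pool.Agent.P.MP_6145c0_co.Ng.ChartB

/-! The limit complex is realised by almost every prototile, which then tiles the plane. -/

open Set Filter Real

namespace Pool.Agent.Ng.Good

variable {n : ℕ} [NeZero n] {T : ℕ → Proto n} {P : ∀ k, Patch (T k) k} {Sg : ℕ → Set ℂ}
  {x : ℕ → Tile}

/-- Placements relative to the root are integer polynomials in the data. -/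
theorem exists_place (Λ : Lim (fun k => (P k).cx) x) : ∃ g : Λ.X → ℕ → Mot,
    ∀ a, AlgM T (g a) ∧ ∀ᶠ k in U, Λ.re a k = (Λ.C.kd a, (x k).2 * g a k) := by
  choose w hw using Λ.reach
  refine ⟨fun a k => (T k).Kw (Λ.C.kd Λ.x0) (w a), fun a => ⟨algM_Kw _ _, ?_⟩⟩
  filter_upwards [Lim.walk (hw a), Λ.re0, Λ.kd Λ.x0, Λ.kd a] with k h1 h2 h3 h4
  have h5 := congrArg Prod.snd ((P k).geo.walk_eq h1)
  have h6 : (Λ.re Λ.x0 k).1 = Λ.C.kd Λ.x0 := h3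
  refine Prod.ext h4 ?_
  show (Λ.re a k).2 = (x k).2 * (T k).Kw (Λ.C.kd Λ.x0) (w a)
  rw [← h6, ← h2]
  exact h5

theorem exists_fc (G : Good T P Sg x) : ∀ᶠ k in U, Nonempty (FC (T k)) := by
  obtain ⟨Λ⟩ := exists_lim (fun k => (P k).cx) x
  obtain ⟨g, hg⟩ := exists_place Λ
  filter_upwards [alg_all T U] with k hk
  obtain ⟨pl, hpl⟩ : ∃ pl : Λ.X → Tile, pl = fun a => (Λ.C.kd a, g a k) := ⟨_, rfl⟩
  have hpt : ∀ c c' : Λ.X × ZMod n, (∀ᶠ j in U, (T j).pt (Λ.rc c' j) = (T j).pt (Λ.rc c j)) →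
      (T k).pt (pc pl c') = (T k).pt (pc pl c) := by
    intro c c' h
    subst hpl
    refine hk _ _ ((hg c'.1).1.pt (Λ.C.kd c'.1) c'.2) ((hg c.1).1.pt (Λ.C.kd c.1) c.2) ?_
    filter_upwards [h, (hg c.1).2, (hg c'.1).2] with j h1 h2 h3
    rw [Lim.rc, Lim.rc, h2, h3, Proto.pt_mul, Proto.pt_mul] at h1
    exact MulAction.injective _ h1
  have hray : ∀ (b b' : Bool) (c c' : Λ.X × ZMod n),
      (∀ᶠ j in U, (T j).ray b' (Λ.rc c' j) = (T j).ray b (Λ.rc c j)) →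
      (T k).ray b' (pc pl c') = (T k).ray b (pc pl c) := by
    intro b b' c c' h
    subst hpl
    refine Circle.ext (hk _ _ ((hg c'.1).1.ray (Λ.C.kd c'.1) c'.2 b')
      ((hg c.1).1.ray (Λ.C.kd c.1) c.2 b) ?_)
    filter_upwards [h, (hg c.1).2, (hg c'.1).2] with j h1 h2 h3
    rw [Lim.rc, Lim.rc, h2, h3] at h1
    simp only [Proto.ray, Mot.mul_u, mul_assoc] at h1
    exact congrArg (fun u : Circle => (u : ℂ)) (mul_left_cancel h1)
  have hsum : ∀ (f : ℕ → Λ.X × ZMod n) (l : ℕ) (r : ℝ), (Alg T fun _ => (r : ℂ)) →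
      (∀ᶠ j in U, asum ((T j).an id) (fun i => Λ.rc (f i) j) l = r) →
      asum ((T k).an pl) f l = r := by
    intro f l r hr h
    subst hpl
    refine Complex.ofReal_injective
      (hk _ _ (alg_asum (fun i => Λ.C.kd (f i).1) (fun i => (f i).2) l) hr ?_)
    have hall : ∀ᶠ j in U, ∀ i ∈ Finset.range l, (Λ.re (f i).1 j).1 = Λ.C.kd (f i).1 :=
      (Filter.eventually_all_finset _).2 fun i _ => Λ.kd (f i).1
    filter_upwards [h, hall] with j h1 h2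
    rw [← h1]
    refine congrArg _ (Finset.sum_congr rfl fun i hi => ?_)
    rw [← h2 i hi]
    rfl
  have hp : ∃ p : ℂ, ∀ c : Λ.X × ZMod n, (∀ᶠ j in U, (T j).pt (Λ.rc c j) ∈ Sg j) →
      (T k).pt (pc pl c) = p := by
    by_cases h : ∃ c0 : Λ.X × ZMod n, ∀ᶠ j in U, (T j).pt (Λ.rc c0 j) ∈ Sg j
    · obtain ⟨c0, h0⟩ := h
      refine ⟨(T k).pt (pc pl c0), fun c hc => hpt c0 c ?_⟩
      filter_upwards [h0, hc] with j h1 h2 using G.sg j h2 h1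
    · exact ⟨0, fun c hc => absurd ⟨c, hc⟩ h⟩
  obtain ⟨p, hp⟩ := hp
  refine ⟨⟨Λ.X, Λ.C, pl, ⟨fun a => by rw [hpl], fun h => hpt _ _ ?_, fun h => hray _ _ _ _ ?_⟩,
    Λ.x0, p, fun c => ?_, G.mat Λ⟩⟩
  · exact ((Λ.lk _ _ _).1 h).mono fun j hj => hj.2.2.1
  · exact ((Λ.lk _ _ _).1 h).mono fun j hj => hj.2.2.2
  · rcases G.star Λ c with ⟨f, l, h0, h1, h2, h3⟩ | ⟨f, l, j, h0, h1, h2, h3, h4, h5⟩ | ⟨h1, h2⟩
    · exact .inl ⟨f, l, h0, h1, h2, hsum f _ _ alg_two_pi h3⟩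
    · exact .inr (.inl ⟨f, l, j, h0, h1, h2, h3, h4, hsum f _ _ alg_pi h5⟩)
    · exact .inr (.inr ⟨hp c h1, h2⟩)

theorem tiles (G : Good T P Sg x) : ∀ᶠ k in U, Tiles (T k).C :=
  G.exists_fc.mono fun _ ⟨F⟩ => F.tiles

end Pool.Agent.Ng.Good
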