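import Pool.Agent.P.MP_6145c0_co.Ng.Poly

/-! One tile: topology, algebra of corners and darts, the diameter. -/

open Set Real

namespace Pool.Agent.Ng.Proto

variable {n : ℕ} (T : Proto n)

/-- The direction of the dart `e` run in the direction `b`. -/
noncomputable def dirn (b : Bool) (e : Tile × ZMod n) : Circle := T.ray b (fc (!b) e)

theorem dirn_nr (b : Bool) (c : Tile × ZMod n) : T.dirn b (nr b c) = T.ray b c := by
  rw [dirn, fc_nr]

theorem tset_compact (x : Tile) : IsCompact (T.tset x) := by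
  exact (T.T x.1).cpt.image x.2.continuous_act

theorem tset_closed (x : Tile) : IsClosed (T.tset x) := (T.tset_compact x).isClosed

theorem tset_clo (x : Tile) : closure (interior (T.tset x)) = T.tset x := by
  rw [tset, ← Mot.image_interior, ← Mot.image_closure, (T.T x.1).clo]

theorem tset_conn (x : Tile) : IsPreconnected (interior (T.tset x)) := by
  rw [tset, ← Mot.image_interior]
  exact (T.T x.1).conn.image _ x.2.continuous_act.continuousOn

theorem tset_fr (x : Tile) : frontier (T.tset x) = ⋃ i, T.edge (x, i) := by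
  rw [tset, ← Mot.image_frontier, (T.T x.1).fr, image_iUnion]
  exact iUnion_congr fun i => x.2.image_segment _ _

theorem edge_subset (e : Tile × ZMod n) : T.edge e ⊆ T.tset e.1 := by
  refine Subset.trans ?_ (T.tset_closed e.1).frontier_subset
  rw [tset_fr]
  exact subset_iUnion (fun i => T.edge (e.1, i)) e.2

theorem oedge_subset (e : Tile × ZMod n) : T.oedge e ⊆ T.edge e := openSegment_subset_segment _ _ _

theorem pt_mem_edge (b : Bool) (e : Tile × ZMod n) : T.pt (fc b e) ∈ T.edge e := by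
  cases b
  · exact left_mem_segment _ _ _
  · exact right_mem_segment _ _ _

theorem pt_mem (c : Tile × ZMod n) : T.pt c ∈ T.tset c.1 := by
  exact T.edge_subset c (left_mem_segment _ _ _)

theorem not_mem_edge {e : Tile × ZMod n} {z : ℂ} (h : z ∈ interior (T.tset e.1)) :
    z ∉ T.edge e := by
  intro hz
  have h1 : z ∈ frontier (T.tset e.1) := by
    rw [tset_fr]
    exact mem_iUnion.2 ⟨e.2, hz⟩
  exact h1.2 h

theorem int_nonempty (x : Tile) : (interior (T.tset x)).Nonempty := by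
  rw [← closure_nonempty_iff, tset_clo]
  exact ⟨_, T.pt_mem (x, 0)⟩

/-- A tile is a congruent copy of the prototile. -/
theorem tset_congr (x : Tile) : ∃ f : ℂ ≃ᵢ ℂ, T.tset x = f '' T.C := by
  obtain ⟨s, g⟩ := x
  cases s
  · exact ⟨g.iso, rfl⟩
  · refine ⟨Complex.conjLIE.toIsometryEquiv.trans g.iso, ?_⟩
    rw [tset, T.mirror, image_image]
    rfl

/-- A congruent copy of the prototile is a tile. -/
theorem exists_tile (f : ℂ ≃ᵢ ℂ) : ∃ x : Tile, T.tset x = f '' T.C := by
  obtain ⟨a, ha⟩ := linear_isometry_complex f.toRealLinearIsometryEquiv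
  have e : ∀ z, f z = f.toRealLinearIsometryEquiv z + f 0 := fun z => by
    rw [IsometryEquiv.toRealLinearIsometryEquiv_apply, sub_add_cancel]
  rcases ha with ha | ha
  · refine ⟨(false, ⟨a, f 0⟩), image_congr fun z _ => ?_⟩
    rw [e z, ha]
    rfl
  · refine ⟨(true, ⟨a, f 0⟩), ?_⟩
    rw [tset, T.mirror, image_image]
    refine image_congr fun z _ => ?_
    rw [e z, ha]
    rfl

theorem tset_mul (s : Bool) (g h : Mot) :
    T.tset (s, g * h) = (fun z => g • z) '' T.tset (s, h) := by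
  rw [tset, tset, image_image]
  exact image_congr fun z _ => mul_smul _ _ _

theorem pt_mul (s : Bool) (g h : Mot) (i : ZMod n) :
    T.pt ((s, g * h), i) = g • T.pt ((s, h), i) := mul_smul _ _ _

theorem edge_mul (s : Bool) (g h : Mot) (i : ZMod n) :
    T.edge ((s, g * h), i) = (fun z => g • z) '' T.edge ((s, h), i) := by
  rw [edge, edge, Mot.image_segment, pt_mul, pt_mul]

theorem pt_inj {x : Tile} {i j : ZMod n} (h : T.pt (x, i) = T.pt (x, j)) : i = j := by
  exact (T.T x.1).inj (MulAction.injective x.2 h)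

/-- A tile is fixed by its kind and the frame at one corner. -/
theorem tile_eq {c c' : Tile × ZMod n} {b : Bool} (h1 : c.1.1 = c'.1.1) (h2 : c.2 = c'.2)
    (hp : T.pt c = T.pt c') (hr : T.ray b c = T.ray b c') : c = c' := by
  obtain ⟨⟨s, g⟩, i⟩ := c
  obtain ⟨⟨s', g'⟩, i'⟩ := c'
  obtain rfl : s = s' := h1
  obtain rfl : i = i' := h2
  rw [Mot.eq_of g g' _ (mul_right_cancel hr) hp]

theorem ray_not (b : Bool) (c : Tile × ZMod n) :
    T.ray (!b) c = T.ray b c * Circle.exp (sg b * T.ang c) := by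
  have h := (T.T c.1.1).d_ang c.2
  cases b
  · show c.1.2.u * (T.T c.1.1).d c.2 =
      c.1.2.u * -(T.T c.1.1).d (c.2 - 1) * Circle.exp (-1 * (T.T c.1.1).ang c.2)
    rw [← h, mul_assoc, mul_assoc, ← Circle.exp_add, neg_one_mul, add_neg_cancel, Circle.exp_zero,
      mul_one]
  · show c.1.2.u * -(T.T c.1.1).d (c.2 - 1) =
      c.1.2.u * (T.T c.1.1).d c.2 * Circle.exp (1 * (T.T c.1.1).ang c.2)
    rw [← h, one_mul, mul_assoc]

theorem pt_fc (b : Bool) (e : Tile × ZMod n) :
    T.pt (fc b e) = T.pt (fc (!b) e) + T.len e * T.dirn b e := by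
  have h : T.pt (e.1, e.2 + 1) = T.pt e + T.len e * (e.1.2.u * (T.T e.1.1).d e.2 : Circle) := by
    rw [pt, pt, (T.T _).v_succ, Mot.smul_add, len, Circle.coe_mul]
    ring
  cases b
  · show T.pt e = T.pt (e.1, e.2 + 1) +
      T.len e * (e.1.2.u * -(T.T e.1.1).d (e.2 + 1 - 1) : Circle)
    rw [h, add_sub_cancel_right, mul_neg, Circle.coe_neg]
    ring
  · exact h

theorem ray_fc (b : Bool) (e : Tile × ZMod n) : T.ray (!b) (fc b e) = -T.dirn b e := by
  cases b
  · show e.1.2.u * (T.T e.1.1).d e.2 = -(e.1.2.u * -(T.T e.1.1).d (e.2 + 1 - 1))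
    rw [add_sub_cancel_right, mul_neg, neg_neg]
  · show e.1.2.u * -(T.T e.1.1).d (e.2 + 1 - 1) = -(e.1.2.u * (T.T e.1.1).d e.2)
    rw [add_sub_cancel_right, mul_neg]

theorem dirn_not (b : Bool) (e : Tile × ZMod n) : T.dirn (!b) e = -T.dirn b e := by
  rw [dirn, Bool.not_not, ray_fc]

theorem mem_edge (b : Bool) (e : Tile × ZMod n) (z : ℂ) :
    z ∈ T.edge e ↔ ∃ s : ℝ, 0 ≤ s ∧ s ≤ T.len e ∧ z = T.pt (fc (!b) e) + s * T.dirn b e := by
  have h : T.edge e = segment ℝ (T.pt (fc (!b) e)) (T.pt (fc b e)) := by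
    cases b
    · exact segment_symm _ _ _
    · rfl
  have l0 := T.len_pos e
  rw [h, segment_eq_image', T.pt_fc b e, add_sub_cancel_left]
  constructor
  · rintro ⟨t, ⟨h0, h1⟩, rfl⟩
    refine ⟨t * T.len e, by positivity, by nlinarith, ?_⟩
    simp only [Complex.real_smul, Complex.ofReal_mul, mul_assoc]
  · rintro ⟨s, h0, h1, rfl⟩
    refine ⟨s / T.len e, ⟨by positivity, (div_le_one l0).2 h1⟩, ?_⟩
    have : (T.len e : ℂ) ≠ 0 := Complex.ofReal_ne_zero.2 l0.ne'
    simp only [Complex.real_smul, Complex.ofReal_div]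
    rw [← mul_assoc, div_mul_cancel₀ _ this]

theorem mem_oedge (b : Bool) (e : Tile × ZMod n) (z : ℂ) :
    z ∈ T.oedge e ↔ ∃ s : ℝ, 0 < s ∧ s < T.len e ∧ z = T.pt (fc (!b) e) + s * T.dirn b e := by
  have h : T.oedge e = openSegment ℝ (T.pt (fc (!b) e)) (T.pt (fc b e)) := by
    cases b
    · exact openSegment_symm _ _ _
    · rfl
  have l0 := T.len_pos e
  rw [h, openSegment_eq_image', T.pt_fc b e, add_sub_cancel_left]
  constructor
  · rintro ⟨t, ⟨h0, h1⟩, rfl⟩
    refine ⟨t * T.len e, by positivity, by nlinarith, ?_⟩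
    simp only [Complex.real_smul, Complex.ofReal_mul, mul_assoc]
  · rintro ⟨s, h0, h1, rfl⟩
    refine ⟨s / T.len e, ⟨by positivity, (div_lt_one l0).2 h1⟩, ?_⟩
    have : (T.len e : ℂ) ≠ 0 := Complex.ofReal_ne_zero.2 l0.ne'
    simp only [Complex.real_smul, Complex.ofReal_div]
    rw [← mul_assoc, div_mul_cancel₀ _ this]

theorem edge_cases (b : Bool) {e : Tile × ZMod n} {z : ℂ} (h : z ∈ T.edge e) :
    z ∈ T.oedge e ∨ z = T.pt (fc b e) ∨ z = T.pt (fc (!b) e) := by
  rw [edge, ← insert_endpoints_openSegment] at h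
  rcases h with h | h | h
  · cases b
    · exact Or.inr (Or.inl h)
    · exact Or.inr (Or.inr h)
  · cases b
    · exact Or.inr (Or.inr h)
    · exact Or.inr (Or.inl h)
  · exact Or.inl h

theorem h61_ne (b : Bool) {e : Tile × ZMod n} {z : ℂ} (h : z ∈ T.oedge e) :
    z ≠ T.pt (fc b e) := by
  obtain ⟨s, h0, -, hs⟩ := (T.mem_oedge (!b) e z).1 h
  rw [Bool.not_not] at hs
  intro e1
  rw [e1, left_eq_add, mul_eq_zero] at hs
  exact hs.elim (Complex.ofReal_ne_zero.2 h0.ne') (Circle.coe_ne_zero _)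

theorem oedge_unique {x : Tile} {i j : ZMod n} {z : ℂ} (h : z ∈ T.oedge (x, i))
    (h' : z ∈ T.edge (x, j)) : j = i := by
  have k : ∀ {l : ZMod n}, z ∈ T.edge (x, l) →
      x.2⁻¹ • z ∈ segment ℝ ((T.T x.1).v l) ((T.T x.1).v (l + 1)) := fun {l} hl =>
    (x.2.mem_image _ _).1 (by rw [Mot.image_segment]; exact hl)
  rcases (T.T x.1).simple i j _ (k (T.oedge_subset _ h)) (k h') with e | ⟨_, e⟩ | ⟨e', e⟩
  · exact e.symm
  · exact absurd (inv_smul_eq_iff.1 e) (T.h61_ne false h)
  · rw [e'] at e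
    exact absurd (inv_smul_eq_iff.1 e) (T.h61_ne true h)

theorem oedge_ne_pt {x : Tile} {i j : ZMod n} {z : ℂ} (h : z ∈ T.oedge (x, i)) :
    z ≠ T.pt (x, j) := by
  intro e
  have h1 : z ∈ T.edge (x, j) := e ▸ T.pt_mem_edge false (x, j)
  rw [T.oedge_unique h h1] at e
  exact T.h61_ne false h e

theorem mem_cases {x : Tile} {z : ℂ} (h : z ∈ T.tset x) :
    z ∈ interior (T.tset x) ∨ (∃ i, z ∈ T.oedge (x, i)) ∨ ∃ i, z = T.pt (x, i) := by
  by_cases hi : z ∈ interior (T.tset x)
  · exact Or.inl hi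
  have h1 : z ∈ frontier (T.tset x) := ⟨subset_closure h, hi⟩
  rw [tset_fr] at h1
  obtain ⟨i, h2⟩ := mem_iUnion.1 h1
  rcases T.edge_cases true h2 with e | e | e
  · exact Or.inr (Or.inl ⟨i, e⟩)
  · exact Or.inr (Or.inr ⟨i + 1, e⟩)
  · exact Or.inr (Or.inr ⟨i, e⟩)

theorem dist_le_D {x : Tile} {z w : ℂ} (hz : z ∈ T.tset x) (hw : w ∈ T.tset x) :
    dist z w ≤ T.D := by
  obtain ⟨f, hf⟩ := T.tset_congr x
  rw [hf] at hz hw
  obtain ⟨z, hz, rfl⟩ := hz
  obtain ⟨w, hw, rfl⟩ := hw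
  rw [f.dist_eq]
  exact Metric.dist_le_diam_of_mem (T.T false).cpt.isBounded hz hw

theorem len_le_D (e : Tile × ZMod n) : T.len e ≤ T.D := by
  have h := T.dist_le_D (T.edge_subset e (T.pt_mem_edge true e))
    (T.edge_subset e (T.pt_mem_edge (!true) e))
  rwa [T.pt_fc true e, dist_eq_norm, add_sub_cancel_left, norm_mul, Circle.norm_coe, mul_one,
    Complex.norm_real, Real.norm_of_nonneg (T.len_pos e).le] at h

theorem D_pos : 0 < T.D := by
  exact (T.len_pos ((false, 1), 0)).trans_le (T.len_le_D _)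

theorem h61_far (Q : Poly n) {w z : ℂ} {R : ℝ} (h : ∀ a, dist (Q.v a) w ≤ R) (hz : z ∈ Q.set) :
    dist z w ≤ R := by
  rw [dist_eq_norm]
  refine Complex.norm_le_of_forall_mem_frontier_norm_le (f := fun y => y - w) Q.cpt.isBounded
    (differentiable_id.sub_const w).diffContOnCl (fun y hy => ?_) (subset_closure hz)
  rw [Q.fr] at hy
  obtain ⟨i, hi⟩ := mem_iUnion.1 hy
  rw [← dist_eq_norm]
  exact (convex_closedBall w R).segment_subset (h i) (h (i + 1)) hi

/-- A longest edge is comparable with the diameter. -/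
theorem exists_long [NeZero n] (s : Bool) : ∃ i, T.D ≤ n * (T.T s).len i := by
  obtain ⟨i, hi⟩ := Finite.exists_max (T.T s).len
  have l0 := (T.T s).len_pos i
  have k : ∀ (a : ZMod n) (m : ℕ), dist ((T.T s).v (a + m)) ((T.T s).v a) ≤ m * (T.T s).len i := by
    intro a m
    induction m with
    | zero => simp
    | succ m ih =>
      have e : dist ((T.T s).v (a + m + 1)) ((T.T s).v (a + m)) = (T.T s).len (a + m) := by
        rw [(T.T s).v_succ, dist_eq_norm, add_sub_cancel_left, norm_mul, Circle.norm_coe, mul_one,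
          Complex.norm_real, Real.norm_of_nonneg ((T.T s).len_pos _).le]
      have t := dist_triangle ((T.T s).v (a + m + 1)) ((T.T s).v (a + m)) ((T.T s).v a)
      have := hi (a + m)
      rw [Nat.cast_succ, Nat.cast_succ, ← add_assoc]
      linarith
  have k2 : ∀ a b : ZMod n, dist ((T.T s).v b) ((T.T s).v a) ≤ n * (T.T s).len i := by
    intro a b
    have h1 := k a (b - a).val
    rw [ZMod.natCast_zmod_val, add_sub_cancel] at h1
    have h2 : ((b - a).val : ℝ) ≤ n := by exact_mod_cast (ZMod.val_lt _).le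
    exact h1.trans (mul_le_mul_of_nonneg_right h2 l0.le)
  have k3 : ∀ z ∈ (T.T s).set, ∀ w ∈ (T.T s).set, dist z w ≤ n * (T.T s).len i :=
    fun z hz w hw => h61_far _ (fun a => by
      rw [dist_comm]
      exact h61_far _ (k2 a) hw) hz
  refine ⟨i, Metric.diam_le_of_forall_dist_le (by positivity) fun z hz w hw => ?_⟩
  cases s
  · exact k3 z hz w hw
  · have h1 := k3 _ (T.mirror ▸ mem_image_of_mem _ hz) _ (T.mirror ▸ mem_image_of_mem _ hw)
    rwa [Complex.dist_conj_conj] at h1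

end Pool.Agent.Ng.Proto
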