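import Pool.Agent.P.MP_6145c0_co.Ng.LocA

/-! One tile: the local pictures. Two tiles: wedges. -/

open Set Real

namespace Pool.Agent.Ng.Proto

variable {n : ℕ} (T : Proto n)

theorem h54_per (b : Bool) (x : ℝ) :
    Circle.exp (sg b * (x + 2 * π)) = Circle.exp (sg b * x) := by
  rw [Circle.exp_eq_exp]
  cases b
  · exact ⟨-1, by simp; ring⟩
  · exact ⟨1, by simp⟩

theorem h54_inj (b : Bool) {x y : ℝ} (h : Circle.exp (sg b * x) = Circle.exp (sg b * y))
    (h1 : x - y < 2 * π) (h2 : y - x < 2 * π) : x = y := by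
  obtain ⟨m, hm⟩ := Circle.exp_eq_exp.1 h
  have hp := Real.pi_pos
  have h3 : |(m : ℝ)| * (2 * π) < 1 * (2 * π) := by
    have e : (m : ℝ) * (2 * π) = sg b * (x - y) := by linarith
    have : |(m : ℝ)| * (2 * π) = |x - y| := by
      rw [← abs_of_pos (a := 2 * π) (by positivity), ← abs_mul, e, abs_mul, abs_sg, one_mul]
    rw [this, one_mul, abs_lt]
    constructor <;> linarith
  have h4 : |(m : ℝ)| < 1 := lt_of_mul_lt_mul_right h3 (by positivity)
  have h5 : m = 0 := by
    have : |m| < 1 := by exact_mod_cast h4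
    exact Int.abs_lt_one_iff.1 this
  rw [h5] at hm
  have h6 : sg b * (sg b * x) = sg b * (sg b * y) := by rw [hm]; simp
  rwa [← mul_assoc, ← mul_assoc, sg_mul_self, one_mul, one_mul] at h6

theorem h54_im (b : Bool) (a : Circle) (s x : ℝ) :
    sg b * ((s * (a * Circle.exp (sg b * x) : Circle) : ℂ) * (a⁻¹ : Circle)).im = s * sin x := by
  have e : ((s * (a * Circle.exp (sg b * x) : Circle) : ℂ) * (a⁻¹ : Circle))
      = s * (Circle.exp (sg b * x) : Circle) := by
    rw [mul_assoc, ← Circle.coe_mul, mul_comm a, mul_inv_cancel_right]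
  rw [e, Complex.im_ofReal_mul, Circle.coe_exp, Complex.exp_ofReal_mul_I_im]
  cases b <;> simp

theorem h54_dist (q : ℂ) (a : Circle) {s : ℝ} (hs : 0 ≤ s) : dist (q + s * a) q = s := by
  rw [dist_eq_norm, add_sub_cancel_left, norm_mul, Circle.norm_coe, mul_one, Complex.norm_real,
    Real.norm_of_nonneg hs]

theorem h54_neg (a : Circle) : -a = a * Circle.exp (sg true * π) := by
  apply Circle.ext
  simp [Circle.coe_exp, Complex.exp_pi_mul_I]

theorem h54_sgn (b : Bool) (e : Tile × ZMod n) (x : ℂ) :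
    sg b * (x * ((T.dirn b e)⁻¹ : Circle)).im = (x * ((T.dirn true e)⁻¹ : Circle)).im := by
  cases b
  · have h : T.dirn false e = -T.dirn true e := T.dirn_not true e
    have h' : (((-T.dirn true e)⁻¹ : Circle) : ℂ) = -((T.dirn true e)⁻¹ : Circle) := by
      simp [inv_neg]
    rw [h, h']
    simp
  · simp

theorem h54_cone (c : Tile × ZMod n) {ρ θ : ℝ} (h0 : 0 < ρ) (h1 : ρ < T.r1) (h2 : 0 ≤ θ)
    (h3 : θ < 2 * π) :
    T.pt c + ρ * (T.ray true c * Circle.exp θ : Circle) ∈ T.tset c.1 ↔ θ ≤ T.ang c := by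
  have e : T.pt c + ρ * (T.ray true c * Circle.exp θ : Circle)
      = c.1.2 • ((T.T c.1.1).v c.2 + ρ * ((T.T c.1.1).d c.2 * Circle.exp θ : Circle)) := by
    rw [Mot.smul_add]
    simp only [pt, ray, Fr, if_true, Circle.coe_mul]
    ring
  rw [e, tset, Mot.mem_image, inv_smul_smul]
  exact (T.rad _).cone _ _ _ h0 h1 h2 h3

theorem h54_edge (e : Tile × ZMod n) (z : ℂ) : z ∈ T.edge e ↔
    e.1.2⁻¹ • z ∈ segment ℝ ((T.T e.1.1).v e.2) ((T.T e.1.1).v (e.2 + 1)) := by
  rw [← Mot.mem_image, Mot.image_segment]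
  rfl

theorem h54_pull (c : Tile × ZMod n) (z : ℂ) :
    dist (c.1.2⁻¹ • z) ((T.T c.1.1).v c.2) = dist z (T.pt c) := by
  rw [← Mot.dist_smul c.1.2, smul_inv_smul]
  rfl

theorem h54_near (c : Tile × ZMod n) {j : ZMod n} {z : ℂ} (hz : z ∈ T.edge (c.1, j))
    (h : dist z (T.pt c) < T.r1) : ∃ b, (c.1, j) = nr b c := by
  rw [h54_edge] at hz
  rw [← h54_pull] at h
  rcases (T.rad _).near _ _ _ hz h with h | h
  · exact ⟨true, Prod.ext rfl h.symm⟩
  · refine ⟨false, Prod.ext rfl ?_⟩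
    have h' : c.2 = j + 1 := h
    simp [nr, h']

theorem cone (b : Bool) (c : Tile × ZMod n) {ρ θ : ℝ} (h0 : 0 < ρ) (h1 : ρ < T.r1) (h2 : 0 ≤ θ)
    (h3 : θ < 2 * π) :
    T.pt c + ρ * (T.ray b c * Circle.exp (sg b * θ) : Circle) ∈ T.tset c.1 ↔ θ ≤ T.ang c := by
  cases b
  · have hr : T.ray false c = T.ray true c * Circle.exp (sg true * T.ang c) := T.ray_not true c
    have ha := T.ang_pos c
    have hb := T.ang_lt c
    have e : T.ray false c * Circle.exp (sg false * θ)
        = T.ray true c * Circle.exp (T.ang c - θ) := by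
      rw [hr, mul_assoc, ← Circle.exp_add]
      simp [sub_eq_add_neg]
    rw [e]
    rcases le_or_gt θ (T.ang c) with h | h
    · rw [T.h54_cone c h0 h1 (by linarith) (by linarith)]
      constructor <;> intro _ <;> linarith
    · have e' := h54_per true (T.ang c - θ)
      rw [sg_true, one_mul, one_mul] at e'
      rw [← e', T.h54_cone c h0 h1 (by linarith) (by linarith)]
      constructor <;> intro _ <;> linarith
  · rw [sg_true, one_mul]
    exact T.h54_cone c h0 h1 h2 h3

theorem cone_int (b : Bool) (c : Tile × ZMod n) {ρ θ : ℝ} (h0 : 0 < ρ) (h1 : ρ < T.r1)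
    (h2 : 0 < θ) (h3 : θ < T.ang c) :
    T.pt c + ρ * (T.ray b c * Circle.exp (sg b * θ) : Circle) ∈ interior (T.tset c.1) := by
  have ha := T.ang_pos c
  have hb := T.ang_lt c
  have hm := (T.cone b c h0 h1 h2.le (by linarith)).2 h3.le
  by_contra hn
  have hf : T.pt c + ρ * (T.ray b c * Circle.exp (sg b * θ) : Circle)
      ∈ frontier (T.tset c.1) := by
    rw [(T.tset_closed _).frontier_eq]
    exact ⟨hm, hn⟩
  rw [T.tset_fr, mem_iUnion] at hf
  obtain ⟨j, hj⟩ := hf
  obtain ⟨b', hb'⟩ := T.h54_near c hj (by rw [h54_dist _ _ h0.le]; exact h1)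
  rw [hb', T.mem_edge b', fc_nr, dirn_nr] at hj
  obtain ⟨s, hs, -, hj⟩ := hj
  have hρ : ρ = s := by
    rw [← h54_dist (T.pt c) (T.ray b c * Circle.exp (sg b * θ)) h0.le, hj, h54_dist _ _ hs]
  rw [← hρ] at hj
  have h4 : T.ray b c * Circle.exp (sg b * θ) = T.ray b' c := by
    apply Circle.ext
    exact mul_left_cancel₀ (Complex.ofReal_ne_zero.2 h0.ne') (add_left_cancel hj)
  by_cases hbb : b' = b
  · have h5 : Circle.exp (sg b * θ) = Circle.exp (sg b * 0) := by
      rw [hbb] at h4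
      apply mul_left_cancel (a := T.ray b c)
      rw [h4]
      simp
    have := h54_inj b h5 (by linarith) (by linarith)
    linarith
  · have hb2 : b' = !b := by cases b <;> cases b' <;> simp_all
    rw [hb2, T.ray_not] at h4
    have := h54_inj b (mul_left_cancel h4) (by linarith) (by linarith)
    linarith

theorem near (c : Tile × ZMod n) {j : ZMod n} {z : ℂ} (hz : z ∈ T.edge (c.1, j))
    (h : dist z (T.pt c) < T.r1) : ∃ b, (c.1, j) = nr b c := by
  exact T.h54_near c hz h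

theorem half (b : Bool) (e : Tile × ZMod n) {z w : ℂ} (hz : z ∈ T.edge e)
    (h : ∀ b', T.r1 / 4 ≤ dist z (T.pt (fc b' e))) (hw : dist w z < T.r2) :
    (w ∈ T.tset e.1 ↔ 0 ≤ sg b * ((w - z) * ((T.dirn b e)⁻¹ : Circle)).im) ∧
      ∀ j, w ∈ T.edge (e.1, j) → j = e.2 := by
  rw [h54_sgn]
  have h1 := h false
  have h2 := h true
  rw [← h54_pull] at h1 h2
  rw [h54_edge] at hz
  rw [← Mot.dist_smul e.1.2⁻¹] at hw
  obtain ⟨h3, h4⟩ := (T.rad _).half _ _ _ hz h1 h2 hw
  refine ⟨?_, fun j hj => h4 j ((T.h54_edge (e.1, j) w).1 hj)⟩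
  rw [tset, Mot.mem_image, h3, Mot.smul_sub]
  have e' : ((e.1.2⁻¹.u : Circle) : ℂ) * (w - z) * (((T.T e.1.1).d e.2)⁻¹ : Circle)
      = (w - z) * ((T.dirn true e)⁻¹ : Circle) := by
    have : T.dirn true e = e.1.2.u * (T.T e.1.1).d e.2 := rfl
    rw [this, mul_inv, Circle.coe_mul, Mot.inv_u]
    ring
  rw [e']

theorem h54_loc (b : Bool) (c : Tile × ZMod n) {s : ℝ} (h0 : 0 < s) (h1 : s < T.r1) :
    ∀ᶠ w in nhds (T.pt c + s * T.ray b c), (w ∈ T.tset c.1 ↔
      0 ≤ sg b * ((w - (T.pt c + s * T.ray b c)) * ((T.ray b c)⁻¹ : Circle)).im) := by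
  have ha := T.ang_pos c
  have hb := T.ang_lt c
  have hp := Real.pi_pos
  set f : ℂ → ℂ := fun w => (w - T.pt c) * ((T.ray b c)⁻¹ : Circle) with hf
  have hc : Continuous f := by fun_prop
  have hs : f (T.pt c + s * T.ray b c) = s := by
    simp only [hf]
    rw [add_sub_cancel_left, mul_assoc, ← Circle.coe_mul, mul_inv_cancel, Circle.coe_one, mul_one]
  have ht : Filter.Tendsto f (nhds (T.pt c + s * T.ray b c)) (nhds (s : ℂ)) := by
    have h := hc.continuousAt (x := T.pt c + s * T.ray b c)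
    rwa [ContinuousAt, hs] at h
  have harg : Filter.Tendsto (fun u : ℂ => |u.arg|) (nhds (s : ℂ)) (nhds 0) := by
    have h := (Complex.continuousAt_arg (x := (s : ℂ)) (Complex.ofReal_mem_slitPlane.2 h0)).abs
    have h' : |(s : ℂ).arg| = 0 := by rw [Complex.arg_ofReal_of_nonneg h0.le, abs_zero]
    rw [← h']
    exact h
  have hnorm : Filter.Tendsto (fun u : ℂ => ‖u‖) (nhds (s : ℂ)) (nhds s) := by
    have h := (continuous_norm (E := ℂ)).continuousAt (x := (s : ℂ))
    rw [ContinuousAt, Complex.norm_real, Real.norm_of_nonneg h0.le] at h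
    exact h
  filter_upwards [(harg.comp ht).eventually (gt_mem_nhds ha),
    (harg.comp ht).eventually (gt_mem_nhds (sub_pos.2 hb)),
    (harg.comp ht).eventually (gt_mem_nhds hp),
    (hnorm.comp ht).eventually (lt_mem_nhds h0),
    (hnorm.comp ht).eventually (gt_mem_nhds h1)] with w a1 a2 a3 a4 a5
  simp only [Function.comp] at a1 a2 a3 a4 a5
  set θ := sg b * (f w).arg with hθ
  have habs : |θ| = |(f w).arg| := by rw [hθ, abs_mul, abs_sg, one_mul]
  rw [← habs, abs_lt] at a1 a2 a3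
  have hθ' : sg b * θ = (f w).arg := by rw [hθ, ← mul_assoc, sg_mul_self, one_mul]
  have hw : w - T.pt c = ‖f w‖ * (T.ray b c * Circle.exp (sg b * θ) : Circle) := by
    rw [hθ', Circle.coe_mul, Circle.coe_exp, mul_left_comm, Complex.norm_mul_exp_arg_mul_I]
    simp only [hf]
    rw [mul_left_comm, ← Circle.coe_mul, mul_inv_cancel, Circle.coe_one, mul_one]
  have hw' : w = T.pt c + ‖f w‖ * (T.ray b c * Circle.exp (sg b * θ) : Circle) := by
    rw [← hw]
    ring
  have him : sg b * ((w - (T.pt c + s * T.ray b c)) * ((T.ray b c)⁻¹ : Circle)).im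
      = ‖f w‖ * sin θ := by
    have : (w - (T.pt c + s * T.ray b c)) * ((T.ray b c)⁻¹ : Circle)
        = (w - T.pt c) * ((T.ray b c)⁻¹ : Circle) - f (T.pt c + s * T.ray b c) := by
      simp only [hf]
      ring
    rw [this, hs, Complex.sub_im, Complex.ofReal_im, sub_zero, hw, h54_im]
  rw [him]
  rcases le_or_gt 0 θ with h | h
  · have m := (T.cone b c a4 a5 h (by linarith)).2 a1.2.le
    rw [← hw'] at m
    exact iff_of_true m (mul_nonneg a4.le (sin_nonneg_of_nonneg_of_le_pi h a3.2.le))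
  · have m := T.cone b c a4 a5 (θ := θ + 2 * π) (by linarith) (by linarith)
    rw [h54_per, ← hw'] at m
    refine iff_of_false (fun k => ?_) (not_le.2 ?_)
    · linarith [m.1 k]
    · exact mul_neg_of_pos_of_neg a4 (sin_neg_of_neg_of_neg_pi_lt h a3.1)

theorem h54_flat (e : Tile × ZMod n) {z : ℂ} (hz : z ∈ T.oedge e) :
    ∃ ρ > 0, ∀ w, dist w z < ρ →
      (w ∈ T.tset e.1 ↔ 0 ≤ ((w - z) * ((T.dirn true e)⁻¹ : Circle)).im) := by
  by_cases h : ∀ b', T.r1 / 4 ≤ dist z (T.pt (fc b' e))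
  · refine ⟨T.r2, T.r2_pos, fun w hw => ?_⟩
    rw [← h54_sgn T true]
    exact (T.half true e (T.oedge_subset e hz) h hw).1
  · push Not at h
    obtain ⟨b, hb⟩ := h
    obtain ⟨s, h0, -, hs⟩ := (T.mem_oedge (!b) e z).1 hz
    rw [Bool.not_not] at hs
    have hd : T.dirn (!b) e = T.ray (!b) (fc b e) := by rw [dirn, Bool.not_not]
    rw [hs, h54_dist _ _ h0.le] at hb
    have hl := T.h54_loc (!b) (fc b e) h0 (by linarith [T.r1_pos])
    rw [← hd, ← hs, fc_fst, Metric.eventually_nhds_iff] at hl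
    obtain ⟨ρ, hρ, hl⟩ := hl
    refine ⟨ρ, hρ, fun w hw => ?_⟩
    rw [← h54_sgn T (!b)]
    exact hl hw

theorem flat (b : Bool) (e : Tile × ZMod n) {z : ℂ} (hz : z ∈ T.oedge e) :
    ∃ ρ > 0, ∀ w, dist w z < ρ →
      (w ∈ T.tset e.1 ↔ 0 ≤ sg b * ((w - z) * ((T.dirn b e)⁻¹ : Circle)).im) ∧
      (w ∈ interior (T.tset e.1) ↔ 0 < sg b * ((w - z) * ((T.dirn b e)⁻¹ : Circle)).im) := by
  obtain ⟨ρ, hρ, h⟩ := T.h54_flat e hz
  refine ⟨ρ, hρ, fun w hw => ?_⟩
  rw [h54_sgn]
  refine ⟨h w hw, fun hi => ?_, fun hi => ?_⟩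
  · have h1 := (h w hw).1 (interior_subset hi)
    refine lt_of_le_of_ne h1 fun h2 => ?_
    have hc : Continuous fun t : ℝ => w - t * (Complex.I * T.dirn true e) := by fun_prop
    have ht : Filter.Tendsto (fun t : ℝ => w - t * (Complex.I * T.dirn true e))
        (nhdsWithin 0 (Ioi 0)) (nhds w) := by
      have := hc.continuousAt (x := 0)
      rw [ContinuousAt, Complex.ofReal_zero, zero_mul, sub_zero] at this
      exact this.mono_left nhdsWithin_le_nhds
    obtain ⟨t, ⟨a1, a2⟩, a3⟩ := (((ht.eventually (isOpen_interior.mem_nhds hi)).and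
      (ht.eventually (Metric.isOpen_ball.mem_nhds (Metric.mem_ball.2 hw)))).and
      self_mem_nhdsWithin).exists
    have a4 := (h _ (Metric.mem_ball.1 a2)).1 (interior_subset a1)
    have e' : (w - t * (Complex.I * T.dirn true e) - z) * ((T.dirn true e)⁻¹ : Circle)
        = (w - z) * ((T.dirn true e)⁻¹ : Circle)
          - t * Complex.I * (T.dirn true e * (T.dirn true e)⁻¹ : Circle) := by
      rw [Circle.coe_mul]
      ring
    rw [e', mul_inv_cancel, Circle.coe_one, mul_one, Complex.sub_im, ← h2] at a4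
    have a5 : 0 < t := a3
    simp at a4
    linarith
  · have hc : Continuous fun u : ℂ => ((u - z) * ((T.dirn true e)⁻¹ : Circle)).im := by fun_prop
    rw [mem_interior_iff_mem_nhds]
    filter_upwards [hc.continuousAt.eventually (lt_mem_nhds hi),
      Metric.isOpen_ball.mem_nhds (Metric.mem_ball.2 hw)] with u a1 a2
    exact (h u (Metric.mem_ball.1 a2)).2 a1.le

/-- Polar coordinates about `q`, from the direction `a`, turning in the direction `b`. -/
theorem polar (b : Bool) (q : ℂ) (a : Circle) {z : ℂ} (h : z ≠ q) :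
    ∃ θ : ℝ, 0 ≤ θ ∧ θ < 2 * π ∧ z = q + (dist z q : ℝ) * (a * Circle.exp (sg b * θ) : Circle) := by
  have hp := Real.pi_pos
  set u : ℂ := (z - q) * (a⁻¹ : Circle) with hu
  set θ := sg b * u.arg with hθ
  have habs : |θ| ≤ π := by
    rw [hθ, abs_mul, abs_sg, one_mul]
    exact Complex.abs_arg_le_pi u
  have hθ' : sg b * θ = u.arg := by rw [hθ, ← mul_assoc, sg_mul_self, one_mul]
  have hn : dist z q = ‖u‖ := by rw [hu, norm_mul, Circle.norm_coe, mul_one, dist_eq_norm]
  have hw : z = q + (dist z q : ℝ) * (a * Circle.exp (sg b * θ) : Circle) := by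
    rw [hθ', hn, Circle.coe_mul, Circle.coe_exp, mul_left_comm, Complex.norm_mul_exp_arg_mul_I, hu,
      mul_left_comm, ← Circle.coe_mul, mul_inv_cancel, Circle.coe_one, mul_one]
    ring
  rw [abs_le] at habs
  rcases le_or_gt 0 θ with k | k
  · exact ⟨θ, k, by linarith, hw⟩
  · exact ⟨θ + 2 * π, by linarith, by linarith, by rw [h54_per]; exact hw⟩

/-- The tile `x` contains a thin wedge at `q` that starts in the direction `a` and turns in the
direction `b`. -/
def Wedge (x : Tile) (q : ℂ) (a : Circle) (b : Bool) : Prop :=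
  ∃ ρ > 0, ∀ s θ : ℝ, 0 < s → s < ρ → 0 < θ → θ < ρ →
    q + s * (a * Circle.exp (sg b * θ) : Circle) ∈ interior (T.tset x)

theorem Wedge.meet {x y : Tile} {q : ℂ} {a : Circle} {b : Bool} (h : T.Wedge x q a b)
    (h' : T.Wedge y q a b) : ¬Disjoint (interior (T.tset x)) (interior (T.tset y)) := by
  obtain ⟨ρ, hρ, h⟩ := h
  obtain ⟨ρ', hρ', h'⟩ := h'
  have h0 : 0 < min ρ ρ' := lt_min hρ hρ'
  have h1 := min_le_left ρ ρ'
  have h2 := min_le_right ρ ρ'
  rw [not_disjoint_iff]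
  exact ⟨_, h (min ρ ρ' / 2) (min ρ ρ' / 2) (by linarith) (by linarith) (by linarith) (by linarith),
    h' _ _ (by linarith) (by linarith) (by linarith) (by linarith)⟩

theorem wedge_int {x : Tile} {q : ℂ} (h : q ∈ interior (T.tset x)) (a : Circle) (b : Bool) :
    T.Wedge x q a b := by
  obtain ⟨ρ, hρ, hb⟩ := Metric.isOpen_iff.1 isOpen_interior q h
  refine ⟨ρ, hρ, fun s θ h1 h2 _ _ => hb ?_⟩
  rw [Metric.mem_ball, h54_dist _ _ h1.le]
  exact h2

theorem wedge_corner (b : Bool) (c : Tile × ZMod n) {θ : ℝ} (h0 : 0 ≤ θ) (h1 : θ < T.ang c) :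
    T.Wedge c.1 (T.pt c) (T.ray b c * Circle.exp (sg b * θ)) b := by
  refine ⟨min T.r1 (T.ang c - θ), lt_min T.r1_pos (sub_pos.2 h1), fun s φ a1 a2 a3 a4 => ?_⟩
  rw [mul_assoc, ← Circle.exp_add, ← mul_add]
  exact T.cone_int b c a1 (a2.trans_le (min_le_left _ _)) (by linarith)
    (by linarith [a4.trans_le (min_le_right _ _)])

theorem wedge_flat (b : Bool) (e : Tile × ZMod n) {z : ℂ} (hz : z ∈ T.oedge e) {θ : ℝ}
    (h0 : 0 ≤ θ) (h1 : θ < π) : T.Wedge e.1 z (T.dirn b e * Circle.exp (sg b * θ)) b := by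
  obtain ⟨ρ, hρ, h⟩ := T.flat b e hz
  refine ⟨min ρ (π - θ), lt_min hρ (sub_pos.2 h1), fun s φ a1 a2 a3 a4 => ?_⟩
  rw [mul_assoc, ← Circle.exp_add, ← mul_add]
  refine (h _ ?_).2.2 ?_
  · rw [h54_dist _ _ a1.le]
    exact a2.trans_le (min_le_left _ _)
  · rw [add_sub_cancel_left, h54_im]
    exact mul_pos a1 (sin_pos_of_pos_of_lt_pi (by linarith)
      (by linarith [a4.trans_le (min_le_right _ _)]))

theorem wedge_edge (b : Bool) (e : Tile × ZMod n) {z : ℂ} (hz : z ∈ T.edge e)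
    (h : z ≠ T.pt (fc b e)) : T.Wedge e.1 z (T.dirn b e) b := by
  rcases T.edge_cases b hz with k | k | k
  · simpa using T.wedge_flat b e k le_rfl Real.pi_pos
  · exact absurd k h
  · have := T.wedge_corner b (fc (!b) e) le_rfl (T.ang_pos _)
    rw [mul_zero, Circle.exp_zero, mul_one, fc_fst] at this
    rw [k]
    exact this

/-- A tile has some wedge at each of its points. -/
theorem exists_wedge (b : Bool) {x : Tile} {z : ℂ} (hz : z ∈ T.tset x) :
    ∃ a, T.Wedge x z a b := by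
  rcases T.mem_cases hz with k | ⟨i, k⟩ | ⟨i, k⟩
  · exact ⟨1, T.wedge_int k 1 b⟩
  · exact ⟨_, T.wedge_flat b (x, i) k le_rfl Real.pi_pos⟩
  · rw [k]
    exact ⟨_, T.wedge_corner b (x, i) le_rfl (T.ang_pos _)⟩

/-- A tile does not meet the interior of a tile whose interior it avoids. -/
theorem not_mem_of_disj {x y : Tile} (h : Disjoint (interior (T.tset x)) (interior (T.tset y)))
    {z : ℂ} (hz : z ∈ interior (T.tset x)) : z ∉ T.tset y := by
  have h' := h.closure_right isOpen_interior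
  rw [T.tset_clo] at h'
  exact disjoint_left.1 h' hz

theorem h54_ang (a a' : Circle) :
    ∃ θ : ℝ, 0 ≤ θ ∧ θ < 2 * π ∧ a' = a * Circle.exp (sg true * θ) := by
  obtain ⟨θ, h0, h1, h⟩ := polar true 0 a (z := a') a'.coe_ne_zero
  refine ⟨θ, h0, h1, Circle.ext ?_⟩
  rwa [dist_zero_right, Circle.norm_coe, Complex.ofReal_one, one_mul, zero_add] at h

theorem h54_opp {e e' : Tile × ZMod n} {z : ℂ} (hz : z ∈ T.oedge e) (hz' : z ∈ T.oedge e')
    (h : Disjoint (interior (T.tset e.1)) (interior (T.tset e'.1))) :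
    T.dirn true e' = -T.dirn true e := by
  have hp := Real.pi_pos
  obtain ⟨θ, h0, h1, k⟩ := h54_ang (T.dirn true e) (T.dirn true e')
  rcases lt_trichotomy θ π with c | c | c
  · have w := T.wedge_flat true e hz h0 c
    have w' := T.wedge_flat true e' hz' le_rfl hp
    rw [mul_zero, Circle.exp_zero, mul_one, k] at w'
    exact absurd h (Wedge.meet T w w')
  · rw [k, c, h54_neg]
  · have w := T.wedge_flat true e hz le_rfl hp
    have w' := T.wedge_flat true e' hz' (θ := 2 * π - θ) (by linarith) (by linarith)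
    have e0 : θ + (2 * π - θ) = 0 + 2 * π := by ring
    rw [k, mul_assoc, ← Circle.exp_add, ← mul_add, e0, h54_per] at w'
    exact absurd h (Wedge.meet T w w')

/-- A point inside edges of two tiles lies in no third tile. -/
theorem no_third {e e' : Tile × ZMod n} {y : Tile} {z : ℂ} (hz : z ∈ T.oedge e)
    (hz' : z ∈ T.oedge e') (h : Disjoint (interior (T.tset e.1)) (interior (T.tset e'.1)))
    (h1 : Disjoint (interior (T.tset e.1)) (interior (T.tset y)))
    (h2 : Disjoint (interior (T.tset e'.1)) (interior (T.tset y))) : z ∉ T.tset y := by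
  intro hy
  obtain ⟨a, ha⟩ := T.exists_wedge true hy
  obtain ⟨θ, a0, a1, k⟩ := h54_ang (T.dirn true e) a
  rcases lt_or_ge θ π with c | c
  · have w := T.wedge_flat true e hz a0 c
    rw [← k] at w
    exact Wedge.meet T w ha h1
  · have w := T.wedge_flat true e' hz' (θ := θ - π) (by linarith) (by linarith)
    have e0 : π + (θ - π) = θ := by ring
    rw [T.h54_opp hz hz' h, h54_neg, mul_assoc, ← Circle.exp_add, ← mul_add, e0, ← k] at w
    exact Wedge.meet T w ha h2

/-- Edges do not cross. -/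
theorem no_cross {e e' : Tile × ZMod n} {z : ℂ} (hz : z ∈ T.oedge e) (hz' : z ∈ T.oedge e')
    (h : e.1 = e'.1 ∨ Disjoint (interior (T.tset e.1)) (interior (T.tset e'.1))) :
    T.dirn true e' = T.dirn true e ∨ T.dirn true e' = -T.dirn true e := by
  rcases h with h | h
  · obtain ⟨x, i⟩ := e
    obtain ⟨x', j⟩ := e'
    obtain rfl : x = x' := h
    rw [T.oedge_unique hz (T.oedge_subset _ hz')]
    exact Or.inl rfl
  · exact Or.inr (T.h54_opp hz hz' h)

end Pool.Agent.Ng.Proto
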