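import Pool.Agent.P.MP_6145c0_co.Ng.LocB
import Pool.Agent.P.MP_6145c0_co.Ng.Cx
import Pool.Agent.P.MP_6145c0_co.Ng.X4

/-! Tiles that touch along an edge; straight rows of darts; reflection in the line of a dart. -/

open Set Real
open Pool.Agent.P.MP_6145c0_co.Ng

namespace Pool.Agent.Ng.Proto

variable {n : ℕ} (T : Proto n)

theorem h96_corner (c : Tile × ZMod n) {w : ℂ} (hw : w ∈ interior (T.tset c.1))
    (hd : dist w (T.pt c) < T.r1) : 0 < dist w (T.pt c) ∧ ∃ θ : ℝ, 0 < θ ∧ θ < T.ang c ∧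
      w = T.pt c + (dist w (T.pt c) : ℝ) * (T.ray true c * Circle.exp (sg true * θ) : Circle) := by
  have hne : w ≠ T.pt c := fun e =>
    T.not_mem_edge (e := c) hw (e ▸ T.pt_mem_edge false c)
  have h0 : 0 < dist w (T.pt c) := dist_pos.2 hne
  have hno : ∀ b, w ≠ T.pt c + (dist w (T.pt c) : ℝ) * T.ray b c := by
    intro b e
    refine T.not_mem_edge (e := nr b c) (by rwa [nr_fst]) ?_
    refine (T.mem_edge b _ w).2 ⟨_, h0.le, ?_, by rw [fc_nr, dirn_nr]; exact e⟩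
    linarith [T.r1_le (nr b c), T.r1_pos]
  obtain ⟨θ, h1, h2, h3⟩ := polar true (T.pt c) (T.ray true c) hne
  have h4 : θ ≤ T.ang c := (T.cone true c h0 hd h1 h2).1 (h3 ▸ interior_subset hw)
  refine ⟨h0, θ, lt_of_le_of_ne h1 fun e => hno true ?_, lt_of_le_of_ne h4 fun e => hno false ?_,
    h3⟩
  · rwa [← e, mul_zero, Circle.exp_zero, mul_one] at h3
  · rwa [e, ← T.ray_not true c] at h3

theorem h96_join {x : Tile} {u : ℂ} (hu : u ∈ T.tset x) : ∃ ρ > 0, ∀ δ ≤ ρ,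
    ∀ a ∈ interior (T.tset x) ∩ Metric.ball u δ, ∀ a' ∈ interior (T.tset x) ∩ Metric.ball u δ,
      JoinedIn (interior (T.tset x) ∩ Metric.ball u δ) a a' := by
  rcases T.mem_cases hu with k | ⟨i, k⟩ | ⟨i, k⟩
  · obtain ⟨ρ, hρ, hb⟩ := Metric.isOpen_iff.1 isOpen_interior u k
    refine ⟨ρ, hρ, fun δ hδ a ha a' ha' => ?_⟩
    refine (((convex_ball u δ).isPathConnected ⟨a, ha.2⟩).joinedIn a ha.2 a' ha'.2).mono ?_
    exact fun w hw => ⟨hb (Metric.ball_subset_ball hδ hw), hw⟩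
  · obtain ⟨ρ, hρ, h⟩ := T.flat true (x, i) k
    refine ⟨ρ, hρ, fun δ hδ a ha a' ha' => ?_⟩
    refine JoinedIn.of_segment_subset fun w hw => ?_
    have hb : w ∈ Metric.ball u δ := (convex_ball u δ).segment_subset ha.2 ha'.2 hw
    refine ⟨(h w (lt_of_lt_of_le hb hδ)).2.2 ?_, hb⟩
    have h1 := (h a (lt_of_lt_of_le ha.2 hδ)).2.1 ha.1
    have h2 := (h a' (lt_of_lt_of_le ha'.2 hδ)).2.1 ha'.1
    obtain ⟨s, t, hs, ht, hst, rfl⟩ := hw
    have e : (s • a + t • a' - u) * ((T.dirn true (x, i))⁻¹ : Circle) =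
        s * ((a - u) * ((T.dirn true (x, i))⁻¹ : Circle)) +
          t * ((a' - u) * ((T.dirn true (x, i))⁻¹ : Circle)) := by
      have e' : (s : ℂ) + t = 1 := by exact_mod_cast hst
      rw [Complex.real_smul, Complex.real_smul]
      linear_combination (u * ((T.dirn true (x, i))⁻¹ : Circle)) * e'
    rw [sg_true, one_mul] at h1 h2 ⊢
    rw [e, Complex.add_im, Complex.im_ofReal_mul, Complex.im_ofReal_mul]
    rcases hs.eq_or_lt with h3 | h3
    · have h4 : t = 1 := by linarith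
      rw [← h3, h4]
      linarith
    · exact add_pos_of_pos_of_nonneg (mul_pos h3 h1) (mul_nonneg ht h2.le)
  · subst k
    refine ⟨T.r1, T.r1_pos, fun δ hδ a ha a' ha' => ?_⟩
    let F : ℝ × ℝ → ℂ := fun p => T.pt (x, i) +
      p.1 * (T.ray true (x, i) * Circle.exp (sg true * p.2) : Circle)
    have hF : Continuous F := by
      simp only [F, Circle.coe_mul, Circle.coe_exp]
      fun_prop
    have hm : ∀ w ∈ interior (T.tset x) ∩ Metric.ball (T.pt (x, i)) δ,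
        w ∈ F '' (Ioo 0 δ ×ˢ Ioo 0 (T.ang (x, i))) := by
      intro w hw
      obtain ⟨h0, θ, h1, h2, h3⟩ := T.h96_corner (x, i) hw.1 (lt_of_lt_of_le hw.2 hδ)
      exact ⟨(dist w (T.pt (x, i)), θ), ⟨⟨h0, hw.2⟩, h1, h2⟩, h3.symm⟩
    obtain ⟨p, hp, -⟩ := hm a ha
    have hc := (((convex_Ioo 0 δ).prod (convex_Ioo 0 (T.ang (x, i)))).isPathConnected
      ⟨p, hp⟩).image hF
    refine (hc.joinedIn a (hm a ha) a' (hm a' ha')).mono ?_
    rintro _ ⟨q, ⟨⟨h1, h2⟩, h3, h4⟩, rfl⟩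
    refine ⟨T.cone_int true (x, i) h1 (lt_of_lt_of_le h2 hδ) h3 h4, ?_⟩
    rw [Metric.mem_ball, h54_dist _ _ h1.le]
    exact h2

theorem lc (x : Tile) : LC (T.tset x) := by
  refine ⟨(T.tset_clo x).ge, fun u hu ε hε => ?_⟩
  obtain ⟨ρ, hρ, h⟩ := T.h96_join hu
  refine ⟨min ρ ε, lt_min hρ hε, fun a ha a' ha' => ?_⟩
  refine (h _ (min_le_left _ _) a ha a' ha').mono (inter_subset_inter_right _ ?_)
  rw [Metric.thickening_singleton]
  exact Metric.ball_subset_ball (min_le_right _ _)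

theorem st (x : Tile) : ST (T.tset x) := by
  intro u hu
  have hd : ∀ (a : ℂ) (t : ℝ), 0 < t → t ≤ 1 → dist (u + t * (a - u)) u ≤ dist a u := by
    intro a t h0 h1
    rw [dist_eq_norm, dist_eq_norm, add_sub_cancel_left, norm_mul, Complex.norm_real,
      Real.norm_of_nonneg h0.le]
    exact mul_le_of_le_one_left (norm_nonneg _) h1
  rcases T.mem_cases hu with k | ⟨i, k⟩ | ⟨i, k⟩
  · obtain ⟨ρ, hρ, hb⟩ := Metric.isOpen_iff.1 isOpen_interior u k
    exact ⟨ρ, hρ, fun a ha t h0 h1 => hb (lt_of_le_of_lt (hd a t h0 h1) ha.2)⟩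
  · obtain ⟨ρ, hρ, h⟩ := T.flat true (x, i) k
    refine ⟨ρ, hρ, fun a ha t h0 h1 => (h _ (lt_of_le_of_lt (hd a t h0 h1) ha.2)).2.2 ?_⟩
    have h2 := (h a ha.2).2.1 ha.1
    rw [sg_true, one_mul] at h2 ⊢
    rw [add_sub_cancel_left, mul_assoc, Complex.im_ofReal_mul]
    exact mul_pos h0 h2
  · subst k
    refine ⟨T.r1, T.r1_pos, fun a ha t h0 h1 => ?_⟩
    obtain ⟨h2, θ, h3, h4, h5⟩ := T.h96_corner (x, i) ha.1 ha.2
    have h6 : t * dist a (T.pt (x, i)) < T.r1 :=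
      lt_of_le_of_lt (mul_le_of_le_one_left h2.le h1) ha.2
    have h7 := T.cone_int true (x, i) (mul_pos h0 h2) h6 h3 h4
    rw [Complex.ofReal_mul, mul_assoc] at h7
    rwa [sub_eq_iff_eq_add'.2 h5]

theorem h96_neg (a : Circle) : (((-a)⁻¹ : Circle) : ℂ) = -((a⁻¹ : Circle) : ℂ) := by
  simp [inv_neg]

/-- A point inside edges of two tiles is interior to their union. -/
theorem int_union {e e' : Tile × ZMod n} {z : ℂ} (hz : z ∈ T.oedge e) (hz' : z ∈ T.oedge e')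
    (h : Disjoint (interior (T.tset e.1)) (interior (T.tset e'.1))) :
    z ∈ interior (T.tset e.1 ∪ T.tset e'.1) := by
  have hd := T.h54_opp hz hz' h
  obtain ⟨ρ, hρ, k⟩ := T.flat true e hz
  obtain ⟨ρ', hρ', k'⟩ := T.flat true e' hz'
  rw [mem_interior_iff_mem_nhds, Metric.mem_nhds_iff]
  refine ⟨min ρ ρ', lt_min hρ hρ', fun w hw => ?_⟩
  have k1 := (k w (lt_of_lt_of_le hw (min_le_left _ _))).1
  have k2 := (k' w (lt_of_lt_of_le hw (min_le_right _ _))).1
  rw [hd, h96_neg, mul_neg, Complex.neg_im, sg_true, one_mul] at k2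
  rw [sg_true, one_mul] at k1
  rcases le_total 0 ((w - z) * ((T.dirn true e)⁻¹ : Circle)).im with h1 | h1
  · exact Or.inl (k1.2 h1)
  · exact Or.inr (k2.2 (by linarith))

/-- The corner `c` lies on the edge `e`, and `e` overlaps the dart `nr b c` just after `c`. -/
def Tch (e c : Tile × ZMod n) (b : Bool) : Prop :=
  T.pt c ∈ T.edge e ∧ ∀ δ > 0, ∃ z ∈ T.oedge e ∩ T.oedge (nr b c), dist z (T.pt c) < δ

theorem h96_tch {e c : Tile × ZMod n} {b : Bool} {s : ℝ} (h0 : 0 ≤ s) (h1 : s < T.len e)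
    (hp : T.pt c = T.pt (fc b e) + s * T.dirn (!b) e) (hr : T.ray b c = T.dirn (!b) e) :
    T.Tch e c b := by
  refine ⟨(T.mem_edge (!b) e _).2 ⟨s, h0, h1.le, by rw [Bool.not_not]; exact hp⟩, fun δ hδ => ?_⟩
  obtain ⟨t, t0, t1⟩ := exists_between
    (lt_min hδ (lt_min (sub_pos.2 h1) (T.len_pos (nr b c))))
  rw [lt_min_iff, lt_min_iff] at t1
  refine ⟨T.pt c + t * T.ray b c, ⟨(T.mem_oedge (!b) e _).2 ⟨s + t, by linarith,
    by linarith [t1.2.1], ?_⟩, (T.mem_oedge b _ _).2 ⟨t, t0, t1.2.2, ?_⟩⟩, ?_⟩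
  · rw [Bool.not_not, hp, hr, Complex.ofReal_add]
    ring
  · rw [fc_nr, dirn_nr]
  · rw [h54_dist _ _ t0.le]
    exact t1.1

theorem tch_of_link {c c' : Tile × ZMod n} {b : Bool} (hp : T.pt c' = T.pt c)
    (hr : T.ray b c' = T.ray (!b) c) : T.Tch (nr (!b) c) c' b := by
  refine T.h96_tch le_rfl (T.len_pos _) ?_ (by rw [dirn_nr]; exact hr)
  rw [fc_nr', hp, Complex.ofReal_zero, zero_mul, add_zero]

theorem tch_of_pos {e c : Tile × ZMod n} {b : Bool} {s : ℝ} (h0 : 0 ≤ s) (h1 : s < T.len e)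
    (hp : T.pt c = T.pt (fc b e) + s * T.dirn (!b) e) (hr : T.ray b c = T.dirn (!b) e) :
    T.Tch e c b := by
  exact T.h96_tch h0 h1 hp hr

theorem Tch.j {e c : Tile × ZMod n} {b : Bool} (h : T.Tch e c b)
    (hd : Disjoint (interior (T.tset e.1)) (interior (T.tset c.1))) :
    J (interior (T.tset e.1 ∪ T.tset c.1)) {T.pt c} (T.tset e.1) (T.pt c) (T.tset c.1)
      (T.pt c) := by
  refine J.across (T.lc _) (T.lc _) (T.edge_subset e h.1) (T.pt_mem c) ?_
  rw [Metric.mem_closure_iff]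
  intro ε hε
  obtain ⟨z, ⟨h1, h2⟩, h3⟩ := h.2 ε hε
  have h4 := T.int_union h1 h2 (by rwa [nr_fst])
  have h5 := T.edge_subset _ (T.oedge_subset _ h2)
  rw [nr_fst] at h4 h5
  exact ⟨z, ⟨⟨T.edge_subset _ (T.oedge_subset _ h1), h5⟩, h4⟩, by rwa [dist_comm]⟩

/-- The dart `e'` continues the dart `e` in a straight line. -/
def Cont (b : Bool) (e e' : Tile × ZMod n) : Prop :=
  T.pt (fc (!b) e') = T.pt (fc b e) ∧ T.dirn b e' = T.dirn b e

/-- The length of the first `l` darts. -/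
noncomputable def slen (g : ℕ → Tile × ZMod n) (l : ℕ) : ℝ := ∑ i ∈ Finset.range l, T.len (g i)

theorem slen_succ (g : ℕ → Tile × ZMod n) (l : ℕ) : T.slen g (l + 1) = T.slen g l + T.len (g l) :=
  Finset.sum_range_succ _ _

theorem slen_nonneg (g : ℕ → Tile × ZMod n) (l : ℕ) : 0 ≤ T.slen g l :=
  Finset.sum_nonneg fun _ _ => (T.len_pos _).le

theorem slen_mono (g : ℕ → Tile × ZMod n) : StrictMono (T.slen g) :=
  strictMono_nat_of_lt_succ fun l => by linarith [T.slen_succ g l, T.len_pos (g l)]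

theorem le_slen (g : ℕ → Tile × ZMod n) (l : ℕ) : l * (2 * T.r1) ≤ T.slen g l := by
  induction l with
  | zero => simpa using T.slen_nonneg g 0
  | succ l ih =>
    rw [slen_succ, Nat.cast_succ]
    linarith [T.r1_le (g l)]

theorem slen_index (g : ℕ → Tile × ZMod n) {l : ℕ} {s : ℝ} (h0 : 0 ≤ s)
    (h1 : s < T.slen g (l + 1)) : ∃ i ≤ l, T.slen g i ≤ s ∧ s < T.slen g (i + 1) := by
  induction l with
  | zero => exact ⟨0, le_rfl, by simpa [slen] using h0, h1⟩
  | succ l ih =>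
    rcases lt_or_ge s (T.slen g (l + 1)) with k | k
    · obtain ⟨i, hi, h⟩ := ih k
      exact ⟨i, by omega, h⟩
    · exact ⟨l + 1, le_rfl, k, h1⟩

theorem slen_index' (g : ℕ → Tile × ZMod n) {l : ℕ} {s : ℝ} (h0 : 0 < s)
    (h1 : s ≤ T.slen g (l + 1)) : ∃ i ≤ l, T.slen g i < s ∧ s ≤ T.slen g (i + 1) := by
  induction l with
  | zero => exact ⟨0, le_rfl, by simpa [slen] using h0, h1⟩
  | succ l ih =>
    rcases le_or_gt s (T.slen g (l + 1)) with k | k
    · obtain ⟨i, hi, h⟩ := ih k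
      exact ⟨i, by omega, h⟩
    · exact ⟨l + 1, le_rfl, k, h1⟩

section

variable {T} {b : Bool} {g : ℕ → Tile × ZMod n} {l i : ℕ}

theorem row_dirn (h : Seq (T.Cont b) g l) (hi : i ≤ l) : T.dirn b (g i) = T.dirn b (g 0) := by
  induction i with
  | zero => rfl
  | succ i ih => rw [(h i hi).2, ih (by omega)]

theorem row_near (h : Seq (T.Cont b) g l) (hi : i ≤ l) :
    T.pt (fc (!b) (g i)) = T.pt (fc (!b) (g 0)) + T.slen g i * T.dirn b (g 0) := by
  induction i with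
  | zero => simp [slen]
  | succ i ih =>
    rw [(h i hi).1, T.pt_fc b (g i), ih (by omega), row_dirn h (by omega : i ≤ l), slen_succ,
      Complex.ofReal_add]
    ring

theorem row_far (h : Seq (T.Cont b) g l) (hi : i ≤ l) :
    T.pt (fc b (g i)) = T.pt (fc (!b) (g 0)) + T.slen g (i + 1) * T.dirn b (g 0) := by
  rw [T.pt_fc b (g i), row_near h hi, row_dirn h hi, slen_succ, Complex.ofReal_add]
  ring

theorem row_mem (h : Seq (T.Cont b) g l) (hi : i ≤ l) (z : ℂ) :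
    z ∈ T.edge (g i) ↔ ∃ s : ℝ, T.slen g i ≤ s ∧ s ≤ T.slen g (i + 1) ∧
      z = T.pt (fc (!b) (g 0)) + s * T.dirn b (g 0) := by
  rw [T.mem_edge b, row_near h hi, row_dirn h hi, slen_succ]
  constructor
  · rintro ⟨s, h0, h1, rfl⟩
    refine ⟨T.slen g i + s, by linarith, by linarith, ?_⟩
    rw [Complex.ofReal_add]
    ring
  · rintro ⟨s, h0, h1, rfl⟩
    refine ⟨s - T.slen g i, by linarith, by linarith, ?_⟩
    rw [Complex.ofReal_sub]
    ring

theorem row_omem (h : Seq (T.Cont b) g l) (hi : i ≤ l) (z : ℂ) :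
    z ∈ T.oedge (g i) ↔ ∃ s : ℝ, T.slen g i < s ∧ s < T.slen g (i + 1) ∧
      z = T.pt (fc (!b) (g 0)) + s * T.dirn b (g 0) := by
  rw [T.mem_oedge b, row_near h hi, row_dirn h hi, slen_succ]
  constructor
  · rintro ⟨s, h0, h1, rfl⟩
    refine ⟨T.slen g i + s, by linarith, by linarith, ?_⟩
    rw [Complex.ofReal_add]
    ring
  · rintro ⟨s, h0, h1, rfl⟩
    refine ⟨s - T.slen g i, by linarith, by linarith, ?_⟩
    rw [Complex.ofReal_sub]
    ring

end

/-- The signed height over the line of the dart `e`. -/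
noncomputable def ht (e : Tile × ZMod n) (w : ℂ) : ℝ :=
  ((w - T.pt e) * ((T.dirn true e)⁻¹ : Circle)).im

theorem h96_inv (a : Circle) : (a : ℂ) * (a⁻¹ : Circle) = 1 := by
  rw [← Circle.coe_mul, mul_inv_cancel, Circle.coe_one]

theorem h96_sub (e : Tile × ZMod n) (w w' : ℂ) :
    T.ht e w - T.ht e w' = ((w - w') * ((T.dirn true e)⁻¹ : Circle)).im := by
  rw [ht, ht, ← Complex.sub_im]
  congr 1
  ring

theorem h96_add (e : Tile × ZMod n) (w a : ℂ) :
    T.ht e (w + a * T.dirn true e) = T.ht e w + a.im := by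
  have h := T.h96_sub e (w + a * T.dirn true e) w
  rw [add_sub_cancel_left, mul_assoc, h96_inv, mul_one] at h
  linarith

theorem h96_ref (e : Tile × ZMod n) (w : ℂ) :
    T.ht e (w - 2 * (T.ht e w : ℂ) * Complex.I * T.dirn true e) = -T.ht e w := by
  rw [sub_eq_add_neg, ← neg_mul, h96_add]
  simp
  ring

theorem exists_ref (e : Tile × ZMod n) : ∃ f : ℂ ≃ᵢ ℂ, ∀ w,
    f w = w - 2 * (T.ht e w : ℂ) * Complex.I * T.dirn true e := by
  let f : ℂ → ℂ := fun w => w - 2 * (T.ht e w : ℂ) * Complex.I * T.dirn true e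
  have hi : ∀ w, f (f w) = w := by
    intro w
    simp only [f]
    rw [h96_ref, Complex.ofReal_neg]
    ring
  refine ⟨⟨⟨f, f, hi, hi⟩, Isometry.of_dist_eq fun w w' => ?_⟩, fun _ => rfl⟩
  show dist (f w) (f w') = dist w w'
  have h1 : (T.ht e w : ℂ) - T.ht e w' =
      (((w - w') * ((T.dirn true e)⁻¹ : Circle)).im : ℝ) := by
    rw [← Complex.ofReal_sub, h96_sub]
  have h2 := Complex.sub_conj ((w - w') * ((T.dirn true e)⁻¹ : Circle))
  rw [Complex.ofReal_mul, Complex.ofReal_ofNat, ← h1] at h2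
  have h3 : f w - f w' =
      (starRingEnd ℂ) ((w - w') * ((T.dirn true e)⁻¹ : Circle)) * T.dirn true e := by
    simp only [f]
    linear_combination (T.dirn true e : ℂ) * h2 - (w - w') * h96_inv (T.dirn true e)
  rw [dist_eq_norm, dist_eq_norm, h3, norm_mul, Complex.norm_conj, norm_mul, Circle.norm_coe,
    Circle.norm_coe, mul_one, mul_one]

/-- The reflection in the line of the dart `e`. -/
noncomputable def ref (e : Tile × ZMod n) : ℂ ≃ᵢ ℂ := (T.exists_ref e).choose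

theorem ref_apply (e : Tile × ZMod n) (w : ℂ) :
    T.ref e w = w - 2 * (T.ht e w : ℂ) * Complex.I * T.dirn true e := (T.exists_ref e).choose_spec w

theorem ht_ref (e : Tile × ZMod n) (w : ℂ) : T.ht e (T.ref e w) = -T.ht e w := by
  rw [ref_apply, h96_ref]

theorem ref_mul_self (e : Tile × ZMod n) : T.ref e * T.ref e = 1 := by
  refine IsometryEquiv.ext fun w => ?_
  show T.ref e (T.ref e w) = w
  rw [T.ref_apply e (T.ref e w), ht_ref, ref_apply, Complex.ofReal_neg]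
  ring

theorem ref_fix {e : Tile × ZMod n} {w : ℂ} (h : T.ht e w = 0) : T.ref e w = w := by
  rw [ref_apply, h]
  simp

theorem ht_edge {e : Tile × ZMod n} {z : ℂ} (h : z ∈ T.edge e) : T.ht e z = 0 := by
  obtain ⟨s, -, -, rfl⟩ := (T.mem_edge true e z).1 h
  rw [h96_add]
  show ((T.pt e - T.pt e) * ((T.dirn true e)⁻¹ : Circle)).im + _ = 0
  simp

theorem ht_eq {e : Tile × ZMod n} {z : ℂ} (h : T.ht e z = 0) (w : ℂ) :
    T.ht e w = ((w - z) * ((T.dirn true e)⁻¹ : Circle)).im := by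
  rw [← h96_sub, h, sub_zero]

theorem ht_zero_iff {e : Tile × ZMod n} {z : ℂ} (h : T.ht e z = 0) (w : ℂ) :
    T.ht e w = 0 ↔ ∃ t : ℝ, w = z + t * T.dirn true e := by
  constructor
  · intro k
    rw [T.ht_eq h] at k
    refine ⟨((w - z) * ((T.dirn true e)⁻¹ : Circle)).re, ?_⟩
    have h1 := Complex.re_add_im ((w - z) * ((T.dirn true e)⁻¹ : Circle))
    rw [k, Complex.ofReal_zero, zero_mul, add_zero] at h1
    rw [h1]
    linear_combination (z - w) * h96_inv (T.dirn true e)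
  · rintro ⟨t, rfl⟩
    rw [h96_add, h, Complex.ofReal_im, add_zero]

theorem abs_ht_sub (e : Tile × ZMod n) (w w' : ℂ) : |T.ht e w - T.ht e w'| ≤ dist w w' := by
  rw [h96_sub]
  refine (Complex.abs_im_le_norm _).trans (le_of_eq ?_)
  rw [norm_mul, Circle.norm_coe, mul_one, dist_eq_norm]

theorem ht_same {e e' : Tile × ZMod n} (hd : T.dirn true e' = T.dirn true e)
    (h : T.ht e (T.pt e') = 0) : T.ht e' = T.ht e ∧ T.ref e' = T.ref e := by
  have k : T.ht e' = T.ht e := funext fun w => by rw [T.ht_eq h w, ht, hd]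
  exact ⟨k, IsometryEquiv.ext fun w => by rw [ref_apply, ref_apply, k, hd]⟩

theorem ht_opp {e e' : Tile × ZMod n} (hd : T.dirn true e' = -T.dirn true e)
    (h : T.ht e (T.pt e') = 0) (w : ℂ) : T.ht e' w = -T.ht e w := by
  rw [T.ht_eq h w, ht, hd, h96_neg, mul_neg, Complex.neg_im]

/-- The foot of the perpendicular. -/
theorem exists_foot (e : Tile × ZMod n) (w : ℂ) : ∃ w0, T.ht e w0 = 0 ∧
    dist w w0 = |T.ht e w| ∧ ∀ q, T.ht e q = 0 → dist w0 q ≤ dist w q := by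
  have h0 : T.ht e (w + -(T.ht e w : ℂ) * Complex.I * T.dirn true e) = 0 := by
    rw [h96_add]
    simp
  refine ⟨_, h0, ?_, fun q hq => ?_⟩
  · rw [dist_comm, dist_eq_norm, add_sub_cancel_left, norm_mul, norm_mul, Circle.norm_coe,
      Complex.norm_I, norm_neg, Complex.norm_real, mul_one, mul_one, Real.norm_eq_abs]
  · obtain ⟨t, ht⟩ := (T.ht_zero_iff hq _).1 h0
    have h1 : w - q = (t + T.ht e w * Complex.I) * T.dirn true e := by linear_combination ht
    rw [ht, dist_eq_norm, dist_eq_norm, add_sub_cancel_left, h1, norm_mul, norm_mul,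
      Circle.norm_coe, mul_one, mul_one, Complex.norm_real, Real.norm_eq_abs]
    simpa using Complex.abs_re_le_norm (t + T.ht e w * Complex.I)

end Pool.Agent.Ng.Proto
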