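import Pool.Agent.P.MP_6145c0_co.Ng.PolyA

/-! The radii of the local pictures. -/

open Set Real

namespace Pool.Agent.Ng

theorem h25_min {ι : Type} [Finite ι] (P : ι → ℝ → Prop)
    (h : ∀ i, ∃ ρ > 0, ∀ r, 0 < r → r ≤ ρ → P i r) :
    ∃ ρ > 0, ∀ r, 0 < r → r ≤ ρ → ∀ i, P i r := by
  choose f hf0 hf using h
  rcases isEmpty_or_nonempty ι with hι | hι
  · exact ⟨1, one_pos, fun _ _ _ i => hι.elim i⟩
  · obtain ⟨i0, hi0⟩ := Finite.exists_min f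
    exact ⟨f i0, hf0 i0, fun r h0 h1 i => hf i r h0 (h1.trans (hi0 i))⟩

theorem h25_side {S U : Set ℂ} (hS : IsClosed S) (hU : IsPreconnected U)
    (hd : ∀ w ∈ U, w ∉ frontier S) : U ⊆ S ∨ U ⊆ Sᶜ := by
  have h := IsPreconnected.subset_or_subset (u := interior S) (v := Sᶜ) isOpen_interior
    hS.isOpen_compl (disjoint_compl_right.mono_left interior_subset) (fun w hw => ?_) hU
  · exact h.imp_left fun h1 => h1.trans interior_subset
  · by_cases h1 : w ∈ S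
    · left
      by_contra h2
      exact hd w hw ⟨subset_closure h1, h2⟩
    · exact Or.inr h1

theorem Poly.h25_edge {n : ℕ} (Q : Poly n) (i : ZMod n) (z : ℂ) :
    z ∈ segment ℝ (Q.v i) (Q.v (i + 1)) ↔
      ∃ s : ℝ, 0 ≤ s ∧ s ≤ Q.len i ∧ z = Q.v i + s * Q.d i := by
  have hl := Q.len_pos i
  rw [segment_eq_image', Q.v_succ, add_sub_cancel_left]
  constructor
  · rintro ⟨t, ⟨h0, h1⟩, rfl⟩
    refine ⟨t * Q.len i, by positivity, by nlinarith, ?_⟩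
    simp only [Complex.real_smul]
    push_cast
    ring
  · rintro ⟨s, h0, h1, rfl⟩
    refine ⟨s / Q.len i, ⟨by positivity, (div_le_one hl).2 h1⟩, ?_⟩
    have h2 : (Q.len i : ℂ) ≠ 0 := by exact_mod_cast hl.ne'
    simp only [Complex.real_smul]
    push_cast
    field_simp

theorem h25_dist (p : ℂ) (d : Circle) (s t : ℝ) : dist (p + s * d) (p + t * d) = |s - t| := by
  rw [dist_eq_norm, add_sub_add_left_eq_sub, ← sub_mul, norm_mul, Circle.norm_coe, mul_one,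
    ← Complex.ofReal_sub, Complex.norm_real, Real.norm_eq_abs]

theorem h25_cancel (d : Circle) : (d : ℂ) * ((d⁻¹ : Circle) : ℂ) = 1 := by
  rw [← Circle.coe_mul, mul_inv_cancel, Circle.coe_one]

theorem h25_im (p w : ℂ) (d : Circle) (s : ℝ) :
    ((w - (p + s * d)) * ((d⁻¹ : Circle) : ℂ)).im =
      (w * ((d⁻¹ : Circle) : ℂ)).im - (p * ((d⁻¹ : Circle) : ℂ)).im := by
  have h : (w - (p + s * d)) * ((d⁻¹ : Circle) : ℂ) =
      w * ((d⁻¹ : Circle) : ℂ) - p * ((d⁻¹ : Circle) : ℂ) - s := by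
    linear_combination (-(s : ℂ)) * h25_cancel d
  rw [h, Complex.sub_im, Complex.sub_im, Complex.ofReal_im, sub_zero]

theorem h25_im_polar (p : ℂ) (d : Circle) (a θ : ℝ) :
    ((p + a * (d * Circle.exp θ : Circle)) * ((d⁻¹ : Circle) : ℂ)).im =
      (p * ((d⁻¹ : Circle) : ℂ)).im + a * Real.sin θ := by
  have h : (p + a * (d * Circle.exp θ : Circle)) * ((d⁻¹ : Circle) : ℂ) =
      p * ((d⁻¹ : Circle) : ℂ) + a * Complex.exp (θ * Complex.I) := by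
    rw [Circle.coe_mul, Circle.coe_exp]
    linear_combination ((a : ℂ) * Complex.exp (θ * Complex.I)) * h25_cancel d
  rw [h, Complex.add_im, Complex.im_ofReal_mul, Complex.exp_ofReal_mul_I_im]

theorem h25_lin (c : ℂ) : IsLinearMap ℝ fun w : ℂ => (w * c).im :=
  ⟨fun x y => by rw [add_mul, Complex.add_im], fun r x => by
    rw [smul_mul_assoc, Complex.smul_im]⟩

theorem h25_small (p : ℂ) (d : Circle) (a : ℝ) {δ : ℝ} (hδ : 0 < δ) :
    ∃ ε > 0, ∀ θ : ℝ, |θ| < ε → dist (p + a * (d * Circle.exp θ : Circle)) (p + a * d) < δ := by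
  have hc : Continuous fun θ : ℝ => p + a * ((d * Circle.exp θ : Circle) : ℂ) := by
    simp only [Circle.coe_mul, Circle.coe_exp]
    fun_prop
  obtain ⟨ε, hε, h⟩ := Metric.continuous_iff.1 hc 0 δ hδ
  refine ⟨ε, hε, fun θ hθ => ?_⟩
  have := h θ (by simpa using hθ)
  simpa using this

theorem Poly.h25_near {n : ℕ} (Q : Poly n) (x : ZMod n × ZMod n) :
    ∃ ρ > 0, ∀ r, 0 < r → r ≤ ρ → ∀ z ∈ segment ℝ (Q.v x.2) (Q.v (x.2 + 1)),
      dist z (Q.v x.1) < r → x.1 = x.2 ∨ x.1 = x.2 + 1 := by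
  obtain ⟨i, j⟩ := x
  by_cases h : i = j ∨ i = j + 1
  · exact ⟨1, one_pos, fun _ _ _ _ _ _ => h⟩
  have h1 : Q.v i ∈ (segment ℝ (Q.v j) (Q.v (j + 1)))ᶜ := by
    intro h2
    rcases Q.simple i j _ (left_mem_segment _ _ _) h2 with h3 | h3 | h3
    · exact h (Or.inl h3)
    · exact h (Or.inr h3.1)
    · exact h (Or.inl (Q.inj h3.2))
  have hcl : IsClosed (segment ℝ (Q.v j) (Q.v (j + 1))) := by
    rw [segment_eq_image']
    exact (isCompact_Icc.image (by fun_prop)).isClosed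
  obtain ⟨ε, hε, h2⟩ := Metric.isOpen_iff.1 hcl.isOpen_compl _ h1
  exact ⟨ε, hε, fun r _ hr z hz hd => absurd hz (h2 (hd.trans_le hr))⟩

/-- The middle part of an edge. -/
def Poly.h25_mid {n : ℕ} (Q : Poly n) (a : ℝ) (i : ZMod n) : Set ℂ :=
  (fun s : ℝ => Q.v i + s * Q.d i) '' Icc a (Q.len i - a)

theorem Poly.h25_mem_mid {n : ℕ} (Q : Poly n) {a : ℝ} {i : ZMod n} {z : ℂ}
    (hz : z ∈ segment ℝ (Q.v i) (Q.v (i + 1))) (h0 : a ≤ dist z (Q.v i))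
    (h1 : a ≤ dist z (Q.v (i + 1))) : z ∈ Q.h25_mid a i := by
  obtain ⟨s, hs0, hs1, rfl⟩ := (Q.h25_edge i z).1 hz
  have h2 := h25_dist (Q.v i) (Q.d i) s 0
  rw [Complex.ofReal_zero, zero_mul, add_zero, sub_zero, abs_of_nonneg hs0] at h2
  rw [Q.v_succ, h25_dist, abs_of_nonpos (by linarith)] at h1
  exact ⟨s, ⟨by linarith, by linarith⟩, rfl⟩

theorem Poly.h25_mid_convex {n : ℕ} (Q : Poly n) (a : ℝ) (i : ZMod n) :
    Convex ℝ (Q.h25_mid a i) := by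
  rintro _ ⟨s, hs, rfl⟩ _ ⟨t, ht, rfl⟩ x y hx hy hxy
  refine ⟨x * s + y * t, convex_Icc _ _ hs ht hx hy hxy, ?_⟩
  have h : (x : ℂ) + y = 1 := by exact_mod_cast hxy
  simp only [Complex.real_smul]
  push_cast
  linear_combination (-(Q.v i)) * h

theorem Poly.h25_far {n : ℕ} (Q : Poly n) {a : ℝ} (ha : 0 < a) (x : ZMod n × ZMod n) :
    ∃ ρ > 0, ∀ r, 0 < r → r ≤ ρ → ∀ z ∈ Q.h25_mid a x.1, ∀ w, dist w z < r →
      w ∈ segment ℝ (Q.v x.2) (Q.v (x.2 + 1)) → x.2 = x.1 := by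
  obtain ⟨i, j⟩ := x
  by_cases h : j = i
  · exact ⟨1, one_pos, fun _ _ _ _ _ _ _ _ => h⟩
  have hc : IsCompact (Q.h25_mid a i) := isCompact_Icc.image (by fun_prop)
  have hcl : IsClosed (segment ℝ (Q.v j) (Q.v (j + 1))) := by
    rw [segment_eq_image']
    exact (isCompact_Icc.image (by fun_prop)).isClosed
  have h1 : Q.h25_mid a i ⊆ (segment ℝ (Q.v j) (Q.v (j + 1)))ᶜ := by
    rintro _ ⟨s, ⟨hs0, hs1⟩, rfl⟩ h2
    have h3 := (Q.h25_edge i _).2 ⟨s, by linarith, by linarith, rfl⟩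
    rcases Q.simple i j _ h3 h2 with h4 | h4 | h4
    · exact h h4.symm
    · have h5 := h25_dist (Q.v i) (Q.d i) s 0
      rw [Complex.ofReal_zero, zero_mul, add_zero, sub_zero, abs_of_nonneg (by linarith),
        h4.2, dist_self] at h5
      linarith
    · have h5 := h25_dist (Q.v i) (Q.d i) s (Q.len i)
      rw [← Q.v_succ, ← h4.1, abs_of_nonpos (by linarith), h4.2, dist_self] at h5
      linarith
  obtain ⟨δ, hδ, h2⟩ := hc.exists_thickening_subset_open hcl.isOpen_compl h1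
  refine ⟨δ, hδ, fun r _ hr z hz w hw hs => absurd hs (h2 ?_)⟩
  exact Metric.mem_thickening_iff.2 ⟨z, hz, hw.trans_le hr⟩

theorem Poly.h25_half {n : ℕ} (Q : Poly n) {a δ : ℝ} (ha : 0 < a) (hδ : 0 < δ) (hδa : δ ≤ a)
    (i : ZMod n) (hl : 2 * a ≤ Q.len i)
    (hcone : ∀ θ : ℝ, 0 ≤ θ → θ < 2 * π →
      (Q.v i + a * (Q.d i * Circle.exp θ : Circle) ∈ Q.set ↔ θ ≤ Q.ang i))
    (hfar : ∀ j, ∀ z ∈ Q.h25_mid a i, ∀ w, dist w z < δ →
      w ∈ segment ℝ (Q.v j) (Q.v (j + 1)) → j = i)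
    {z w : ℂ} (hz : z ∈ Q.h25_mid a i) (hw : dist w z < δ) :
    w ∈ Q.set ↔ 0 ≤ ((w - z) * ((Q.d i)⁻¹ : Circle)).im := by
  have hS := Q.cpt.isClosed
  have hT : Convex ℝ (Metric.thickening δ (Q.h25_mid a i)) := (Q.h25_mid_convex a i).thickening δ
  have hwT : w ∈ Metric.thickening δ (Q.h25_mid a i) := Metric.mem_thickening_iff.2 ⟨z, hz, hw⟩
  have hfr : ∀ u ∈ Metric.thickening δ (Q.h25_mid a i), u ∈ frontier Q.set →
      (u * (((Q.d i)⁻¹ : Circle) : ℂ)).im = (Q.v i * (((Q.d i)⁻¹ : Circle) : ℂ)).im := by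
    intro u hu hf
    obtain ⟨y, hy, hd⟩ := Metric.mem_thickening_iff.1 hu
    rw [Q.fr] at hf
    obtain ⟨j, hj⟩ := mem_iUnion.1 hf
    obtain rfl := hfar j y hy u hd hj
    obtain ⟨s, _, _, hs⟩ := (Q.h25_edge j u).1 hj
    have h1 := h25_im (Q.v j) u (Q.d j) s
    rw [← hs, sub_self, zero_mul, Complex.zero_im] at h1
    linarith
  obtain ⟨ε, hε, hsm⟩ := h25_small (Q.v i) (Q.d i) a hδ
  have hmid : Q.v i + a * Q.d i ∈ Q.h25_mid a i := ⟨a, ⟨le_rfl, by linarith⟩, rfl⟩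
  have h1 := Q.ang_pos i
  have h2 := Q.ang_lt i
  have hpi := Real.pi_pos
  obtain ⟨θ, t0, t1, t2, t3, t4⟩ :
      ∃ θ : ℝ, 0 < θ ∧ θ < ε ∧ θ < Q.ang i ∧ θ < 2 * π - Q.ang i ∧ θ < π := by
    have h3 : 0 < min (min ε (Q.ang i)) (min (2 * π - Q.ang i) π) :=
      lt_min (lt_min hε h1) (lt_min (by linarith) hpi)
    obtain ⟨θ, t0, t1⟩ := exists_between h3
    simp only [lt_min_iff] at t1
    exact ⟨θ, t0, t1.1.1, t1.1.2, t1.2.1, t1.2.2⟩
  have hsin : 0 < a * Real.sin θ := mul_pos ha (Real.sin_pos_of_pos_of_lt_pi t0 t4)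
  obtain ⟨s, ⟨hs0, hs1⟩, rfl⟩ := hz
  rw [h25_im, sub_nonneg]
  rcases lt_trichotomy (Q.v i * (((Q.d i)⁻¹ : Circle) : ℂ)).im
    (w * (((Q.d i)⁻¹ : Circle) : ℂ)).im with h | h | h
  · refine iff_of_true ?_ h.le
    have hU := (hT.inter (convex_halfSpace_gt (h25_lin (((Q.d i)⁻¹ : Circle) : ℂ))
      (Q.v i * (((Q.d i)⁻¹ : Circle) : ℂ)).im)).isPreconnected
    rcases h25_side hS hU (fun u hu hf => (ne_of_lt hu.2) (hfr u hu.1 hf).symm) with h3 | h3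
    · exact h3 ⟨hwT, h⟩
    · refine absurd ((hcone θ t0.le (by linarith)).2 t2.le) (h3 ⟨?_, ?_⟩)
      · exact Metric.mem_thickening_iff.2 ⟨_, hmid, hsm θ (by rwa [abs_of_pos t0])⟩
      · rw [mem_ofPred_eq, h25_im_polar]
        linarith
  · refine iff_of_true ?_ h.le
    have h3 : w = Q.v i + ((w - Q.v i) * (((Q.d i)⁻¹ : Circle) : ℂ)).re * Q.d i := by
      have h4 : (((w - Q.v i) * (((Q.d i)⁻¹ : Circle) : ℂ)).re : ℂ) =
          (w - Q.v i) * (((Q.d i)⁻¹ : Circle) : ℂ) := by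
        refine Complex.ext (Complex.ofReal_re _) ?_
        rw [Complex.ofReal_im, sub_mul, Complex.sub_im, h, sub_self]
      rw [h4]
      linear_combination (-(w - Q.v i)) * h25_cancel (Q.d i)
    generalize ((w - Q.v i) * (((Q.d i)⁻¹ : Circle) : ℂ)).re = t at h3
    rw [h3, h25_dist, abs_lt] at hw
    refine hS.frontier_subset ?_
    rw [Q.fr]
    exact mem_iUnion.2 ⟨i, (Q.h25_edge i w).2 ⟨t, by linarith, by linarith, h3⟩⟩
  · refine iff_of_false ?_ (not_le.2 h)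
    have hU := (hT.inter (convex_halfSpace_lt (h25_lin (((Q.d i)⁻¹ : Circle) : ℂ))
      (Q.v i * (((Q.d i)⁻¹ : Circle) : ℂ)).im)).isPreconnected
    rcases h25_side hS hU (fun u hu hf => (ne_of_lt hu.2) (hfr u hu.1 hf)) with h3 | h3
    · have h4 : Circle.exp (2 * π - θ) = Circle.exp (-θ) := by
        rw [sub_eq_neg_add, Circle.exp_add_two_pi]
      have h5 := (hcone (2 * π - θ) (by linarith) (by linarith)).1
      rw [h4] at h5
      refine absurd (h5 (h3 ⟨?_, ?_⟩)) (by linarith)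
      · exact Metric.mem_thickening_iff.2 ⟨_, hmid, hsm (-θ) (by rwa [abs_neg, abs_of_pos t0])⟩
      · rw [mem_ofPred_eq, h25_im_polar, Real.sin_neg]
        linarith
    · exact h3 ⟨hwT, h⟩

theorem Poly.exists_rad {n : ℕ} [NeZero n] (Q : Poly n) :
    ∃ ρ > 0, ∀ r1, 0 < r1 → r1 ≤ ρ → ∃ ρ' > 0, ∀ r2, 0 < r2 → r2 ≤ ρ' → Q.Rad r1 r2 := by
  obtain ⟨a, ha, h1⟩ := h25_min (fun i r => 2 * r ≤ Q.len i) fun i =>
    ⟨Q.len i / 2, by linarith [Q.len_pos i], fun r _ hr => by linarith⟩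
  obtain ⟨b, hb, h2⟩ := h25_min (fun i r => ∀ ρ θ : ℝ, 0 < ρ → ρ < r → 0 ≤ θ → θ < 2 * π →
      (Q.v i + ρ * (Q.d i * Circle.exp θ : Circle) ∈ Q.set ↔ θ ≤ Q.ang i)) fun i => by
    obtain ⟨r, hr, h⟩ := Q.cone0 i
    exact ⟨r, hr, fun r' _ hr' ρ θ k0 k1 => h ρ θ k0 (k1.trans_le hr')⟩
  obtain ⟨c, hc, h3⟩ := h25_min _ Q.h25_near
  refine ⟨min a (min b c), lt_min ha (lt_min hb hc), fun r1 k0 k1 => ?_⟩
  simp only [le_min_iff] at k1
  have k4 : 0 < r1 / 4 := by linarith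
  obtain ⟨e, he, h4⟩ := h25_min _ (Q.h25_far k4)
  refine ⟨min e (r1 / 4), lt_min he k4, fun r2 l0 l1 => ?_⟩
  simp only [le_min_iff] at l1
  refine ⟨h1 r1 k0 k1.1, h2 r1 k0 k1.2.1, fun i j z hz hd => h3 r1 k0 k1.2.2 (i, j) z hz hd,
    fun i z w hz d0 d1 hw => ?_⟩
  have hm := Q.h25_mem_mid hz d0 d1
  refine ⟨Q.h25_half k4 l0 l1.2 i (by linarith [h1 r1 k0 k1.1 i])
    (fun θ => h2 r1 k0 k1.2.1 i _ θ k4 (by linarith)) (fun j => h4 r2 l0 l1.1 (i, j)) hm hw,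
    fun j hj => h4 r2 l0 l1.1 (i, j) z hm w hw hj⟩

theorem IsPolygon.exists_proto {n : ℕ} (hn : 3 ≤ n) {C : Set ℂ} (h : IsPolygon n C) :
    ∃ T : Proto n, T.C = C := by
  have : NeZero n := ⟨by omega⟩
  obtain ⟨Q, hQ⟩ := h.exists_poly hn
  obtain ⟨Q', hQ'⟩ := h.conj.exists_poly hn
  obtain ⟨a, ha, h1⟩ := Q.exists_rad
  obtain ⟨a', ha', h1'⟩ := Q'.exists_rad
  have hr : 0 < min a a' := lt_min ha ha'
  obtain ⟨b, hb, h2⟩ := h1 _ hr (min_le_left _ _)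
  obtain ⟨b', hb', h2'⟩ := h1' _ hr (min_le_right _ _)
  have hs : 0 < min (min b b') (min a a' / 4) := lt_min (lt_min hb hb') (by positivity)
  refine ⟨⟨fun s => if s then Q' else Q, min a a', min (min b b') (min a a' / 4), hs,
    by linarith [min_le_right (min b b') (min a a' / 4)], fun s => ?_, by simp [hQ, hQ']⟩,
    by simp [Proto.C, hQ]⟩
  cases s
  · exact h2 _ hs ((min_le_left _ _).trans (min_le_left _ _))
  · exact h2' _ hs ((min_le_left _ _).trans (min_le_right _ _))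

end Pool.Agent.Ng
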