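import Pool.Agent.P.MP_6145c0_co.Ng.Nest
import Pool.Agent.P.MP_6145c0_co.Ng.Fam
import Pool.Agent.P.MP_6145c0_co.Ng.PolyB

/-! The theorem. -/

open Set Real Filter

namespace Pool.Agent.Ng

section

variable {n : ℕ} [NeZero n] {T : ℕ → Proto n} {P : ∀ k, Patch (T k) k}

theorem Nest.not_long (N : Nest T P) (hm : 2 * n * (2 * n + 1) + 2 ≤ N.Y.m)
    (hr : ∀ i, 0 < i → i < N.Y.m → N.Y.fan i = false) : False := by
  refine fam_long (hyperfilter ℕ) T (fun k => (P k).all) N.Y N.Z N.pos N.fam N.tend hm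
    (hr _ (by omega) (by omega)) (fun i _ hi => ?_) (fun i _ hi => ?_) fun i h0 hi => ?_
  · obtain ⟨c, hc | hc⟩ := N.monoA i hi
    · exact ⟨true, c, Eventually.of_forall fun k => by simpa using hc k⟩
    · exact ⟨false, c, Eventually.of_forall fun k => by simpa using hc k⟩
  · obtain ⟨c, hc | hc⟩ := N.monoB i hi
    · exact ⟨true, c, Eventually.of_forall fun k => by simpa using hc k⟩
    · exact ⟨false, c, Eventually.of_forall fun k => by simpa using hc k⟩
  · exact ⟨N.ty i, Eventually.of_forall fun k => by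
      rw [N.s_eq i hi k, hr i h0 hi]; simp [Proto.val]⟩

/-- Among finitely many types one has almost everywhere the least value. -/
theorem exists_least {κ : Type} [Finite κ] (A : Set κ) (hA : A.Nonempty) (v : ℕ → κ → ℝ) :
    ∃ θ ∈ A, ∀ θ' ∈ A, ∀ᶠ k in U, v k θ ≤ v k θ' := by
  have h : ∀ᶠ k in U, ∃ θ ∈ A, ∀ θ' ∈ A, v k θ ≤ v k θ' :=
    Eventually.of_forall fun k => exists_min_image A (v k) (toFinite A) hA
  obtain ⟨θ, hθ, h⟩ := U_fin (toFinite A) h
  exact ⟨θ, hθ, fun θ' h' => h.mono fun k hk => hk θ' h'⟩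

theorem no_family (T : ℕ → Proto n) (P : ∀ k, Patch (T k) k) (hT : ∀ k, ¬Tiles (T k).C) :
    False := by
  by_cases hF : {θ | ∃ N : Nest T P, N.Y.m = 1 ∧ N.Y.fan 0 = true ∧ N.ty 0 = θ}.Nonempty
  · obtain ⟨θ, ⟨N1, h1, h2, h3⟩, hl⟩ := exists_least _ hF fun k θ => (T k).val true θ
    have key : ∀ m, ∃ N : Nest T P, N.Y.m = m + 1 ∧ N.Y.fan 0 = true ∧ N.ty 0 = θ ∧
        ∀ i, 0 < i → i < N.Y.m → N.Y.fan i = false := by
      intro m
      induction m with
      | zero => exact ⟨N1, h1, h2, h3, fun i _ _ => by omega⟩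
      | succ m ih =>
        obtain ⟨N, e1, e2, e3, e4⟩ := ih
        obtain ⟨N', f1, f2⟩ := N.extend hT e4
        have g0 := f2 0 (by omega)
        refine ⟨N', by omega, g0.1.trans e2, g0.2.trans e3, fun i h0 hi => ?_⟩
        rcases Nat.lt_or_ge i N.Y.m with h | h
        · exact (f2 i h).1.trans (e4 i h0 h)
        obtain rfl : i = m + 1 := by omega
        by_contra hf
        have hf' : N'.Y.fan (m + 1) = true := by simpa using hf
        obtain ⟨R, r1, r2, r3⟩ := N'.last_row (m := m + 1) (by omega)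
        have a1 := hl (N'.ty (m + 1)) ⟨R, r1, r2.trans hf', r3⟩
        have e : N'.Y.m - 1 = m + 1 := by omega
        have a2 := fam_fan (hyperfilter ℕ) T (fun k => (P k).all) N'.Y N'.Z N'.pos N'.fam N'.tend
          (by omega) (g0.1.trans e2) (e ▸ hf') 2
        obtain ⟨k, b1, b2⟩ := (a1.and a2).exists
        rw [e, N'.s_eq _ (by omega), N'.s_eq _ (by omega), hf', g0.1.trans e2,
          g0.2.trans e3] at b2
        linarith [(T k).val_pos true θ]
    obtain ⟨N, e1, -, -, e4⟩ := key (2 * n * (2 * n + 1) + 1)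
    exact N.not_long (by omega) e4
  · have key : ∀ m, ∃ N : Nest T P, N.Y.m = m ∧ ∀ i, i < N.Y.m → N.Y.fan i = false := by
      intro m
      induction m with
      | zero =>
        obtain ⟨N, h⟩ := exists_nest_zero T P
        exact ⟨N, h, fun i _ => by omega⟩
      | succ m ih =>
        obtain ⟨N, e1, e4⟩ := ih
        obtain ⟨N', f1, f2⟩ := N.extend hT fun i _ hi => e4 i hi
        refine ⟨N', by omega, fun i hi => ?_⟩
        rcases Nat.lt_or_ge i N.Y.m with h | h
        · exact (f2 i h).1.trans (e4 i h)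
        obtain rfl : i = m := by omega
        by_contra hf
        obtain ⟨R, r1, r2, r3⟩ := N'.last_row (m := i) (by omega)
        exact hF ⟨_, R, r1, r2.trans (by simpa using hf), rfl⟩
    obtain ⟨N, e1, e4⟩ := key (2 * n * (2 * n + 1) + 2)
    exact N.not_long e1.ge fun i _ hi => e4 i hi

end

theorem surrounded_mono {C : Set ℂ} {k k' : ℕ} (h : Surrounded C k) (hk : k' ≤ k) :
    Surrounded C k' :=
  let ⟨P, h0, h1, h2⟩ := h
  ⟨P, h0, fun i hi => h1 i (hi.trans hk), fun i hi => h2 i (hi.trans_le hk)⟩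

theorem main (n : ℕ) (hn : 3 ≤ n) :
    ∃ k, ∀ C : Set ℂ, IsPolygon n C → Surrounded C k → Tiles C := by
  have : NeZero n := ⟨by omega⟩
  by_contra h
  push Not at h
  choose C h1 h2 h3 using h
  choose T hT using fun k => (h1 k).exists_proto hn
  have hP : ∀ k, Nonempty (Patch (T k) k) := fun k => exists_patch _ (by rw [hT]; exact h2 k)
  exact no_family T (fun k => (hP k).some) fun k => by rw [hT]; exact h3 k

end Pool.Agent.Ng
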