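import Pool.Agent.P.MP_6145c0_co.Ng.Defs

/-! Direct motions of the plane. -/

open Set

namespace Pool.Agent.Ng

/-- The direct motion `z ↦ u z + b`. -/
@[ext] structure Mot where
  u : Circle
  b : ℂ

namespace Mot

noncomputable instance : Group Mot where
  mul g h := ⟨g.u * h.u, g.u * h.b + g.b⟩
  one := ⟨1, 0⟩
  inv g := ⟨g.u⁻¹, -((g.u⁻¹ : Circle) * g.b)⟩
  mul_assoc g h k := by
    refine Mot.ext (mul_assoc _ _ _) ?_
    show ((g.u * h.u : Circle) : ℂ) * k.b + (g.u * h.b + g.b) = g.u * (h.u * k.b + h.b) + g.b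
    rw [Circle.coe_mul]; ring
  one_mul g := by
    refine Mot.ext (one_mul _) ?_
    show ((1 : Circle) : ℂ) * g.b + 0 = g.b
    simp
  mul_one g := by
    refine Mot.ext (mul_one _) ?_
    show (g.u : ℂ) * 0 + g.b = g.b
    simp
  inv_mul_cancel g := by
    refine Mot.ext (inv_mul_cancel _) ?_
    show ((g.u⁻¹ : Circle) : ℂ) * g.b + -((g.u⁻¹ : Circle) * g.b) = 0
    simp

@[simp] theorem mul_u (g h : Mot) : (g * h).u = g.u * h.u := rfl
@[simp] theorem mul_b (g h : Mot) : (g * h).b = g.u * h.b + g.b := rfl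
@[simp] theorem one_u : (1 : Mot).u = 1 := rfl
@[simp] theorem one_b : (1 : Mot).b = 0 := rfl
@[simp] theorem inv_u (g : Mot) : g⁻¹.u = g.u⁻¹ := rfl
@[simp] theorem inv_b (g : Mot) : g⁻¹.b = -((g.u⁻¹ : Circle) * g.b) := rfl

noncomputable instance : MulAction Mot ℂ where
  smul g z := g.u * z + g.b
  one_smul z := by
    show ((1 : Circle) : ℂ) * z + 0 = z
    simp
  mul_smul g h z := by
    show ((g.u * h.u : Circle) : ℂ) * z + (g.u * h.b + g.b) = g.u * (h.u * z + h.b) + g.b
    rw [Circle.coe_mul]; ring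

theorem smul_def (g : Mot) (z : ℂ) : g • z = g.u * z + g.b := rfl

theorem smul_sub (g : Mot) (z w : ℂ) : g • z - g • w = g.u * (z - w) := by
  rw [smul_def, smul_def]; ring

theorem smul_add (g : Mot) (z w : ℂ) : g • (z + w) = g • z + g.u * w := by
  rw [smul_def, smul_def]; ring

@[simp] theorem dist_smul (g : Mot) (z w : ℂ) : dist (g • z) (g • w) = dist z w := by
  rw [dist_eq_norm, dist_eq_norm, smul_sub, norm_mul, Circle.norm_coe, one_mul]

/-- The motion as a bijective isometry. -/
noncomputable def iso (g : Mot) : ℂ ≃ᵢ ℂ where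
  toFun z := g • z
  invFun z := g⁻¹ • z
  left_inv z := inv_smul_smul g z
  right_inv z := smul_inv_smul g z
  isometry_toFun := Isometry.of_dist_eq (dist_smul g)

@[simp] theorem iso_apply (g : Mot) (z : ℂ) : g.iso z = g • z := rfl

theorem continuous_act (g : Mot) : Continuous fun z : ℂ => g • z := g.iso.continuous

theorem smul_lin (g : Mot) (a b : ℂ) (s : ℝ) :
    g • (((1 - s : ℝ) : ℂ) * a + (s : ℂ) * b) = ((1 - s : ℝ) : ℂ) * g • a + (s : ℂ) * g • b := by
  simp only [smul_def]; push_cast; ring

theorem image_segment (g : Mot) (a b : ℂ) :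
    (fun z => g • z) '' segment ℝ a b = segment ℝ (g • a) (g • b) := by
  simp only [segment_eq_image, image_image]
  refine image_congr fun s _ => ?_
  simpa only [Complex.real_smul] using g.smul_lin a b s

theorem image_openSegment (g : Mot) (a b : ℂ) :
    (fun z => g • z) '' openSegment ℝ a b = openSegment ℝ (g • a) (g • b) := by
  simp only [openSegment_eq_image, image_image]
  refine image_congr fun s _ => ?_
  simpa only [Complex.real_smul] using g.smul_lin a b s

theorem image_interior (g : Mot) (s : Set ℂ) :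
    (fun z => g • z) '' interior s = interior ((fun z => g • z) '' s) :=
  g.iso.toHomeomorph.image_interior s

theorem image_frontier (g : Mot) (s : Set ℂ) :
    (fun z => g • z) '' frontier s = frontier ((fun z => g • z) '' s) :=
  g.iso.toHomeomorph.image_frontier s

theorem image_closure (g : Mot) (s : Set ℂ) :
    (fun z => g • z) '' closure s = closure ((fun z => g • z) '' s) :=
  g.iso.toHomeomorph.image_closure s

theorem mem_image (g : Mot) (s : Set ℂ) (z : ℂ) : z ∈ (fun z => g • z) '' s ↔ g⁻¹ • z ∈ s :=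
  ⟨fun ⟨w, hw, e⟩ => by rwa [← e, inv_smul_smul], fun h => ⟨_, h, smul_inv_smul g z⟩⟩

/-- A motion is fixed by its rotation part and the image of one point. -/
theorem eq_of (g h : Mot) (z : ℂ) (hu : g.u = h.u) (hz : g • z = h • z) : g = h := by
  refine Mot.ext hu ?_
  rw [smul_def, smul_def, hu] at hz
  exact add_left_cancel hz

end Mot

/-- Translation along the real axis. -/
noncomputable def tr (x : ℝ) : Mot := ⟨1, x⟩

/-- Rotation about the origin. -/
noncomputable def rot (x : ℝ) : Mot := ⟨Circle.exp x, 0⟩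

/-- The sign of a flag. -/
def sg (b : Bool) : ℝ := if b then 1 else -1

@[simp] theorem sg_true : sg true = 1 := rfl
@[simp] theorem sg_false : sg false = -1 := rfl
theorem sg_not (b : Bool) : sg (!b) = -sg b := by cases b <;> simp
theorem sg_mul_self (b : Bool) : sg b * sg b = 1 := by cases b <;> simp
theorem abs_sg (b : Bool) : |sg b| = 1 := by cases b <;> simp

theorem tr_add (x y : ℝ) : tr (x + y) = tr x * tr y := by
  refine Mot.ext (by simp [tr]) ?_
  simp [tr, add_comm]

theorem rot_add (x y : ℝ) : rot (x + y) = rot x * rot y := by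
  refine Mot.ext (by simp [rot, Circle.exp_add]) ?_
  simp [rot]

end Pool.Agent.Ng
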