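import Pool.Agent.P.MP_6145c0_co.Ng.LimA
import Pool.Agent.P.MP_6145c0_co.Ng.XA

/-! Selection of windows and types on a part of positive density. -/

open Set Filter

namespace Pool.Agent.Ng

theorem select2 {α κ β : Type} [Finite κ] (S : ℕ → Finset α) (hS : ∀ᶠ k in U, (S k).Nonempty)
    (val : ℕ → κ → ℝ) (hval : ∀ k θ, 0 < val k θ) (M N₀ : ℕ → ℕ) (hM : Tendsto M U atTop)
    (hN₀ : Tendsto N₀ U atTop) {A : Set β} (hA : A.Finite) (Q : ℕ → α → β → ℝ → Prop)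
    (bd : ℕ → ℝ)
    (h : ∀ᶠ k in U, ∀ t ∈ S k, ∃ ty : ℕ → κ, ∑ i ∈ Finset.range (M k), val k (ty i) ≤ bd k ∧
      ∀ l ≤ M k, ∃ a ∈ A, Q k t a (∑ i ∈ Finset.range l, val k (ty i))) :
    ∃ (θ : κ) (a : β) (N : ℕ → ℕ) (b : ℕ → ℝ) (S2 : ℕ → Finset (α × ℕ)) (δ : ℝ), 0 < δ ∧
      Tendsto N U atTop ∧ (∀ k, N k ≤ N₀ k) ∧ ∀ᶠ k in U, N k * val k θ ≤ bd k ∧
        δ * ((S k).card * N k) ≤ (S2 k).card ∧ ∀ x ∈ S2 k, x.1 ∈ S k ∧ x.2 < N k ∧
          ∃ pos, b k + x.2 * val k θ ≤ pos ∧ pos < b k + (x.2 + 1) * val k θ ∧ Q k x.1 a pos := by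
  classical
  obtain ⟨k0, ⟨t0, m0⟩, h0⟩ := (hS.and h).exists
  obtain ⟨ty0, -, h1⟩ := h0 t0 m0
  obtain ⟨a0, ha0, -⟩ := h1 0 (Nat.zero_le _)
  have : Nonempty κ := ⟨ty0 0⟩
  have : Nonempty A := ⟨⟨a0, ha0⟩⟩
  have : Finite A := hA.to_subtype
  let ty : ℕ → α → ℕ → κ := fun k t => Classical.epsilon fun ty : ℕ → κ =>
    ∑ i ∈ Finset.range (M k), val k (ty i) ≤ bd k ∧
      ∀ l ≤ M k, ∃ a ∈ A, Q k t a (∑ i ∈ Finset.range l, val k (ty i))
  have hty : ∀ᶠ k in U, ∀ t ∈ S k, ∑ i ∈ Finset.range (M k), val k (ty k t i) ≤ bd k ∧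
      ∀ l ≤ M k, ∃ a ∈ A, Q k t a (∑ i ∈ Finset.range l, val k (ty k t i)) :=
    h.mono fun k e t ht => Classical.epsilon_spec (e t ht)
  obtain ⟨b0, θ, N, S', δ, j, d0, hN, hle, hs⟩ :=
    Pool.Agent.P.MP_6145c0_co.Ng.xa_select (hyperfilter ℕ) U_le S hS ty val
      (Eventually.of_forall hval) M N₀ hM hN₀
  let av : ℕ → α × ℕ → A := fun k x => Classical.epsilon fun a : A =>
    Q k x.1 a (∑ i ∈ Finset.range (j k x.1 x.2), val k (ty k x.1 i))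
  obtain ⟨⟨p, a⟩, δ', d1, hp⟩ := Pool.Agent.P.MP_6145c0_co.Ng.xa_pigeon (hyperfilter ℕ)
    (fun k => S' k ×ˢ Finset.range (N k))
    fun k x => ((fun i : Fin b0 => ty k x.1 i), av k x)
  refine ⟨θ, a, N, fun k => ∑ i : Fin b0, val k (p i),
    fun k => (S' k ×ˢ Finset.range (N k)).filter fun x =>
      ((fun i : Fin b0 => ty k x.1 i), av k x) = (p, a), δ' * δ, mul_pos d1 d0, hN, hle,
    (hS.and (hty.and (hs.and hp))).mono ?_⟩
  rintro k ⟨e0, e1, ⟨e2, e3, e4⟩, e5⟩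
  refine ⟨?_, ?_, fun x hx => ?_⟩
  · have c0 : (0 : ℝ) < (S' k).card := (mul_pos d0 (Nat.cast_pos.2 e0.card_pos)).trans_le e3
    obtain ⟨t, ht⟩ := Finset.card_pos.1 (Nat.cast_pos.1 c0)
    refine (e4 t ht).1.trans (le_trans ?_ (e1 t (e2 ht)).1)
    exact Finset.sum_le_sum_of_subset_of_nonneg
      (fun i hi => Finset.mem_range.2 (Finset.mem_Ico.1 hi).2) fun i _ _ => (hval k _).le
  · rw [Finset.card_product, Finset.card_range, Nat.cast_mul] at e5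
    refine le_trans ?_ (e5.trans (le_of_eq (by congr)))
    rw [mul_assoc, ← mul_assoc δ]
    exact mul_le_mul_of_nonneg_left (mul_le_mul_of_nonneg_right e3 (Nat.cast_nonneg _)) d1.le
  · obtain ⟨m1, m2⟩ := Finset.mem_filter.1 hx
    obtain ⟨m1, m3⟩ := Finset.mem_product.1 m1
    have m4 := Finset.mem_range.1 m3
    obtain ⟨j1, j2, j3, j4⟩ := (e4 _ m1).2 _ m4
    obtain ⟨a', ha', hq⟩ := (e1 _ (e2 m1)).2 _ j2.le
    have hq' : Q k x.1 (av k x) (∑ i ∈ Finset.range (j k x.1 x.2), val k (ty k x.1 i)) :=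
      Classical.epsilon_spec (p := fun a : A =>
        Q k x.1 a (∑ i ∈ Finset.range (j k x.1 x.2), val k (ty k x.1 i))) ⟨⟨a', ha'⟩, hq⟩
    obtain ⟨n1, n2⟩ := Prod.mk.inj m2
    have e : ∑ i ∈ Finset.range (j k x.1 x.2), val k (ty k x.1 i) = ∑ i : Fin b0, val k (p i) +
        ∑ i ∈ Finset.Ico b0 (j k x.1 x.2), val k (ty k x.1 i) := by
      rw [← Finset.sum_range_add_sum_Ico _ j1, Finset.sum_range, ← n1]
    refine ⟨e2 m1, m4, _, ?_, ?_, n2 ▸ hq'⟩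
    · rw [e]
      linarith
    · rw [e]
      linarith

open Classical in
/-- A dense part on which one of two events holds has a dense part on which the same one holds. -/
theorem dense_or {α : Type} (S : ℕ → Finset α) (p q : ℕ → α → Prop) {δ : ℝ} (hδ : 0 < δ)
    (h : ∀ᶠ k in U, δ * (S k).card ≤ ((S k).filter fun t => p k t ∨ q k t).card) :
    (∀ᶠ k in U, δ / 2 * (S k).card ≤ ((S k).filter (p k)).card) ∨
      ∀ᶠ k in U, δ / 2 * (S k).card ≤ ((S k).filter (q k)).card := by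
  refine U_or.1 (h.mono fun k e => ?_)
  have a : (((S k).filter fun t => p k t ∨ q k t).card : ℝ) ≤
      ((S k).filter (p k)).card + ((S k).filter (q k)).card := by
    rw [Finset.filter_or]
    exact_mod_cast Finset.card_union_le _ _
  by_contra hn
  rw [not_or, not_le, not_le] at hn
  linarith [hn.1, hn.2]

end Pool.Agent.Ng
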