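import Pool.Agent.P.MP_6145c0_co.Ng.Snoc
import Pool.Agent.P.MP_6145c0_co.Ng.Leg
import Pool.Agent.P.MP_6145c0_co.Ng.Sel
import Pool.Agent.P.MP_6145c0_co.Ng.LimC

/-! Nests along the ultrafilter: start, extension, last row. -/

open Set Real Filter

namespace Pool.Agent.Ng

variable {n : ℕ} [NeZero n]

/-- A nest of bounded depth in almost every patch. -/
structure Nest (T : ℕ → Proto n) (P : ∀ k, Patch (T k) k) where
  Y : NestTy n
  Z : ℕ → NestDat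
  ty : ℕ → Bool × ZMod n
  pos : 0 < Y.δ
  fam : ∀ᶠ k in U, Fam (T k) (P k).all Y (Z k)
  tend : ∀ i < Y.m, Tendsto (fun k => (Z k).N i) U atTop
  s_eq : ∀ i < Y.m, ∀ k, (Z k).s i = (T k).val (Y.fan i) (ty i)
  monoA : ∀ i < Y.m, Mono T fun k => ((Z k).A i).u
  monoB : ∀ i < Y.m, Mono T fun k => ((Z k).B i).u
  dp : ∃ d, ∀ᶠ k in U, ∀ t ∈ (Z k).S, ((Z k).mem Y Y.m t).1 ∈ (P k).lay d

variable {T : ℕ → Proto n} {P : ∀ k, Patch (T k) k}

theorem exists_nest_zero (T : ℕ → Proto n) (P : ∀ k, Patch (T k) k) :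
    ∃ N : Nest T P, N.Y.m = 0 := by
  choose x hx using fun k => (P k).ne
  obtain ⟨s, -, hs⟩ := U_fin (A := (univ : Set Bool)) (toFinite _) (p := fun k s => (x k).1 = s)
    (Eventually.of_forall fun k => ⟨_, trivial, rfl⟩)
  refine ⟨⟨⟨0, 1, 0, fun _ => false, fun _ => true, fun _ => 0, fun _ => s, fun _ => 0⟩,
    fun k => ⟨0, {0}, 0, 0, 1, 1, fun _ _ => (x k).2, 0⟩, fun _ => (s, 0), one_pos,
    Eventually.of_forall fun k => ?_, by simp, by simp, by simp, by simp,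
    0, hs.mono fun k e t _ => ?_⟩, rfl⟩
  · refine ⟨(P k).disj, by simp, by simp, by simp, by simp, by simp, by simp, by simp, by simp,
      by simp, by simp, fun t _ i h1 h2 => ?_, by simp, by simp⟩
    exact absurd (h1.trans_le h2) (lt_irrefl _)
  · show (s, (x k).2) ∈ _
    rw [← e]
    exact hx k

namespace Nest

variable (N : Nest T P)

/-- The centre of the first fan. -/
def Sg (k : ℕ) : Set ℂ :=
  {z | Fam (T k) (P k).all N.Y (N.Z k) ∧ 0 < N.Y.m ∧ N.Y.fan 0 = true ∧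
    ∃ t ∈ (N.Z k).S, z = ((N.Z k).F 0 t * (N.Z k).A 0).b}

/-- The last member. -/
def last (k : ℕ) (t : ℕ → ℕ) : Tile := ((N.Z k).mem N.Y N.Y.m t).1

theorem sg_sub (k : ℕ) : (N.Sg k).Subsingleton := by
  rintro _ ⟨h, -, -, t, ht, rfl⟩ _ ⟨-, -, -, t', ht', rfl⟩
  rw [h.dep t ht t' ht' 0 (Nat.zero_le _) (by simp)]

theorem h30_pos : ∀ᶠ k in U, ∀ i < N.Y.m, 0 < (N.Z k).N i :=
  (eventually_all_finite (finite_lt_nat N.Y.m)).2 fun i hi => (N.tend i hi).eventually_gt_atTop 0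

theorem nonempty : ∀ᶠ k in U, (N.Z k).S.Nonempty := by
  filter_upwards [N.fam, N.h30_pos] with k h1 h2 using h1.nonempty N.pos h2

open Classical in
/-- Few last members are close to a corner at the centre with a missing link. -/
theorem neg (hr : ∀ i, 0 < i → i < N.Y.m → N.Y.fan i = false) (r : ℕ) (ε : ℝ) (hε : 0 < ε) :
    ∀ᶠ k in U, (((N.Z k).S.filter fun t => (P k).BadEnd (N.Sg k) (N.last k t) r).card : ℝ) ≤
      ε * (N.Z k).S.card := by
  by_cases h0 : 0 < N.Y.m ∧ N.Y.fan 0 = true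
  swap
  · refine Eventually.of_forall fun k => ?_
    rw [Finset.filter_false_of_mem fun t _ ⟨_, _, _, h, _⟩ => h0 ⟨h.2.1, h.2.2.1⟩]
    simp only [Finset.card_empty, Nat.cast_zero]
    positivity
  obtain ⟨d, hd⟩ := N.dp
  set A := (Finset.univ : Finset Bool) ×ˢ (finite_words n r).toFinset with hA
  have hδ := N.pos
  filter_upwards [N.fam, hd, U_ge (d + r + 1), ((tendsto_natCast_atTop_atTop (R := ℝ)).comp
    (N.tend 0 h0.1)).eventually_ge_atTop (A.card / (N.Y.δ * ε)), N.h30_pos] with k h1 h2 h3 h4 h5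
  set G : Bool × List (Stp n) → Finset (ℕ → ℕ) := fun a => (N.Z k).S.filter fun t => ∃ c,
    (P k).cx.Walk a.2 (N.last k t) c.1 ∧ (T k).pt c ∈ N.Sg k ∧ (P k).cx.End a.1 c with hG
  have hsub : ((N.Z k).S.filter fun t => (P k).BadEnd (N.Sg k) (N.last k t) r) ⊆ A.biUnion G :=
    fun t ht => by
      obtain ⟨ht, b, c, ⟨w, a1, a2⟩, a3⟩ := Finset.mem_filter.1 ht
      exact Finset.mem_biUnion.2 ⟨(b, w), by simpa [hA] using a1,
        Finset.mem_filter.2 ⟨ht, c, a2, a3⟩⟩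
  have hfib : ∀ a ∈ A, (G a).card * (N.Z k).N 0 ≤ ∏ i ∈ Finset.range N.Y.m, (N.Z k).N i :=
    fun a ha => h1.card_fiber h0.1 (Finset.filter_subset _ _) fun t ht t' ht' => by
      obtain ⟨ht, c, a1, a2, a3⟩ := Finset.mem_filter.1 ht
      obtain ⟨ht', c', b1, b2, b3⟩ := Finset.mem_filter.1 ht'
      have hw : a.2.length ≤ r := by simpa [hA] using (Finset.mem_product.1 ha).2
      have l1 := Patch.near_lay (by omega) (h2 t ht) ⟨a.2, hw, a1⟩
      have l2 := Patch.near_lay (by omega) (h2 t' ht') ⟨a.2, hw, b1⟩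
      have e := Patch.end_unique ((P k).sub _ l1) ((P k).sub _ l2)
        (Patch.deep (by omega) l1 ((T k).pt_mem c)) (N.sg_sub k b2 a2) a3 b3
      subst e
      exact h1.fst_eq h0.1 h0.2 hr ht ht' (congrArg Prod.snd (a1.inj b1))
  have e1 : (((N.Z k).S.filter fun t => (P k).BadEnd (N.Sg k) (N.last k t) r).card : ℝ) *
      (N.Z k).N 0 ≤ A.card * ∏ i ∈ Finset.range N.Y.m, ((N.Z k).N i : ℝ) := by
    have := Nat.mul_le_mul_right ((N.Z k).N 0)
      ((Finset.card_le_card hsub).trans Finset.card_biUnion_le)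
    rw [Finset.sum_mul] at this
    exact_mod_cast this.trans (Finset.sum_le_card_nsmul _ _ _ hfib)
  have e2 : (0 : ℝ) < (N.Z k).N 0 := by exact_mod_cast h5 0 h0.1
  have e3 : (A.card : ℝ) ≤ (N.Z k).N 0 * (N.Y.δ * ε) := (div_le_iff₀ (by positivity)).1 h4
  have e4 : (0 : ℝ) ≤ ∏ i ∈ Finset.range N.Y.m, ((N.Z k).N i : ℝ) := by positivity
  refine le_of_mul_le_mul_right (e1.trans ((mul_le_mul_of_nonneg_right e3 e4).trans ?_)) e2
  have := mul_le_mul_of_nonneg_left h1.dens (mul_pos e2 hε).le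
  linarith

/-- A dense part of the last members has long fans, or long runs. -/
theorem bad (hT : ∀ k, ¬Tiles (T k).C) (hr : ∀ i, 0 < i → i < N.Y.m → N.Y.fan i = false) :
    ∃ (φ : Bool) (r : ℕ) (M : ℕ → ℕ) (S : ℕ → Finset (ℕ → ℕ)) (δ : ℝ), 0 < δ ∧
      Tendsto M U atTop ∧ ∀ᶠ k in U, S k ⊆ (N.Z k).S ∧ δ * (N.Z k).S.card ≤ (S k).card ∧
        ∀ t ∈ S k, if φ then (P k).BadFan (N.Sg k) (N.last k t) r (M k)
          else (P k).BadRun (N.last k t) r (M k) := by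
  classical
  rcases Pool.Agent.P.MP_6145c0_co.Ng.xa_dich (hyperfilter ℕ) U_le (fun k => (N.Z k).S) N.nonempty
    (fun k t r M => (P k).BadFan (N.Sg k) (N.last k t) r M ∨ (P k).BadRun (N.last k t) r M)
    (fun k t r => (P k).BadEnd (N.Sg k) (N.last k t) r) (N.neg hr) with
    ⟨r, M, δ, hM, hδ, h⟩ | ⟨t, ht, h⟩
  · rcases dense_or (fun k => (N.Z k).S)
      (fun k t => (P k).BadFan (N.Sg k) (N.last k t) r (M k))
      (fun k t => (P k).BadRun (N.last k t) r (M k)) hδ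
      (h.mono fun k hk => hk.trans (by rw [Finset.filter_congr_decidable])) with h | h
    · exact ⟨true, r, M, _, δ / 2, half_pos hδ, hM, h.mono fun k hk =>
        ⟨Finset.filter_subset _ _, hk, fun t ht => (Finset.mem_filter.1 ht).2⟩⟩
    · exact ⟨false, r, M, _, δ / 2, half_pos hδ, hM, h.mono fun k hk =>
        ⟨Finset.filter_subset _ _, hk, fun t ht => (Finset.mem_filter.1 ht).2⟩⟩
  · obtain ⟨d, hd⟩ := N.dp
    have G : Good T P N.Sg fun k => N.last k (t k) :=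
      ⟨N.sg_sub, ⟨d, (hd.and ht).mono fun k hk => hk.1 _ hk.2⟩, fun r => (h r).imp fun M hM =>
        hM.mono fun k hk => ⟨fun e => hk.1 (Or.inl e), fun e => hk.1 (Or.inr e), hk.2⟩⟩
    obtain ⟨k, hk⟩ := G.tiles.exists
    exact absurd hk (hT k)

/-- The data of one more level. -/
theorem level (hT : ∀ k, ¬Tiles (T k).C) (hr : ∀ i, 0 < i → i < N.Y.m → N.Y.fan i = false) :
    ∃ (φ : Bool) (θ : Bool × ZMod n) (a : LD n) (M : ℕ → ℕ) (b : ℕ → ℝ)
      (S2 : ℕ → Finset ((ℕ → ℕ) × ℕ)) (δ c : ℝ) (d : ℕ), 0 < δ ∧ Tendsto M U atTop ∧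
      (0 < N.Y.m → ∀ k, M k ≤ (N.Z k).N (N.Y.m - 1)) ∧ ∀ᶠ k in U,
        (M k * (T k).val φ θ ≤ if φ then 2 * π else c * (T k).D) ∧
        δ * ((N.Z k).S.card * M k) ≤ (S2 k).card ∧ ∀ x ∈ S2 k, x.1 ∈ (N.Z k).S ∧ x.2 < M k ∧
          ∃ pos y, b k + x.2 * (T k).val φ θ ≤ pos ∧ pos < b k + (x.2 + 1) * (T k).val φ θ ∧
            (P k).Lev φ a (N.last k x.1) y pos ∧ y ∈ (P k).lay d ∧
            (φ = true → ((N.last k x.1).2 * a.A (T k) (N.last k x.1).1).b ∉ N.Sg k) := by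
  obtain ⟨φ, r, M, S, δ, hδ, hM, h⟩ := N.bad hT hr
  obtain ⟨d, hd⟩ := N.dp
  have hS : ∀ᶠ k in U, (S k).Nonempty := by
    filter_upwards [h, N.nonempty] with k h1 h2
    have h3 : (0 : ℝ) < (N.Z k).S.card := by exact_mod_cast h2.card_pos
    exact Finset.card_pos.1 (by exact_mod_cast (mul_pos hδ h3).trans_le h1.2.1)
  obtain ⟨θ, a, M', b, S2, δ', hδ', hM', h1, h2⟩ := select2 S hS (fun k => (T k).val φ)
    (fun k => (T k).val_pos φ) M (fun k => if 0 < N.Y.m then (N.Z k).N (N.Y.m - 1) else k) hM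
    (by
      by_cases e : 0 < N.Y.m
      · simpa only [if_pos e] using N.tend _ (by omega)
      · simp only [if_neg e]
        exact tendsto_id'.2 U_le)
    (finite_LD n (r + 1)) (fun k t a pos => ∃ y, (P k).Lev φ a (N.last k t) y pos ∧
      y ∈ (P k).lay (d + r + 1) ∧
      (φ = true → ((N.last k t).2 * a.A (T k) (N.last k t).1).b ∉ N.Sg k))
    (fun k => if φ then 2 * π else (2 * r + 2) * (T k).D) (by
      filter_upwards [h, hd, U_ge (d + r + 3)] with k h1 h2 h3 t ht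
      have h4 := h1.2.2 t ht
      cases φ
      · obtain ⟨ty, a1, a2⟩ := Patch.run_seq (h2 t (h1.1 ht)) h3 h4
        exact ⟨ty, a1, fun l hl => let ⟨a, ha, y, b1, b2⟩ := a2 l hl
          ⟨a, ha, y, b1, b2, fun e => absurd e Bool.false_ne_true⟩⟩
      · obtain ⟨ty, a1, a2⟩ := Patch.fan_seq (h2 t (h1.1 ht)) h3 h4
        exact ⟨ty, a1, fun l hl => let ⟨a, ha, y, b1, b2, b3⟩ := a2 l hl
          ⟨a, ha, y, b1, b2, fun _ => b3⟩⟩)
  refine ⟨φ, θ, a, M', b, S2, δ' * δ, 2 * r + 2, d + r + 1, mul_pos hδ' hδ, hM',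
    fun e k => by simpa only [if_pos e] using h1 k, ?_⟩
  filter_upwards [h, h2] with k h3 h4
  refine ⟨h4.1, le_trans ?_ h4.2.1, fun x hx => ?_⟩
  · rw [mul_assoc, ← mul_assoc δ]
    exact mul_le_mul_of_nonneg_left (mul_le_mul_of_nonneg_right h3.2.1 (Nat.cast_nonneg _)) hδ'.le
  · obtain ⟨a1, a2, p, a3, a4, y, a5⟩ := h4.2.2 x hx
    exact ⟨h3.1 a1, a2, p, y, a3, a4, a5⟩

/-- A nest whose later levels are runs can be extended. -/
theorem extend (hT : ∀ k, ¬Tiles (T k).C) (hr : ∀ i, 0 < i → i < N.Y.m → N.Y.fan i = false) :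
    ∃ N' : Nest T P, N'.Y.m = N.Y.m + 1 ∧
      ∀ i < N.Y.m, N'.Y.fan i = N.Y.fan i ∧ N'.ty i = N.ty i := by
  obtain ⟨φ, θ, a, M, b, S2, δ, c, d, hδ, hM, hM', h⟩ := N.level hT hr
  obtain ⟨d0, hd0⟩ := N.dp
  obtain ⟨Q, hQ⟩ := leg_of_walk a.w2 (N.Y.kd N.Y.m) (N.Y.ie N.Y.m) a.f
  have key : ∀ᶠ k in U, ∃ py : (ℕ → ℕ) × ℕ → ℝ × Tile, ∀ x ∈ S2 k,
      b k + x.2 * (T k).val φ θ ≤ (py x).1 ∧ (py x).1 < b k + (x.2 + 1) * (T k).val φ θ ∧
      (P k).Lev φ a (N.last k x.1) (py x).2 (py x).1 ∧ (py x).2 ∈ (P k).lay d ∧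
      (φ = true → ((N.last k x.1).2 * a.A (T k) (N.last k x.1).1).b ∉ N.Sg k) :=
    h.mono fun k hk => by
      have : Nonempty Tile := ⟨(true, 1)⟩
      choose! p y hy using fun x hx => (hk.2.2 x hx).2.2
      exact ⟨fun x => (p x, y x), hy⟩
  have : Nonempty Tile := ⟨(true, 1)⟩
  obtain ⟨py, hp⟩ := key.choice
  have ey : ∀ᶠ k in U, ∀ x ∈ S2 k, (a.s, (py k x).2.2) = (py k x).2 :=
    hp.mono fun k hk x hx => by rw [← (hk x hx).2.2.1.kd]
  refine ⟨⟨N.Y.snoc (δ * N.Y.δ) (max N.Y.c c) φ (a.sb φ) Q a.s a.j,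
    fun k => (N.Z k).snoc N.Y.m (M k) (S2 k) ((T k).val φ θ) (b k) (a.A (T k) (N.Y.kd N.Y.m))
      (a.B (T k)) (fun x => (py k x).2.2) fun x => (py k x).1,
    Function.update N.ty N.Y.m θ, mul_pos hδ N.pos, ?_, fun i hi => ?_, fun i hi k => ?_,
    fun i hi => ?_, fun i hi => ?_, d, ?_⟩, rfl, fun i hi =>
      ⟨Function.update_of_ne hi.ne _ _, Function.update_of_ne hi.ne _ _⟩⟩
  · filter_upwards [N.fam, h, hp, ey, hd0] with k h1 h2 h3 h4 h5
    refine h1.snoc hr (le_max_left _ _) hδ.le le_rfl h2.2.1 (fun e => hM' e k)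
      ((T k).val_pos _ _) (h2.1.trans ?_) (a.B_v _) (fun x hx => ?_) fun _ => ?_
    · split_ifs
      exacts [le_rfl, mul_le_mul_of_nonneg_right (le_max_right _ _) (T k).D_pos.le]
    · obtain ⟨a1, a2, a3, a4, a5⟩ := h3 x hx
      have b1 := (h2.2.2 x hx).1
      exact ⟨b1, (h2.2.2 x hx).2.1, a1, a2, a3.fr, by rw [h4 x hx]; exact (P k).sub _ a4,
        fun e1 e2 e3 e => a5 e3 ⟨h1, e1, e2, x.1, b1, e⟩⟩
    · obtain ⟨κ, p, a1, a2, a3, a4⟩ := hQ (T k)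
      refine ⟨κ, p, a.f, a1, a2, fun x hx => ?_⟩
      obtain ⟨W, b1, b2, b3⟩ := (h3 x hx).2.2.1.wall
      have b4 : mv ((N.Z k).F N.Y.m x.1) (κ Q) = W := by
        rw [a3]; exact ((P k).geo.walk_eq b1).symm
      rw [h4 x hx, b4]
      exact ⟨a4 k (P k) _ W _ ((P k).sub _ (h5 _ (h2.2.2 x hx).1)) b1 b2, fun e => ⟨b3 e, b2⟩⟩
  · rcases (Nat.lt_succ_iff.1 hi).eq_or_lt with rfl | e
    · simpa only [NestDat.snoc, Function.update_self] using hM
    · simpa only [NestDat.snoc, Function.update_of_ne e.ne] using N.tend i e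
  · rcases (Nat.lt_succ_iff.1 hi).eq_or_lt with rfl | e
    · simp only [NestDat.snoc, NestTy.snoc, Function.update_self]
    · simpa only [NestDat.snoc, NestTy.snoc, Function.update_of_ne e.ne] using N.s_eq i e k
  · rcases (Nat.lt_succ_iff.1 hi).eq_or_lt with rfl | e
    · simpa only [NestDat.snoc, Function.update_self, LD.A, Mot.mul_u] using
        (mono_Kw _ _).mul (mono_Fr _ _ _)
    · simpa only [NestDat.snoc, Function.update_of_ne e.ne] using N.monoA i e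
  · rcases (Nat.lt_succ_iff.1 hi).eq_or_lt with rfl | e
    · simpa only [NestDat.snoc, Function.update_self, LD.B, Mot.inv_u] using (mono_Fr _ _ _).inv
    · simpa only [NestDat.snoc, Function.update_of_ne e.ne] using N.monoB i e
  · filter_upwards [N.fam, h, hp, ey] with k h1 h2 h3 h4 t ht
    obtain ⟨x, hx, e⟩ := h1.snoc_mem (δ := δ * N.Y.δ) (c := max N.Y.c c) (φ := φ) (sb := a.sb φ)
      (s := a.s) (Q := Q) (j := a.j) (fun x hx => (h2.2.2 x hx).1) ht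
    exact (e.trans (h4 x hx)).symm ▸ (h3 x hx).2.2.2.1

/-- The last level alone is a nest. -/
theorem last_row {m : ℕ} (hm : N.Y.m = m + 1) :
    ∃ N' : Nest T P, N'.Y.m = 1 ∧ N'.Y.fan 0 = N.Y.fan m ∧ N'.ty 0 = N.ty m := by
  have hm' : m < N.Y.m := by omega
  obtain ⟨t0, h0⟩ : ∃ t0 : ℕ → ℕ → ℕ, ∀ᶠ k in U,
      Fam (T k) (P k).all (N.Y.row m) ((N.Z k).row m (t0 k)) :=
    Eventually.choice ((N.fam.and N.h30_pos).mono fun k hk => hk.1.row hm N.pos hk.2)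
  obtain ⟨d, hd⟩ := N.dp
  refine ⟨⟨N.Y.row m, fun k => (N.Z k).row m (t0 k), fun _ => N.ty m, N.pos, h0,
    fun _ _ => N.tend m hm', fun _ _ => N.s_eq m hm', fun _ _ => N.monoA m hm',
    fun _ _ => N.monoB m hm', d, hd.mono fun k hk t ht => ?_⟩, rfl, rfl, rfl⟩
  obtain ⟨t', h1, h2⟩ := row_mem (Y := N.Y) ht
  exact h2.symm ▸ hm ▸ hk t' h1

end Nest

end Pool.Agent.Ng
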