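import Pool.Agent.P.MP_6145c0_co.Ng.Geo

/-! A patch of tiles in layers and its complex of links. -/

open Set Real

namespace Pool.Agent.Ng

variable {n : ℕ}

/-- A finite packing by tiles, with `K` layers around a centre. -/
structure Patch (T : Proto n) (K : ℕ) where
  all : Set Tile
  lay : ℕ → Set Tile
  fin : all.Finite
  sub : ∀ i, lay i ⊆ all
  mono : Monotone lay
  ne : (lay 0).Nonempty
  disj : all.Pairwise fun x y => Disjoint (interior (T.tset x)) (interior (T.tset y))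
  sur : ∀ i < K, ∀ x ∈ lay i, T.tset x ⊆ interior (⋃ y ∈ lay (i + 1), T.tset y)

theorem exists_patch (T : Proto n) {K : ℕ} (h : Surrounded T.C K) : Nonempty (Patch T K) := by
  obtain ⟨P, h0, h1, h2⟩ := h
  have hτ : ∀ D : Set ℂ, ∃ x : Tile, (∃ f : ℂ ≃ᵢ ℂ, D = f '' T.C) → T.tset x = D := fun D => by
    by_cases hD : ∃ f : ℂ ≃ᵢ ℂ, D = f '' T.C
    · obtain ⟨f, rfl⟩ := hD
      obtain ⟨x, hx⟩ := T.exists_tile f
      exact ⟨x, fun _ => hx⟩
    · exact ⟨(false, 1), fun k => absurd k hD⟩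
  choose τ hτ using hτ
  have hm : ∀ j ≤ K, ∀ i ≤ j, P i ⊆ P j := fun j hj i hi => by
    induction j, hi using Nat.le_induction with
    | base => exact Subset.rfl
    | succ j _ ih => exact (ih (by omega)).trans (h2 j hj).1.subset
  have ht : ∀ i ≤ K, ∀ D ∈ P i, T.tset (τ D) = D := fun i hi D hD => hτ D ((h1 i hi).2.1 D hD)
  refine ⟨⟨τ '' P K, fun i => τ '' P (min i K), (h1 K le_rfl).1.image _,
    fun i => image_mono (hm K le_rfl _ (min_le_right _ _)),
    fun i j hij => image_mono (hm _ (min_le_right _ _) _ (min_le_min_right _ hij)),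
    ⟨τ T.C, mem_image_of_mem _ (by simp [h0])⟩, ?_, ?_⟩⟩
  · rintro _ ⟨A, hA, rfl⟩ _ ⟨B, hB, rfl⟩ hne
    rw [ht K le_rfl A hA, ht K le_rfl B hB]
    exact (h1 K le_rfl).2.2 hA hB fun e => hne (congrArg τ e)
  · rintro i hi _ ⟨D, hD, rfl⟩
    rw [min_eq_left hi.le] at hD
    have e : (⋃ y ∈ τ '' P (min (i + 1) K), T.tset y) = ⋃₀ P (i + 1) := by
      rw [min_eq_left (show i + 1 ≤ K from hi), biUnion_image, sUnion_eq_biUnion]
      exact iUnion₂_congr fun B hB => ht _ hi B hB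
    rw [e, ht i hi.le D hD]
    intro z hz
    have := disjoint_right.1 ((h2 i hi).2 D hD) hz
    rwa [closure_compl, mem_compl_iff, not_not] at this

namespace Patch

variable {T : Proto n} {K : ℕ} (P : Patch T K)

/-- Two wedges at one point in one direction belong to one tile. -/
theorem eq_of_wedge {x y : Tile} (hx : x ∈ P.all) (hy : y ∈ P.all) {q : ℂ} {a : Circle} {b : Bool}
    (h : T.Wedge x q a b) (h' : T.Wedge y q a b) : x = y := by
  by_contra hn
  exact Proto.Wedge.meet T h h' (P.disj hx hy hn)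

theorem corner_eq {c c' : Tile × ZMod n} (hc : c.1 ∈ P.all) (hc' : c'.1 ∈ P.all) {b : Bool}
    (hp : T.pt c = T.pt c') (hr : T.ray b c = T.ray b c') : c = c' := by
  have w := T.wedge_corner b c le_rfl (T.ang_pos _)
  have w' := T.wedge_corner b c' le_rfl (T.ang_pos _)
  rw [← hp, ← hr] at w'
  have e := P.eq_of_wedge hc hc' w w'
  obtain ⟨x, i⟩ := c
  obtain ⟨x', j⟩ := c'
  obtain rfl : x = x' := e
  rw [T.pt_inj hp]

/-- The links of the patch. -/
def cx : Cx n Tile where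
  kd x := x.1
  L b c c' := c.1 ∈ P.all ∧ c'.1 ∈ P.all ∧ T.pt c' = T.pt c ∧ T.ray b c' = T.ray (!b) c
  fn h h' := P.corner_eq h.2.1 h'.2.1 (h.2.2.1.trans h'.2.2.1.symm) (h.2.2.2.trans h'.2.2.2.symm)
  inv h := ⟨h.2.1, h.1, h.2.2.1.symm, by rw [Bool.not_not]; exact h.2.2.2.symm⟩

theorem geo : Geo T P.cx id := ⟨fun _ => rfl, fun h => h.2.2.1, fun h => h.2.2.2⟩

variable {P} {b : Bool} {c c' e e' : Tile × ZMod n} {x y : Tile} {i : ℕ}

theorem link_ne (h : P.cx.L b c c') : c'.1 ≠ c.1 := by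
  obtain ⟨x, i⟩ := c
  obtain ⟨x', j⟩ := c'
  rintro (rfl : x' = x)
  obtain ⟨-, -, hp, hr⟩ := h
  obtain rfl : j = i := T.pt_inj hp
  rw [T.ray_not, left_eq_mul, Circle.exp_eq_one] at hr
  obtain ⟨m, hm⟩ := hr
  have h1 := T.ang_pos (x', j)
  have h2 := T.ang_lt (x', j)
  have hp := Real.pi_pos
  have h3 : |(m : ℝ)| * (2 * π) = T.ang (x', j) := by
    rw [← abs_of_pos (a := 2 * π) (by positivity), ← abs_mul, ← hm, abs_mul, abs_sg, one_mul,
      abs_of_pos h1]
  have h4 : |(m : ℝ)| < 1 :=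
    lt_of_mul_lt_mul_right (a := 2 * π) (by rw [h3, one_mul]; exact h2) (by positivity)
  have h5 : m = 0 := Int.abs_lt_one_iff.1 (by exact_mod_cast h4)
  rw [h5] at h3
  simp at h3
  linarith

/-- A tile that touches layer `i` lies in layer `i + 1`. -/
theorem touch (hi : i < K) (hx : x ∈ P.lay i) (hy : y ∈ P.all) {z : ℂ} (hz : z ∈ T.tset x)
    (hz' : z ∈ T.tset y) : y ∈ P.lay (i + 1) := by
  have h1 := P.sur i hi x hx hz
  rw [← T.tset_clo y] at hz'
  obtain ⟨w, hw, hw'⟩ := mem_closure_iff.1 hz' _ isOpen_interior h1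
  obtain ⟨y', hy', hw⟩ := mem_iUnion₂.1 (interior_subset hw)
  by_cases e : y = y'
  · rwa [e]
  · exact absurd hw (T.not_mem_of_disj (P.disj hy (P.sub _ hy') e) hw')

theorem link_lay (hi : i < K) (hc : c.1 ∈ P.lay i) (h : P.cx.L b c c') :
    c'.1 ∈ P.lay (i + 1) := by
  exact touch hi hc h.2.1 (T.pt_mem c) (h.2.2.1 ▸ T.pt_mem c')

theorem walk_all {w : List (Stp n)} (hx : x ∈ P.all) (h : P.cx.Walk w x y) : y ∈ P.all := by
  induction w generalizing x with
  | nil =>
    obtain rfl : y = x := h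
    exact hx
  | cons st w ih =>
    obtain ⟨x', h1, -, h2⟩ := h
    exact ih h1.2.1 h2

theorem near_lay {r : ℕ} (hi : i + r ≤ K) (hx : x ∈ P.lay i) (h : P.cx.Near x r y) :
    y ∈ P.lay (i + r) := by
  obtain ⟨w, hw, h⟩ := h
  induction w generalizing x i r with
  | nil =>
    obtain rfl : y = x := h
    exact P.mono (Nat.le_add_right _ _) hx
  | cons st w ih =>
    obtain ⟨x', h1, -, h2⟩ := h
    rw [List.length_cons] at hw
    obtain ⟨r, rfl⟩ : ∃ r', r = r' + 1 := ⟨r - 1, by omega⟩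
    have h3 : x' ∈ P.lay (i + 1) := link_lay (c := (x, st.i)) (by omega) hx h1
    have h4 := ih (r := r) (by omega) h3 (by omega) h2
    rwa [show i + 1 + r = i + (r + 1) by omega] at h4

theorem ch_all {f : ℕ → Tile × ZMod n} {l : ℕ} (h0 : (f 0).1 ∈ P.all) (h : P.cx.Ch b f l)
    (hi : i ≤ l) : (f i).1 ∈ P.all := by
  rcases i with _ | i
  · exact h0
  · exact (h i hi).2.1

theorem nx_all (he : e.1 ∈ P.all) (h : P.cx.Nx b e e') : e'.1 ∈ P.all := by
  obtain ⟨-, f, l, f0, hf, -, rfl⟩ := h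
  rw [nr_fst]
  exact ch_all (by rwa [f0, fc_fst]) hf le_rfl

/-- An edge of the patch avoids the interior of each tile of the patch. -/
theorem edge_disj (he : e.1 ∈ P.all) (hy : y ∈ P.all) :
    Disjoint (T.edge e) (interior (T.tset y)) := by
  rw [disjoint_right]
  intro z hz hz'
  by_cases k : y = e.1
  · exact T.not_mem_edge (k ▸ hz) hz'
  · exact T.not_mem_of_disj (P.disj hy he k) hz (T.edge_subset e hz')

/-- Two darts of the patch with the same direction and a common inner point are equal. -/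
theorem dart_eq (he : e.1 ∈ P.all) (he' : e'.1 ∈ P.all) {z : ℂ} (hz : z ∈ T.oedge e)
    (hz' : z ∈ T.oedge e') (hd : T.dirn b e' = T.dirn b e) : e' = e := by
  have w := T.wedge_flat b e hz le_rfl Real.pi_pos
  have w' := T.wedge_flat b e' hz' le_rfl Real.pi_pos
  rw [hd] at w'
  have k := P.eq_of_wedge he he' w w'
  obtain ⟨x, i⟩ := e
  obtain ⟨x', j⟩ := e'
  obtain rfl : x = x' := k
  rw [T.oedge_unique hz (T.oedge_subset _ hz')]

/-- A point in the interior of the union of the patch. -/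
def Deep (P : Patch T K) (q : ℂ) : Prop := q ∈ interior (⋃ y ∈ P.all, T.tset y)

theorem deep (hi : i < K) (hx : x ∈ P.lay i) {q : ℂ} (hq : q ∈ T.tset x) : P.Deep q := by
  exact interior_mono (biUnion_subset_biUnion_left (P.sub _)) (P.sur i hi x hx hq)

end Patch

end Pool.Agent.Ng
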