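import Pool.Agent.P.MP_6145c0_co.Ng.Mot

/-! Polygons listed with the inside on the left, tiles, corners and darts. -/

open Set Real

namespace Pool.Agent.Ng

/-- A simple polygon, listed with the inside on the left of each edge. -/
structure Poly (n : ℕ) where
  set : Set ℂ
  v : ZMod n → ℂ
  d : ZMod n → Circle
  len : ZMod n → ℝ
  ang : ZMod n → ℝ
  len_pos : ∀ i, 0 < len i
  ang_pos : ∀ i, 0 < ang i
  ang_lt : ∀ i, ang i < 2 * π
  v_succ : ∀ i, v (i + 1) = v i + len i * d i
  d_ang : ∀ i, d i * Circle.exp (ang i) = -d (i - 1)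
  inj : Function.Injective v
  cpt : IsCompact set
  clo : closure (interior set) = set
  conn : IsPreconnected (interior set)
  fr : frontier set = ⋃ i, segment ℝ (v i) (v (i + 1))
  simple : ∀ i j z, z ∈ segment ℝ (v i) (v (i + 1)) → z ∈ segment ℝ (v j) (v (j + 1)) →
    i = j ∨ (i = j + 1 ∧ z = v i) ∨ (j = i + 1 ∧ z = v j)
  cone0 : ∀ i, ∃ r > 0, ∀ ρ θ : ℝ, 0 < ρ → ρ < r → 0 ≤ θ → θ < 2 * π →
    (v i + ρ * (d i * Circle.exp θ : Circle) ∈ set ↔ θ ≤ ang i)

/-- The radii `r1`, `r2` of the local pictures at the vertices and along the edges. -/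
structure Poly.Rad {n : ℕ} (Q : Poly n) (r1 r2 : ℝ) : Prop where
  r1_le : ∀ i, 2 * r1 ≤ Q.len i
  cone : ∀ (i) (ρ θ : ℝ), 0 < ρ → ρ < r1 → 0 ≤ θ → θ < 2 * π →
    (Q.v i + ρ * (Q.d i * Circle.exp θ : Circle) ∈ Q.set ↔ θ ≤ Q.ang i)
  near : ∀ i j z, z ∈ segment ℝ (Q.v j) (Q.v (j + 1)) → dist z (Q.v i) < r1 → i = j ∨ i = j + 1
  half : ∀ i z w, z ∈ segment ℝ (Q.v i) (Q.v (i + 1)) → r1 / 4 ≤ dist z (Q.v i) →
    r1 / 4 ≤ dist z (Q.v (i + 1)) → dist w z < r2 →
    (w ∈ Q.set ↔ 0 ≤ ((w - z) * ((Q.d i)⁻¹ : Circle)).im) ∧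
      ∀ j, w ∈ segment ℝ (Q.v j) (Q.v (j + 1)) → j = i

/-- A polygon and its mirror image, with common radii. -/
structure Proto (n : ℕ) where
  T : Bool → Poly n
  r1 : ℝ
  r2 : ℝ
  r2_pos : 0 < r2
  r2_le : 4 * r2 ≤ r1
  rad : ∀ s, (T s).Rad r1 r2
  mirror : (T true).set = (starRingEnd ℂ) '' (T false).set

/-- A placed tile. -/
abbrev Tile : Type := Bool × Mot

section

variable {n : ℕ} {X : Type}

/-- The far corner of the dart `e` run in the direction `b`; the near one is `fc (!b) e`. -/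
def fc (b : Bool) (e : X × ZMod n) : X × ZMod n := if b then (e.1, e.2 + 1) else e

/-- The dart that leaves the corner `c` when run in the direction `b`. -/
def nr (b : Bool) (c : X × ZMod n) : X × ZMod n := if b then c else (c.1, c.2 - 1)

@[simp] theorem fc_fst (b : Bool) (e : X × ZMod n) : (fc b e).1 = e.1 := by cases b <;> rfl
@[simp] theorem nr_fst (b : Bool) (e : X × ZMod n) : (nr b e).1 = e.1 := by cases b <;> rfl
@[simp] theorem fc_nr (b : Bool) (c : X × ZMod n) : fc (!b) (nr b c) = c := by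
  cases b <;> simp [fc, nr]
@[simp] theorem nr_fc (b : Bool) (e : X × ZMod n) : nr b (fc (!b) e) = e := by
  cases b <;> simp [fc, nr]
@[simp] theorem fc_nr' (b : Bool) (c : X × ZMod n) : fc b (nr (!b) c) = c := by
  cases b <;> simp [fc, nr]
@[simp] theorem nr_fc' (b : Bool) (e : X × ZMod n) : nr (!b) (fc b e) = e := by
  cases b <;> simp [fc, nr]

end

namespace Proto

variable {n : ℕ} (T : Proto n)

/-- The set covered by a tile. -/
def tset (x : Tile) : Set ℂ := (fun z => x.2 • z) '' (T.T x.1).set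

/-- The point of a corner. -/
noncomputable def pt (c : Tile × ZMod n) : ℂ := c.1.2 • (T.T c.1.1).v c.2

/-- The angle of a corner. -/
def ang (c : Tile × ZMod n) : ℝ := (T.T c.1.1).ang c.2

/-- The length of a dart. -/
def len (e : Tile × ZMod n) : ℝ := (T.T e.1.1).len e.2

/-- The frame of the corner `i` of the prototile `s` along the dart `nr b`. -/
noncomputable def Fr (s : Bool) (i : ZMod n) (b : Bool) : Mot :=
  ⟨if b then (T.T s).d i else -(T.T s).d (i - 1), (T.T s).v i⟩

/-- The direction in which the dart `nr b c` leaves the corner `c`. -/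
noncomputable def ray (b : Bool) (c : Tile × ZMod n) : Circle := c.1.2.u * (T.Fr c.1.1 c.2 b).u

/-- The closed edge of a dart. -/
def edge (e : Tile × ZMod n) : Set ℂ := segment ℝ (T.pt e) (T.pt (e.1, e.2 + 1))

/-- The open edge of a dart. -/
def oedge (e : Tile × ZMod n) : Set ℂ := openSegment ℝ (T.pt e) (T.pt (e.1, e.2 + 1))

/-- The diameter. -/
noncomputable def D : ℝ := Metric.diam (T.T false).set

/-- The plane set of the prototile. -/
abbrev C : Set ℂ := (T.T false).set

theorem frame_u (b : Bool) (c : Tile × ZMod n) : (c.1.2 * T.Fr c.1.1 c.2 b).u = T.ray b c := rfl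

theorem frame_b (b : Bool) (c : Tile × ZMod n) : (c.1.2 * T.Fr c.1.1 c.2 b).b = T.pt c := rfl

theorem ang_pos (c : Tile × ZMod n) : 0 < T.ang c := (T.T _).ang_pos _
theorem ang_lt (c : Tile × ZMod n) : T.ang c < 2 * π := (T.T _).ang_lt _
theorem len_pos (e : Tile × ZMod n) : 0 < T.len e := (T.T _).len_pos _
theorem r1_le (e : Tile × ZMod n) : 2 * T.r1 ≤ T.len e := (T.rad _).r1_le _
theorem r1_pos : 0 < T.r1 := by linarith [T.r2_pos, T.r2_le]

end Proto

end Pool.Agent.Ng
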