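import Pool.Agent.P.MP_6145c0_co.Ng.PolyA1

/-! A polygon can be listed with the inside on the left. -/

open Set Real Metric Filter Topology

namespace Pool.Agent.Ng

namespace Lst

variable {n : ℕ} {C : Set ℂ} (Q : Lst n C)

theorem side_succ [NeZero n] {i : ZMod n} {b b' : Prop} (h : Q.Side b i) (h' : Q.Side b' (i + 1)) :
    b ↔ b' := by
  obtain ⟨r, hr, h⟩ := h
  obtain ⟨r', hr', h'⟩ := h'
  have hL := Q.len_pos i
  obtain ⟨ρ, h0, h1⟩ := exists_between (lt_min (lt_min hr hr') hL)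
  simp only [lt_min_iff] at h1
  have hd : (Q.d i : ℂ) ≠ 0 := Circle.coe_ne_zero _
  set g : ℝ → ℝ → ℂ := fun η t => Q.v i + ((1 - t) * (ρ * Circle.exp η) +
    t * (Q.len i - ρ * Circle.exp (-η))) * Q.d i with hg
  have gc : Continuous fun x : ℝ × ℝ => g x.1 x.2 := by simp only [hg]; fun_prop
  have e1 : ∀ᶠ η in 𝓝 (0 : ℝ), ∀ t ∈ Icc (0 : ℝ) 1, ∀ j, j ≠ i →
      g η t ∉ segment ℝ (Q.v j) (Q.v (j + 1)) :=
    isCompact_Icc.eventually_forall_of_forall_eventually fun t ht => eventually_all.2 fun j => by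
      by_cases hj : j = i
      · exact Eventually.of_forall fun _ h => absurd hj h
      have hc : IsClosed (segment ℝ (Q.v j) (Q.v (j + 1))) := by
        rw [segment_eq_image']; exact (isCompact_Icc.image (by fun_prop)).isClosed
      refine (gc.continuousAt.eventually (hc.isOpen_compl.mem_nhds fun e => ?_)).mono fun _ h _ => h
      have s0 : 0 < (1 - t) * ρ + t * (Q.len i - ρ) := by
        rcases ht.1.eq_or_lt with e | e
        · subst e; simpa using h0
        · nlinarith [mul_pos e (sub_pos.2 h1.2), mul_nonneg (sub_nonneg.2 ht.2) h0.le]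
      have s1 : (1 - t) * ρ + t * (Q.len i - ρ) < Q.len i := by
        rcases ht.1.eq_or_lt with e | e
        · subst e; simpa using h1.2
        · nlinarith [mul_pos e h0, mul_nonneg (sub_nonneg.2 ht.2) (sub_pos.2 h1.2).le]
      have e0 : g 0 t = Q.v i + ((1 - t) * ρ + t * (Q.len i - ρ) : ℝ) * Q.d i := by simp [hg]
      dsimp only at e
      rw [e0] at e
      rcases Q.simple i j _ (by rw [Q.v_succ]; exact (pa_seg s0 s1.le).2 rfl) e with x | x | x
      · exact hj x.symm
      · have := x.2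
        rw [add_eq_left, mul_eq_zero, or_iff_left hd, Complex.ofReal_eq_zero] at this
        exact s0.ne' this
      · have := x.2
        rw [x.1, Q.v_succ, add_right_inj, mul_left_inj' hd, Complex.ofReal_inj] at this
        exact s1.ne this
  obtain ⟨η, e1, e2, e3⟩ := (((e1.and (Iio_mem_nhds (lt_min (lt_min (Q.ang_pos i)
    (Q.ang_pos (i + 1))) pi_pos))).filter_mono nhdsWithin_le_nhds).and
    (self_mem_nhdsWithin (s := Ioi (0 : ℝ)))).exists.imp fun η h => and_assoc.1 h
  simp only [mem_Iio, lt_min_iff, mem_Ioi] at e2 e3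
  have hS : IsPreconnected (g η '' Icc 0 1) :=
    isPreconnected_Icc.image _ (gc.comp (Continuous.prodMk_right η)).continuousOn
  have hF : ∀ z ∈ g η '' Icc 0 1, z ∉ frontier C := by
    rintro _ ⟨t, ht, rfl⟩ e
    rw [Q.fr, mem_iUnion] at e
    obtain ⟨j, e⟩ := e
    by_cases hj : j = i
    · rw [hj, Q.v_succ, segment_eq_image'] at e
      obtain ⟨s, -, e⟩ := e
      simp only [hg, add_sub_cancel_left, Complex.real_smul, add_right_inj, ← mul_assoc,
        mul_left_inj' hd] at e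
      have := congrArg Complex.im e
      simp only [Circle.coe_exp, Complex.add_im, Complex.mul_im, Complex.sub_im, Complex.sub_re,
        Complex.ofReal_re, Complex.ofReal_im, Complex.one_re, Complex.one_im, Complex.mul_re,
        Complex.exp_ofReal_mul_I_im, sin_neg] at this
      nlinarith [mul_pos h0 (sin_pos_of_pos_of_lt_pi e3 e2.2)]
    · exact e1 t ht j hj e
  have a0 : g η 0 = Q.P i ρ η := by
    simp only [hg, P, Circle.coe_mul]; push_cast; ring
  have a1 : g η 1 = Q.P (i + 1) ρ (Q.ang (i + 1) - η) := by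
    rw [P, sub_eq_add_neg, Circle.exp_add, ← mul_assoc (Q.d _), Q.d_ang, add_sub_cancel_right,
      Q.v_succ]
    simp only [hg, Circle.coe_mul, Circle.coe_neg]; push_cast; ring
  have b0 : g η 0 ∈ C ↔ b := by
    rw [a0, h _ _ h0 h1.1.1 e3.le (e2.1.1.trans (Q.ang_lt i))]
    simp [e3.ne', e2.1.1.ne, e2.1.1]
  have b1 : g η 1 ∈ C ↔ b' := by
    rw [a1, h' _ _ h0 h1.1.2 (by linarith [e2.1.2]) (by linarith [Q.ang_lt (i + 1)])]
    simp [e3.ne', (sub_pos.2 e2.1.2).ne', e3]
  have m0 : g η 0 ∈ g η '' Icc 0 1 := mem_image_of_mem _ (left_mem_Icc.2 zero_le_one)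
  have m1 : g η 1 ∈ g η '' Icc 0 1 := mem_image_of_mem _ (right_mem_Icc.2 zero_le_one)
  rw [← b0, ← b1]
  exact ⟨pa_conn hS hF m0 m1, pa_conn hS hF m1 m0⟩

theorem side_all [NeZero n] : (∀ i, Q.Side True i) ∨ ∀ i, Q.Side False i := by
  choose b hb using Q.side
  have h : ∀ k : ℕ, b k ↔ b 0 := fun k => by
    induction k with
    | zero => simp
    | succ k ih => rw [Nat.cast_succ]; exact (Q.side_succ (hb k) (hb (k + 1))).symm.trans ih
  have h' : ∀ i, b i ↔ b 0 := fun i => by simpa using h i.val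
  by_cases e : b 0
  · exact Or.inl fun i => eq_true ((h' i).2 e) ▸ hb i
  · exact Or.inr fun i => eq_false (mt (h' i).1 e) ▸ hb i

/-- the polygon of a listing with the inside on the left -/
noncomputable def poly (h : ∀ i, Q.Side True i) (h1 : IsCompact C)
    (h2 : IsPreconnected (interior C)) : Poly n :=
  ⟨C, Q.v, Q.d, Q.len, Q.ang, Q.len_pos, Q.ang_pos, Q.ang_lt, Q.v_succ, Q.d_ang, Q.inj, h1, Q.clo,
    h2, Q.fr, Q.simple, fun i => (h i).imp fun _ h => ⟨h.1, fun ρ θ a b c d =>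
      (h.2 ρ θ a b c d).trans ⟨fun e => by
        rcases e with e | e | e
        exacts [e ▸ (Q.ang_pos i).le, e.le, (e.2 trivial).le],
        fun e => Or.inr (e.eq_or_lt.imp id fun e => iff_of_true e trivial)⟩⟩⟩

end Lst

theorem pa_lst {n : ℕ} (hn : 3 ≤ n) {C : Set ℂ} (h1 : IsClosed C) (h2 : closure (interior C) = C)
    {v : ZMod n → ℂ} (hv : Function.Injective v)
    (h3 : frontier C = ⋃ i, segment ℝ (v i) (v (i + 1)))
    (h4 : ∀ i j, i ≠ j → segment ℝ (v i) (v (i + 1)) ∩ segment ℝ (v j) (v (j + 1)) ⊆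
      {v i, v (i + 1)} ∩ {v j, v (j + 1)}) : ∃ Q : Lst n C, Q.v = v := by
  have n1 : (1 : ZMod n) ≠ 0 := fun e => by
    have := Nat.le_of_dvd one_pos ((ZMod.natCast_eq_zero_iff 1 n).1 (by simpa using e))
    omega
  have n2 : (2 : ZMod n) ≠ 0 := fun e => by
    have := Nat.le_of_dvd two_pos ((ZMod.natCast_eq_zero_iff 2 n).1 (by simpa using e))
    omega
  have ne : ∀ i, v (i + 1) ≠ v i := fun i e => n1 (by simpa using hv e)
  choose θ _ _ hθ using fun i => pa_polar 1 (ne i)
  set d : ZMod n → Circle := fun i => 1 * Circle.exp (θ i) with hd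
  have sim : ∀ i j z, z ∈ segment ℝ (v i) (v (i + 1)) → z ∈ segment ℝ (v j) (v (j + 1)) →
      i = j ∨ (i = j + 1 ∧ z = v i) ∨ (j = i + 1 ∧ z = v j) := fun i j z a b => by
    by_cases e : i = j
    · exact Or.inl e
    obtain ⟨x | x, y | y⟩ := h4 i j e ⟨a, b⟩
    · exact Or.inl (hv (x.symm.trans y))
    · exact Or.inr (Or.inl ⟨hv (x.symm.trans y), x⟩)
    · exact Or.inr (Or.inr ⟨hv (y.symm.trans x), y⟩)
    · exact Or.inl (add_right_cancel (hv (x.symm.trans y)))
  refine ⟨⟨v, d, fun i => dist (v (i + 1)) (v i), fun i => Circle.angleDiff (d i) (-d (i - 1)),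
    fun i => dist_pos.2 (ne i), fun i => Circle.angleDiff_pos fun e => ?_,
    fun i => Circle.angleDiff_lt_two_pi _ _, hθ,
    fun i => by rw [mul_comm, Circle.exp_angleDiff_mul], hv, h1, h2, h3, sim⟩, rfl⟩
  obtain ⟨ρ, r0, r1⟩ := exists_between (lt_min (dist_pos.2 (ne i)) (dist_pos.2 (ne (i - 1))))
  rw [lt_min_iff] at r1
  have a : v i + ρ * d i ∈ segment ℝ (v i) (v (i + 1)) := by
    rw [hθ i]; exact (pa_seg r0 r1.1.le).2 rfl
  have b : v i + ρ * d i ∈ segment ℝ (v (i - 1)) (v (i - 1 + 1)) := by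
    have : v (i - 1) = v i + (dist (v (i - 1 + 1)) (v (i - 1)) : ℝ) * (-d (i - 1) : Circle) := by
      have := hθ (i - 1)
      rw [Circle.coe_neg]
      nth_rw 1 [sub_add_cancel] at this
      linear_combination -this
    rw [segment_symm]
    nth_rw 1 [sub_add_cancel]
    rw [this]
    exact (pa_seg r0 r1.2.le).2 e
  rcases sim _ _ _ a b with x | x | x
  · exact n1 (by linear_combination x)
  · simpa [r0.ne'] using x.2
  · exact n2 (by linear_combination -x.1)

theorem IsPolygon.exists_poly {n : ℕ} (hn : 3 ≤ n) {C : Set ℂ} (h : IsPolygon n C) :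
    ∃ Q : Poly n, Q.set = C := by
  have : NeZero n := ⟨by omega⟩
  obtain ⟨⟨-, h1, h2⟩, h3, v, hv, h4, h5⟩ := h
  obtain ⟨Q, hQ⟩ := pa_lst hn h1.isClosed h2.symm hv h4 h5
  have sg : ∀ i : ZMod n, segment ℝ (v (-i)) (v (-(i + 1))) =
      segment ℝ (v (-i - 1)) (v (-i - 1 + 1)) := fun i => by
    rw [segment_symm, sub_add_cancel, neg_add']
  obtain ⟨Q', hQ'⟩ := pa_lst hn h1.isClosed h2.symm (v := fun i => v (-i)) (hv.comp neg_injective)
    (by
      simp only [h4, sg]
      exact ((Equiv.neg _).trans (Equiv.subRight 1)).surjective.iUnion_comp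
        (fun i => segment ℝ (v i) (v (i + 1))) |>.symm)
    (fun i j e => by
      simp only [sg]
      refine (h5 _ _ fun x => e (by linear_combination -x)).trans (le_of_eq ?_)
      simp only [sub_add_cancel, neg_add', pair_comm])
  rcases Q.side_all with a | a
  · exact ⟨Q.poly a h1 h3.2, rfl⟩
  rcases Q'.side_all with b | b
  · exact ⟨Q'.poly b h1 h3.2, rfl⟩
  exfalso
  obtain ⟨r, hr, a⟩ := a 0
  obtain ⟨r', hr', b⟩ := b 0
  obtain ⟨ρ, r0, r1⟩ := exists_between (lt_min hr hr')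
  obtain ⟨η, e0, e1⟩ := exists_between (lt_min (Q.ang_pos 0) (sub_pos.2 (Q'.ang_lt 0)))
  rw [lt_min_iff] at r1 e1
  have e : Q.d 0 = -Q'.d (0 - 1) := by
    have x := Q.v_succ 0
    have y := Q'.v_succ (0 - 1)
    simp only [hQ, hQ', zero_add, sub_add_cancel, neg_zero, neg_sub, sub_zero] at x y
    refine (pa_eq (Q.len_pos 0) (Q'.len_pos (0 - 1)).le ?_).2
    rw [Circle.coe_neg]
    linear_combination -x - y
  have p : Q'.P 0 ρ (Q'.ang 0 + η) = Q.P 0 ρ η := by
    rw [Lst.P, Lst.P, Circle.exp_add, ← mul_assoc (Q'.d 0), Q'.d_ang, ← e, hQ, hQ']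
    simp
  have x := (b ρ (Q'.ang 0 + η) r0 r1.2 (by linarith [Q'.ang_pos 0]) (by linarith [e1.2])).2
    (Or.inr (Or.inr (iff_of_false (by linarith) id)))
  rw [p, a ρ η r0 r1.1 e0.le (e1.1.trans (Q.ang_lt 0))] at x
  simp [e0.ne', e1.1.ne, e1.1] at x

theorem IsPolygon.conj {n : ℕ} {C : Set ℂ} (h : IsPolygon n C) :
    IsPolygon n ((starRingEnd ℂ) '' C) := by
  obtain ⟨⟨h0, h1, h2⟩, h3, v, hv, h4, h5⟩ := h
  let f := Complex.conjLIE.toHomeomorph
  have hf : (starRingEnd ℂ : ℂ → ℂ) = f := rfl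
  have sg : ∀ a b, segment ℝ (f a) (f b) = f '' segment ℝ a b := fun a b =>
    (image_segment ℝ Complex.conjAe.toLinearMap.toAffineMap a b).symm
  rw [hf]
  refine ⟨⟨h0.image _, h1.image f.continuous, ?_⟩, ?_, fun i => f (v i), f.injective.comp hv, ?_,
    fun i j e => ?_⟩
  · rw [← f.image_interior, ← f.image_closure, ← h2]
  · rw [← f.image_interior]; exact h3.image _ f.continuous.continuousOn
  · simp only [← f.image_frontier, h4, image_iUnion, sg]
  · simp only [sg, ← image_pair f, ← image_inter f.injective]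
    exact image_mono (h5 i j e)

end Pool.Agent.Ng
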