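import Pool.Agent.P.MP_6145c0_co.Ng.Poly

/-! Local dichotomy at a vertex of a listed polygon. -/

open Set Real Metric Filter Topology

namespace Pool.Agent.Ng

theorem pa_polar (d : Circle) {p z : ℂ} (h : z ≠ p) : ∃ θ : ℝ, 0 ≤ θ ∧ θ < 2 * π ∧
    z = p + (dist z p : ℝ) * (d * Circle.exp θ : Circle) := by
  have hn : (‖z - p‖ : ℂ) ≠ 0 := by simpa [sub_eq_zero] using h
  have hn' : ‖z - p‖ ≠ 0 := by simpa [sub_eq_zero] using h
  let w : Circle := ⟨(z - p) / ‖z - p‖, by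
    simp [Submonoid.unitSphere, hn']⟩
  refine ⟨Circle.angleDiff d w, Circle.angleDiff_nonneg _ _, Circle.angleDiff_lt_two_pi _ _, ?_⟩
  rw [mul_comm d, Circle.exp_angleDiff_mul, dist_eq_norm]
  show z = p + ‖z - p‖ * ((z - p) / ‖z - p‖)
  field_simp
  ring

theorem pa_eq {ρ L : ℝ} {u w : Circle} (hρ : 0 < ρ) (hL : 0 ≤ L) (h : (ρ : ℂ) * w = L * u) :
    ρ = L ∧ w = u := by
  have h1 : ρ = L := by
    have := congrArg norm h
    simpa [abs_of_pos hρ, abs_of_nonneg hL] using this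
  subst h1
  exact ⟨rfl, Circle.ext (mul_left_cancel₀ (by exact_mod_cast hρ.ne') h)⟩

theorem pa_seg {p : ℂ} {ρ L : ℝ} {u w : Circle} (hρ : 0 < ρ) (hL : ρ ≤ L) :
    p + ρ * w ∈ segment ℝ p (p + L * u) ↔ w = u := by
  have hL0 := hρ.trans_le hL
  rw [segment_eq_image']
  constructor
  · rintro ⟨t, ht, e⟩
    refine (pa_eq (L := t * L) hρ (mul_nonneg ht.1 hL0.le) ?_).2
    simp only [add_sub_cancel_left, Complex.real_smul, add_right_inj] at e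
    rw [← e]; push_cast; ring
  · rintro rfl
    refine ⟨ρ / L, ⟨by positivity, (div_le_one hL0).2 hL⟩, ?_⟩
    have : (L : ℂ) ≠ 0 := by exact_mod_cast hL0.ne'
    simp only [add_sub_cancel_left, Complex.real_smul, add_right_inj]
    push_cast; field_simp

theorem pa_conn {C S : Set ℂ} (hS : IsPreconnected S) (h : ∀ z ∈ S, z ∉ frontier C) {a b : ℂ}
    (ha : a ∈ S) (hb : b ∈ S) (hC : a ∈ C) : b ∈ C := by
  have := hS.subset_or_subset isOpen_interior isOpen_interior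
    (disjoint_compl_right.mono interior_subset interior_subset : Disjoint (interior C) (interior Cᶜ))
    (fun z hz => by rw [← compl_frontier_eq_union_interior]; exact h z hz)
  rcases this with e | e
  · exact interior_subset (e hb)
  · exact absurd hC (interior_subset (e ha))

/-- A listing of the boundary, without orientation. -/
structure Lst (n : ℕ) (C : Set ℂ) where
  v : ZMod n → ℂ
  d : ZMod n → Circle
  len : ZMod n → ℝ
  ang : ZMod n → ℝ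
  len_pos : ∀ i, 0 < len i
  ang_pos : ∀ i, 0 < ang i
  ang_lt : ∀ i, ang i < 2 * π
  v_succ : ∀ i, v (i + 1) = v i + len i * d i
  d_ang : ∀ i, d i * Circle.exp (ang i) = -d (i - 1)
  inj : Function.Injective v
  cl : IsClosed C
  clo : closure (interior C) = C
  fr : frontier C = ⋃ i, segment ℝ (v i) (v (i + 1))
  simple : ∀ i j z, z ∈ segment ℝ (v i) (v (i + 1)) → z ∈ segment ℝ (v j) (v (j + 1)) →
    i = j ∨ (i = j + 1 ∧ z = v i) ∨ (j = i + 1 ∧ z = v j)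

namespace Lst

variable {n : ℕ} {C : Set ℂ} (Q : Lst n C)

/-- the point with polar coordinates at the vertex `i` -/
noncomputable def P (i : ZMod n) (ρ θ : ℝ) : ℂ := Q.v i + ρ * (Q.d i * Circle.exp θ : Circle)

theorem v_pred (i : ZMod n) :
    Q.v (i - 1) = Q.v i + Q.len (i - 1) * (Q.d i * Circle.exp (Q.ang i) : Circle) := by
  have := Q.v_succ (i - 1)
  rw [sub_add_cancel] at this
  rw [Q.d_ang, this, Circle.coe_neg]; ring

theorem fr_near [NeZero n] (i : ZMod n) : ∃ r > 0, ∀ ρ θ : ℝ, 0 < ρ → ρ < r → 0 ≤ θ → θ < 2 * π →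
    (Q.P i ρ θ ∈ frontier C ↔ θ = 0 ∨ θ = Q.ang i) := by
  have h1 : ∀ᶠ z in 𝓝 (Q.v i), ∀ j, z ∈ segment ℝ (Q.v j) (Q.v (j + 1)) → j = i ∨ j = i - 1 :=
    eventually_all.2 fun j => by
      by_cases e : Q.v i ∈ segment ℝ (Q.v j) (Q.v (j + 1))
      · refine Eventually.of_forall fun _ _ => ?_
        rcases Q.simple i j _ (left_mem_segment _ _ _) e with h | h | h
        · exact Or.inl h.symm
        · exact Or.inr (by rw [h.1, add_sub_cancel_right])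
        · exact Or.inl (Q.inj h.2).symm
      · have : IsClosed (segment ℝ (Q.v j) (Q.v (j + 1))) := by
          rw [segment_eq_image']; exact (isCompact_Icc.image (by fun_prop)).isClosed
        filter_upwards [this.isOpen_compl.mem_nhds e] with z h h' using absurd h' h
  obtain ⟨r, hr, h1⟩ := Metric.eventually_nhds_iff.1 h1
  refine ⟨min r (min (Q.len i) (Q.len (i - 1))), lt_min hr (lt_min (Q.len_pos _) (Q.len_pos _)),
    fun ρ θ h0 h2 h3 h4 => ?_⟩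
  simp only [lt_min_iff] at h2
  have inj : ∀ a, 0 ≤ a → a < 2 * π →
      (Q.d i * Circle.exp θ = Q.d i * Circle.exp a ↔ θ = a) := fun a a0 a1 =>
    ⟨fun e => Circle.exp_injOn_Ico (a := 0) (b := 2 * π) (by simp) ⟨h3, h4⟩ ⟨a0, a1⟩
      (mul_left_cancel e), fun e => by rw [e]⟩
  have e1 : Q.P i ρ θ ∈ segment ℝ (Q.v i) (Q.v (i + 1)) ↔ θ = 0 := by
    rw [Q.v_succ, P, pa_seg h0 h2.2.1.le, ← inj 0 le_rfl two_pi_pos, Circle.exp_zero, mul_one]
  have e2 : Q.P i ρ θ ∈ segment ℝ (Q.v (i - 1)) (Q.v (i - 1 + 1)) ↔ θ = Q.ang i := by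
    rw [sub_add_cancel, segment_symm, Q.v_pred, P, pa_seg h0 h2.2.2.le,
      inj _ (Q.ang_pos i).le (Q.ang_lt i)]
  rw [Q.fr, mem_iUnion, ← e1, ← e2]
  refine ⟨fun ⟨j, hj⟩ => ?_, fun h => h.elim (⟨_, ·⟩) (⟨_, ·⟩)⟩
  rcases h1 (y := Q.P i ρ θ) (by simpa [P, abs_of_pos h0] using h2.1) j hj with rfl | rfl
  exacts [Or.inl hj, Or.inr hj]

/-- the inside is on the left (`b = true`) or on the right at the vertex `i` -/
def Side (b : Prop) (i : ZMod n) : Prop := ∃ r > 0, ∀ ρ θ : ℝ, 0 < ρ → ρ < r → 0 ≤ θ → θ < 2 * π →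
  (Q.P i ρ θ ∈ C ↔ θ = 0 ∨ θ = Q.ang i ∨ (θ < Q.ang i ↔ b))

theorem side [NeZero n] (i : ZMod n) : ∃ b, Q.Side b i := by
  obtain ⟨r, hr, h⟩ := Q.fr_near i
  have a0 := Q.ang_pos i
  have a1 := Q.ang_lt i
  have hsub : frontier C ⊆ C := Q.cl.frontier_subset
  have sec : ∀ a b : ℝ, (∀ θ ∈ Ioo a b, 0 < θ ∧ θ < 2 * π ∧ θ ≠ Q.ang i) → ∃ α : Prop,
      ∀ ρ θ : ℝ, 0 < ρ → ρ < r → a < θ → θ < b → (Q.P i ρ θ ∈ C ↔ α) := fun a b hab => by
    have hS : IsPreconnected ((fun x : ℝ × ℝ => Q.P i x.1 x.2) '' Ioo 0 r ×ˢ Ioo a b) :=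
      (isPreconnected_Ioo.prod isPreconnected_Ioo).image _
        (Continuous.continuousOn (by unfold P; fun_prop))
    refine ⟨∃ x ∈ Ioo 0 r ×ˢ Ioo a b, Q.P i x.1 x.2 ∈ C, fun ρ θ h1 h2 h3 h4 =>
      ⟨fun e => ⟨(ρ, θ), ⟨⟨h1, h2⟩, h3, h4⟩, e⟩, fun ⟨x, hx, e⟩ =>
        pa_conn hS ?_ ⟨x, hx, rfl⟩ ⟨(ρ, θ), ⟨⟨h1, h2⟩, h3, h4⟩, rfl⟩ e⟩⟩
    rintro _ ⟨y, hy, rfl⟩
    obtain ⟨b1, b2, b3⟩ := hab _ hy.2
    simp [h _ _ hy.1.1 hy.1.2 b1.le b2, b1.ne', b3]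
  obtain ⟨α, hα⟩ := sec 0 (Q.ang i) fun θ h => ⟨h.1, h.2.trans a1, h.2.ne⟩
  obtain ⟨β, hβ⟩ := sec (Q.ang i) (2 * π) fun θ h => ⟨a0.trans h.1, h.2, h.1.ne'⟩
  have hv : Q.v i ∈ frontier C := Q.fr ▸ mem_iUnion.2 ⟨i, left_mem_segment _ _ _⟩
  have all : ∀ z ∈ ball (Q.v i) r, z ∈ frontier C ∨ (z ∈ C ↔ α) ∨ (z ∈ C ↔ β) := fun z hz => by
    by_cases e : z = Q.v i
    · exact Or.inl (e ▸ hv)
    obtain ⟨θ, h1, h2, h3⟩ := pa_polar (Q.d i) e
    have h4 := dist_pos.2 e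
    rw [h3]
    rcases h1.eq_or_lt with h5 | h5
    · exact Or.inl ((h _ _ h4 hz h1 h2).2 (Or.inl h5.symm))
    rcases lt_trichotomy θ (Q.ang i) with h6 | h6 | h6
    · exact Or.inr (Or.inl (hα _ _ h4 hz h5 h6))
    · exact Or.inl ((h _ _ h4 hz h1 h2).2 (Or.inr h6))
    · exact Or.inr (Or.inr (hβ _ _ h4 hz h6 h2))
  have n1 : ¬(α ∧ β) := fun ⟨x, y⟩ => hv.2 (mem_interior.2 ⟨_, fun z hz => by
    rcases all z hz with e | e | e
    exacts [hsub e, e.2 x, e.2 y], isOpen_ball, mem_ball_self hr⟩)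
  have n2 : α ∨ β := by
    obtain ⟨z, hz, hz'⟩ := Metric.mem_closure_iff.1
      (show Q.v i ∈ closure (interior C) by rw [Q.clo]; exact hsub hv) r hr
    rcases all z (mem_ball'.2 hz') with e | e | e
    exacts [absurd hz e.2, Or.inl (e.1 (interior_subset hz)), Or.inr (e.1 (interior_subset hz))]
  refine ⟨α, r, hr, fun ρ θ h1 h2 h3 h4 => ?_⟩
  rcases h3.eq_or_lt with h5 | h5
  · exact iff_of_true (hsub ((h _ _ h1 h2 h3 h4).2 (Or.inl h5.symm))) (Or.inl h5.symm)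
  rcases lt_trichotomy θ (Q.ang i) with h6 | h6 | h6
  · simp [hα _ _ h1 h2 h5 h6, h5.ne', h6.ne, h6]
  · exact iff_of_true (hsub ((h _ _ h1 h2 h3 h4).2 (Or.inr h6))) (Or.inr (Or.inl h6))
  · simp only [hβ _ _ h1 h2 h6 h4, h5.ne', h6.ne', h6.not_gt, false_or, false_iff]
    tauto

end Lst

end Pool.Agent.Ng
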