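import Pool.Agent.P.MP_6145c0_co.Ng.FamDefs

/-! Adding a level to a nest of one patch; taking one row of the last level. -/

open Set Real Function

namespace Pool.Agent.Ng

variable {n : ℕ}

/-- The types with one more level. -/
def NestTy.snoc (Y : NestTy n) (δ c : ℝ) (φ sb : Bool) (Q : ℕ) (s : Bool) (j : ZMod n) :
    NestTy n where
  m := Y.m + 1
  δ := δ
  c := c
  fan := update Y.fan Y.m φ
  sb := update Y.sb Y.m sb
  Q := update Y.Q Y.m Q
  kd := update Y.kd (Y.m + 1) s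
  ie := update Y.ie (Y.m + 1) j

open Classical in
/-- The data with one more level. -/
noncomputable def NestDat.snoc (Z : NestDat) (m N : ℕ) (S2 : Finset ((ℕ → ℕ) × ℕ)) (s b : ℝ)
    (A B : Mot) (F : (ℕ → ℕ) × ℕ → Mot) (pos : (ℕ → ℕ) × ℕ → ℝ) : NestDat where
  N := update Z.N m N
  S := S2.image fun x => update x.1 m x.2
  s := update Z.s m s
  b := update Z.b m b
  A := update Z.A m A
  B := update Z.B m B
  F i t := if i ≤ m then Z.F i (update t m 0) else F (update t m 0, t m)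
  pos i t := if i < m then Z.pos i (update t m 0) else pos (update t m 0, t m)

/-- The types of the last level alone. -/
def NestTy.row (Y : NestTy n) (m : ℕ) : NestTy n where
  m := 1
  δ := Y.δ
  c := Y.c
  fan _ := Y.fan m
  sb _ := Y.sb m
  Q _ := 0
  kd i := Y.kd (m + i)
  ie i := Y.ie (m + i)

open Classical in
/-- The row of the last level through `t0`. -/
noncomputable def NestDat.row (Z : NestDat) (m : ℕ) (t0 : ℕ → ℕ) : NestDat where
  N _ := Z.N m
  S := ((Finset.range (Z.N m)).filter fun w => update t0 m w ∈ Z.S).image fun w => update 0 0 w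
  s _ := Z.s m
  b _ := Z.b m
  A _ := Z.A m
  B _ := Z.B m
  F i t := Z.F (m + i) (update t0 m (t 0))
  pos _ t := Z.pos m (update t0 m (t 0))

variable {T : Proto n} {P : Set Tile} {Y : NestTy n} {Z : NestDat}

theorem h78_box (m : ℕ) (N : ℕ → ℕ) (S : Finset (ℕ → ℕ))
    (h : ∀ t ∈ S, (∀ i < m, t i < N i) ∧ ∀ i, m ≤ i → t i = 0) :
    S.card ≤ ∏ i ∈ Finset.range m, N i := by
  classical
  have e : ((Finset.range m).pi fun i => Finset.range (N i)).card =
      ∏ i ∈ Finset.range m, N i := by simp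
  rw [← e]
  refine Finset.card_le_card_of_injOn (fun t i _ => t i) (fun t ht => ?_) fun t ht t' ht' he => ?_
  · exact Finset.mem_coe.2 (Finset.mem_pi.2 fun i hi =>
      Finset.mem_range.2 ((h t ht).1 i (Finset.mem_range.1 hi)))
  · funext i
    by_cases hi : i < m
    · exact congrFun (congrFun he i) (Finset.mem_range.2 hi)
    · rw [(h t ht).2 i (by omega), (h t' ht').2 i (by omega)]

theorem Fam.h78_upd (h : Fam T P Y Z) {t : ℕ → ℕ} (ht : t ∈ Z.S) (w : ℕ) :
    update (update t Y.m w) Y.m 0 = t := by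
  rw [update_idem, ← (h.box t ht).2 Y.m le_rfl, update_eq_self]

theorem Fam.h78_S (h : Fam T P Y Z) {N : ℕ} {S2 : Finset ((ℕ → ℕ) × ℕ)} {s' b : ℝ} {A B : Mot}
    {F : (ℕ → ℕ) × ℕ → Mot} {pos : (ℕ → ℕ) × ℕ → ℝ} (hx : ∀ x ∈ S2, x.1 ∈ Z.S) {t : ℕ → ℕ}
    (ht : t ∈ (Z.snoc Y.m N S2 s' b A B F pos).S) : ∃ x ∈ S2, (∀ i, i ≠ Y.m → t i = x.1 i) ∧
      t Y.m = x.2 ∧ (∀ i ≤ Y.m, (Z.snoc Y.m N S2 s' b A B F pos).F i t = Z.F i x.1) ∧
      (Z.snoc Y.m N S2 s' b A B F pos).F (Y.m + 1) t = F x ∧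
      (∀ i < Y.m, (Z.snoc Y.m N S2 s' b A B F pos).pos i t = Z.pos i x.1) ∧
      (Z.snoc Y.m N S2 s' b A B F pos).pos Y.m t = pos x := by
  classical
  obtain ⟨x, hx', rfl⟩ := Finset.mem_image.1 ht
  have e := h.h78_upd (hx x hx') x.2
  refine ⟨x, hx', fun i hi => update_of_ne hi _ _, update_self _ _ _, fun i hi => ?_, ?_,
    fun i hi => ?_, ?_⟩
  · simp only [NestDat.snoc, if_pos hi, e]
  · simp only [NestDat.snoc, e, update_self, if_neg (Nat.not_succ_le_self Y.m)]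
  · simp only [NestDat.snoc, if_pos hi, e]
  · simp only [NestDat.snoc, e, update_self, if_neg (lt_irrefl Y.m)]

theorem Fam.h78_ne (h : Fam T P Y Z) (hδ : 0 < Y.δ) (hN : ∀ i < Y.m, 0 < Z.N i) :
    Z.S.Nonempty := by
  have h1 : 0 < ∏ i ∈ Finset.range Y.m, (Z.N i : ℝ) :=
    Finset.prod_pos fun i hi => Nat.cast_pos.2 (hN i (Finset.mem_range.1 hi))
  exact Finset.card_pos.1 (Nat.cast_pos.1 ((mul_pos hδ h1).trans_le h.dens))

theorem h78_rowS {m : ℕ} {t0 t : ℕ → ℕ} (ht : t ∈ (Z.row m t0).S) :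
    t 0 < Z.N m ∧ update t0 m (t 0) ∈ Z.S ∧ ∀ i, 1 ≤ i → t i = 0 := by
  classical
  obtain ⟨w, hw, rfl⟩ := Finset.mem_image.1 ht
  rw [Finset.mem_filter, Finset.mem_range] at hw
  exact ⟨by simpa using hw.1, by simpa using hw.2, fun i hi => update_of_ne (by omega) _ _⟩

theorem Fam.snoc (h : Fam T P Y Z) {δ δ' c : ℝ} {φ sb s : Bool} {Q N : ℕ} {j : ZMod n}
    {S2 : Finset ((ℕ → ℕ) × ℕ)} {s' b : ℝ} {A B : Mot} {F : (ℕ → ℕ) × ℕ → Mot}
    {pos : (ℕ → ℕ) × ℕ → ℝ} (hr : ∀ i, 0 < i → i < Y.m → Y.fan i = false) (hc : Y.c ≤ c)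
    (hδ' : 0 ≤ δ') (hδ : δ ≤ δ' * Y.δ) (hd : δ' * (Z.S.card * N) ≤ S2.card)
    (hN : 0 < Y.m → N ≤ Z.N (Y.m - 1)) (hs : 0 < s')
    (ht : N * s' ≤ if φ then 2 * π else c * T.D) (hB : B • (T.T s).v j = 0)
    (hx : ∀ x ∈ S2, x.1 ∈ Z.S ∧ x.2 < N ∧ b + x.2 * s' ≤ pos x ∧ pos x < b + (x.2 + 1) * s' ∧
      F x = Z.F Y.m x.1 * A * gen φ (sg sb * pos x) * B ∧ (s, F x) ∈ P ∧
      (0 < Y.m → Y.fan 0 = true → φ = true → (Z.F Y.m x.1 * A).b ≠ (Z.F 0 x.1 * Z.A 0).b))
    (hl : 0 < Y.m → ∃ (κ : ℕ → Tile) (p : ℕ → ℂ) (f : ZMod n), κ 0 = (Y.kd Y.m, 1) ∧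
      p 0 = (T.T (Y.kd Y.m)).v (Y.ie Y.m) ∧ ∀ x ∈ S2,
        Leg T P Q κ p (Z.F Y.m x.1) (T.pt ((s, F x), j)) ∧ (φ = false →
          Acr T (mv (Z.F Y.m x.1) (κ Q)) (s, F x) (T.pt ((s, F x), j)) ∧
          T.pt ((s, F x), j) ∈ T.edge (mv (Z.F Y.m x.1) (κ Q), f))) :
    Fam T P (Y.snoc δ c φ sb Q s j) (Z.snoc Y.m N S2 s' b A B F pos) := by
  classical
  have hx1 : ∀ x ∈ S2, x.1 ∈ Z.S := fun x hx' => (hx x hx').1
  have cs : ∀ {i : ℕ}, i < Y.m + 1 → i < Y.m ∨ i = Y.m := fun hi => by omega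
  refine ⟨h.pack, fun t ht => ?_, ?_, fun i hi => ?_, fun i hi => ?_, fun i hi => ?_,
    fun i h0 hi => ?_, fun t ht t' ht' l hl' he => ?_, fun t ht i hi => ?_, fun t ht i hi => ?_,
    fun i hi => ?_, fun t ht i h0 hi => ?_, fun i h0 hi => ?_, fun t ht i h0 hi f0 fi => ?_⟩
  · obtain ⟨x, hx', e1, e2, -⟩ := h.h78_S hx1 ht
    refine ⟨fun i hi => ?_, fun i hi => ?_⟩
    · rcases cs hi with hi | rfl
      · rw [e1 i hi.ne]
        simpa [NestDat.snoc, update_of_ne hi.ne] using (h.box _ (hx1 x hx')).1 i hi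
      · rw [e2]
        simpa [NestDat.snoc] using (hx x hx').2.1
    · have hi' : Y.m + 1 ≤ i := hi
      rw [e1 i (by omega)]
      exact (h.box _ (hx1 x hx')).2 i (by omega)
  · have e1 : (Z.snoc Y.m N S2 s' b A B F pos).S.card = S2.card := by
      refine Finset.card_image_of_injOn fun x hx' y hy' e => ?_
      have e' : update x.1 Y.m x.2 = update y.1 Y.m y.2 := e
      refine Prod.ext ?_ (by simpa using congrFun e' Y.m)
      rw [← h.h78_upd (hx1 x hx') x.2, e', h.h78_upd (hx1 y hy') y.2]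
    have e2 : ∏ i ∈ Finset.range (Y.m + 1), ((update Z.N Y.m N i : ℕ) : ℝ) =
        (∏ i ∈ Finset.range Y.m, (Z.N i : ℝ)) * N := by
      rw [Finset.prod_range_succ, update_self]
      congr 1
      exact Finset.prod_congr rfl fun i hi => by
        rw [update_of_ne (Finset.mem_range.1 hi).ne]
    show δ * ∏ i ∈ Finset.range (Y.m + 1), ((update Z.N Y.m N i : ℕ) : ℝ) ≤ _
    rw [e1, e2]
    have h0 : 0 ≤ ∏ i ∈ Finset.range Y.m, (Z.N i : ℝ) := by positivity
    calc δ * ((∏ i ∈ Finset.range Y.m, (Z.N i : ℝ)) * N)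
        ≤ δ' * Y.δ * ((∏ i ∈ Finset.range Y.m, (Z.N i : ℝ)) * N) :=
          mul_le_mul_of_nonneg_right hδ (by positivity)
      _ = δ' * ((Y.δ * ∏ i ∈ Finset.range Y.m, (Z.N i : ℝ)) * N) := by ring
      _ ≤ δ' * (Z.S.card * N) :=
          mul_le_mul_of_nonneg_left (mul_le_mul_of_nonneg_right h.dens (by positivity)) hδ'
      _ ≤ _ := hd
  · have hi' : i + 1 < Y.m + 1 := hi
    show update Z.N Y.m N (i + 1) ≤ update Z.N Y.m N i
    rw [update_of_ne (show i ≠ Y.m by omega)]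
    rcases cs hi' with hi | e
    · rw [update_of_ne hi.ne]
      exact h.anti i hi
    · have := hN (by omega)
      rw [e, update_self]
      rwa [show Y.m - 1 = i by omega] at this
  · rcases cs hi with hi | rfl
    · simpa [NestDat.snoc, update_of_ne hi.ne] using h.s_pos i hi
    · simpa [NestDat.snoc] using hs
  · rcases cs hi with hi | rfl
    · simp only [NestDat.snoc, NestTy.snoc, update_of_ne hi.ne]
      refine (h.tot i hi).trans ?_
      split_ifs
      · exact le_rfl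
      · exact mul_le_mul_of_nonneg_right hc T.D_pos.le
    · simpa only [NestDat.snoc, NestTy.snoc, update_self] using ht
  · have hi' : i + 1 < Y.m + 1 := hi
    simp only [NestTy.snoc, update_of_ne (show i ≠ Y.m by omega)]
    exact hr i h0 (by omega)
  · obtain ⟨x, hx', e1, e2, e3, e4, -⟩ := h.h78_S hx1 ht
    obtain ⟨y, hy', f1, f2, f3, f4, -⟩ := h.h78_S hx1 ht'
    by_cases hm : l ≤ Y.m
    · rw [e3 l hm, f3 l hm]
      exact h.dep _ (hx1 x hx') _ (hx1 y hy') l hm fun i hi => by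
        rw [← e1 i (by omega), ← f1 i (by omega), he i hi]
    · have hl'' : l ≤ Y.m + 1 := hl'
      obtain rfl : l = Y.m + 1 := by omega
      rw [e4, f4]
      congr 1
      refine Prod.ext (funext fun i => ?_) (by rw [← e2, ← f2, he _ (Nat.lt_succ_self _)])
      by_cases hi : i < Y.m
      · rw [← e1 i hi.ne, ← f1 i hi.ne, he i (by omega)]
      · rw [(h.box _ (hx1 x hx')).2 i (by omega), (h.box _ (hx1 y hy')).2 i (by omega)]
  · obtain ⟨x, hx', -, -, e3, e4, e5, e6⟩ := h.h78_S hx1 ht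
    rcases cs hi with hi | rfl
    · rw [e3 (i + 1) hi, e3 i hi.le, e5 i hi]
      simpa only [NestDat.snoc, NestTy.snoc, update_of_ne hi.ne] using h.step _ (hx1 x hx') i hi
    · rw [e4, e3 _ le_rfl, e6]
      simpa only [NestDat.snoc, NestTy.snoc, update_self] using (hx x hx').2.2.2.2.1
  · obtain ⟨x, hx', e1, e2, -, -, e5, e6⟩ := h.h78_S hx1 ht
    rcases cs hi with hi | rfl
    · rw [e5 i hi, e1 i hi.ne]
      simpa only [NestDat.snoc, update_of_ne hi.ne] using h.win _ (hx1 x hx') i hi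
    · rw [e6, e2]
      simpa only [NestDat.snoc, update_self] using
        (⟨(hx x hx').2.2.1, (hx x hx').2.2.2.1⟩ : _ ∧ _)
  · rcases cs hi with hi | rfl
    · simpa only [NestDat.snoc, NestTy.snoc, update_of_ne hi.ne,
        update_of_ne (show i + 1 ≠ Y.m + 1 by omega)] using h.ent i hi
    · simpa only [NestDat.snoc, NestTy.snoc, update_self] using hB
  · obtain ⟨x, hx', -, -, e3, e4, -⟩ := h.h78_S hx1 ht
    have hi' : i ≤ Y.m + 1 := hi
    by_cases hm : i ≤ Y.m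
    · simp only [NestDat.mem, e3 i hm, NestTy.snoc, update_of_ne (show i ≠ Y.m + 1 by omega)]
      exact h.mem _ (hx1 x hx') i h0 hm
    · obtain rfl : i = Y.m + 1 := by omega
      simp only [NestDat.mem, e4, NestTy.snoc, update_self]
      exact (hx x hx').2.2.2.2.2.1
  · rcases cs hi with hi | rfl
    · obtain ⟨κ, p, f, k0, p0, hk⟩ := h.leg i h0 hi
      have n1 : i ≠ Y.m + 1 := by omega
      have n2 : i + 1 ≠ Y.m + 1 := by omega
      refine ⟨κ, p, f, by simpa only [NestTy.snoc, update_of_ne n1] using k0,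
        by simpa only [NestTy.snoc, update_of_ne n1] using p0, fun t ht => ?_⟩
      obtain ⟨x, hx', -, -, e3, -⟩ := h.h78_S hx1 ht
      simp only [NestDat.mem, e3 i hi.le, e3 (i + 1) hi, NestTy.snoc, update_of_ne n2,
        update_of_ne hi.ne]
      exact hk _ (hx1 x hx')
    · obtain ⟨κ, p, f, k0, p0, hk⟩ := hl h0
      have n1 : Y.m ≠ Y.m + 1 := by omega
      refine ⟨κ, p, f, by simpa only [NestTy.snoc, update_of_ne n1] using k0,
        by simpa only [NestTy.snoc, update_of_ne n1] using p0, fun t ht => ?_⟩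
      obtain ⟨x, hx', -, -, e3, e4, -⟩ := h.h78_S hx1 ht
      simp only [NestDat.mem, e3 _ le_rfl, e4, NestTy.snoc, update_self]
      exact hk x hx'
  · obtain ⟨x, hx', -, -, e3, -⟩ := h.h78_S hx1 ht
    have hi' : i < Y.m + 1 := hi
    have n0 : 0 ≠ Y.m := by omega
    rw [e3 i (by omega), e3 0 (Nat.zero_le _)]
    simp only [NestTy.snoc, update_of_ne n0] at f0
    rcases cs hi with hi | rfl
    · simp only [NestTy.snoc, update_of_ne hi.ne] at fi
      simpa only [NestDat.snoc, update_of_ne hi.ne, update_of_ne n0] using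
        h.sing _ (hx1 x hx') i h0 hi f0 fi
    · simp only [NestTy.snoc, update_self] at fi
      simpa only [NestDat.snoc, update_self, update_of_ne n0] using
        (hx x hx').2.2.2.2.2.2 h0 f0 fi

theorem Fam.snoc_mem (h : Fam T P Y Z) {δ c : ℝ} {φ sb s : Bool} {Q N : ℕ} {j : ZMod n}
    {S2 : Finset ((ℕ → ℕ) × ℕ)} {s' b : ℝ} {A B : Mot} {F : (ℕ → ℕ) × ℕ → Mot}
    {pos : (ℕ → ℕ) × ℕ → ℝ} (hx : ∀ x ∈ S2, x.1 ∈ Z.S) {t : ℕ → ℕ}
    (ht : t ∈ (Z.snoc Y.m N S2 s' b A B F pos).S) : ∃ x ∈ S2,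
      ((Z.snoc Y.m N S2 s' b A B F pos).mem (Y.snoc δ c φ sb Q s j) (Y.m + 1) t).1 = (s, F x) := by
  obtain ⟨x, hx', -, -, -, e4, -⟩ := h.h78_S hx ht
  exact ⟨x, hx', by simp only [NestDat.mem, e4, NestTy.snoc, update_self]⟩

theorem Fam.row (h : Fam T P Y Z) {m : ℕ} (hm : Y.m = m + 1) (hδ : 0 < Y.δ)
    (hN : ∀ i < Y.m, 0 < Z.N i) : ∃ t0, Fam T P (Y.row m) (Z.row m t0) := by
  classical
  have hm' : m < Y.m := by omega
  have key : ∃ t0, Y.δ * Z.N m ≤
      (((Finset.range (Z.N m)).filter fun w => update t0 m w ∈ Z.S).card : ℝ) := by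
    by_contra hn
    simp only [not_exists, not_le] at hn
    have e1 := Finset.card_eq_sum_card_image (fun t : ℕ → ℕ => update t m 0) Z.S
    have e2 : ((Z.S.image fun t : ℕ → ℕ => update t m 0).card : ℝ) ≤
        ∏ i ∈ Finset.range m, (Z.N i : ℝ) := by
      rw [← Nat.cast_prod, Nat.cast_le]
      refine h78_box m Z.N _ fun u hu => ?_
      obtain ⟨t, ht, rfl⟩ := Finset.mem_image.1 hu
      refine ⟨fun i hi => ?_, fun i hi => ?_⟩
      · rw [update_of_ne hi.ne]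
        exact (h.box t ht).1 i (by omega)
      · rcases hi.lt_or_eq with hi | rfl
        · rw [update_of_ne hi.ne']
          exact (h.box t ht).2 i (by omega)
        · exact update_self _ _ _
    have e3 : ∀ u ∈ Z.S.image fun t : ℕ → ℕ => update t m 0,
        (((Z.S.filter fun t : ℕ → ℕ => update t m 0 = u).card : ℕ) : ℝ) < Y.δ * Z.N m := by
      intro u _
      refine lt_of_le_of_lt (Nat.cast_le.2 (Finset.card_le_card_of_injOn (fun t => t m)
        (fun t ht => ?_) fun t ht t' ht' e => ?_)) (hn u)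
      · rw [Finset.mem_coe, Finset.mem_filter] at ht ⊢
        refine ⟨Finset.mem_range.2 ((h.box t ht.1).1 m hm'), ?_⟩
        rw [← ht.2, update_idem, update_eq_self]
        exact ht.1
      · rw [Finset.mem_coe, Finset.mem_filter] at ht ht'
        have e' : t m = t' m := e
        rw [← update_eq_self m t, ← update_idem 0, ht.2, ← ht'.2, update_idem, e', update_eq_self]
    have e4 := Finset.sum_lt_sum_of_nonempty ((h.h78_ne hδ hN).image _) e3
    rw [← Nat.cast_sum, ← e1, Finset.sum_const, nsmul_eq_mul] at e4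
    have e5 := h.dens
    rw [hm, Finset.prod_range_succ] at e5
    have e6 := mul_le_mul_of_nonneg_right e2 (show 0 ≤ Y.δ * Z.N m by positivity)
    nlinarith
  obtain ⟨t0, ht0⟩ := key
  have z : ∀ {i : ℕ}, i < (Y.row m).m → i = 0 := fun hi => Nat.lt_one_iff.1 hi
  refine ⟨t0, h.pack, fun t ht => ?_, ?_, fun i hi => absurd (z hi) (by omega),
    fun i _ => h.s_pos m hm', fun i _ => h.tot m hm', fun i _ hi => absurd (z hi) (by omega),
    fun t ht t' ht' l hl he => ?_, fun t ht i hi => ?_, fun t ht i hi => ?_, fun i hi => ?_,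
    fun t ht i h0 hi => ?_, fun i h0 hi => absurd (z hi) (by omega),
    fun t ht i h0 hi => absurd (z hi) (by omega)⟩
  · refine ⟨fun i hi => ?_, (h78_rowS ht).2.2⟩
    rw [z hi]
    exact (h78_rowS ht).1
  · have e : (Z.row m t0).S.card =
        ((Finset.range (Z.N m)).filter fun w => update t0 m w ∈ Z.S).card := by
      refine (Finset.card_image_of_injective _ fun w w' e => ?_).trans ?_
      · simpa using congrFun e 0
      · congr
    rw [e]
    simpa [NestTy.row, NestDat.row] using ht0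
  · have hl' : l ≤ 1 := hl
    rcases hl'.lt_or_eq with hl' | rfl
    · obtain rfl : l = 0 := by omega
      exact h.dep _ (h78_rowS ht).2.1 _ (h78_rowS ht').2.1 m hm'.le fun i hi => by
        rw [update_of_ne hi.ne, update_of_ne hi.ne]
    · simp only [NestDat.row, he 0 Nat.one_pos]
  · rw [z hi]
    exact h.step _ (h78_rowS ht).2.1 m hm'
  · rw [z hi]
    simpa [NestDat.row] using h.win _ (h78_rowS ht).2.1 m hm'
  · rw [z hi]
    exact h.ent m hm'
  · have hi' : i ≤ 1 := hi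
    obtain rfl : i = 1 := by omega
    exact h.mem _ (h78_rowS ht).2.1 (m + 1) (by omega) hm.ge

theorem row_mem {m : ℕ} {t0 t : ℕ → ℕ} (ht : t ∈ (Z.row m t0).S) :
    ∃ t' ∈ Z.S, ((Z.row m t0).mem (Y.row m) 1 t).1 = (Z.mem Y (m + 1) t').1 := by
  exact ⟨_, (h78_rowS ht).2.1, rfl⟩

theorem Fam.nonempty (h : Fam T P Y Z) (hδ : 0 < Y.δ) (hN : ∀ i < Y.m, 0 < Z.N i) :
    Z.S.Nonempty := by
  exact h.h78_ne hδ hN

/-- With a fan first and runs after it, the last member fixes the first coordinate. -/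
theorem Fam.fst_eq (h : Fam T P Y Z) (hm : 0 < Y.m) (h0 : Y.fan 0 = true)
    (hr : ∀ i, 0 < i → i < Y.m → Y.fan i = false) {t t' : ℕ → ℕ} (ht : t ∈ Z.S) (ht' : t' ∈ Z.S)
    (he : Z.F Y.m t = Z.F Y.m t') : t 0 = t' 0 := by
  have k : ∀ i, i + 1 ≤ Y.m → (Z.F (i + 1) t).u = (Z.F (i + 1) t').u →
      (Z.F 1 t).u = (Z.F 1 t').u := by
    intro i
    induction i with
    | zero => exact fun _ e => e
    | succ i ih =>
      intro hi e
      refine ih (by omega) ?_
      rw [h.step t ht (i + 1) hi, h.step t' ht' (i + 1) hi, hr (i + 1) (by omega) hi] at e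
      simpa [gen, tr] using e
  obtain ⟨m, hm'⟩ : ∃ m, Y.m = m + 1 := ⟨Y.m - 1, by omega⟩
  have e1 := k m hm'.ge (by rw [← hm', he])
  have e0 := h.dep t ht t' ht' 0 (Nat.zero_le _) fun i hi => absurd hi (by omega)
  rw [h.step t ht 0 hm, h.step t' ht' 0 hm, h0, e0] at e1
  have e2 : Circle.exp (sg (Y.sb 0) * Z.pos 0 t) = Circle.exp (sg (Y.sb 0) * Z.pos 0 t') := by
    simpa [gen, rot] using e1
  have hs := h.s_pos 0 hm
  have htot := h.tot 0 hm
  rw [h0, if_pos rfl] at htot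
  have w : ∀ u ∈ Z.S, Z.b 0 ≤ Z.pos 0 u ∧ Z.pos 0 u < Z.b 0 + 2 * π := fun u hu => by
    obtain ⟨w1, w2⟩ := h.win u hu 0 hm
    have w3 : (u 0 : ℝ) + 1 ≤ Z.N 0 := by exact_mod_cast (h.box u hu).1 0 hm
    have w4 : (0 : ℝ) ≤ u 0 * Z.s 0 := by positivity
    exact ⟨by linarith, by nlinarith⟩
  have e3 := Proto.h54_inj _ e2 (by linarith [(w t ht).2, (w t' ht').1])
    (by linarith [(w t ht).1, (w t' ht').2])
  obtain ⟨a1, a2⟩ := h.win t ht 0 hm
  obtain ⟨b1, b2⟩ := h.win t' ht' 0 hm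
  have c1 : (t 0 : ℝ) < t' 0 + 1 := lt_of_mul_lt_mul_right (by linarith) hs.le
  have c2 : (t' 0 : ℝ) < t 0 + 1 := lt_of_mul_lt_mul_right (by linarith) hs.le
  have c3 : t 0 < t' 0 + 1 := by exact_mod_cast c1
  have c4 : t' 0 < t 0 + 1 := by exact_mod_cast c2
  omega

theorem Fam.card_fiber (h : Fam T P Y Z) (hm : 0 < Y.m) {S' : Finset (ℕ → ℕ)} (hS : S' ⊆ Z.S)
    (he : ∀ t ∈ S', ∀ t' ∈ S', t 0 = t' 0) :
    S'.card * Z.N 0 ≤ ∏ i ∈ Finset.range Y.m, Z.N i := by
  classical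
  obtain ⟨m, hm'⟩ : ∃ m, Y.m = m + 1 := ⟨Y.m - 1, by omega⟩
  rw [hm', Finset.prod_range_succ']
  refine Nat.mul_le_mul_right _ ?_
  have e : (S'.image fun t i => t (i + 1)).card = S'.card := by
    refine Finset.card_image_of_injOn fun t ht t' ht' e => funext fun i => ?_
    rcases i with _ | i
    · exact he t ht t' ht'
    · exact congrFun e i
  rw [← e]
  refine h78_box m (fun i => Z.N (i + 1)) _ fun u hu => ?_
  obtain ⟨t, ht, rfl⟩ := Finset.mem_image.1 hu
  exact ⟨fun i hi => (h.box t (hS ht)).1 (i + 1) (by omega),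
    fun i hi => (h.box t (hS ht)).2 (i + 1) (by omega)⟩

end Pool.Agent.Ng
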