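import Pool.Agent.P.MP_6145c0_co.Ng.Patch

/-! The star of a deep corner is a full star or a half star. -/

open Set Real

namespace Pool.Agent.Ng.Patch

variable {n : ℕ} {T : Proto n} {K : ℕ} {P : Patch T K} {b : Bool} {c c' e e' : Tile × ZMod n}

/-- The tile `y` fills at `q` the sector of angle `α` that starts in the direction `a`. -/
def h17_Sec (T : Proto n) (b : Bool) (y : Tile) (q : ℂ) (a : Circle) (α : ℝ) : Prop :=
  ∃ ρ > 0, ∀ s θ : ℝ, 0 < s → s < ρ → 0 ≤ θ → θ < 2 * π →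
    (q + s * (a * Circle.exp (sg b * θ) : Circle) ∈ T.tset y → θ ≤ α) ∧
    (0 < θ → θ < α → q + s * (a * Circle.exp (sg b * θ) : Circle) ∈ interior (T.tset y))

theorem h17_sec_corner (b : Bool) (c : Tile × ZMod n) :
    h17_Sec T b c.1 (T.pt c) (T.ray b c) (T.ang c) :=
  ⟨T.r1, T.r1_pos, fun _ _ h0 h1 h2 h3 =>
    ⟨(T.cone b c h0 h1 h2 h3).1, fun k1 k2 => T.cone_int b c h0 h1 k1 k2⟩⟩

theorem h17_sec_flat (b : Bool) (e : Tile × ZMod n) {q : ℂ} (h : q ∈ T.oedge e) :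
    h17_Sec T b e.1 q (T.dirn b e) π := by
  obtain ⟨ρ, h0, k⟩ := T.flat b e h
  refine ⟨ρ, h0, fun s θ s0 s1 t0 t1 => ?_⟩
  obtain ⟨k1, k2⟩ := k (q + s * (T.dirn b e * Circle.exp (sg b * θ) : Circle))
    (by rwa [Proto.h54_dist _ _ s0.le])
  rw [add_sub_cancel_left, Proto.h54_im] at k1 k2
  refine ⟨fun m => ?_, fun m1 m2 => k2.2 (mul_pos s0 (sin_pos_of_pos_of_lt_pi m1 m2))⟩
  by_contra hn
  have h1 : 0 < sin (θ - π) := sin_pos_of_pos_of_lt_pi (by linarith) (by linarith)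
  rw [sin_sub_pi] at h1
  have h2 := k1.1 m
  nlinarith

/-- The ray of a corner does not enter the sector of a tile. -/
theorem h17_ray (hc : c.1 ∈ P.all) {y : Tile} (hy : y ∈ P.all) {b' : Bool} {a : Circle} {α θ : ℝ}
    (h : h17_Sec T b y (T.pt c) a α) (h0 : 0 < θ) (h1 : θ < α) (h2 : θ < 2 * π)
    (hr : T.ray b' c = a * Circle.exp (sg b * θ)) : False := by
  obtain ⟨ρ, r0, k⟩ := h
  have l0 := T.len_pos (nr b' c)
  have m0 : 0 < min ρ (T.len (nr b' c)) := lt_min r0 l0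
  have a1 := min_le_left ρ (T.len (nr b' c))
  have a2 := min_le_right ρ (T.len (nr b' c))
  have k1 := (k (min ρ (T.len (nr b' c)) / 2) θ (by linarith) (by linarith) h0.le h2).2 h0 h1
  refine disjoint_left.1 (edge_disj (e := nr b' c) (by rwa [nr_fst]) hy) ?_ k1
  refine (T.mem_edge b' _ _).2 ⟨min ρ (T.len (nr b' c)) / 2, by linarith, by linarith, ?_⟩
  rw [fc_nr, T.dirn_nr, hr]

theorem h17_ang (b : Bool) (a a' : Circle) :
    ∃ θ : ℝ, 0 ≤ θ ∧ θ < 2 * π ∧ a' = a * Circle.exp (sg b * θ) := by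
  obtain ⟨θ, h0, h1, h⟩ := Proto.polar b 0 a (z := a') (Circle.coe_ne_zero a')
  refine ⟨θ, h0, h1, Circle.ext ?_⟩
  simpa using h

theorem h17_back (b : Bool) {a a' : Circle} {φ : ℝ} (h : a' = a * Circle.exp (sg b * φ)) (θ : ℝ) :
    a * Circle.exp (sg b * θ) = a' * Circle.exp (sg b * (θ - φ + 2 * π)) := by
  rw [Proto.h54_per, h, mul_assoc, ← Circle.exp_add]
  congr 2
  ring

/-- A tile whose sector does not start at the far ray of `c` leaves a gap after that ray. -/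
theorem h17_gap (hc : c.1 ∈ P.all) {y : Tile} (hy : y ∈ P.all) {a : Circle} {α : ℝ}
    (h : h17_Sec T b y (T.pt c) a α) (hn : a ≠ T.ray (!b) c) :
    ∃ ε > 0, ∀ s : ℝ, 0 < s → s < ε →
      T.pt c + s * (T.ray (!b) c * Circle.exp (sg b * s) : Circle) ∉ T.tset y := by
  obtain ⟨φ, p0, p1, hp⟩ := h17_ang b (T.ray (!b) c) a
  have p2 : 0 < φ := lt_of_le_of_ne p0 fun k => hn (by rw [hp, ← k]; simp)
  have p3 : α ≤ 2 * π - φ := by
    by_contra k
    refine h17_ray (b' := !b) hc hy h (θ := 0 - φ + 2 * π) (by linarith) (by linarith)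
      (by linarith) ?_
    rw [← h17_back b hp]
    simp
  obtain ⟨ρ, r0, k⟩ := h
  refine ⟨min ρ φ, lt_min r0 p2, fun s s0 s1 m => ?_⟩
  have a1 := s1.trans_le (min_le_left ρ φ)
  have a2 := s1.trans_le (min_le_right ρ φ)
  rw [h17_back b hp] at m
  have := (k s _ s0 a1 (by linarith) (by linarith)).1 m
  linarith

theorem h17_near {q : ℂ} {U : Set ℂ} (h : U ∈ nhds q) (a : ℝ → Circle) :
    ∃ ε > 0, ∀ s : ℝ, 0 < s → s < ε → q + s * a s ∈ U := by
  obtain ⟨ε, e0, k⟩ := Metric.mem_nhds_iff.1 h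
  exact ⟨ε, e0, fun s s0 s1 => k (by rwa [Metric.mem_ball, Proto.h54_dist _ _ s0.le])⟩

theorem h17_succ (a : Tile × ZMod n → ℝ) (f : ℕ → Tile × ZMod n) (l : ℕ) :
    asum a f (l + 1) = asum a f l + a (f l) := Finset.sum_range_succ _ _

theorem h17_min [NeZero n] (T : Proto n) : ∃ μ > 0, ∀ c : Tile × ZMod n, μ ≤ T.an id c := by
  obtain ⟨p, hp⟩ := Finite.exists_min fun p : Bool × ZMod n => (T.T p.1).ang p.2
  exact ⟨_, (T.T p.1).ang_pos p.2, fun c => hp (c.1.1, c.2)⟩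

/-- After a deep corner comes a linked corner or a flat. -/
theorem next (b : Bool) (hc : c.1 ∈ P.all) (hd : P.Deep (T.pt c)) :
    (∃ c', P.cx.L b c c') ∨
      ∃ e : Tile × ZMod n, e.1 ∈ P.all ∧ T.pt c ∈ T.oedge e ∧ T.dirn b e = T.ray (!b) c := by
  by_contra hn
  have key : ∀ y ∈ P.all, ∃ ε > 0, ∀ s : ℝ, 0 < s → s < ε →
      T.pt c + s * (T.ray (!b) c * Circle.exp (sg b * s) : Circle) ∉ T.tset y := by
    intro y hy
    by_cases hq : T.pt c ∈ T.tset y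
    · rcases T.mem_cases hq with k | ⟨i, k⟩ | ⟨i, k⟩
      · have m := T.pt_mem_edge (!true) (nr true c)
        rw [fc_nr] at m
        exact (disjoint_left.1 (edge_disj (e := nr true c) hc hy) m k).elim
      · exact h17_gap hc hy (h17_sec_flat b (y, i) k) fun e => hn (Or.inr ⟨(y, i), hy, k, e⟩)
      · exact h17_gap hc hy (k ▸ h17_sec_corner b (y, i)) fun e =>
          hn (Or.inl ⟨(y, i), hc, hy, k.symm, e⟩)
    · exact h17_near ((T.tset_closed y).isOpen_compl.mem_nhds hq) _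
  have ev : ∀ {p : ℝ → Prop}, (∃ ε > 0, ∀ s : ℝ, 0 < s → s < ε → p s) →
      ∀ᶠ s in nhdsWithin 0 (Ioi 0), p s := by
    rintro p ⟨ε, e0, k⟩
    filter_upwards [Ioo_mem_nhdsGT e0] with s hs using k s hs.1 hs.2
  have h1 := (Filter.eventually_all_finite P.fin).2 fun y hy => ev (key y hy)
  have h2 := ev (h17_near (mem_interior_iff_mem_nhds.1 hd)
    fun s => T.ray (!b) c * Circle.exp (sg b * s))
  obtain ⟨s, k1, k2⟩ := (h1.and h2).exists
  obtain ⟨y, hy, m⟩ := mem_iUnion₂.1 k2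
  exact k1 y hy m

theorem flat_unique (hc : c.1 ∈ P.all) (he : e.1 ∈ P.all) (he' : e'.1 ∈ P.all)
    (h : T.pt c ∈ T.oedge e) (h' : T.pt c ∈ T.oedge e') : e = e' := by
  obtain ⟨x, i⟩ := e
  obtain ⟨x', i'⟩ := e'
  obtain ⟨y, j⟩ := c
  by_cases k : x = x'
  · subst k
    rw [T.oedge_unique h (T.oedge_subset _ h')]
  · have k1 : x ≠ y := by
      rintro rfl
      exact T.oedge_ne_pt h rfl
    have k2 : x' ≠ y := by
      rintro rfl
      exact T.oedge_ne_pt h' rfl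
    exact (T.no_third h h' (P.disj he he' k) (P.disj he hc k1) (P.disj he' hc k2)
      (T.pt_mem _)).elim

theorem end_unique (hc : c.1 ∈ P.all) (hc' : c'.1 ∈ P.all) (hd : P.Deep (T.pt c))
    (hp : T.pt c' = T.pt c) (h : P.cx.End b c) (h' : P.cx.End b c') : c = c' := by
  obtain ⟨e, a1, a2, a3⟩ := (next b hc hd).resolve_left fun ⟨x, k⟩ => h x k
  obtain ⟨e', b1, b2, b3⟩ := (next b hc' (hp ▸ hd)).resolve_left fun ⟨x, k⟩ => h' x k
  obtain rfl := flat_unique hc a1 b1 a2 (hp ▸ b2)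
  exact P.corner_eq hc hc' hp.symm (a3.symm.trans b3)

theorem asum_le {f : ℕ → Tile × ZMod n} {l : ℕ} (h0 : (f 0).1 ∈ P.all) (h : P.cx.Ch b f l)
    (hs : asum (T.an id) f l < 2 * π) : asum (T.an id) f (l + 1) ≤ 2 * π := by
  by_contra hn
  rw [h17_succ] at hn
  have a1 : T.an id (f l) = T.ang (f l) := rfl
  have a2 := T.ang_lt (f l)
  have e1 : T.pt (f l) = T.pt (f 0) := P.geo.ch_pt h le_rfl
  have e2 : T.ray b (f l) = T.ray b (f 0) * Circle.exp (sg b * asum (T.an id) f l) :=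
    P.geo.ch_ray h le_rfl
  refine h17_ray (b' := b) h0 (ch_all h0 h le_rfl) (e1 ▸ h17_sec_corner b (f l))
    (θ := 0 - asum (T.an id) f l + 2 * π) (by linarith) (by linarith) (by linarith) ?_
  rw [← h17_back b e2]
  simp

theorem link_of_asum {f : ℕ → Tile × ZMod n} {l : ℕ} (h0 : (f 0).1 ∈ P.all) (h : P.cx.Ch b f l)
    (hs : asum (T.an id) f (l + 1) = 2 * π) : P.cx.L b (f l) (f 0) := by
  have e1 : T.pt (f l) = T.pt (f 0) := P.geo.ch_pt h le_rfl
  have e2 : T.ray (!b) (f l) = T.ray b (f 0) * Circle.exp (sg b * asum (T.an id) f (l + 1)) :=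
    P.geo.ch_ray' h le_rfl
  refine ⟨ch_all h0 h le_rfl, h0, e1.symm, ?_⟩
  rw [e2, hs, ← zero_add (2 * π), Proto.h54_per]
  simp

/-- The walk around a vertex returns after a full turn or stops before. -/
theorem walk_round [NeZero n] (b : Bool) (hc : c.1 ∈ P.all) :
    ∃ f l, f 0 = c ∧ P.cx.Ch b f l ∧
      ((P.cx.L b (f l) c ∧ asum (T.an id) f (l + 1) = 2 * π) ∨
        (P.cx.End b (f l) ∧ asum (T.an id) f (l + 1) < 2 * π)) := by
  by_contra hn
  have key : ∀ k, ∃ f, f 0 = c ∧ P.cx.Ch b f k ∧ asum (T.an id) f k < 2 * π := by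
    intro k
    induction k with
    | zero => exact ⟨fun _ => c, rfl, Seq.zero _ _, by simp [asum, pi_pos]⟩
    | succ k ih =>
      obtain ⟨f, f0, hf, hs⟩ := ih
      have h0 : (f 0).1 ∈ P.all := f0 ▸ hc
      rcases (asum_le h0 hf hs).lt_or_eq with m | m
      · by_cases he : P.cx.End b (f k)
        · exact (hn ⟨f, k, f0, hf, Or.inr ⟨he, m⟩⟩).elim
        · obtain ⟨x, hx⟩ := not_forall_not.1 he
          obtain ⟨g, g1, -, g3⟩ := Seq.snoc hf hx
          refine ⟨g, (g1 0 (Nat.zero_le _)).trans f0, g3, lt_of_eq_of_lt ?_ m⟩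
          exact Finset.sum_congr rfl fun i hi => by
            rw [g1 i (Nat.lt_succ_iff.1 (Finset.mem_range.1 hi))]
      · exact (hn ⟨f, k, f0, hf, Or.inl ⟨f0 ▸ link_of_asum h0 hf m, m⟩⟩).elim
  obtain ⟨μ, m0, hm⟩ := h17_min T
  obtain ⟨k, hk⟩ := exists_nat_ge (2 * π / μ)
  obtain ⟨f, -, -, hs⟩ := key k
  have h1 : k • μ ≤ asum (T.an id) f k := by
    have := Finset.card_nsmul_le_sum (Finset.range k) (fun i => T.an id (f i)) μ fun i _ => hm _
    rwa [Finset.card_range] at this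
  rw [nsmul_eq_mul] at h1
  rw [div_le_iff₀ m0] at hk
  linarith

theorem h17_half [NeZero n] (hc : c.1 ∈ P.all) (hd : P.Deep (T.pt c)) (h : P.cx.End b c) :
    ∃ g m, g 0 = c ∧ P.cx.HalfF (T.an id) (!b) g m := by
  obtain ⟨g, m, g0, hg, ⟨h1, -⟩ | ⟨h1, h2⟩⟩ := walk_round (!b) hc
  · exact (h _ (Cx.inv' h1)).elim
  · subst g0
    have e1 : T.pt (g m) = T.pt (g 0) := P.geo.ch_pt hg le_rfl
    have e2 : T.ray (!!b) (g m) =
        T.ray (!b) (g 0) * Circle.exp (sg (!b) * asum (T.an id) g (m + 1)) :=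
      P.geo.ch_ray' hg le_rfl
    obtain ⟨e, a1, a2, a3⟩ := (next b hc hd).resolve_left fun ⟨x, k⟩ => h x k
    obtain ⟨e', b1, b2, b3⟩ :=
      (next (!b) (ch_all hc hg le_rfl) (e1 ▸ hd)).resolve_left fun ⟨x, k⟩ => h1 x k
    obtain rfl := flat_unique hc a1 b1 a2 (e1 ▸ b2)
    refine ⟨g, m, rfl, hg, by rwa [Bool.not_not], h1, ?_⟩
    rw [← b3, T.dirn_not, a3, Proto.h54_neg, mul_right_inj] at e2
    have e3 : Circle.exp (sg true * π) = Circle.exp (sg (!b) * π) := by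
      cases b
      · rfl
      · rw [← Proto.h54_per true (x := -π) |>.trans (by simp : _ = Circle.exp (sg (!true) * π))]
        congr 2
        ring
    have a0 := T.asum_nonneg id g (m + 1)
    have := pi_pos
    exact Proto.h54_inj (!b) (e2.symm.trans e3) (by linarith) (by linarith)

theorem star [NeZero n] (hc : c.1 ∈ P.all) (hd : P.Deep (T.pt c)) :
    P.cx.Cyc (T.an id) c ∨ P.cx.Half (T.an id) c := by
  obtain ⟨f, l, f0, hf, ⟨h1, h2⟩ | ⟨h1, -⟩⟩ := walk_round true hc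
  · exact Or.inl ⟨f, l, f0, hf, f0 ▸ h1, h2⟩
  · have e1 : T.pt (f l) = T.pt (f 0) := P.geo.ch_pt hf le_rfl
    obtain ⟨g, m, g0, hg⟩ := h17_half (ch_all (f0 ▸ hc) hf le_rfl) (by rwa [e1, f0]) h1
    have e0 : g 0 = f (l - 0) := g0
    have lm : l ≤ m := hg.1.le_of_end hf.rev e0 hg.2.2.1
    have e2 := hg.1.unique hf.rev e0 lm le_rfl
    rw [Nat.sub_self, f0] at e2
    exact Or.inr (e2 ▸ hg.half lm)

theorem half_of_end [NeZero n] (hc : c.1 ∈ P.all) (hd : P.Deep (T.pt c)) (h : P.cx.End b c) :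
    P.cx.Half (T.an id) c := by
  obtain ⟨g, m, g0, hg⟩ := h17_half hc hd h
  exact g0 ▸ hg.half (Nat.zero_le m)

/-- A chain that does not return makes less than a full turn. -/
theorem asum_lt [NeZero n] {f : ℕ → Tile × ZMod n} {M l : ℕ} (h0 : (f 0).1 ∈ P.all)
    (h : P.cx.Ch b f M) (hn : ∀ i, 0 < i → i ≤ M → f i ≠ f 0) (hl : l ≤ M) :
    asum (T.an id) f l < 2 * π := by
  induction l with
  | zero => simp [asum, pi_pos]
  | succ l ih =>
    have hf : P.cx.Ch b f l := Seq.mono h (by omega)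
    refine lt_of_le_of_ne (asum_le h0 hf (ih (by omega))) fun m => ?_
    exact hn (l + 1) (by omega) hl (P.cx.fn (h l hl) (link_of_asum h0 hf m))

end Pool.Agent.Ng.Patch
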