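import Mathlib

set_option autoImplicit false

open Set Metric Complex
open scoped ComplexConjugate

namespace Pool.Agent.P.MP_6145c0_co.Ng

/-- the germ of the interior of `y` at `z` is joined to the germ of the interior of `y'` at `z'`
inside `Ω`, as close to `K` as one likes -/
def J (Ω K y : Set ℂ) (z : ℂ) (y' : Set ℂ) (z' : ℂ) : Prop :=
  ∀ ε > 0, ∃ δ > 0, ∀ a ∈ interior y ∩ ball z δ, ∀ a' ∈ interior y' ∩ ball z' δ,
    JoinedIn (Ω ∩ thickening ε K) a a'

/-- a closed set that is the closure of its interior and whose interior is locally connected at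
each of its points -/
def LC (y : Set ℂ) : Prop :=
  y ⊆ closure (interior y) ∧ ∀ u ∈ y, J (interior y) {u} y u y u

/-- the interior is star shaped towards each point of the set, near that point -/
def ST (y : Set ℂ) : Prop :=
  ∀ u ∈ y, ∃ δ > 0, ∀ a ∈ interior y ∩ ball u δ, ∀ t : ℝ, 0 < t → t ≤ 1 →
    u + t * (a - u) ∈ interior y

/-- a route of `Q + 1` segments `[P q, P (q+1)]` in tiles `y q` -/
structure Route (Ω : Set ℂ) (Q : ℕ) (y : ℕ → Set ℂ) (P : ℕ → ℂ) : Prop where
  lc : ∀ q ≤ Q, LC (y q)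
  sub : ∀ q ≤ Q, interior (y q) ⊆ Ω
  seg : ∀ q ≤ Q, segment ℝ (P q) (P (q + 1)) ⊆ y q
  jn : ∀ q < Q, J Ω {P (q + 1)} (y q) (P (q + 1)) (y (q + 1)) (P (q + 1))

end Pool.Agent.P.MP_6145c0_co.Ng
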