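import Pool.Agent.P.MP_6145c0_co.Ng.X4Defs

set_option autoImplicit false

open Set Metric Complex
open scoped ComplexConjugate

namespace Pool.Agent.P.MP_6145c0_co.Ng

variable {Ω Ω' K K' y y' y'' : Set ℂ} {z z' z'' : ℂ}

theorem J.mono (h : J Ω K y z y' z') (h1 : Ω ⊆ Ω') (h2 : K ⊆ K') : J Ω' K' y z y' z' := by
  intro ε hε
  obtain ⟨δ, hδ, H⟩ := h ε hε
  exact ⟨δ, hδ, fun a ha a' ha' => (H a ha a' ha').mono
    (inter_subset_inter h1 (thickening_subset_of_subset ε h2))⟩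

theorem J.symm (h : J Ω K y z y' z') : J Ω K y' z' y z := by
  intro ε hε
  obtain ⟨δ, hδ, H⟩ := h ε hε
  exact ⟨δ, hδ, fun a ha a' ha' => (H a' ha' a ha).symm⟩

theorem x4_near {δ : ℝ} (hz : z ∈ closure (interior y)) (hδ : 0 < δ) :
    ∃ a, a ∈ interior y ∩ ball z δ := by
  obtain ⟨a, h1, h2⟩ := Metric.mem_closure_iff.1 hz δ hδ
  exact ⟨a, h1, mem_ball'.2 h2⟩

theorem x4_tr {S : Set ℂ} (hz : z' ∈ closure (interior y'))
    (h : ∃ δ > 0, ∀ a ∈ interior y ∩ ball z δ, ∀ a' ∈ interior y' ∩ ball z' δ, JoinedIn S a a')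
    (h' : ∃ δ > 0, ∀ a ∈ interior y' ∩ ball z' δ, ∀ a' ∈ interior y'' ∩ ball z'' δ,
      JoinedIn S a a') :
    ∃ δ > 0, ∀ a ∈ interior y ∩ ball z δ, ∀ a' ∈ interior y'' ∩ ball z'' δ, JoinedIn S a a' := by
  obtain ⟨δ, hδ, H⟩ := h
  obtain ⟨δ', hδ', H'⟩ := h'
  obtain ⟨m, hm⟩ := x4_near hz (lt_min hδ hδ')
  have s1 : ∀ u : ℂ, ball u (min δ δ') ⊆ ball u δ := fun u => ball_subset_ball (min_le_left _ _)
  have s2 : ∀ u : ℂ, ball u (min δ δ') ⊆ ball u δ' := fun u => ball_subset_ball (min_le_right _ _)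
  exact ⟨min δ δ', lt_min hδ hδ', fun a ha a' ha' =>
    (H a ⟨ha.1, s1 _ ha.2⟩ m ⟨hm.1, s1 _ hm.2⟩).trans
      (H' m ⟨hm.1, s2 _ hm.2⟩ a' ⟨ha'.1, s2 _ ha'.2⟩)⟩

theorem J.trans (h : J Ω K y z y' z') (h' : J Ω K y' z' y'' z'')
    (hz : z' ∈ closure (interior y')) : J Ω K y z y'' z'' :=
  fun ε hε => x4_tr hz (h ε hε) (h' ε hε)

/-- m1: along a connected part of one tile -/
theorem J.along (hy : LC y) (hK : IsPreconnected K) (hs : K ⊆ y) (hz : z ∈ K) (hz' : z' ∈ K) :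
    J (interior y) K y z y z' := by
  intro ε hε
  refine hK.induction₂' (fun u v => ∃ δ > 0, ∀ a ∈ interior y ∩ ball u δ,
    ∀ a' ∈ interior y ∩ ball v δ, JoinedIn (interior y ∩ thickening ε K) a a')
    (fun u hu => ?_) (fun u v w _ hv _ h1 h2 => x4_tr (hy.1 (hs hv)) h1 h2) hz hz'
  obtain ⟨δ, hδ, H⟩ := (hy.2 u (hs hu)).mono subset_rfl (singleton_subset_iff.2 hu) ε hε
  filter_upwards [mem_nhdsWithin_of_mem_nhds (ball_mem_nhds u hδ)] with v hv
  have h0 : 0 < δ - dist v u := sub_pos.2 hv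
  have s1 : ball u (δ - dist v u) ⊆ ball u δ := ball_subset_ball (by linarith [dist_nonneg (x := v) (y := u)])
  have s2 : ball v (δ - dist v u) ⊆ ball u δ := ball_subset_ball' (by linarith)
  exact ⟨⟨_, h0, fun a ha a' ha' => H a ⟨ha.1, s1 ha.2⟩ a' ⟨ha'.1, s2 ha'.2⟩⟩,
    ⟨_, h0, fun a ha a' ha' => H a ⟨ha.1, s2 ha.2⟩ a' ⟨ha'.1, s1 ha'.2⟩⟩⟩

/-- m2: across a common piece of boundary that accumulates at `z` (link, wall) -/
theorem J.across (hy : LC y) (hy' : LC y') (hz : z ∈ y) (hz' : z ∈ y')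
    (h : z ∈ closure (y ∩ y' ∩ interior (y ∪ y'))) : J (interior (y ∪ y')) {z} y z y' z := by
  intro ε hε
  obtain ⟨δ, hδ, H⟩ := (hy.2 z hz).mono (interior_mono (subset_union_left (t := y'))) subset_rfl ε hε
  obtain ⟨δ', hδ', H'⟩ :=
    (hy'.2 z hz').mono (interior_mono (subset_union_right (s := y))) subset_rfl ε hε
  have h0 : 0 < min (min δ δ') ε := lt_min (lt_min hδ hδ') hε
  have s1 : ball z (min (min δ δ') ε) ⊆ ball z δ :=
    ball_subset_ball ((min_le_left _ _).trans (min_le_left _ _))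
  have s2 : ball z (min (min δ δ') ε) ⊆ ball z δ' :=
    ball_subset_ball ((min_le_left _ _).trans (min_le_right _ _))
  obtain ⟨m, hm, hm'⟩ := Metric.mem_closure_iff.1 h _ h0
  obtain ⟨η, hη, hb⟩ := Metric.isOpen_iff.1 (isOpen_interior.inter isOpen_ball) m
    ⟨hm.2, mem_ball'.2 hm'⟩
  obtain ⟨a₁, h1⟩ := x4_near (hy.1 hm.1.1) hη
  obtain ⟨a₂, h2⟩ := x4_near (hy'.1 hm.1.2) hη
  have h3 : JoinedIn (interior (y ∪ y') ∩ thickening ε {z}) a₁ a₂ := by
    refine .of_segment_subset (((convex_ball m η).segment_subset h1.2 h2.2).trans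
      (hb.trans (inter_subset_inter_right _ ?_)))
    rw [thickening_singleton]
    exact ball_subset_ball (min_le_right _ _)
  exact ⟨_, h0, fun a ha a' ha' => ((H a ⟨ha.1, s1 ha.2⟩ a₁ ⟨h1.1, s1 (hb h1.2).2⟩).trans h3).trans
    (H' a₂ ⟨h2.1, s2 (hb h2.2).2⟩ a' ⟨ha'.1, s2 ha'.2⟩)⟩

theorem x4_star (hy : ST y) (hz : z ∈ y) {ε : ℝ} (hε : 0 < ε) : ∃ δ > 0,
    ∀ a ∈ interior y ∩ ball z δ, JoinedIn ((interior y ∪ {z}) ∩ thickening ε {z}) z a := by
  obtain ⟨δ, hδ, H⟩ := hy z hz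
  refine ⟨min δ ε, lt_min hδ hε, fun a ha => .of_segment_subset fun w hw => ⟨?_, ?_⟩⟩
  · rw [segment_eq_image'] at hw
    obtain ⟨t, ht, rfl⟩ := hw
    rcases ht.1.eq_or_lt with h | h
    · right
      simp [← h]
    · exact Or.inl (H a ⟨ha.1, ball_subset_ball (min_le_left _ _) ha.2⟩ t h ht.2)
  · rw [thickening_singleton]
    exact (convex_ball z ε).segment_subset (mem_ball_self hε)
      (ball_subset_ball (min_le_right _ _) ha.2) hw

/-- m3: through a common point (fan point) -/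
theorem J.through (hy : ST y) (hy' : ST y') (hz : z ∈ y) (hz' : z ∈ y') :
    J (interior y ∪ interior y' ∪ {z}) {z} y z y' z := by
  intro ε hε
  obtain ⟨δ, hδ, H⟩ := x4_star hy hz hε
  obtain ⟨δ', hδ', H'⟩ := x4_star hy' hz' hε
  refine ⟨min δ δ', lt_min hδ hδ', fun a ha a' ha' =>
    ((H a ⟨ha.1, ball_subset_ball (min_le_left _ _) ha.2⟩).mono ?_).symm.trans
      ((H' a' ⟨ha'.1, ball_subset_ball (min_le_right _ _) ha'.2⟩).mono ?_)⟩
  · exact inter_subset_inter_left _ (union_subset_union_left _ subset_union_left)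
  · exact inter_subset_inter_left _ (union_subset_union_left _ subset_union_right)

theorem x4_sec_mem {u d : ℂ} {ρ φ δ : ℝ} (hd : ‖d‖ = 1) (hρ : 0 < ρ) :
    u + ρ * d * exp (φ * I) ∈ ball u δ ↔ ρ < δ := by
  rw [mem_ball, dist_eq_norm, add_sub_cancel_left, norm_mul, norm_mul, hd, norm_exp_ofReal_mul_I,
    norm_real, Real.norm_of_nonneg hρ.le, mul_one, mul_one]

/-- a set that is a sector near each point that is not interior has `LC` and `ST` -/
theorem x4_sector (h : ∀ u ∈ y, u ∈ interior y ∨ ∃ (δ α : ℝ) (d : ℂ), 0 < δ ∧ 0 < α ∧ ‖d‖ = 1 ∧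
    interior y ∩ ball u δ =
      {w | ∃ ρ φ : ℝ, 0 < ρ ∧ ρ < δ ∧ 0 < φ ∧ φ < α ∧ w = u + ρ * d * exp (φ * I)}) :
    LC y ∧ ST y := by
  refine ⟨⟨fun u hu => ?_, fun u hu ε hε => ?_⟩, fun u hu => ?_⟩
  · rcases h u hu with h | ⟨δ, α, d, hδ, hα, hd, e⟩
    · exact subset_closure h
    · refine Metric.mem_closure_iff.2 fun ε hε => ?_
      have h0 : 0 < min δ ε / 2 := by positivity
      have h1 := min_le_left δ ε
      have h2 := min_le_right δ ε
      refine ⟨u + (min δ ε / 2 : ℝ) * d * exp ((α / 2 : ℝ) * I), ?_,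
        mem_ball'.1 ((x4_sec_mem hd h0).2 (by linarith))⟩
      exact (e.symm.subset ⟨_, _, h0, by linarith, by linarith, by linarith, rfl⟩).1
  · rcases h u hu with h | ⟨δ, α, d, hδ, hα, hd, e⟩
    · obtain ⟨δ, hδ, hb⟩ := Metric.isOpen_iff.1 isOpen_interior u h
      refine ⟨min δ ε, lt_min hδ hε, fun a ha a' ha' =>
        .of_segment_subset (((convex_ball _ _).segment_subset ha.2 ha'.2).trans ?_)⟩
      rw [thickening_singleton]
      exact subset_inter ((ball_subset_ball (min_le_left _ _)).trans hb)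
        (ball_subset_ball (min_le_right _ _))
    · have hc : IsPathConnected ((fun p : ℝ × ℝ => u + p.1 * d * exp (p.2 * I)) ''
          (Ioo 0 (min δ ε) ×ˢ Ioo 0 α)) :=
        (((convex_Ioo _ _).prod (convex_Ioo _ _)).isPathConnected
          ((nonempty_Ioo.2 (lt_min hδ hε)).prod (nonempty_Ioo.2 hα))).image (by fun_prop)
      have k : ∀ a ∈ interior y ∩ ball u (min δ ε), a ∈ (fun p : ℝ × ℝ =>
          u + p.1 * d * exp (p.2 * I)) '' (Ioo 0 (min δ ε) ×ˢ Ioo 0 α) := by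
        intro a ha
        obtain ⟨ρ, φ, h1, -, h3, h4, rfl⟩ :=
          e.subset ⟨ha.1, ball_subset_ball (min_le_left _ _) ha.2⟩
        exact ⟨(ρ, φ), ⟨⟨h1, (x4_sec_mem hd h1).1 ha.2⟩, h3, h4⟩, rfl⟩
      refine ⟨min δ ε, lt_min hδ hε, fun a ha a' ha' =>
        (hc.joinedIn a (k a ha) a' (k a' ha')).mono ?_⟩
      rintro _ ⟨⟨ρ, φ⟩, ⟨⟨h1, h2⟩, h3, h4⟩, rfl⟩
      rw [thickening_singleton]
      exact ⟨(e.symm.subset ⟨ρ, φ, h1, h2.trans_le (min_le_left _ _), h3, h4, rfl⟩).1,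
        (x4_sec_mem hd h1).2 (h2.trans_le (min_le_right _ _))⟩
  · rcases h u hu with h | ⟨δ, α, d, hδ, hα, hd, e⟩
    · obtain ⟨δ, hδ, hb⟩ := Metric.isOpen_iff.1 isOpen_interior u h
      refine ⟨δ, hδ, fun a ha t h0 h1 => hb ?_⟩
      exact (convex_ball u δ).add_smul_sub_mem (mem_ball_self hδ) ha.2 ⟨h0.le, h1⟩
    · refine ⟨δ, hδ, fun a ha t h0 h1 => ?_⟩
      obtain ⟨ρ, φ, h2, h3, h4, h5, rfl⟩ := e.subset ha
      refine (e.symm.subset ⟨t * ρ, φ, by positivity, by nlinarith, h4, h5, ?_⟩).1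
      push_cast
      ring

theorem x4_fin {ι : Type*} (t : ι → Set ℂ) (hc : ∀ i, IsClosed (t i)) {T : Set ι} (h : T.Finite) :
    ∀ U : Set ℂ, IsOpen U → U.Nonempty → U ⊆ ⋃ i ∈ T, t i →
      ∃ i ∈ T, (U ∩ interior (t i)).Nonempty := by
  induction T, h using Set.Finite.induction_on with
  | empty => exact fun U _ ⟨x, hx⟩ h => by simpa using h hx
  | @insert a T _ _ ih =>
    intro U hU hn hs
    by_cases h : U ⊆ t a
    · obtain ⟨x, hx⟩ := hn
      exact ⟨a, mem_insert _ _, x, hx, interior_maximal h hU hx⟩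
    · obtain ⟨i, hi, x, hx⟩ := ih (U \ t a) (hU.sdiff (hc a)) (sdiff_nonempty.2 h) fun x hx => by
        have := hs hx.1
        rw [biUnion_insert] at this
        exact this.resolve_left hx.2
      exact ⟨i, mem_insert_of_mem _ hi, x, hx.1.1, hx.2⟩

theorem x4_touch {ι : Type*} (t : ι → Set ℂ) (hc : ∀ i, IsClosed (t i))
    (hb : ∀ i, t i ⊆ closure (interior (t i)))
    (hp : ∀ i j, i ≠ j → Disjoint (interior (t i)) (interior (t j))) {T : Set ι} (h : T.Finite)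
    {i : ι} {x : ℂ} (hx : x ∈ t i) (hx' : x ∈ interior (⋃ i ∈ T, t i)) : i ∈ T := by
  obtain ⟨j, hj, w, hw⟩ := x4_fin t hc h (interior (⋃ i ∈ T, t i) ∩ interior (t i))
    (isOpen_interior.inter isOpen_interior)
    (mem_closure_iff.1 (hb i hx) _ isOpen_interior hx') (inter_subset_left.trans interior_subset)
  by_contra hi
  exact disjoint_left.1 (hp i j fun e => hi (e ▸ hj)) hw.1.2 hw.2

/-- two disjoint finite families of tiles of one packing, each with a set of extra points -/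
theorem x4_disj {ι : Type*} (t : ι → Set ℂ) (hc : ∀ i, IsClosed (t i))
    (hb : ∀ i, t i ⊆ closure (interior (t i)))
    (hp : ∀ i j, i ≠ j → Disjoint (interior (t i)) (interior (t j))) {T₁ T₂ : Set ι}
    (h1 : T₁.Finite) (h2 : T₂.Finite) (hT : Disjoint T₁ T₂) {X₁ X₂ : Set ℂ}
    (hX : Disjoint X₁ X₂) (hX1 : X₁ ⊆ ⋃ i ∈ T₁, t i) (hX2 : X₂ ⊆ ⋃ i ∈ T₂, t i) :
    Disjoint (interior (⋃ i ∈ T₁, t i) ∪ X₁) (interior (⋃ i ∈ T₂, t i) ∪ X₂) := by
  have k1 : ∀ x ∈ ⋃ i ∈ T₁, t i, x ∉ interior (⋃ i ∈ T₂, t i) := fun x hx hx' => by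
    obtain ⟨i, hi, hx⟩ := mem_iUnion₂.1 hx
    exact disjoint_left.1 hT hi (x4_touch t hc hb hp h2 hx hx')
  have k2 : ∀ x ∈ ⋃ i ∈ T₂, t i, x ∉ interior (⋃ i ∈ T₁, t i) := fun x hx hx' => by
    obtain ⟨i, hi, hx⟩ := mem_iUnion₂.1 hx
    exact disjoint_left.1 hT (x4_touch t hc hb hp h1 hx hx') hi
  refine disjoint_left.2 fun x hx hx' => ?_
  rcases hx with hx | hx <;> rcases hx' with hx' | hx'
  · exact k1 x (interior_subset hx) hx'
  · exact k2 x (hX2 hx') hx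
  · exact k1 x (hX1 hx) hx'
  · exact disjoint_left.1 hX hx hx'

end Pool.Agent.P.MP_6145c0_co.Ng
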