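import Mathlib

set_option autoImplicit false

open Set Metric Complex
open scoped ComplexConjugate Real

namespace Pool.Agent.P.MP_6145c0_co.Ng

theorem x4_side {L : ℝ → ℂ} (hL : Continuous L) {w : ℂ}
    (h : ∀ s, 0 ≤ (w * exp (L s)).re) (hw : w ≠ 0) :
    (L 1).im - (L 0).im = arg (w * exp (L 1)) - arg (w * exp (L 0)) := by
  have h0 : ∀ s, w * exp (L s) ≠ 0 := fun s => mul_ne_zero hw (exp_ne_zero _)
  have h1 : ∀ s, w * exp (L s) ∈ slitPlane := fun s => by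
    rcases (h s).eq_or_lt with e | e
    · exact Or.inr fun e' => h0 s (Complex.ext e.symm e')
    · exact Or.inl e
  have h2 : Continuous fun s => L s - log (w * exp (L s)) :=
    hL.sub (Continuous.clog (by fun_prop) h1)
  have h3 : ∀ s, exp (L s - log (w * exp (L s))) = w⁻¹ := fun s => by
    rw [exp_sub, exp_log (h0 s)]
    field_simp
  have h4 := isCoveringMap_exp.const_of_comp h2
    (fun a a' => Subtype.ext ((h3 a).trans (h3 a').symm)) 1 0
  have h5 := congrArg im h4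
  simp only [sub_im, log_im] at h5
  linarith

/-- no two disjoint paths with alternating ends in a closed half plane -/
theorem x4_half {A B : Set ℂ} {a b c e : ℂ} (hA : ∀ z ∈ A, 0 ≤ z.im) (hB : ∀ z ∈ B, 0 ≤ z.im)
    (hd : Disjoint A B) (h1 : JoinedIn A a b) (h2 : JoinedIn B c e) (ha : a.im = 0) (hb : b.im = 0)
    (hc : c.im = 0) (he : e.im = 0) (hac : a.re < c.re) (hcb : c.re < b.re) (hbe : b.re < e.re) :
    False := by
  obtain ⟨γ, hγ⟩ := h1
  obtain ⟨η, hη⟩ := h2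
  have m1 : ∀ s, γ.extend s ∈ A := fun s => hγ _
  have m2 : ∀ s, η.extend s ∈ B := fun s => hη _
  have hne : ∀ p : ℝ × ℝ, γ.extend p.1 - η.extend p.2 ≠ 0 := fun p h =>
    disjoint_left.1 hd (m1 p.1) (sub_eq_zero.1 h ▸ m2 p.2)
  obtain ⟨L, ⟨-, hL⟩, -⟩ := isCoveringMapOn_exp.existsUnique_continuousMap_lifts
    (⟨fun p : ℝ × ℝ => γ.extend p.1 - η.extend p.2, by fun_prop⟩ : C(ℝ × ℝ, ℂ))
    (a₀ := (0, 0)) (exp_log (hne _)) hne
  have k : ∀ s t, exp (L (s, t)) = γ.extend s - η.extend t := fun s t => congrFun hL (s, t)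
  have s1 := x4_side (L := fun s => L (s, 0)) (by fun_prop) (w := -I)
    (fun s => by simpa [k, hc] using hA _ (m1 s)) (by simp)
  have s2 := x4_side (L := fun t => L (1, t)) (by fun_prop) (w := I)
    (fun s => by simpa [k, hb] using hB _ (m2 s)) (by simp)
  have s3 := x4_side (L := fun s => L (s, 1)) (by fun_prop) (w := -I)
    (fun s => by simpa [k, he] using hA _ (m1 s)) (by simp)
  have s4 := x4_side (L := fun t => L (0, t)) (by fun_prop) (w := I)
    (fun s => by simpa [k, ha] using hB _ (m2 s)) (by simp)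
  simp only [k, Path.extend_zero, Path.extend_one] at s1 s2 s3 s4
  have p : ∀ u v : ℂ, u.im = 0 → v.im = 0 → u.re < v.re → arg (-I * (u - v)) = π / 2 ∧
      arg (I * (u - v)) = -(π / 2) ∧ arg (-I * (v - u)) = -(π / 2) ∧ arg (I * (v - u)) = π / 2 := by
    intro u v hu hv h
    refine ⟨arg_eq_pi_div_two_iff.2 ?_, arg_eq_neg_pi_div_two_iff.2 ?_,
      arg_eq_neg_pi_div_two_iff.2 ?_, arg_eq_pi_div_two_iff.2 ?_⟩ <;> simp [hu, hv, h]
  obtain ⟨p1, p2, -, -⟩ := p a c ha hc hac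
  obtain ⟨-, -, p3, p4⟩ := p c b hc hb hcb
  obtain ⟨p5, p6, -, -⟩ := p b e hb he hbe
  obtain ⟨p7, p8, -, -⟩ := p a e ha he (by linarith)
  have := Real.pi_pos
  linarith

theorem x4_moeb {R : ℝ} (hR : 0 < R) {z : ℂ} (h0 : z + R * I ≠ 0) :
    ((z + R * I)⁻¹ + (2 * R : ℝ)⁻¹ * I).im =
      (z.re ^ 2 + z.im ^ 2 - R ^ 2) / (2 * R * normSq (z + R * I)) := by
  have h1 : normSq (z + R * I) ≠ 0 := (normSq_pos.2 h0).ne'
  have h2 : normSq (z + R * I) = z.re ^ 2 + (z.im + R) ^ 2 := by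
    simp [normSq_apply, sq]
  rw [add_im, inv_im]
  simp only [add_im, mul_im, ofReal_re, ofReal_im, I_im, I_re, mul_one, mul_zero, add_zero]
  field_simp
  rw [h2]
  ring

theorem x4_mono {R : ℝ} (hR : 0 < R) {z w : ℂ} (hz : z.re ^ 2 + z.im ^ 2 = R ^ 2)
    (hw : w.re ^ 2 + w.im ^ 2 = R ^ 2) (hz' : 0 < z.im) (hw' : 0 < w.im) (h : z.re < w.re) :
    ((z + R * I)⁻¹ + (2 * R : ℝ)⁻¹ * I).re < ((w + R * I)⁻¹ + (2 * R : ℝ)⁻¹ * I).re := by
  have k : ∀ z : ℂ, z.re ^ 2 + z.im ^ 2 = R ^ 2 →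
      ((z + R * I)⁻¹ + (2 * R : ℝ)⁻¹ * I).re = z.re / (2 * R * (z.im + R)) := by
    intro z hz
    have h2 : normSq (z + R * I) = 2 * R * (z.im + R) := by
      simp only [normSq_apply, add_re, add_im, mul_re, mul_im, ofReal_re, ofReal_im, I_im, I_re]
      linarith
    rw [add_re, inv_re, h2]
    simp
  rw [k z hz, k w hw, div_lt_div_iff₀ (by positivity) (by positivity)]
  have h3 : z.re * w.im - w.re * z.im < R * (w.re - z.re) := by
    have h4 : (z.re * w.im - w.re * z.im) * (z.im + w.im) =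
        (z.re - w.re) * (R ^ 2 + z.im * w.im + z.re * w.re) +
          2 * (w.re - z.re) * 0 := by
      have e1 : w.im ^ 2 = R ^ 2 - w.re ^ 2 := by linarith
      have e2 : z.im ^ 2 = R ^ 2 - z.re ^ 2 := by linarith
      linear_combination z.re * e1 - w.re * e2
    have h5 : 0 ≤ R ^ 2 + z.re * w.re := by nlinarith [sq_nonneg (z.re + w.re), sq_nonneg z.im, sq_nonneg w.im]
    have h6 : (z.re * w.im - w.re * z.im) * (z.im + w.im) < 0 := by
      rw [h4, mul_zero, add_zero]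
      exact mul_neg_of_neg_of_pos (by linarith) (by nlinarith [mul_pos hz' hw'])
    have h7 : z.re * w.im - w.re * z.im < 0 := by
      by_contra h8
      exact absurd h6 (not_lt.2 (mul_nonneg (not_lt.1 h8) (by linarith)))
    nlinarith [mul_pos hR (sub_pos.2 h)]
  nlinarith [mul_pos hR (sub_pos.2 h3)]

/-- the same outside a disc, with ends on the upper half circle -/
theorem x4_disc {A B : Set ℂ} {R : ℝ} {a b c e : ℂ} (hR : 0 < R)
    (hA : ∀ z ∈ A, R ^ 2 ≤ z.re ^ 2 + z.im ^ 2 ∧ z + R * I ≠ 0)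
    (hB : ∀ z ∈ B, R ^ 2 ≤ z.re ^ 2 + z.im ^ 2 ∧ z + R * I ≠ 0)
    (hd : Disjoint A B) (h1 : JoinedIn A a b) (h2 : JoinedIn B c e)
    (ha : a.re ^ 2 + a.im ^ 2 = R ^ 2) (hb : b.re ^ 2 + b.im ^ 2 = R ^ 2)
    (hc : c.re ^ 2 + c.im ^ 2 = R ^ 2) (he : e.re ^ 2 + e.im ^ 2 = R ^ 2)
    (ha' : 0 < a.im) (hb' : 0 < b.im) (hc' : 0 < c.im) (he' : 0 < e.im)
    (hac : a.re < c.re) (hcb : c.re < b.re) (hbe : b.re < e.re) : False := by
  set f : ℂ → ℂ := fun z => (z + R * I)⁻¹ + (2 * R : ℝ)⁻¹ * I with hf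
  have hi : Function.Injective f := fun z w h => by simpa [hf] using h
  have hc0 : ∀ S : Set ℂ, (∀ z ∈ S, R ^ 2 ≤ z.re ^ 2 + z.im ^ 2 ∧ z + R * I ≠ 0) →
      ContinuousOn f S ∧ ∀ z ∈ f '' S, 0 ≤ z.im := by
    refine fun S hS => ⟨(ContinuousOn.inv₀ (by fun_prop) fun z hz => (hS z hz).2).add
      continuousOn_const, ?_⟩
    rintro _ ⟨z, hz, rfl⟩
    rw [hf, x4_moeb hR (hS z hz).2]
    exact div_nonneg (sub_nonneg.2 (hS z hz).1) (mul_nonneg (by positivity) (normSq_nonneg _))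
  have hz : ∀ z : ℂ, z + R * I ≠ 0 → z.re ^ 2 + z.im ^ 2 = R ^ 2 → (f z).im = 0 := fun z h h' => by
    rw [hf, x4_moeb hR h, h', sub_self, zero_div]
  exact x4_half (hc0 A hA).2 (hc0 B hB).2 ((disjoint_image_iff hi).2 hd)
    (h1.map_continuousOn (hc0 A hA).1) (h2.map_continuousOn (hc0 B hB).1)
    (hz a (hA a h1.source_mem).2 ha) (hz b (hA b h1.target_mem).2 hb)
    (hz c (hB c h2.source_mem).2 hc) (hz e (hB e h2.target_mem).2 he)
    (x4_mono hR ha hc ha' hc' hac) (x4_mono hR hc hb hc' hb' hcb) (x4_mono hR hb he hb' he' hbe)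

end Pool.Agent.P.MP_6145c0_co.Ng
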