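import Pool.Agent.P.MP_6145c0_co.Ng.X4a
import Pool.Agent.P.MP_6145c0_co.Ng.X4b

set_option autoImplicit false

open Set Metric Complex
open scoped ComplexConjugate

namespace Pool.Agent.P.MP_6145c0_co.Ng

theorem x4_vert {R H : ℝ} {a : ℂ} (h1 : |a.re| < R) (h2 : R ≤ a.im) (h3 : a.im ≤ H) :
    ∃ a' : ℂ, a'.re = a.re ∧ a'.re ^ 2 + a'.im ^ 2 = R ^ 2 ∧ 0 < a'.im ∧
      ∀ w ∈ segment ℝ a a', w.re = a.re ∧ a'.im ≤ w.im ∧ w.im ≤ H := by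
  have h4 : 0 < R ^ 2 - a.re ^ 2 := by
    have := sq_lt_sq' (abs_lt.1 h1).1 (abs_lt.1 h1).2
    linarith
  have hR : 0 ≤ R := (abs_nonneg _).trans h1.le
  have h5 : √(R ^ 2 - a.re ^ 2) ≤ R := Real.sqrt_le_iff.2 ⟨hR, by nlinarith [sq_nonneg a.re]⟩
  refine ⟨⟨a.re, √(R ^ 2 - a.re ^ 2)⟩, rfl, by simp [Real.sq_sqrt h4.le], Real.sqrt_pos.2 h4, ?_⟩
  rintro _ ⟨s, t, hs, ht, hst, rfl⟩
  obtain rfl : s = 1 - t := by linarith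
  simp only [add_re, add_im, smul_re, smul_im, smul_eq_mul]
  exact ⟨by ring, by nlinarith, by nlinarith⟩

theorem x4_drop {A : Set ℂ} {R H η ξ ξ' : ℝ} {a b : ℂ} (hRH : R ≤ H) (h : JoinedIn A a b)
    (ha : |a.re - ξ| ≤ η ∧ |ξ| + η < R ∧ R ≤ a.im ∧ a.im ≤ H)
    (hb : |b.re - ξ'| ≤ η ∧ |ξ'| + η < R ∧ R ≤ b.im ∧ b.im ≤ H)
    (hA : ∀ z ∈ A, |z.re| ≤ R → -R ≤ z.im → z.im ≤ H →
      R ≤ z.im ∧ (|z.re - ξ| ≤ η ∨ |z.re - ξ'| ≤ η)) :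
    ∃ (A' : Set ℂ) (a' b' : ℂ), JoinedIn A' a' b' ∧
      (|a'.re - ξ| ≤ η ∧ a'.re ^ 2 + a'.im ^ 2 = R ^ 2 ∧ 0 < a'.im) ∧
      (|b'.re - ξ'| ≤ η ∧ b'.re ^ 2 + b'.im ^ 2 = R ^ 2 ∧ 0 < b'.im) ∧
      ∀ z ∈ A', (R ^ 2 ≤ z.re ^ 2 + z.im ^ 2 ∧ z + R * I ≠ 0) ∧
        (z ∈ A ∨ |z.re| ≤ R ∧ -R ≤ z.im ∧ z.im ≤ H) ∧
        (|z.re| ≤ R ∧ -R ≤ z.im ∧ z.im ≤ H → |z.re - ξ| ≤ η ∨ |z.re - ξ'| ≤ η) := by
  have k : ∀ {x ξ : ℝ}, |x - ξ| ≤ η → |ξ| + η < R → |x| < R := fun {x ξ} h1 h2 => by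
    have := abs_add_le (x - ξ) ξ
    rw [sub_add_cancel] at this
    linarith
  have hR : 0 < R := (abs_nonneg _).trans_lt (k ha.1 ha.2.1)
  obtain ⟨a', a1, a2, a3, a4⟩ := x4_vert (k ha.1 ha.2.1) ha.2.2.1 ha.2.2.2
  obtain ⟨b', b1, b2, b3, b4⟩ := x4_vert (k hb.1 hb.2.1) hb.2.2.1 hb.2.2.2
  have ne : ∀ z : ℂ, (z.re ≠ 0 ∨ z.im ≠ -R) → z + R * I ≠ 0 := fun z hz e => by
    have e1 := congrArg re e
    have e2 := congrArg im e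
    simp at e1 e2
    exact hz.elim (fun h => h e1) fun h => h (by linarith)
  have v : ∀ a a' z : ℂ, |a.re| < R → a'.re = a.re → a'.re ^ 2 + a'.im ^ 2 = R ^ 2 → 0 < a'.im →
      z.re = a.re ∧ a'.im ≤ z.im ∧ z.im ≤ H → (R ^ 2 ≤ z.re ^ 2 + z.im ^ 2 ∧ z + R * I ≠ 0) ∧
        (z ∈ A ∨ |z.re| ≤ R ∧ -R ≤ z.im ∧ z.im ≤ H) := by
    rintro a a' z h0 h1 h2 h3 ⟨h4, h5, h6⟩
    refine ⟨⟨?_, ne z (Or.inr (by linarith))⟩, Or.inr ⟨h4 ▸ h0.le, by linarith, h6⟩⟩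
    rw [← h2, h1, h4]
    nlinarith
  refine ⟨A ∪ (segment ℝ a a' ∪ segment ℝ b b'), a', b',
    ((JoinedIn.of_segment_subset (subset_union_of_subset_right subset_union_left _)).symm.trans
      (h.mono subset_union_left)).trans
      (.of_segment_subset (subset_union_of_subset_right subset_union_right _)),
    ⟨a1 ▸ ha.1, a2, a3⟩, ⟨b1 ▸ hb.1, b2, b3⟩, ?_⟩
  rintro z (hz | hz | hz)
  · refine ⟨?_, Or.inl hz, fun h => (hA z hz h.1 h.2.1 h.2.2).2⟩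
    by_cases h1 : |z.re| ≤ R
    · have h2 : R ≤ z.im ∨ z.im < -R := by
        by_contra h3
        push Not at h3
        exact absurd (hA z hz h1 h3.2 (by linarith)).1 (not_le.2 h3.1)
      exact h2.elim (fun h => ⟨by nlinarith [sq_nonneg z.re], ne z (Or.inr (by linarith))⟩)
        fun h => ⟨by nlinarith [sq_nonneg z.re], ne z (Or.inr h.ne)⟩
    · have h2 : R ^ 2 ≤ z.re ^ 2 := by
        rw [← sq_abs z.re]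
        nlinarith [not_le.1 h1]
      refine ⟨by nlinarith [sq_nonneg z.im], ne z (Or.inl fun e => h1 ?_)⟩
      rw [e, abs_zero]
      exact hR.le
  · obtain ⟨v1, v2⟩ := v a a' z (k ha.1 ha.2.1) a1 a2 a3 (a4 z hz)
    exact ⟨v1, v2, fun _ => Or.inl ((a4 z hz).1 ▸ ha.1)⟩
  · obtain ⟨v1, v2⟩ := v b b' z (k hb.1 hb.2.1) b1 b2 b3 (b4 z hz)
    exact ⟨v1, v2, fun _ => Or.inr ((b4 z hz).1 ▸ hb.1)⟩

/-- the admissible tracks near the disc -/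
def Kp (ψ : ℂ → ℂ) (T η ξ ξ' : ℝ) : Set ℂ :=
  {u | |(ψ u).re| ≤ 3 * T → |(ψ u).im| ≤ 4 * T →
    3 * T ≤ (ψ u).im ∧ (|(ψ u).re - ξ| ≤ η ∨ |(ψ u).re - ξ'| ≤ η)}

theorem x4_ends {ψ : ℂ → ℂ} (hψ : Isometry ψ) {T η ε ξ ξ' : ℝ} (hε : 0 < ε) (hT : 2 * ε ≤ T)
    {Ω y y' : Set ℂ} {z z' : ℂ} (hz : z ∈ closure (interior y)) (hz' : z' ∈ closure (interior y'))
    (h1 : (ψ z).im = 3 * T ∧ |(ψ z).re - ξ| ≤ η ∧ |ξ| + (η + ε) < 2 * T)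
    (h2 : (ψ z').im = 3 * T ∧ |(ψ z').re - ξ'| ≤ η ∧ |ξ'| + (η + ε) < 2 * T)
    (h : J Ω (Kp ψ T η ξ ξ') y z y' z') :
    ∃ (A' : Set ℂ) (a' b' : ℂ), JoinedIn A' a' b' ∧
      (|a'.re - ξ| ≤ η + ε ∧ a'.re ^ 2 + a'.im ^ 2 = (2 * T) ^ 2 ∧ 0 < a'.im) ∧
      (|b'.re - ξ'| ≤ η + ε ∧ b'.re ^ 2 + b'.im ^ 2 = (2 * T) ^ 2 ∧ 0 < b'.im) ∧
      ∀ z ∈ A', ((2 * T) ^ 2 ≤ z.re ^ 2 + z.im ^ 2 ∧ z + (2 * T : ℝ) * I ≠ 0) ∧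
        (z ∈ ψ '' Ω ∨ |z.re| ≤ 2 * T ∧ -(2 * T) ≤ z.im ∧ z.im ≤ 3 * T + ε) ∧
        (|z.re| ≤ 2 * T ∧ -(2 * T) ≤ z.im ∧ z.im ≤ 3 * T + ε →
          |z.re - ξ| ≤ η + ε ∨ |z.re - ξ'| ≤ η + ε) := by
  have k : ∀ u w : ℂ, dist w u < ε → |(ψ w).re - (ψ u).re| < ε ∧ |(ψ w).im - (ψ u).im| < ε := by
    intro u w h
    rw [← hψ.dist_eq, dist_eq_norm] at h
    exact ⟨(abs_re_le_norm (ψ w - ψ u)).trans_lt h, (abs_im_le_norm (ψ w - ψ u)).trans_lt h⟩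
  obtain ⟨δ, hδ, H⟩ := h ε hε
  obtain ⟨a, ha⟩ := x4_near hz (lt_min hδ hε)
  obtain ⟨b, hb⟩ := x4_near hz' (lt_min hδ hε)
  have e : ∀ (z a : ℂ) (ξ : ℝ), a ∈ ball z (min δ ε) →
      (ψ z).im = 3 * T ∧ |(ψ z).re - ξ| ≤ η ∧ |ξ| + (η + ε) < 2 * T →
      |(ψ a).re - ξ| ≤ η + ε ∧ |ξ| + (η + ε) < 2 * T ∧ 2 * T ≤ (ψ a).im ∧ (ψ a).im ≤ 3 * T + ε := by
    rintro z a ξ h ⟨h1, h2, h3⟩
    obtain ⟨k1, k2⟩ := k z a (h.trans_le (min_le_right _ _))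
    rw [abs_lt] at k1 k2
    rw [abs_le] at h2
    exact ⟨abs_le.2 ⟨by linarith, by linarith⟩, h3, by linarith, by linarith⟩
  obtain ⟨A', a', b', j1, j2, j3, j4⟩ := x4_drop (R := 2 * T) (H := 3 * T + ε) (by linarith)
    ((H a ⟨ha.1, ball_subset_ball (min_le_left _ _) ha.2⟩ b
      ⟨hb.1, ball_subset_ball (min_le_left _ _) hb.2⟩).map hψ.continuous)
    (e z a ξ ha.2 h1) (e z' b ξ' hb.2 h2) (by
      rintro _ ⟨w, ⟨-, hw⟩, rfl⟩ g1 g2 g3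
      obtain ⟨u, hu, hd⟩ := mem_thickening_iff.1 hw
      obtain ⟨k1, k2⟩ := k u w hd
      rw [abs_lt] at k1 k2
      rw [abs_le] at g1
      obtain ⟨g4, g5⟩ := hu (abs_le.2 ⟨by linarith, by linarith⟩)
        (abs_le.2 ⟨by linarith, by linarith⟩)
      refine ⟨by linarith, g5.imp (fun g => ?_) fun g => ?_⟩ <;>
        exact abs_le.2 ⟨by linarith [(abs_le.1 g).1], by linarith [(abs_le.1 g).2]⟩)
  exact ⟨A', a', b', j1, j2, j3, fun z hz => ⟨(j4 z hz).1,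
    (j4 z hz).2.1.imp_left fun h => image_mono inter_subset_left h, (j4 z hz).2.2⟩⟩

theorem x4_fuzzy {ψ : ℂ → ℂ} (hψ : Isometry ψ) {T η ε ξa ξb ξc ξe : ℝ} (hε : 0 < ε)
    (hT : 2 * ε ≤ T) {Ω₁ Ω₂ ya yb yc ye : Set ℂ} {a b c e : ℂ} (hd : Disjoint Ω₁ Ω₂)
    (ha : a ∈ closure (interior ya)) (hb : b ∈ closure (interior yb))
    (hc : c ∈ closure (interior yc)) (he : e ∈ closure (interior ye))
    (ha' : (ψ a).im = 3 * T ∧ |(ψ a).re - ξa| ≤ η ∧ |ξa| + (η + ε) < 2 * T)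
    (hb' : (ψ b).im = 3 * T ∧ |(ψ b).re - ξb| ≤ η ∧ |ξb| + (η + ε) < 2 * T)
    (hc' : (ψ c).im = 3 * T ∧ |(ψ c).re - ξc| ≤ η ∧ |ξc| + (η + ε) < 2 * T)
    (he' : (ψ e).im = 3 * T ∧ |(ψ e).re - ξe| ≤ η ∧ |ξe| + (η + ε) < 2 * T)
    (h1 : J Ω₁ (Kp ψ T η ξa ξb) ya a yb b) (h2 : J Ω₂ (Kp ψ T η ξc ξe) yc c ye e)
    (g1 : ξa + 2 * (η + ε) < ξc) (g2 : ξc + 2 * (η + ε) < ξb) (g3 : ξb + 2 * (η + ε) < ξe) :
    False := by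
  obtain ⟨A, a', b', j1, j2, j3, j4⟩ := x4_ends hψ hε hT ha hb ha' hb' h1
  obtain ⟨B, c', e', k1, k2, k3, k4⟩ := x4_ends hψ hε hT hc he hc' he' h2
  have p1 := abs_le.1 j2.1
  have p2 := abs_le.1 j3.1
  have p3 := abs_le.1 k2.1
  have p4 := abs_le.1 k3.1
  refine x4_disc (R := 2 * T) (by linarith) (fun z hz => (j4 z hz).1) (fun z hz => (k4 z hz).1)
    (disjoint_left.2 fun z hA hB => ?_) j1 k1 j2.2.1 j3.2.1 k2.2.1 k3.2.1 j2.2.2 j3.2.2 k2.2.2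
    k3.2.2 (by linarith) (by linarith) (by linarith)
  have r : ¬(|z.re| ≤ 2 * T ∧ -(2 * T) ≤ z.im ∧ z.im ≤ 3 * T + ε) := fun r => by
    rcases (j4 z hA).2.2 r with q | q <;> rcases (k4 z hB).2.2 r with q' | q' <;>
      rw [abs_le] at q q' <;> linarith
  exact disjoint_left.1 ((disjoint_image_iff hψ.injective).2 hd)
    ((j4 z hA).2.1.resolve_right r) ((k4 z hB).2.1.resolve_right r)

theorem x4_route {Ω K : Set ℂ} {Q : ℕ} {y : ℕ → Set ℂ} {P : ℕ → ℂ} (h : Route Ω Q y P) :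
    ∀ q ≤ Q, ∀ z ∈ segment ℝ (P q) (P (q + 1)), (∀ j < q, segment ℝ (P j) (P (j + 1)) ⊆ K) →
      segment ℝ (P q) z ⊆ K → J Ω K (y 0) (P 0) (y q) z := by
  have k : ∀ q ≤ Q, ∀ z ∈ segment ℝ (P q) (P (q + 1)), segment ℝ (P q) z ⊆ K →
      J Ω K (y q) (P q) (y q) z := fun q hq z hz hK =>
    (J.along (h.lc q hq) (convex_segment _ _).isPreconnected
      (((convex_segment _ _).segment_subset (left_mem_segment _ _ _) hz).trans (h.seg q hq))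
      (left_mem_segment _ _ _) (right_mem_segment _ _ _)).mono (h.sub q hq) hK
  intro q
  induction q with
  | zero => exact fun hq z hz _ hK => k 0 hq z hz hK
  | succ q ih =>
    intro hq z hz h1 h2
    have hq' : q ≤ Q := by omega
    refine ((ih hq' _ (right_mem_segment _ _ _) (fun j hj => h1 j (by omega))
      (h1 q (by omega))).trans ((h.jn q (by omega)).mono subset_rfl ?_)
      ((h.lc q hq').1 (h.seg q hq' (right_mem_segment _ _ _)))).trans (k _ hq z hz h2)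
      ((h.lc _ hq).1 (h.seg _ hq (left_mem_segment _ _ _)))
    exact singleton_subset_iff.2 (h2 (left_mem_segment _ _ _))

end Pool.Agent.P.MP_6145c0_co.Ng
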