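import Pool.Agent.P.MP_6145c0_co.Ng.X4c

set_option autoImplicit false

open Set Metric Complex
open scoped ComplexConjugate

namespace Pool.Agent.P.MP_6145c0_co.Ng

/-- the segment `[p, p']` crosses the strip `|im| < L` along the line `re = ξ + σ im` -/
def Cr (L : ℝ) (p p' : ℂ) (ξ : ℝ) : Prop :=
  (L ≤ p.im ∧ p'.im ≤ -L ∨ p.im ≤ -L ∧ L ≤ p'.im) ∧
    ∃ σ : ℝ, p.re = ξ + σ * p.im ∧ p'.re = ξ + σ * p'.im ∧ |σ| * L ≤ |ξ|

/-- `r` is the displaced copy of `p` -/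
def Dp (lam a b u u' : ℝ) (p r : ℂ) : Prop :=
  ‖r - p‖ ≤ lam ∧ |(r - p).re - (a + b * p.im)| ≤ u ∧ |a + b * p.im| ≤ u'

theorem x4_ab {L a b u' s t : ℝ} (hL : 0 < L) (hs : L ≤ s) (ht : t ≤ -L) (h1 : |a + b * s| ≤ u')
    (h2 : |a + b * t| ≤ u') : |a| ≤ u' ∧ |b| * L ≤ u' := by
  rw [abs_le] at h1 h2
  rcases le_total 0 b with hb | hb
  · rw [abs_of_nonneg hb]
    exact ⟨abs_le.2 ⟨by nlinarith, by nlinarith⟩, by nlinarith⟩
  · rw [abs_of_nonpos hb]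
    exact ⟨abs_le.2 ⟨by nlinarith, by nlinarith⟩, by nlinarith⟩

theorem x4_conv {s t x y c : ℝ} (hs : 0 ≤ s) (ht : 0 ≤ t) (hst : s + t = 1) (hx : |x| ≤ c)
    (hy : |y| ≤ c) : |s * x + t * y| ≤ c := by
  rw [abs_le] at hx hy ⊢
  obtain rfl : s = 1 - t := by linarith
  exact ⟨by nlinarith, by nlinarith⟩

theorem x4_est {L lam a b u u' ξ H : ℝ} {p p' r r' w : ℂ} (hL : 0 < L) (h : Cr L p p' ξ)
    (h1 : Dp lam a b u u' p r) (h2 : Dp lam a b u u' p' r') (hw : w ∈ segment ℝ r r')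
    (hH : |w.im| ≤ H) :
    |a| ≤ u' ∧ |w.re - (ξ + a)| * L ≤ u * L + (|ξ| + u') * (lam + H) := by
  obtain ⟨hc, σ, e1, e2, hσ⟩ := h
  obtain ⟨k1, k2⟩ : |a| ≤ u' ∧ |b| * L ≤ u' :=
    hc.elim (fun h => x4_ab hL h.1 h.2 h1.2.2 h2.2.2) fun h => x4_ab hL h.2 h.1 h2.2.2 h1.2.2
  refine ⟨k1, ?_⟩
  obtain ⟨s, t, hs, ht, hst, rfl⟩ := hw
  have v := x4_conv hs ht hst ((abs_im_le_norm _).trans h1.1) ((abs_im_le_norm _).trans h2.1)
  have x := x4_conv hs ht hst h1.2.1 h2.2.1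
  simp only [add_re, add_im, smul_re, smul_im, smul_eq_mul, sub_re, sub_im] at v x hH ⊢
  have y0 : |s * p.im + t * p'.im| ≤ lam + H := by
    rw [abs_le] at v hH ⊢
    exact ⟨by linarith, by linarith⟩
  have e : s * r.re + t * r'.re - (ξ + a) =
      (s * (r.re - p.re - (a + b * p.im)) + t * (r'.re - p'.re - (a + b * p'.im))) +
        (σ + b) * (s * p.im + t * p'.im) := by
    linear_combination s * e1 + t * e2 + (ξ + a) * hst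
  have y1 : |σ + b| * L ≤ |ξ| + u' := by nlinarith [abs_add_le σ b]
  have y2 : |(σ + b) * (s * p.im + t * p'.im)| * L ≤ (|ξ| + u') * (lam + H) := by
    rw [abs_mul, mul_right_comm]
    exact mul_le_mul y1 y0 (abs_nonneg _) ((mul_nonneg (abs_nonneg _) hL.le).trans y1)
  rw [e]
  nlinarith [abs_add_le (s * (r.re - p.re - (a + b * p.im)) + t * (r'.re - p'.re - (a + b * p'.im)))
    ((σ + b) * (s * p.im + t * p'.im))]

theorem x4_high {L lam : ℝ} {p p' r r' w : ℂ} (h1 : ‖r - p‖ ≤ lam) (h2 : ‖r' - p'‖ ≤ lam)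
    (h : L ≤ p.im ∧ L ≤ p'.im ∨ p.im ≤ -L ∧ p'.im ≤ -L) (hw : w ∈ segment ℝ r r') :
    L - lam ≤ |w.im| := by
  have v1 := abs_le.1 ((abs_im_le_norm _).trans h1)
  have v2 := abs_le.1 ((abs_im_le_norm _).trans h2)
  obtain ⟨s, t, hs, ht, hst, rfl⟩ := hw
  obtain rfl : s = 1 - t := by linarith
  simp only [add_im, smul_im, smul_eq_mul, sub_im] at v1 v2 ⊢
  rcases h with h | h
  · exact le_abs.2 (Or.inl (by nlinarith))
  · exact le_abs.2 (Or.inr (by nlinarith))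

theorem x4_seg (ω o : ℂ) {r r' w : ℂ} (hw : w ∈ segment ℝ r r') :
    ω * (w - o) ∈ segment ℝ (ω * (r - o)) (ω * (r' - o)) := by
  obtain ⟨s, t, hs, ht, hst, rfl⟩ := hw
  refine ⟨s, t, hs, ht, hst, ?_⟩
  have h : (s : ℂ) + t = 1 := by exact_mod_cast hst
  simp only [real_smul]
  linear_combination (-ω * o) * h

theorem x4_iso {ω : ℂ} (hω : ‖ω‖ = 1) (o : ℂ) : Isometry fun z => ω * (z - o) :=
  Isometry.of_dist_eq fun a b => by
    rw [dist_eq_norm, dist_eq_norm, ← mul_sub, sub_sub_sub_cancel_right, norm_mul, hω, one_mul]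

/-- one displaced route, up to the point where it comes down to height `3 T` -/
theorem x4_one {ω o : ℂ} {Ω : Set ℂ} {Q q : ℕ} {y : ℕ → Set ℂ} {P R : ℕ → ℂ}
    {L lam a b C C' X τ ξ ξ' ξ'' : ℝ} (h : Route Ω Q y R) (hq : q ≤ Q) (hC : 0 ≤ C) (hC' : 0 ≤ C')
    (hτ : 0 < τ) (hl : 0 ≤ lam) (hX : 2 * C' + C + 4 ≤ X) (hL : X * (lam + 4 * (X * τ)) ≤ L)
    (hD : ∀ j ≤ Q + 1, Dp lam a b (C * τ) (C' * τ) (ω * (P j - o)) (ω * (R j - o)))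
    (hF : ∀ j < q, (L ≤ (ω * (P j - o)).im ∧ L ≤ (ω * (P (j + 1) - o)).im ∨
      (ω * (P j - o)).im ≤ -L ∧ (ω * (P (j + 1) - o)).im ≤ -L) ∨
      ∃ ζ, Cr L (ω * (P j - o)) (ω * (P (j + 1) - o)) ζ ∧ 8 * (X * τ) ≤ |ζ|)
    (hN : Cr L (ω * (P q - o)) (ω * (P (q + 1) - o)) ξ) (hξ : |ξ| ≤ X * τ)
    (hu : L ≤ (ω * (P q - o)).im) (hs : ξ + a = ξ' ∨ ξ + a = ξ'') :
    ∃ z, z ∈ closure (interior (y q)) ∧ ((ω * (z - o)).im = 3 * (X * τ) ∧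
      |(ω * (z - o)).re - (ξ + a)| ≤ (C + 2) * τ ∧ |ξ + a| + ((C + 2) * τ + τ / 2) < 2 * (X * τ)) ∧
      J Ω (Kp (fun z => ω * (z - o)) (X * τ) ((C + 2) * τ) ξ' ξ'') (y 0) (R 0) (y q) z := by
  have hX4 : 4 ≤ X := by linarith
  have hT : 0 < X * τ := by positivity
  have hL4 : 4 * (lam + 4 * (X * τ)) ≤ L := le_trans (by nlinarith) hL
  have hL0 : 0 < L := by linarith
  have hCX : C' * τ ≤ X * τ := by nlinarith
  have near : ∀ w ∈ segment ℝ (R q) (R (q + 1)), |(ω * (w - o)).im| ≤ 4 * (X * τ) →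
      |a| ≤ C' * τ ∧ |(ω * (w - o)).re - (ξ + a)| ≤ (C + 2) * τ := by
    intro w hw hH
    obtain ⟨k1, k2⟩ := x4_est hL0 hN (hD q (by omega)) (hD _ (by omega)) (x4_seg ω o hw) hH
    refine ⟨k1, le_of_mul_le_mul_right (k2.trans ?_) hL0⟩
    have : (|ξ| + C' * τ) * (lam + 4 * (X * τ)) ≤ 2 * (X * τ) * (lam + 4 * (X * τ)) :=
      mul_le_mul_of_nonneg_right (by linarith) (by linarith)
    nlinarith
  have v1 := abs_le.1 ((abs_im_le_norm _).trans (hD q (by omega)).1)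
  have v2 := abs_le.1 ((abs_im_le_norm _).trans (hD (q + 1) (by omega)).1)
  have v3 : (ω * (P (q + 1) - o)).im ≤ -L := hN.1.elim (fun h => h.2) fun h => by linarith [h.1]
  rw [sub_im] at v1 v2
  obtain ⟨z, hz, hz'⟩ : ∃ z ∈ segment ℝ (R q) (R (q + 1)), (ω * (z - o)).im = 3 * (X * τ) :=
    (convex_segment (R q) (R (q + 1))).isPreconnected.intermediate_value
      (right_mem_segment _ _ _) (left_mem_segment _ _ _) (f := fun z => (ω * (z - o)).im)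
      (by fun_prop) ⟨by linarith, by linarith⟩
  obtain ⟨k1, k2⟩ := near z hz (by rw [hz', abs_of_pos (by linarith)]; linarith)
  refine ⟨z, (h.lc q hq).1 (h.seg q hq hz), ⟨hz', k2, ?_⟩,
    x4_route h q hq z hz (fun j hj w hw g1 g2 => ?_) fun w hw g1 g2 => ⟨?_, ?_⟩⟩
  · nlinarith [abs_add_le ξ a]
  · exfalso
    rcases hF j hj with hf | ⟨ζ, hf, hζ⟩
    · have := x4_high (hD j (by omega)).1 (hD (j + 1) (by omega)).1 hf (x4_seg ω o hw)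
      linarith
    · obtain ⟨-, k3⟩ := x4_est hL0 hf (hD j (by omega)) (hD _ (by omega)) (x4_seg ω o hw) g2
      have k4 : (|ζ| + C' * τ) * (4 * (lam + 4 * (X * τ))) ≤ (|ζ| + C' * τ) * L :=
        mul_le_mul_of_nonneg_left hL4 (by positivity)
      have k5 : |(ω * (w - o)).re - (ζ + a)| ≤ C * τ + (|ζ| + C' * τ) / 4 :=
        le_of_mul_le_mul_right (by linarith) hL0
      have k6 : |ζ| ≤ |(ω * (w - o)).re - (ζ + a)| + |(ω * (w - o)).re| + |a| := by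
        have e : ζ = -((ω * (w - o)).re - (ζ + a)) + (ω * (w - o)).re + -a := by ring
        calc |ζ| = |-((ω * (w - o)).re - (ζ + a)) + (ω * (w - o)).re + -a| := congrArg _ e
          _ ≤ _ := by
            refine (abs_add_three _ _ _).trans ?_
            rw [abs_neg, abs_neg]
      nlinarith
  · obtain ⟨s, t, hs, ht, hst, e⟩ := x4_seg ω o hw
    obtain rfl : s = 1 - t := by linarith
    show _ ≤ (ω * (w - o)).im
    rw [← e]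
    simp only [add_im, smul_im, smul_eq_mul, hz']
    nlinarith
  · have k7 := (near w ((convex_segment _ _).segment_subset (left_mem_segment _ _ _) hz hw) g2).2
    exact hs.imp (fun e => by rwa [← e]) fun e => by rwa [← e]

/-- the crossing lemma in coordinates in which the first near segment comes down -/
theorem x4_core {ω o : ℂ} {Ω₁ Ω₂ : Set ℂ} {Q q : ℕ} {y : Fin 4 → ℕ → Set ℂ} {P : ℕ → ℂ}
    {R : Fin 4 → ℕ → ℂ} {a b : Fin 4 → ℝ} {L lam C C' X τ ξ : ℝ} (hω : ‖ω‖ = 1)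
    (hd : Disjoint Ω₁ Ω₂) (r0 : Route Ω₁ Q (y 0) (R 0)) (r1 : Route Ω₂ Q (y 1) (R 1))
    (r2 : Route Ω₁ Q (y 2) (R 2)) (r3 : Route Ω₂ Q (y 3) (R 3))
    (j1 : J Ω₁ (segment ℝ (R 0 0) (R 2 0)) (y 0 0) (R 0 0) (y 2 0) (R 2 0))
    (j2 : J Ω₂ (segment ℝ (R 1 0) (R 3 0)) (y 1 0) (R 1 0) (y 3 0) (R 3 0))
    (hq : q ≤ Q) (hC : 0 ≤ C) (hC' : 0 ≤ C')
    (hτ : 0 < τ) (hl : 0 ≤ lam) (hX : 2 * C' + C + 4 ≤ X) (hL : X * (lam + 4 * (X * τ)) ≤ L)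
    (hD : ∀ i, ∀ j ≤ Q + 1, Dp lam (a i) (b i) (C * τ) (C' * τ) (ω * (P j - o)) (ω * (R i j - o)))
    (h0 : L ≤ |(ω * (P 0 - o)).im|)
    (hF : ∀ j < q, (L ≤ (ω * (P j - o)).im ∧ L ≤ (ω * (P (j + 1) - o)).im ∨
      (ω * (P j - o)).im ≤ -L ∧ (ω * (P (j + 1) - o)).im ≤ -L) ∨
      ∃ ζ, Cr L (ω * (P j - o)) (ω * (P (j + 1) - o)) ζ ∧ 8 * (X * τ) ≤ |ζ|)
    (hN : Cr L (ω * (P q - o)) (ω * (P (q + 1) - o)) ξ) (hξ : |ξ| ≤ X * τ)
    (hu : L ≤ (ω * (P q - o)).im)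
    (hg : (a 0 + (2 * C + 6) * τ ≤ a 1 ∧ a 1 + (2 * C + 6) * τ ≤ a 2 ∧ a 2 + (2 * C + 6) * τ ≤ a 3) ∨
      a 1 + (2 * C + 6) * τ ≤ a 0 ∧ a 2 + (2 * C + 6) * τ ≤ a 1 ∧ a 3 + (2 * C + 6) * τ ≤ a 2) :
    False := by
  have hX4 : 4 ≤ X := by linarith
  have hT : 0 < X * τ := by positivity
  have hL4 : 4 * (lam + 4 * (X * τ)) ≤ L := le_trans (by nlinarith) hL
  have jn : ∀ {Ω : Set ℂ} (i i' : Fin 4), Route Ω Q (y i) (R i) → Route Ω Q (y i') (R i') →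
      J Ω (segment ℝ (R i 0) (R i' 0)) (y i 0) (R i 0) (y i' 0) (R i' 0) →
      ∃ z z', z ∈ closure (interior (y i q)) ∧ z' ∈ closure (interior (y i' q)) ∧
        ((ω * (z - o)).im = 3 * (X * τ) ∧ |(ω * (z - o)).re - (ξ + a i)| ≤ (C + 2) * τ ∧
          |ξ + a i| + ((C + 2) * τ + τ / 2) < 2 * (X * τ)) ∧
        ((ω * (z' - o)).im = 3 * (X * τ) ∧ |(ω * (z' - o)).re - (ξ + a i')| ≤ (C + 2) * τ ∧
          |ξ + a i'| + ((C + 2) * τ + τ / 2) < 2 * (X * τ)) ∧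
        J Ω (Kp (fun z => ω * (z - o)) (X * τ) ((C + 2) * τ) (ξ + a i) (ξ + a i'))
          (y i q) z (y i' q) z' := by
    intro Ω i i' r r' j
    obtain ⟨z, z1, z2, z3⟩ := x4_one (ξ' := ξ + a i) (ξ'' := ξ + a i') r hq hC hC' hτ hl hX hL
      (hD i) hF hN hξ hu (Or.inl rfl)
    obtain ⟨z', w1, w2, w3⟩ := x4_one (ξ' := ξ + a i) (ξ'' := ξ + a i') r' hq hC hC' hτ hl hX hL
      (hD i') hF hN hξ hu (Or.inr rfl)
    refine ⟨z, z', z1, w1, z2, w2, (z3.symm.trans (j.mono subset_rfl fun w hw g1 g2 => ?_)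
      ((r.lc 0 (by omega)).1 (r.seg 0 (by omega) (left_mem_segment _ _ _)))).trans w3
      ((r'.lc 0 (by omega)).1 (r'.seg 0 (by omega) (left_mem_segment _ _ _)))⟩
    have := x4_high (L := L) (hD i 0 (by omega)).1 (hD i' 0 (by omega)).1
      ((le_abs.1 h0).imp (fun h => ⟨h, h⟩) fun h => ⟨by linarith, by linarith⟩) (x4_seg ω o hw)
    exact absurd g2 (not_le.2 (by linarith))
  have hε : 0 < τ / 2 := by linarith
  have hε' : 2 * (τ / 2) ≤ X * τ := by nlinarith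
  rcases hg with hg | hg
  · obtain ⟨za, zb, a1, a2, a3, a4, a5⟩ := jn 0 2 r0 r2 j1
    obtain ⟨zc, ze, c1, c2, c3, c4, c5⟩ := jn 1 3 r1 r3 j2
    exact x4_fuzzy (x4_iso hω o) hε hε' hd a1 a2 c1 c2 a3 a4 c3 c4 a5 c5
      (by linarith [hg.1]) (by linarith [hg.2.1]) (by linarith [hg.2.2])
  · obtain ⟨za, zb, a1, a2, a3, a4, a5⟩ := jn 3 1 r3 r1 (segment_symm ℝ (R 1 0) _ ▸ j2.symm)
    obtain ⟨zc, ze, c1, c2, c3, c4, c5⟩ := jn 2 0 r2 r0 (segment_symm ℝ (R 0 0) _ ▸ j1.symm)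
    exact x4_fuzzy (x4_iso hω o) hε hε' hd.symm a1 a2 c1 c2 a3 a4 c3 c4 a5 c5
      (by linarith [hg.2.2]) (by linarith [hg.2.1]) (by linarith [hg.1])

end Pool.Agent.P.MP_6145c0_co.Ng
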