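import Mathlib

set_option autoImplicit false

open Set Filter Metric

namespace Pool.Agent.P.MP_6145c0_co.Ng

theorem xa_sub {R N ι : Type*} [Ring R] [AddCommGroup N] [Module R N] [IsNoetherian R N]
    (U : Filter ι) (K : ι → Submodule R N) :
    ∀ᶠ k in U, ∀ p : N, (∀ᶠ j in U, p ∈ K j) → p ∈ K k := by
  let I : Submodule R N :=
    { carrier := {p | ∀ᶠ j in U, p ∈ K j}
      add_mem' := fun ha hb => (ha.and hb).mono fun j h => add_mem h.1 h.2
      zero_mem' := Eventually.of_forall fun j => zero_mem _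
      smul_mem' := fun c _ ha => ha.mono fun j h => Submodule.smul_mem _ c h }
  obtain ⟨s, hs⟩ := IsNoetherian.noetherian I
  have h1 : ∀ᶠ k in U, ∀ p ∈ s, p ∈ K k := (Finset.eventually_all s).2 fun p hp =>
    show p ∈ I from hs ▸ Submodule.subset_span hp
  filter_upwards [h1] with k hk p hp
  have h2 : p ∈ Submodule.span R (s : Set N) := hs ▸ hp
  exact Submodule.span_le.2 (fun q hq => hk q hq) h2

/-- A1: almost every index kills every integer polynomial that vanishes almost everywhere. -/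
theorem xa_poly {σ ι A : Type*} [Finite σ] [CommRing A] (U : Filter ι) (val : ι → σ → A) :
    ∀ᶠ k in U, ∀ p : MvPolynomial σ ℤ, (∀ᶠ j in U, MvPolynomial.aeval (val j) p = 0) →
      MvPolynomial.aeval (val k) p = 0 :=
  xa_sub (R := MvPolynomial σ ℤ) U fun k =>
    RingHom.ker (MvPolynomial.aeval (R := ℤ) (val k)).toRingHom

/-- A1, linear form. -/
theorem xa_lin {σ ι A : Type*} [Fintype σ] [AddCommGroup A] (U : Filter ι) (val : ι → σ → A) :
    ∀ᶠ k in U, ∀ c : σ → ℤ, (∀ᶠ j in U, ∑ s, c s • val j s = 0) → ∑ s, c s • val k s = 0 := by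
  have := xa_sub (R := ℤ) U fun k => LinearMap.ker (Fintype.linearCombination ℤ (val k))
  simpa [Fintype.linearCombination_apply] using this

/-- A4: a tile of layer `i` lies in the interior of the union of layer `i+1`. -/
theorem xa_deep {X : Type*} [TopologicalSpace X] {D : Set X} {Q : Set (Set X)}
    (h : Disjoint (closure (⋃₀ Q)ᶜ) D) : D ⊆ interior (⋃₀ Q) := by
  rw [closure_compl] at h
  exact disjoint_compl_left_iff_subset.1 h

/-- A4: a tile of the big packing `Q'` that meets the interior of the union of `Q` belongs to `Q`. -/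
theorem xa_touch {X : Type*} [TopologicalSpace X] {Q Q' : Set (Set X)} (_hQ : Q.Finite)
    (hsub : Q ⊆ Q') (hcl : ∀ A ∈ Q', A = closure (interior A))
    (hP : Q'.Pairwise fun A B => Disjoint (interior A) (interior B)) {D : Set X} (hD : D ∈ Q')
    {p : X} (hp : p ∈ D) (hp' : p ∈ interior (⋃₀ Q)) : D ∈ Q := by
  by_contra hn
  rw [hcl D hD] at hp
  obtain ⟨y, hy1, hy2⟩ := mem_closure_iff.1 hp _ isOpen_interior hp'
  obtain ⟨A, hA, hyA⟩ := interior_subset hy1
  rw [hcl A (hsub hA)] at hyA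
  obtain ⟨w, hw1, hw2⟩ := mem_closure_iff.1 hyA _ isOpen_interior hy2
  exact disjoint_left.1 (hP hD (hsub hA) fun e => hn (e ▸ hA)) hw1 hw2

/-- Ultralimit of isometries. -/
theorem xa_limIso {X : Type*} [MetricSpace X] [ProperSpace X] (U : Ultrafilter ℕ) (f : ℕ → X ≃ᵢ X)
    (a y : X) (B : ℝ) (h : ∀ᶠ k in (U : Filter ℕ), dist (f k a) y ≤ B) :
    ∃ g : X ≃ᵢ X, ∀ x, Tendsto (fun k => f k x) U (nhds (g x)) := by
  have key : ∀ (F : ℕ → X ≃ᵢ X) (a y : X), (∀ᶠ k in (U : Filter ℕ), dist (F k a) y ≤ B) →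
      ∃ g : X → X, ∀ x, Tendsto (fun k => F k x) U (nhds (g x)) := fun F a y h => by
    have : ∀ x, ∃ w, Tendsto (fun k => F k x) U (nhds w) := fun x => by
      obtain ⟨w, -, hw⟩ := (isCompact_closedBall y (dist x a + B)).ultrafilter_le_nhds
        (U.map fun k => F k x) (le_principal_iff.2 (mem_map.2 (h.mono fun k hk => by
          have := dist_triangle (F k x) (F k a) y
          rw [(F k).dist_eq] at this
          exact mem_closedBall.2 (by linarith))))
      exact ⟨w, hw⟩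
    exact ⟨fun x => (this x).choose, fun x => (this x).choose_spec⟩
  obtain ⟨g, hg⟩ := key f a y h
  obtain ⟨g', hg'⟩ := key (fun k => (f k).symm) y a (h.mono fun k hk => by
    rw [← (f k).dist_eq, IsometryEquiv.apply_symm_apply, dist_comm]; exact hk)
  have hiso : Isometry g := Isometry.of_dist_eq fun x x' =>
    tendsto_nhds_unique ((hg x).dist (hg x')) (by simp only [IsometryEquiv.dist_eq]; exact tendsto_const_nhds)
  have hsurj : Function.Surjective g := fun w => ⟨g' w, by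
    have h1 := (hg (g' w)).dist (tendsto_const_nhds (x := w))
    have h2 := (tendsto_const_nhds (x := g' w)).dist (hg' w)
    rw [dist_self] at h2
    refine dist_eq_zero.1 (tendsto_nhds_unique h1 (h2.congr fun k => ?_))
    rw [← (f k).dist_eq, IsometryEquiv.apply_symm_apply]⟩
  exact ⟨⟨Equiv.ofBijective g ⟨hiso.injective, hsurj⟩, hiso⟩, hg⟩

/-- A3: packings covering large balls give a tiling. -/
theorem xa_compact {X : Type*} [NormedAddCommGroup X] [ProperSpace X] {C : Set X} (hC : IsCompact C)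
    (h : ∀ R : ℝ, ∃ (z : X) (P : Set (Set X)), (∀ D ∈ P, ∃ f : X ≃ᵢ X, D = f '' C) ∧
      (P.Pairwise fun A B => Disjoint (interior A) (interior B)) ∧ ball z R ⊆ ⋃₀ P) :
    ∃ P : Set (Set X), (∀ D ∈ P, ∃ f : X ≃ᵢ X, D = f '' C) ∧
      (P.Pairwise fun A B => Disjoint (interior A) (interior B)) ∧ ⋃₀ P = univ := by
  choose z P hP1 hP2 hP3 using fun k : ℕ => h k
  let U : Ultrafilter ℕ := hyperfilter ℕ
  have hU : (U : Filter ℕ) ≤ atTop := Nat.hyperfilter_le_atTop
  let τ : ℕ → X ≃ᵢ X := fun k => IsometryEquiv.addRight (-z k)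
  -- limit of points of `C`
  have lim : ∀ (f : ℕ → X ≃ᵢ X) (g : X ≃ᵢ X), (∀ x, Tendsto (fun k => f k x) U (nhds (g x))) →
      ∀ (c : ℕ → X) (y : X), (∀ᶠ k in (U : Filter ℕ), c k ∈ C) →
      Tendsto (fun k => f k (c k)) U (nhds y) → y ∈ g '' C := fun f g hg c y hc hy => by
    obtain ⟨w, hw, hw'⟩ := hC.ultrafilter_le_nhds (U.map c) (le_principal_iff.2 (mem_map.2 hc))
    refine ⟨w, hw, dist_eq_zero.1 (tendsto_nhds_unique ((hg w).dist hy) ?_)⟩
    have h2 : Tendsto (fun k => dist w (c k)) U (nhds (dist w w)) :=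
      (tendsto_const_nhds (x := w)).dist hw'
    rw [dist_self] at h2
    simpa only [IsometryEquiv.dist_eq] using h2
  refine ⟨{D | ∃ (f : ℕ → X ≃ᵢ X) (g : X ≃ᵢ X), D = g '' C ∧
    (∀ᶠ k in (U : Filter ℕ), f k '' C ∈ P k) ∧
    ∀ x, Tendsto (fun k => ((f k).trans (τ k)) x) U (nhds (g x))}, ?_, ?_, ?_⟩
  · rintro D ⟨f, g, rfl, -⟩
    exact ⟨g, rfl⟩
  · rintro _ ⟨f, g, rfl, hf, hg⟩ _ ⟨f', g', rfl, hf', hg'⟩ hne
    have sub : ∀ (f f' : ℕ → X ≃ᵢ X) (g g' : X ≃ᵢ X),
        (∀ x, Tendsto (fun k => ((f k).trans (τ k)) x) U (nhds (g x))) →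
        (∀ x, Tendsto (fun k => ((f' k).trans (τ k)) x) U (nhds (g' x))) →
        (∀ᶠ k in (U : Filter ℕ), f k '' C = f' k '' C) → g '' C ⊆ g' '' C := by
      rintro f f' g g' hg hg' he _ ⟨c, hc, rfl⟩
      refine lim _ g' hg' (fun k => (f' k).symm (f k c)) _ (he.mono fun k hk => ?_)
        ((hg c).congr fun k => by simp)
      obtain ⟨c', hc', e⟩ : f k c ∈ f' k '' C := hk ▸ mem_image_of_mem _ hc
      rw [← e, IsometryEquiv.symm_apply_apply]; exact hc'
    have hev : ∀ᶠ k in (U : Filter ℕ), f k '' C ≠ f' k '' C := by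
      refine Ultrafilter.eventually_not.2 fun he => hne ?_
      exact (sub f f' g g' hg hg' he).antisymm (sub f' f g' g hg' hg (he.mono fun k e => e.symm))
    refine disjoint_left.2 fun y hy hy' => ?_
    have int : ∀ (g : X ≃ᵢ X) (a : X), g a ∈ interior (g '' C) ↔ a ∈ interior C := fun g a => by
      have := g.toHomeomorph.image_interior C
      simp only [IsometryEquiv.coe_toHomeomorph] at this
      rw [← this]; exact g.injective.mem_set_image
    obtain ⟨a, rfl⟩ := g.surjective y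
    obtain ⟨b, hb⟩ := g'.surjective (g a)
    rw [← hb, int] at hy'
    rw [int] at hy
    obtain ⟨ε, hε, hball⟩ := Metric.isOpen_iff.1 isOpen_interior b hy'
    have h1 := (hg a).dist (hg' b)
    rw [hb, dist_self] at h1
    obtain ⟨k, h2, h3, h4, h5⟩ := ((h1.eventually (gt_mem_nhds hε)).and (hf.and (hf'.and hev))).exists
    simp only [IsometryEquiv.trans_apply, IsometryEquiv.dist_eq] at h2
    refine disjoint_left.1 (hP2 k h3 h4 h5) ((int _ a).2 hy) ?_
    rw [← (f' k).apply_symm_apply (f k a), int]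
    refine hball (mem_ball.2 ?_)
    rw [← (f' k).dist_eq, IsometryEquiv.apply_symm_apply]; exact h2
  · refine eq_univ_of_forall fun y => ?_
    have h0 : ∀ᶠ k in (U : Filter ℕ), ∃ q : (X ≃ᵢ X) × X, q.1 '' C ∈ P k ∧ q.2 ∈ C ∧
        (q.1.trans (τ k)) q.2 = y := by
      filter_upwards [hU (tendsto_natCast_atTop_atTop.eventually_gt_atTop ‖y‖)] with k hk
      obtain ⟨D, hD, hy⟩ := hP3 k (show y + z k ∈ ball (z k) k by simpa using hk)
      obtain ⟨f, rfl⟩ := hP1 k D hD
      obtain ⟨c, hc, e⟩ := hy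
      exact ⟨(f, c), hD, hc, by simp [τ, e]⟩
    have : Nonempty ((X ≃ᵢ X) × X) := ⟨(IsometryEquiv.refl X, 0)⟩
    obtain ⟨q, hq⟩ := h0.choice
    obtain ⟨B, hB⟩ := hC.isBounded.subset_closedBall 0
    obtain ⟨g, hg⟩ := xa_limIso U (fun k => (q k).1.trans (τ k)) 0 y B (hq.mono fun k hk => by
      rw [← hk.2.2, IsometryEquiv.dist_eq, dist_comm]; exact hB hk.2.1)
    exact ⟨g '' C, ⟨fun k => (q k).1, g, rfl, hq.mono fun k hk => hk.1, hg⟩,
      lim _ g hg (fun k => (q k).2) y (hq.mono fun k hk => hk.2.1)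
        (tendsto_const_nhds.congr' (hq.mono fun k hk => hk.2.2.symm))⟩

end Pool.Agent.P.MP_6145c0_co.Ng
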