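import Pool.Agent.P.MP_6145c0_co.Ng.XA1

set_option autoImplicit false

open Set Filter Metric Topology

namespace Pool.Agent.P.MP_6145c0_co.Ng

section
variable {X T : Type*} [NormedAddCommGroup X]

/-- A section over `B`: one class at every point, locally given by the tiles of the class. -/
def XbSec (tile : T → Set X) (Rel : X → T → T → Prop) (s : X → Set T) (B : Set X) : Prop :=
  ∀ z ∈ B, (∃ τ, z ∈ tile τ ∧ s z = {τ' | z ∈ tile τ' ∧ Rel z τ τ'}) ∧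
    ∀ᶠ z' in 𝓝 z, s z' = {τ ∈ s z | z' ∈ tile τ}

variable {tile : T → Set X} {Rel : X → T → T → Prop} {s s' : X → Set T} {B B' K : Set X}

theorem XbSec.nonempty (heq : ∀ z, Equivalence (Rel z)) (h : XbSec tile Rel s B) {z : X}
    (hz : z ∈ B) : (s z).Nonempty := by
  obtain ⟨τ, h1, h2⟩ := (h z hz).1
  exact ⟨τ, h2 ▸ ⟨h1, (heq z).refl τ⟩⟩

theorem XbSec.cls (heq : ∀ z, Equivalence (Rel z)) (h : XbSec tile Rel s B) {z : X} (hz : z ∈ B)
    {τ : T} (hτ : τ ∈ s z) : z ∈ tile τ ∧ s z = {τ' | z ∈ tile τ' ∧ Rel z τ τ'} := by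
  obtain ⟨σ, h1, h2⟩ := (h z hz).1
  rw [h2] at hτ ⊢
  exact ⟨hτ.1, Set.ext fun τ' => and_congr_right fun _ =>
    ⟨(heq z).trans ((heq z).symm hτ.2), (heq z).trans hτ.2⟩⟩

theorem XbSec.sub (h : XbSec tile Rel s B) {z : X} (hz : z ∈ B) : ∀ᶠ z' in 𝓝 z, s z' ⊆ s z :=
  (h z hz).2.mono fun _ e => e ▸ sep_subset _ _

theorem XbSec.unique (heq : ∀ z, Equivalence (Rel z)) (h : XbSec tile Rel s B)
    (h' : XbSec tile Rel s' B') (hK : IsPreconnected K) (hB : K ⊆ B) (hB' : K ⊆ B') {a : X}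
    (ha : a ∈ K) (e : s a = s' a) : ∀ b ∈ K, s b = s' b := fun b hb => by
  have key : ∀ x ∈ K, ∀ᶠ y in 𝓝[K] x, (s x = s' x ↔ s y = s' y) := fun x hx => by
    filter_upwards [mem_nhdsWithin_of_mem_nhds (h x (hB hx)).2,
      mem_nhdsWithin_of_mem_nhds (h' x (hB' hx)).2, self_mem_nhdsWithin] with y h1 h2 hy
    refine ⟨fun e => by rw [h1, h2, e], fun e => ?_⟩
    obtain ⟨τ, hτ⟩ := h.nonempty heq (hB hy)
    have hτ' : τ ∈ s' y := e ▸ hτ
    rw [h1] at hτ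
    rw [h2] at hτ'
    rw [(h.cls heq (hB hx) hτ.1).2, (h'.cls heq (hB' hx) hτ'.1).2]
  exact (hK.induction₂ (fun x y => s x = s' x ↔ s y = s' y) key
    (fun _ _ _ _ _ _ h1 h2 => h1.trans h2) (fun _ _ _ _ h1 => h1.symm) ha hb).1 e

/-- a connected tile that belongs to the section at one of its points belongs to it everywhere -/
theorem XbSec.stay (h : XbSec tile Rel s B) {τ : T} (hK : IsPreconnected (tile τ))
    (hB : tile τ ⊆ B) {a : X} (ha : a ∈ tile τ) (e : τ ∈ s a) : ∀ b ∈ tile τ, τ ∈ s b :=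
  fun b hb => by
  have key : ∀ x ∈ tile τ, ∀ᶠ y in 𝓝[tile τ] x, (τ ∈ s x ↔ τ ∈ s y) := fun x hx => by
    filter_upwards [mem_nhdsWithin_of_mem_nhds (h x (hB hx)).2, self_mem_nhdsWithin] with y h1 hy
    rw [h1]
    exact ⟨fun e => ⟨e, hy⟩, fun e => e.1⟩
  exact (hK.induction₂ (fun x y => τ ∈ s x ↔ τ ∈ s y) key
    (fun _ _ _ _ _ _ h1 h2 => h1.trans h2) (fun _ _ _ _ h1 => h1.symm) ha hb).1 e

/-- a chart: a finite family whose tiles through each point of `B` form exactly one class -/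
def XbChart (tile : T → Set X) (Rel : X → T → T → Prop) (F : Set T) (B : Set X) : Prop :=
  F.Finite ∧ ∀ z ∈ B, ∃ σ, z ∈ tile σ ∧ ∀ τ, z ∈ tile τ → (τ ∈ F ↔ Rel z σ τ)

theorem XbChart.sec {F : Set T} (hc : ∀ τ, IsClosed (tile τ)) (h : XbChart tile Rel F B) :
    XbSec tile Rel (fun z => {τ ∈ F | z ∈ tile τ}) B := fun z hz => by
  obtain ⟨σ, h1, h2⟩ := h.2 z hz
  refine ⟨⟨σ, h1, Set.ext fun τ => ⟨fun e => ⟨e.2, (h2 τ e.2).1 e.1⟩,
    fun e => ⟨(h2 τ e.1).2 e.2, e.1⟩⟩⟩, ?_⟩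
  have : ∀ᶠ z' in 𝓝 z, ∀ τ ∈ F, z' ∈ tile τ → z ∈ tile τ :=
    (eventually_all_finite h.1).2 fun τ _ => by
      by_cases e : z ∈ tile τ
      · exact Eventually.of_forall fun _ _ => e
      · filter_upwards [(hc τ).isOpen_compl.mem_nhds e] with y hy hy' using absurd hy' hy
  filter_upwards [this] with y hy
  exact Set.ext fun τ => ⟨fun e => ⟨⟨e.1, hy τ e.1 e.2⟩, e.2⟩, fun e => ⟨e.1.1, e.2⟩⟩

variable [NormedSpace ℝ X]

theorem xb_lip {ψ : X → ℝ} (hB : Convex ℝ B)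
    (h : ∀ z ∈ B, ∀ᶠ y in 𝓝 z, dist (ψ y) (ψ z) ≤ dist y z) {a b : X} (ha : a ∈ B) (hb : b ∈ B) :
    ψ a ≤ ψ b + dist a b := by
  set γ : ℝ → X := fun t => a + t • (b - a) with hγ
  have γc : Continuous γ := by fun_prop
  have γB : ∀ t ∈ Icc (0 : ℝ) 1, γ t ∈ B := fun t ht => hB.add_smul_sub_mem ha hb ht
  have γd : ∀ t u : ℝ, dist (γ t) (γ u) = |t - u| * dist a b := fun t u => by
    simp only [hγ, dist_add_left]
    rw [dist_eq_norm, ← sub_smul, norm_smul, Real.norm_eq_abs, dist_comm, dist_eq_norm]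
  have ψc : ∀ z ∈ B, ContinuousAt ψ z := fun z hz =>
    tendsto_iff_dist_tendsto_zero.2 (squeeze_zero' (Eventually.of_forall fun _ => dist_nonneg)
      (h z hz) (tendsto_iff_dist_tendsto_zero.1 tendsto_id))
  have hcl : IsClosed ({t : ℝ | ψ a ≤ ψ (γ t) + t * dist a b} ∩ Icc 0 1) := by
    rw [inter_comm]
    refine ContinuousOn.preimage_isClosed_of_isClosed (f := fun t => ψ (γ t) + t * dist a b)
      (t := Ici (ψ a)) (fun t ht => ?_) isClosed_Icc isClosed_Ici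
    exact (((ψc _ (γB t ht)).comp γc.continuousAt).add (by fun_prop)).continuousWithinAt
  have := hcl.Icc_subset_of_forall_mem_nhdsWithin (by simp [hγ]) (fun t ht => by
    filter_upwards [mem_nhdsWithin_of_mem_nhds
      (γc.continuousAt.eventually (h _ (γB t (Ico_subset_Icc_self ht.2)))), self_mem_nhdsWithin]
      with u hu hu'
    rw [γd, Real.dist_eq, abs_of_pos (a := u - t) (sub_pos.2 hu')] at hu
    have h1 := ht.1
    have h2 := (abs_le.1 hu).1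
    simp only [mem_ofPred_eq] at h1 ⊢
    linarith) (right_mem_Icc.2 zero_le_one)
  simpa [hγ] using this

theorem XbSec.lip {φ : T → X → ℝ} (heq : ∀ z, Equivalence (Rel z)) (h : XbSec tile Rel s B)
    (hB : Convex ℝ B) (hB' : IsOpen B) (hφ : ∀ τ z w, dist (φ τ z) (φ τ w) ≤ dist z w)
    (hφ' : ∀ z τ τ', z ∈ tile τ → z ∈ tile τ' → Rel z τ τ' → φ τ z = φ τ' z) {a b : X}
    (ha : a ∈ B) (hb : b ∈ B) {τ σ : T} (hτ : τ ∈ s a) (hσ : σ ∈ s b) :
    φ τ a ≤ φ σ b + dist a b := by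
  classical
  set ψ : X → ℝ := fun z => if e : (s z).Nonempty then φ e.some z else 0 with hψ
  have e : ∀ z ∈ B, ∀ τ ∈ s z, ψ z = φ τ z := fun z hz τ hτ => by
    have hn : (s z).Nonempty := ⟨τ, hτ⟩
    obtain ⟨h1, h2⟩ := h.cls heq hz hτ
    have h3 : hn.some ∈ {τ' | z ∈ tile τ' ∧ Rel z τ τ'} := h2 ▸ hn.some_mem
    simp only [hψ, dif_pos hn]
    exact (hφ' z _ _ h1 h3.1 h3.2).symm
  rw [← e a ha τ hτ, ← e b hb σ hσ]
  refine xb_lip hB (fun z hz => ?_) ha hb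
  filter_upwards [h.sub hz, hB'.mem_nhds hz] with y h1 hy
  obtain ⟨υ, hυ⟩ := h.nonempty heq hy
  rw [e y hy υ hυ, e z hz υ (h1 hυ)]
  exact hφ _ _ _

/-- the extension step -/
theorem XbSec.extend {r ρ : ℝ} {z₀ : X} (heq : ∀ z, Equivalence (Rel z)) (hr : 0 < r) (hρ : 0 < ρ)
    (h : XbSec tile Rel s (ball z₀ ρ))
    (hc : ∀ z ∈ ball z₀ ρ, ∃ c, XbSec tile Rel c (ball z r) ∧ c z = s z) :
    ∃ s', XbSec tile Rel s' (ball z₀ (ρ + r / 2)) ∧ s' z₀ = s z₀ := by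
  choose! c hc hc' using hc
  have hπ : ∀ w ∈ ball z₀ (ρ + r / 2), ∃ z, z ∈ ball z₀ ρ ∧ w ∈ ball z (r / 2) := fun w hw => by
    obtain ⟨y, h1, h2⟩ := exists_dist_lt_lt (x := z₀) (z := w) hρ (half_pos hr)
      (by rw [dist_comm, add_comm]; exact hw)
    exact ⟨y, mem_ball'.2 h1, mem_ball'.2 h2⟩
  choose! π hπ hπ' using hπ
  have a1 : ∀ z ∈ ball z₀ ρ, ∀ w ∈ ball z r ∩ ball z₀ ρ, c z w = s w := fun z hz =>
    (hc z hz).unique heq h ((convex_ball _ _).inter (convex_ball _ _)).isPreconnected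
      inter_subset_left inter_subset_right ⟨mem_ball_self hr, hz⟩ (hc' z hz)
  have hh : ∀ z : X, ball z (r / 2) ⊆ ball z r := fun z => ball_subset_ball (half_le_self hr.le)
  have a2 : ∀ z ∈ ball z₀ ρ, ∀ z' ∈ ball z₀ ρ, ∀ w ∈ ball z (r / 2), w ∈ ball z' (r / 2) →
      c z w = c z' w := fun z hz z' hz' w h1 h2 => by
    have h3 : z' ∈ ball z r := by
      rw [mem_ball] at h1 h2 ⊢
      linarith [dist_triangle_left z' z w]
    exact (hc z hz).unique heq (hc z' hz') ((convex_ball _ _).inter (convex_ball _ _)).isPreconnected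
      inter_subset_left inter_subset_right ⟨h3, mem_ball_self hr⟩
      ((a1 z hz z' ⟨h3, hz'⟩).trans (hc' z' hz').symm) w ⟨hh _ h1, hh _ h2⟩
  refine ⟨fun w => c (π w) w, fun w hw => ⟨(hc _ (hπ w hw) w (hh _ (hπ' w hw))).1, ?_⟩, ?_⟩
  · filter_upwards [(hc _ (hπ w hw) w (hh _ (hπ' w hw))).2, isOpen_ball.mem_nhds hw,
      isOpen_ball.mem_nhds (hπ' w hw)] with y h1 h2 h3
    rw [← h1]
    exact a2 _ (hπ y h2) _ (hπ w hw) y (hπ' y h2) h3
  · have h0 : z₀ ∈ ball z₀ (ρ + r / 2) := mem_ball_self (by positivity)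
    exact a1 _ (hπ _ h0) _ ⟨hh _ (hπ' _ h0), mem_ball_self hρ⟩

/-- sections over large balls -/
theorem xb_section {φ : T → X → ℝ} {r r₁ R : ℝ} (heq : ∀ z, Equivalence (Rel z)) (hr : 0 < r)
    (hcl : ∀ τ, IsClosed (tile τ)) (hφ : ∀ τ z w, dist (φ τ z) (φ τ w) ≤ dist z w)
    (hφ' : ∀ z τ τ', z ∈ tile τ → z ∈ tile τ' → Rel z τ τ' → φ τ z = φ τ' z)
    (hch : ∀ τ, ∀ z ∈ tile τ, r₁ ≤ φ τ z → ∃ F, τ ∈ F ∧ XbChart tile Rel F (ball z r))
    {τ₀ : T} {z₀ : X} (h₀ : z₀ ∈ tile τ₀) (hR : 0 ≤ R) (hfar : r₁ + R ≤ φ τ₀ z₀) :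
    ∃ s, XbSec tile Rel s (ball z₀ R) := by
  have main : ∀ n : ℕ, ∃ s, XbSec tile Rel s (ball z₀ (min R (n * (r / 2)) + r / 2)) ∧
      τ₀ ∈ s z₀ := fun n => by
    induction n with
    | zero =>
      obtain ⟨F, h1, h2⟩ := hch τ₀ z₀ h₀ (by linarith)
      refine ⟨_, fun z hz => h2.sec hcl z (ball_subset_ball ?_ hz), h1, h₀⟩
      have := min_le_right R ((0 : ℕ) * (r / 2))
      simp only [Nat.cast_zero, zero_mul] at this ⊢
      linarith
    | succ n ih =>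
      obtain ⟨s, h1, h2⟩ := ih
      by_cases hn : R ≤ n * (r / 2)
      · refine ⟨s, ?_, h2⟩
        rwa [min_eq_left hn, ← min_eq_left (hn.trans (show (n : ℝ) * (r / 2) ≤
          (n + 1 : ℕ) * (r / 2) by push_cast; linarith))] at h1
      have hp : 0 < min R ((n + 1 : ℕ) * (r / 2)) :=
        lt_min ((by positivity : 0 ≤ (n : ℝ) * (r / 2)).trans_lt (not_le.1 hn)) (by positivity)
      have h3 : XbSec tile Rel s (ball z₀ (min R ((n + 1 : ℕ) * (r / 2)))) := fun z hz =>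
        h1 z (ball_subset_ball (by
          rw [min_eq_right (not_le.1 hn).le]
          refine (min_le_right _ _).trans (le_of_eq ?_)
          push_cast; ring) hz)
      obtain ⟨s', h4, h5⟩ := h3.extend heq hr hp fun z hz => by
        obtain ⟨τ, hτ⟩ := h3.nonempty heq hz
        have h6 := h3.lip heq (convex_ball _ _) isOpen_ball hφ hφ' (mem_ball_self hp) hz h2 hτ
        have h7 := (mem_ball'.1 hz).trans_le (min_le_left _ _)
        obtain ⟨h8, h9⟩ := h3.cls heq hz hτ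
        obtain ⟨F, hF, hF'⟩ := hch τ z h8 (by linarith)
        exact ⟨_, hF'.sec hcl, by
          rw [h9]; exact ((hF'.sec hcl).cls heq (mem_ball_self hr) (τ := τ) ⟨hF, h8⟩).2⟩
      exact ⟨s', h4, h5 ▸ h2⟩
  obtain ⟨n, hn⟩ := exists_nat_ge (R / (r / 2))
  obtain ⟨s, h1, -⟩ := main n
  refine ⟨s, fun z hz => h1 z (ball_subset_ball ?_ hz)⟩
  rw [min_eq_left ((div_le_iff₀ (half_pos hr)).1 hn)]
  linarith

omit [NormedSpace ℝ X] in
/-- a section gives a packing that covers a smaller ball -/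
theorem XbSec.packing {z₀ : X} {R D : ℝ} (heq : ∀ z, Equivalence (Rel z))
    (h : XbSec tile Rel s (ball z₀ (R + D))) (hK : ∀ τ, IsPreconnected (tile τ))
    (hD : ∀ τ, ∀ a ∈ tile τ, ∀ b ∈ tile τ, dist a b ≤ D) (hD0 : 0 ≤ D)
    (hint : ∀ z τ τ', z ∈ interior (tile τ) → z ∈ interior (tile τ') → Rel z τ τ' →
      tile τ = tile τ') :
    ∃ S : Set T, ((tile '' S).Pairwise fun A B => Disjoint (interior A) (interior B)) ∧
      ball z₀ R ⊆ ⋃₀ (tile '' S) := by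
  have hs : ball z₀ R ⊆ ball z₀ (R + D) := ball_subset_ball (by linarith)
  have st : ∀ τ, (∃ z ∈ ball z₀ R, τ ∈ s z) → ∀ b ∈ tile τ, b ∈ ball z₀ (R + D) ∧ τ ∈ s b := by
    rintro τ ⟨z, hz, hτ⟩
    have h1 := (h.cls heq (hs hz) hτ).1
    have h2 : tile τ ⊆ ball z₀ (R + D) := fun b hb => by
      rw [mem_ball] at hz ⊢
      linarith [dist_triangle b z z₀, hD τ b hb z h1]
    exact fun b hb => ⟨h2 hb, h.stay (hK τ) h2 h1 hτ b hb⟩
  refine ⟨{τ | ∃ z ∈ ball z₀ R, τ ∈ s z}, ?_, fun z hz => ?_⟩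
  · rintro _ ⟨τ, hτ, rfl⟩ _ ⟨σ, hσ, rfl⟩ hne
    refine disjoint_left.2 fun w h1 h2 => hne (hint w τ σ h1 h2 ?_)
    obtain ⟨h3, h4⟩ := st τ hτ w (interior_subset h1)
    have h5 := (st σ hσ w (interior_subset h2)).2
    rw [(h.cls heq h3 h4).2] at h5
    exact h5.2
  · obtain ⟨τ, hτ⟩ := h.nonempty heq (hs hz)
    exact ⟨_, ⟨τ, ⟨z, hz, hτ⟩, rfl⟩, (h.cls heq (hs hz) hτ).1⟩

end

end Pool.Agent.P.MP_6145c0_co.Ng
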