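import Pool.Agent.P.MP_6145c0_co.Ng.XB1

set_option autoImplicit false

open Set Filter Metric Topology Relation

namespace Pool.Agent.P.MP_6145c0_co.Ng

variable {X T : Type*} [NormedAddCommGroup X] [NormedSpace ℝ X] [ProperSpace X]

/-- Uniform charts give a tiling; `Rel z` is any equivalence relation. For every radius `R` one may
choose its own `φ` (distance of the folded point to the singular point) and `r₁`. -/
theorem xb_tiles_rel {C : Set X} (hC : IsCompact C) (hK : IsPreconnected C) (f : T → X ≃ᵢ X)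
    (Rel : X → T → T → Prop) (heq : ∀ z, Equivalence (Rel z))
    (hint : ∀ z τ τ', z ∈ interior (f τ '' C) → z ∈ interior (f τ' '' C) → Rel z τ τ' →
      f τ '' C = f τ' '' C) {r : ℝ} (hr : 0 < r)
    (h : ∀ R : ℝ, ∃ (φ : T → X → ℝ) (r₁ : ℝ), (∀ τ z w, dist (φ τ z) (φ τ w) ≤ dist z w) ∧
      (∀ z τ τ', z ∈ f τ '' C → z ∈ f τ' '' C → Rel z τ τ' → φ τ z = φ τ' z) ∧
      (∀ τ, ∀ z ∈ f τ '' C, r₁ ≤ φ τ z →
        ∃ F, τ ∈ F ∧ XbChart (fun τ => f τ '' C) Rel F (ball z r)) ∧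
      ∃ τ, ∃ z ∈ f τ '' C, r₁ + R ≤ φ τ z) :
    ∃ P : Set (Set X), (∀ D ∈ P, ∃ g : X ≃ᵢ X, D = g '' C) ∧
      (P.Pairwise fun A B => Disjoint (interior A) (interior B)) ∧ ⋃₀ P = univ := by
  refine xa_compact hC fun R => ?_
  obtain ⟨φ, r₁, h1, h2, h3, τ₀, z₀, h4, h5⟩ := h (|R| + diam C)
  obtain ⟨s, hs⟩ := xb_section (tile := fun τ => f τ '' C) heq hr
    (fun τ => (hC.image (f τ).continuous).isClosed) h1 h2 h3 h4 (by positivity) h5
  obtain ⟨S, h6, h7⟩ := hs.packing heq (fun τ => hK.image _ (f τ).continuous.continuousOn)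
    (by
      rintro τ _ ⟨a, ha, rfl⟩ _ ⟨b, hb, rfl⟩
      rw [(f τ).dist_eq]
      exact dist_le_diam_of_mem hC.isBounded ha hb) diam_nonneg hint
  exact ⟨z₀, _, by rintro _ ⟨τ, -, rfl⟩; exact ⟨f τ, rfl⟩, h6,
    (ball_subset_ball (le_abs_self R)).trans h7⟩

/-- The chart condition in terms of an adjacency relation: near `z` the finite family `F` covers,
its tiles through a point are joined by adjacencies at that point, and it is closed under them. -/
def XbAdj (tile : T → Set X) (Adj : X → T → T → Prop) (F : Set T) (B : Set X) : Prop :=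
  F.Finite ∧ ∀ w ∈ B, (∃ σ ∈ F, w ∈ tile σ) ∧
    (∀ σ ∈ F, ∀ σ' ∈ F, w ∈ tile σ → w ∈ tile σ' → EqvGen (Adj w) σ σ') ∧
    ∀ σ σ', Adj w σ σ' → (σ ∈ F ↔ σ' ∈ F)

omit [NormedAddCommGroup X] [NormedSpace ℝ X] [ProperSpace X] in
theorem xb_eqv {A : T → T → Prop} {α : Type*} (g : T → α) (h : ∀ a b, A a b → g a = g b) {a b : T}
    (e : EqvGen A a b) : g a = g b := by
  induction e with
  | rel a b e => exact h a b e
  | refl => rfl
  | symm _ _ _ ih => exact ih.symm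
  | trans _ _ _ _ _ i j => exact i.trans j

omit [NormedSpace ℝ X] [ProperSpace X] in
set_option linter.unusedSectionVars false in
theorem XbAdj.chart {tile : T → Set X} {Adj : X → T → T → Prop} {F : Set T} {B : Set X}
    (h : XbAdj tile Adj F B) : XbChart tile (fun z => EqvGen (Adj z)) F B :=
  ⟨h.1, fun z hz => by
    obtain ⟨⟨σ, h1, h2⟩, h3, h4⟩ := h.2 z hz
    exact ⟨σ, h2, fun τ hτ => ⟨fun e => h3 σ h1 τ e h2 hτ,
      fun e => xb_eqv (· ∈ F) (fun a b e => propext (h4 a b e)) e ▸ h1⟩⟩⟩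

omit [NormedSpace ℝ X] [ProperSpace X] in
theorem xb_int {tile : T → Set X} {A : T → T → Prop} {z : X}
    (h : ∀ a b, A a b → z ∉ interior (tile a) ∧ z ∉ interior (tile b)) {a b : T}
    (e : EqvGen A a b) (ha : z ∈ interior (tile a)) : a = b := by
  classical
  have := xb_eqv (fun c => if z ∈ interior (tile c) then some c else none)
    (fun c d e => by simp only [if_neg (h c d e).1, if_neg (h c d e).2]) e
  simp only [if_pos ha] at this
  split_ifs at this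
  exact Option.some.inj this

/-- B1, singular variant: charts of radius `r` where `r₁ ≤ φ`, and far starting points. -/
theorem xb_tiles_far {C : Set X} (hC : IsCompact C) (hK : IsPreconnected C) (f : T → X ≃ᵢ X)
    (Adj : X → T → T → Prop)
    (hint : ∀ z τ σ, Adj z τ σ → z ∉ interior (f τ '' C) ∧ z ∉ interior (f σ '' C))
    (φ : T → X → ℝ) (hφ : ∀ τ z w, dist (φ τ z) (φ τ w) ≤ dist z w)
    (hφ' : ∀ z τ σ, Adj z τ σ → φ τ z = φ σ z) {r r₁ : ℝ} (hr : 0 < r)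
    (hch : ∀ τ, ∀ z ∈ f τ '' C, r₁ ≤ φ τ z →
      ∃ F, τ ∈ F ∧ XbAdj (fun τ => f τ '' C) Adj F (ball z r))
    (hfar : ∀ R : ℝ, ∃ τ, ∃ z ∈ f τ '' C, R ≤ φ τ z) :
    ∃ P : Set (Set X), (∀ D ∈ P, ∃ g : X ≃ᵢ X, D = g '' C) ∧
      (P.Pairwise fun A B => Disjoint (interior A) (interior B)) ∧ ⋃₀ P = univ :=
  xb_tiles_rel hC hK f (fun z => EqvGen (Adj z)) (fun _ => EqvGen.is_equivalence _)
    (fun z τ τ' h _ e => by rw [xb_int (tile := fun τ => f τ '' C) (hint z) e h]) hr fun R =>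
    ⟨φ, r₁, hφ, fun z _ _ _ _ e => xb_eqv (φ · z) (hφ' z) e,
      fun τ z hz h => (hch τ z hz h).imp fun _ h => ⟨h.1, h.2.chart⟩, hfar _⟩

/-- B1, regular variant: charts of radius `r` everywhere. -/
theorem xb_tiles_all [Nonempty T] {C : Set X} (hC : IsCompact C) (hK : IsConnected C)
    (f : T → X ≃ᵢ X) (Adj : X → T → T → Prop)
    (hint : ∀ z τ σ, Adj z τ σ → z ∉ interior (f τ '' C) ∧ z ∉ interior (f σ '' C))
    {r : ℝ} (hr : 0 < r)
    (hch : ∀ τ, ∀ z ∈ f τ '' C, ∃ F, τ ∈ F ∧ XbAdj (fun τ => f τ '' C) Adj F (ball z r)) :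
    ∃ P : Set (Set X), (∀ D ∈ P, ∃ g : X ≃ᵢ X, D = g '' C) ∧
      (P.Pairwise fun A B => Disjoint (interior A) (interior B)) ∧ ⋃₀ P = univ :=
  xb_tiles_rel hC hK.2 f (fun z => EqvGen (Adj z)) (fun _ => EqvGen.is_equivalence _)
    (fun z τ τ' h _ e => by rw [xb_int (tile := fun τ => f τ '' C) (hint z) e h]) hr fun R =>
    ⟨fun _ _ => 0, -R, by simp, by simp,
      fun τ z hz _ => (hch τ z hz).imp fun _ h => ⟨h.1, h.2.chart⟩,
      Classical.arbitrary T, _, mem_image_of_mem _ hK.1.some_mem, by simp⟩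

end Pool.Agent.P.MP_6145c0_co.Ng
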